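import Mathlib

set_option autoImplicit false

/-!
# Linear functionals over `F_2` used in the hard family of functions
-/

namespace Pool.Agent.Helper71.Sub

open Finset

/-- The dot product over `F_2`. -/
def dot {N : Type} [Fintype N] (v w : N → ZMod 2) : ZMod 2 := ∑ k, v k * w k

/-- The part of a row `v` supported on the `κ'` with `κ' \ Z = κ`. -/
def part {K : Type} [DecidableEq K] (v : Finset K → ZMod 2) (κ Z : Finset K) :
    Finset K → ZMod 2 :=
  fun κ' => if κ' \ Z = κ then v κ' else 0

/-- Names of linear functionals: coordinates, and parts of rows. -/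
abbrev Nm (K J : Type) := Finset K ⊕ (J × Finset K × Finset K)

/-- The functional with a given name. -/
def vec {K J : Type} [DecidableEq K] (A : J → Finset K → ZMod 2) : Nm K J → Finset K → ZMod 2
  | .inl κ => Pi.single κ 1
  | .inr (i, κ, Z) => part (A i) κ Z

/-- The two properties of the matrix of parity checks that we need. -/
def GoodCode (B : ℕ) (A : Finset (Fin (B * (B - 1))) → Finset (Fin (B * B)) → ZMod 2) : Prop :=
  (∀ w : Finset (Fin (B * B)) → ZMod 2,
      4 * (B * B + 1) * (univ.filter fun k => w k ≠ 0).card ≤ 2 ^ (B * (B - 1)) →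
      ∀ i, ¬ ∀ i', dot (A i') w = if i' = i then 1 else 0) ∧
    ∀ (i : Finset (Fin (B * (B - 1))))
      (Q : Finset (Nm (Fin (B * B)) (Finset (Fin (B * (B - 1)))))),
      Q.card ≤ 2 ^ (B * (B - 1)) → (∀ κ Z, (Sum.inr (i, κ, Z) : Nm _ _) ∉ Q) →
      ∃ y : Finset (Fin (B * B)) → ZMod 2,
        (∀ i', dot (A i') y = if i' = i then 1 else 0) ∧ ∀ nm ∈ Q, dot (vec A nm) y = 0

end Pool.Agent.Helper71.Sub
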