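import Mathlib

set_option autoImplicit false

/-!
# Sequentially based and based qcb0-spaces, and the Kleene-Kreisel spaces of countable type

Definitions used in the statement for problem MP_655036_lc.
-/

open Filter Topology TopologicalSpace Set

universe u

namespace Pool.Agent.Helper71.Qcb

/-- For a relation `c` between sequences in `X` and points of `X` (to be read: the sequence
converges to the point), `convTop c` is the topology of all sets `U` such that every sequence
which `c`-converges to a point of `U` is eventually in `U`. -/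
@[reducible] def convTop {X : Type u} (c : (ℕ → X) → X → Prop) : TopologicalSpace X where
  IsOpen U := ∀ (x : ℕ → X) (a : X), c x a → a ∈ U → ∀ᶠ n in atTop, x n ∈ U
  isOpen_univ := fun _ _ _ _ => Eventually.of_forall fun _ => mem_univ _
  isOpen_inter := fun _ _ hU hV x a hc ha => (hU x a hc ha.1).and (hV x a hc ha.2)
  isOpen_sUnion := fun _ hS x a hc ⟨U, hU, ha⟩ =>
    (hS U hU x a hc ha).mono fun _ hn => ⟨U, hU, hn⟩

/-- The sequentialisation of a topology `t`: its open sets are the sequentially open sets
of `t`. -/
@[reducible] def seqTop {X : Type u} (t : TopologicalSpace X) : TopologicalSpace X :=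
  convTop fun x a => Tendsto x atTop (@nhds X t a)

/-- The omega-Scott topology on the set `Opens X` of open subsets of `X`: a family `H` of open
sets is open iff it is upward closed and every increasing sequence of open sets whose union is
in `H` has a member in `H`. -/
@[reducible] def omegaScott (X : Type u) [TopologicalSpace X] : TopologicalSpace (Opens X) where
  IsOpen H := (∀ U V : Opens X, U ≤ V → U ∈ H → V ∈ H) ∧
    ∀ w : ℕ → Opens X, Monotone w → (⨆ n, w n) ∈ H → ∃ n, w n ∈ H
  isOpen_univ := ⟨fun _ _ _ _ => mem_univ _, fun _ _ _ => ⟨0, mem_univ _⟩⟩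
  isOpen_inter := fun _ _ hs ht => ⟨fun U V hUV hU => ⟨hs.1 U V hUV hU.1, ht.1 U V hUV hU.2⟩,
    fun w hw hwm => by
      obtain ⟨n, hn⟩ := hs.2 w hw hwm.1
      obtain ⟨m, hm⟩ := ht.2 w hw hwm.2
      exact ⟨max n m, hs.1 _ _ (hw (le_max_left _ _)) hn, ht.1 _ _ (hw (le_max_right _ _)) hm⟩⟩
  isOpen_sUnion := fun _ hS => ⟨fun U V hUV ⟨H, hH, hU⟩ => ⟨H, hH, (hS H hH).1 U V hUV hU⟩,
    fun w hw ⟨H, hH, hwm⟩ => by
      obtain ⟨n, hn⟩ := (hS H hH).2 w hw hwm
      exact ⟨n, H, hH, hn⟩⟩

/-- A qcb0-space: a T0 space which is a topological quotient of a countably based space. -/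
def IsQCB0 (X : TopCat.{0}) : Prop :=
  T0Space X ∧ ∃ W : TopCat.{0}, SecondCountableTopology W ∧ ∃ f : W → X, IsQuotientMap f

/-- A family `B` of open subsets of `X` is a sequential basis if it is a subbase of some
topology `t` on the set `X` whose sequentialisation is the topology of `X`. -/
def IsSeqBasis {X : Type u} [tX : TopologicalSpace X] (B : Set (Set X)) : Prop :=
  (∀ U ∈ B, IsOpen U) ∧ ∃ t : TopologicalSpace X, t = generateFrom B ∧ seqTop t = tX

/-- `Based Y` is the class of qcb0-spaces `X` which are `Y`-based: some map from `Y` to the set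
of open subsets of `X`, continuous for the omega-Scott topology, has as its range a basis of the
topology of `X`. -/
def Based (Y : TopCat.{1}) : Set TopCat.{0} :=
  {X | IsQCB0 X ∧ ∃ φ : Y → Opens X, Continuous[inferInstance, omegaScott X] φ ∧
    IsTopologicalBasis (range fun y => (φ y : Set X))}

/-- `SBased Y` is the class of qcb0-spaces `X` which are sequentially `Y`-based: there is a map
`φ` from `Y` to the set of open subsets of `X`, continuous for the omega-Scott topology, such
that the family of all sets `φ q ∩ ⋂ n, φ (p n)`, where the sequence `p` converges to `q` in `Y`,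
is a sequential basis of `X`. -/
def SBased (Y : TopCat.{1}) : Set TopCat.{0} :=
  {X | IsQCB0 X ∧ ∃ φ : Y → Opens X, Continuous[inferInstance, omegaScott X] φ ∧
    IsSeqBasis {B : Set X | ∃ (p : ℕ → Y) (q : Y), Tendsto p atTop (𝓝 q) ∧
      B = (φ q : Set X) ∩ ⋂ n, (φ (p n) : Set X)}}

/-- Continuous convergence of a sequence `F` of functions `Q → ℕ` to a function `f`: whenever
`x` converges to `a` in `Q`, the sequence `F n (x n)` converges to `f a` in the discrete space
`ℕ`, i.e. is eventually equal to `f a`. -/
def ContConv {Q : Type u} [TopologicalSpace Q] (F : ℕ → Q → ℕ) (f : Q → ℕ) : Prop :=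
  ∀ (x : ℕ → Q) (a : Q), Tendsto x atTop (𝓝 a) → ∀ᶠ n in atTop, F n (x n) = f a

/-- The set of all functions `f : Q → ℕ` with the property `P f`, with the topology of all sets
that are sequentially open for continuous convergence. -/
def funSpace (Q : TopCat.{1}) (P : (Q → ℕ) → Prop) : TopCat.{1} :=
  letI : TopologicalSpace {f : Q → ℕ // P f} :=
    convTop fun F f => ContConv (fun n => (F n).1) f.1
  TopCat.of {f : Q → ℕ // P f}

/-- The exponential `ω^Q` in the category of qcb0-spaces (equivalently, of sequential spaces):
the set of all continuous functions from `Q` to the discrete space `ℕ`, with the topology of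
all sets that are sequentially open for continuous convergence. -/
def expNat (Q : TopCat.{1}) : TopCat.{1} := funSpace Q fun f => Continuous f

/-- The (countable) product in the category of qcb0-spaces (equivalently, of sequential spaces):
the set-theoretic product with the sequentialisation of the product topology. -/
def seqProd {ι : Type 1} (A : ι → TopCat.{1}) : TopCat.{1} :=
  letI : TopologicalSpace (∀ i, A i) := seqTop Pi.topologicalSpace
  TopCat.of (∀ i, A i)

/-- The spaces `ℕ⟨α⟩`: `ℕ⟨0⟩` is the discrete space `ω`, `ℕ⟨β + 1⟩` is the exponential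
`ω^ℕ⟨β⟩`, and for limit `l`, `ℕ⟨l⟩` is the product of all `ℕ⟨α⟩`, `α < l`, formed in the
category of qcb0-spaces. -/
noncomputable def NN (α : Ordinal.{0}) : TopCat.{1} :=
  Ordinal.limitRecOn α (motive := fun _ => TopCat.{1})
    (TopCat.of (ULift.{1} ℕ))
    (fun _ N => expNat N)
    (fun l _ N => seqProd fun a : Iio l => N a.1 a.2)

theorem NN_zero : NN 0 = TopCat.of (ULift.{1} ℕ) :=
  Ordinal.limitRecOn_zero _ _ _

theorem NN_succ (β : Ordinal.{0}) : NN (β + 1) = expNat (NN β) :=
  Ordinal.limitRecOn_add_one _ _ _ _

theorem NN_limit (l : Ordinal.{0}) (hl : Order.IsSuccLimit l) :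
    NN l = seqProd fun a : Iio l => NN a.1 :=
  Ordinal.limitRecOn_limit _ _ _ _ hl

end Pool.Agent.Helper71.Qcb
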