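import Mathlib
import Pool.Agent.Helper71.QcbDefs

set_option autoImplicit false
set_option linter.style.haveILetI false

open Filter Topology TopologicalSpace Set

universe u v w

namespace Pool.Agent.Helper71.Qcb

theorem uniform_of_diag {P : ℕ → ℕ → Prop} (h1 : ∀ n, ∀ᶠ k in atTop, P n k)
    (h2 : ∀ N : ℕ → ℕ, Tendsto N atTop atTop → ∀ᶠ k in atTop, P (N k) k) :
    ∀ᶠ k in atTop, ∀ n, P n k := by
  classical
  by_contra hcon
  rw [not_eventually] at hcon
  let N : ℕ → ℕ := fun k => if hk : ∃ n, ¬ P n k then Classical.choose hk else k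
  have hN : Tendsto N atTop atTop := by
    rw [tendsto_atTop]
    intro B
    have hall : ∀ᶠ k in atTop, ∀ n ∈ Set.Iio B, P n k := by
      rw [Filter.eventually_all_finite (Set.finite_Iio B)]
      intro n _
      exact h1 n
    filter_upwards [hall, eventually_ge_atTop B] with k hk hkB
    by_cases hex : ∃ n, ¬ P n k
    · have hs := Classical.choose_spec hex
      simp only [N, dif_pos hex]
      by_contra hlt
      exact hs (hk _ (not_le.mp hlt))
    · simp only [N, dif_neg hex]
      exact hkB
  obtain ⟨k, hk1, hk2⟩ := (hcon.and_eventually (h2 N hN)).exists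
  rw [not_forall] at hk1
  have hs := Classical.choose_spec hk1
  have : N k = Classical.choose hk1 := by simp only [N, dif_pos hk1]
  rw [← this] at hs
  exact hs hk2

section conv

variable {X : Type u}

theorem tendsto_convTop {c : (ℕ → X) → X → Prop} {x : ℕ → X} {a : X} (h : c x a) :
    Tendsto x atTop (@nhds X (convTop c) a) := by
  letI := convTop c
  rw [tendsto_nhds]
  intro s hs ha
  exact hs x a h ha

theorem sequentialSpace_convTop (c : (ℕ → X) → X → Prop) :
    @SequentialSpace X (convTop c) := by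
  letI := convTop c
  refine ⟨fun s hs => ?_⟩
  rw [← isOpen_compl_iff]
  intro x a hc ha
  by_contra hcon
  rw [not_eventually] at hcon
  have hcon' : ∃ᶠ n in atTop, x n ∈ s := by
    refine hcon.mono ?_
    intro n hn
    simpa using hn
  obtain ⟨φ, hφ, hφs⟩ := extraction_of_frequently_atTop hcon'
  exact ha (hs hφs ((tendsto_convTop hc).comp hφ.tendsto_atTop))

theorem tendsto_seqTop_iff (t : TopologicalSpace X) (x : ℕ → X) (a : X) :
    Tendsto x atTop (@nhds X (seqTop t) a) ↔ Tendsto x atTop (@nhds X t a) := by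
  constructor
  · intro h
    rw [tendsto_nhds]
    intro s hs ha
    have hs' : IsOpen[seqTop t] s := by
      intro y b hy hb
      exact hy (@IsOpen.mem_nhds X t b s hs hb)
    exact h (@IsOpen.mem_nhds X (seqTop t) a s hs' ha)
  · intro h
    exact tendsto_convTop h

theorem sequentialSpace_seqTop (t : TopologicalSpace X) : @SequentialSpace X (seqTop t) :=
  sequentialSpace_convTop _

/-- In a sequential space, sequentially open sets are open. -/
theorem isOpen_of_seq [TopologicalSpace X] [SequentialSpace X] {U : Set X}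
    (h : ∀ (x : ℕ → X) (a : X), Tendsto x atTop (𝓝 a) → a ∈ U → ∀ᶠ n in atTop, x n ∈ U) :
    IsOpen U := by
  rw [← isClosed_compl_iff]
  apply IsSeqClosed.isClosed
  intro x a hx ha hau
  obtain ⟨n, hn⟩ := (h x a ha hau).exists
  exact hx n hn

end conv

/-- The transposition lemma: a jointly sequentially open relation gives a continuous map into
the open sets with the omega-Scott topology. -/
theorem isOpen_inter_of_joint {Y : Type v} {X : Type u} [TopologicalSpace Y]
    [TopologicalSpace X] [SequentialSpace X] (φ : Y → Opens X)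
    (h : ∀ (y : ℕ → Y) (b : Y) (x : ℕ → X) (a : X), Tendsto y atTop (𝓝 b) →
      Tendsto x atTop (𝓝 a) → a ∈ φ b → ∀ᶠ n in atTop, x n ∈ φ (y n))
    (y : ℕ → Y) (b : Y) (hy : Tendsto y atTop (𝓝 b)) (m : ℕ) :
    IsOpen ((φ b : Set X) ∩ ⋂ n, (φ (y (n + m)) : Set X)) := by
  apply isOpen_of_seq
  intro x a hx ha
  have ha1 := ha.1
  have ha2 : ∀ n, a ∈ φ (y (n + m)) := fun n => by
    have := ha.2
    rw [mem_iInter] at this
    exact this n
  have h1 : ∀ᶠ k in atTop, x k ∈ φ b :=
    h (fun _ => b) b x a tendsto_const_nhds hx ha1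
  have h2 : ∀ᶠ k in atTop, ∀ n, x k ∈ φ (y (n + m)) := by
    apply uniform_of_diag
    · intro n
      exact h (fun _ => y (n + m)) _ x a tendsto_const_nhds hx (ha2 n)
    · intro N hN
      apply h (fun k => y (N k + m)) b x a _ hx ha1
      exact hy.comp (tendsto_atTop_mono (fun k => Nat.le_add_right (N k) m) hN)
  filter_upwards [h1, h2] with k hk1 hk2
  exact ⟨hk1, mem_iInter.mpr hk2⟩

theorem continuous_omegaScott {Y : Type v} {X : Type u} [TopologicalSpace Y] [SequentialSpace Y]
    [TopologicalSpace X] [SequentialSpace X] (φ : Y → Opens X)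
    (h : ∀ (y : ℕ → Y) (b : Y) (x : ℕ → X) (a : X), Tendsto y atTop (𝓝 b) →
      Tendsto x atTop (𝓝 a) → a ∈ φ b → ∀ᶠ n in atTop, x n ∈ φ (y n)) :
    Continuous[inferInstance, omegaScott X] φ := by
  letI := omegaScott X
  rw [continuous_def]
  intro H hH
  apply isOpen_of_seq
  intro y b hy hb
  -- the increasing sequence of open sets
  let w : ℕ → Opens X := fun m => ⟨(φ b : Set X) ∩ ⋂ n, (φ (y (n + m)) : Set X),
    isOpen_inter_of_joint φ h y b hy m⟩
  have hw : Monotone w := by
    apply monotone_nat_of_le_succ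
    intro m x hx
    refine ⟨hx.1, ?_⟩
    have := hx.2
    rw [mem_iInter] at this ⊢
    intro n
    have h1 := this (n + 1)
    rwa [show n + 1 + m = n + (m + 1) by omega] at h1
  have hsup : (⨆ n, w n) = φ b := by
    apply le_antisymm
    · exact iSup_le fun n x hx => hx.1
    · intro x hx
      have h1 := h y b (fun _ => x) x hy tendsto_const_nhds hx
      rw [eventually_atTop] at h1
      obtain ⟨m, hm⟩ := h1
      rw [Opens.mem_iSup]
      refine ⟨m, hx, ?_⟩
      rw [mem_iInter]
      intro n
      exact hm (n + m) (Nat.le_add_left m n)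
  obtain ⟨m, hm⟩ := hH.2 w hw (by rw [hsup]; exact hb)
  filter_upwards [eventually_ge_atTop m] with k hk
  refine hH.1 _ _ ?_ hm
  intro x hx
  have := hx.2
  rw [mem_iInter] at this
  have := this (k - m)
  rwa [Nat.sub_add_cancel hk] at this

/-- A continuous map into the open sets with the omega-Scott topology has a jointly
sequentially open membership relation. -/
theorem joint_of_continuous {Y : Type v} {X : Type u} [TopologicalSpace Y]
    [TopologicalSpace X] (φ : Y → Opens X) (hφ : Continuous[inferInstance, omegaScott X] φ)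
    (y : ℕ → Y) (b : Y) (x : ℕ → X) (a : X) (hy : Tendsto y atTop (𝓝 b))
    (hx : Tendsto x atTop (𝓝 a)) (ha : a ∈ φ b) : ∀ᶠ n in atTop, x n ∈ φ (y n) := by
  have h1 : ∀ᶠ k in atTop, x k ∈ φ b := hx ((φ b).isOpen.mem_nhds ha)
  rw [eventually_atTop] at h1
  obtain ⟨N, hN⟩ := h1
  let H : Set (Opens X) := {V | a ∈ V ∧ ∀ k, N ≤ k → x k ∈ V}
  have hH : IsOpen[omegaScott X] H := by
    refine ⟨fun U V hUV hU => ⟨hUV hU.1, fun k hk => hUV (hU.2 k hk)⟩, ?_⟩
    intro w hw hwm
    obtain ⟨n, hn⟩ := Opens.mem_iSup.mp hwm.1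
    have h2 : ∀ᶠ k in atTop, x k ∈ w n := hx ((w n).isOpen.mem_nhds hn)
    rw [eventually_atTop] at h2
    obtain ⟨K, hK⟩ := h2
    have h3 : ∀ k, ∃ m, N ≤ k → x k ∈ w m := by
      intro k
      by_cases hk : N ≤ k
      · obtain ⟨m, hm⟩ := Opens.mem_iSup.mp (hwm.2 k hk)
        exact ⟨m, fun _ => hm⟩
      · exact ⟨0, fun h => absurd h hk⟩
    choose m hm using h3
    refine ⟨max n ((Finset.range K).sup m), hw (le_max_left _ _) hn, ?_⟩
    intro k hk
    by_cases hkK : K ≤ k
    · exact hw (le_max_left _ _) (hK k hkK)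
    · refine hw ((Finset.le_sup (f := m) (Finset.mem_range.mpr (not_le.mp hkK))).trans
        (le_max_right _ _)) (hm k hk)
  letI := omegaScott X
  have h4 : ∀ᶠ n in atTop, φ (y n) ∈ H := by
    have := hφ.isOpen_preimage H hH
    exact hy (this.mem_nhds ⟨ha, hN⟩)
  filter_upwards [h4, eventually_ge_atTop N] with n hn hnN
  exact hn.2 n hnN

theorem sequentialSpace_of_isQCB0 {X : TopCat.{0}} (h : IsQCB0 X) : SequentialSpace X := by
  obtain ⟨_, W, hW, f, hf⟩ := h
  exact hf.sequentialSpace

theorem seqTop_eq_self {X : Type u} [t : TopologicalSpace X] [SequentialSpace X] :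
    seqTop t = t := by
  ext U
  constructor
  · intro h
    exact isOpen_of_seq fun x a hx ha => h x a hx ha
  · intro h x a hx ha
    exact hx (h.mem_nhds ha)

theorem based_subset_sbased (Y : TopCat.{1}) : Based Y ⊆ SBased Y := by
  rintro X ⟨hX, φ, hφ, hb⟩
  refine ⟨hX, φ, hφ, ?_⟩
  haveI := sequentialSpace_of_isQCB0 hX
  have hopen : ∀ (p : ℕ → Y) (q : Y), Tendsto p atTop (𝓝 q) →
      IsOpen ((φ q : Set X) ∩ ⋂ n, (φ (p n) : Set X)) := by
    intro p q hp
    exact isOpen_inter_of_joint φ (joint_of_continuous φ hφ) p q hp 0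
  constructor
  · rintro U ⟨p, q, hp, rfl⟩
    exact hopen p q hp
  · refine ⟨_, rfl, ?_⟩
    have : generateFrom {B : Set X | ∃ (p : ℕ → Y) (q : Y), Tendsto p atTop (𝓝 q) ∧
      B = (φ q : Set X) ∩ ⋂ n, (φ (p n) : Set X)} = X.str := by
      apply le_antisymm
      · refine le_trans ?_ (le_of_eq hb.eq_generateFrom.symm)
        apply le_generateFrom
        rintro U ⟨y, rfl⟩
        apply isOpen_generateFrom_of_mem
        refine ⟨fun _ => y, y, tendsto_const_nhds, ?_⟩
        simp
      · apply le_generateFrom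
        rintro U ⟨p, q, hp, rfl⟩
        exact hopen p q hp
    rw [this]
    exact seqTop_eq_self

end Pool.Agent.Helper71.Qcb
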