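import Mathlib
import Pool.Agent.Helper71.QcbBasic

set_option autoImplicit false
set_option linter.style.haveILetI false

open Filter Topology TopologicalSpace Set

universe u v w v'

namespace Pool.Agent.Helper71.Qcb

/-- `A ⊆ T` is a projection of a sequentially closed subset of `Y × T`. -/
def Ana (Y : Type v) [TopologicalSpace Y] {T : Type w} [TopologicalSpace T] (A : Set T) : Prop :=
  ∃ R : Set (Y × T), IsSeqClosed R ∧ ∀ t, t ∈ A ↔ ∃ y, (y, t) ∈ R

/-- `Y` maps sequentially continuously onto `V`. -/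
def Onto (Y : Type v) [TopologicalSpace Y] (V : Type v') [TopologicalSpace V] : Prop :=
  ∃ f : Y → V, SeqContinuous f ∧ Function.Surjective f

section

variable {Y : Type v} [TopologicalSpace Y] {T : Type w} [TopologicalSpace T]
  {Y' : Type v'} [TopologicalSpace Y']

theorem Onto.refl : Onto Y Y := ⟨id, fun _ _ h => h, fun y => ⟨y, rfl⟩⟩

theorem Onto.trans {V : Type u} [TopologicalSpace V] (h1 : Onto Y Y') (h2 : Onto Y' V) :
    Onto Y V := by
  obtain ⟨f, hf, hf'⟩ := h1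
  obtain ⟨g, hg, hg'⟩ := h2
  exact ⟨g ∘ f, fun _ _ hx => hg (hf hx), hg'.comp hf'⟩

theorem Onto.prod {V : Type u} [TopologicalSpace V] {V' : Type w} [TopologicalSpace V']
    (h1 : Onto Y V) (h2 : Onto Y' V') : Onto (Y × Y') (V × V') := by
  obtain ⟨f, hf, hf'⟩ := h1
  obtain ⟨g, hg, hg'⟩ := h2
  refine ⟨fun p => (f p.1, g p.2), ?_, ?_⟩
  · intro x p hx
    rw [Prod.tendsto_iff] at hx ⊢
    exact ⟨hf hx.1, hg hx.2⟩
  · rintro ⟨a, b⟩
    obtain ⟨y, rfl⟩ := hf' a
    obtain ⟨z, rfl⟩ := hg' b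
    exact ⟨(y, z), rfl⟩

theorem Ana.of_onto (h : Onto Y Y') {A : Set T} (hA : Ana Y' A) : Ana Y A := by
  obtain ⟨f, hf, hf'⟩ := h
  obtain ⟨R, hR, hRA⟩ := hA
  refine ⟨{p | (f p.1, p.2) ∈ R}, ?_, ?_⟩
  · intro x p hx hp
    rw [Prod.tendsto_iff] at hp
    exact hR (x := fun n => (f (x n).1, (x n).2)) hx
      (Prod.tendsto_iff _ _ |>.mpr ⟨hf hp.1, hp.2⟩)
  · intro t
    rw [hRA]
    constructor
    · rintro ⟨y', hy'⟩
      obtain ⟨y, rfl⟩ := hf' y'
      exact ⟨y, hy'⟩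
    · rintro ⟨y, hy⟩
      exact ⟨f y, hy⟩

theorem Ana.of_isSeqClosed [Nonempty Y] {A : Set T} (hA : IsSeqClosed A) : Ana Y A := by
  refine ⟨{p | p.2 ∈ A}, ?_, ?_⟩
  · intro x p hx hp
    rw [Prod.tendsto_iff] at hp
    exact hA hx hp.2
  · intro t
    exact ⟨fun ht => ⟨Classical.arbitrary Y, ht⟩, fun ⟨_, h⟩ => h⟩

theorem Ana.preimage {T' : Type u} [TopologicalSpace T'] {A : Set T} (hA : Ana Y A)
    {k : T' → T} (hk : SeqContinuous k) : Ana Y (k ⁻¹' A) := by
  obtain ⟨R, hR, hRA⟩ := hA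
  refine ⟨{p | (p.1, k p.2) ∈ R}, ?_, fun t => hRA (k t)⟩
  intro x p hx hp
  rw [Prod.tendsto_iff] at hp
  exact hR (x := fun n => ((x n).1, k (x n).2)) hx
      (Prod.tendsto_iff _ _ |>.mpr ⟨hp.1, hk hp.2⟩)

theorem Ana.iUnion (h : Onto Y (ℕ × Y)) {A : ℕ → Set T} (hA : ∀ n, Ana Y (A n)) :
    Ana Y (⋃ n, A n) := by
  obtain ⟨f, hf, hf'⟩ := h
  choose R hR hRA using hA
  refine ⟨{p | ((f p.1).2, p.2) ∈ R (f p.1).1}, ?_, ?_⟩
  · intro x p hx hp
    rw [Prod.tendsto_iff] at hp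
    have h1 := hf hp.1
    rw [Prod.tendsto_iff] at h1
    have h2 : ∀ᶠ n in atTop, (f (x n).1).1 = (f p.1).1 := by
      have := h1.1
      rw [nhds_discrete, tendsto_pure] at this
      exact this
    obtain ⟨N, hN⟩ := eventually_atTop.mp h2
    refine hR _ (x := fun n => ((f (x (n + N)).1).2, (x (n + N)).2)) ?_ ?_
    · intro n
      have h3 := hx (n + N)
      simp only [mem_ofPred_eq] at h3
      rwa [hN (n + N) (Nat.le_add_left N n)] at h3
    · rw [Prod.tendsto_iff]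
      exact ⟨h1.2.comp (tendsto_add_atTop_nat N), hp.2.comp (tendsto_add_atTop_nat N)⟩
  · intro t
    rw [mem_iUnion]
    constructor
    · rintro ⟨n, hn⟩
      obtain ⟨y, hy⟩ := (hRA n t).mp hn
      obtain ⟨y', hy'⟩ := hf' (n, y)
      refine ⟨y', ?_⟩
      simp only [mem_ofPred_eq, hy']
      exact hy
    · rintro ⟨y, hy⟩
      exact ⟨_, (hRA _ t).mpr ⟨_, hy⟩⟩

theorem Ana.iInter (h : Onto Y (ℕ → Y)) {A : ℕ → Set T} (hA : ∀ n, Ana Y (A n)) :
    Ana Y (⋂ n, A n) := by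
  obtain ⟨f, hf, hf'⟩ := h
  choose R hR hRA using hA
  refine ⟨{p | ∀ n, (f p.1 n, p.2) ∈ R n}, ?_, ?_⟩
  · intro x p hx hp n
    rw [Prod.tendsto_iff] at hp
    have h1 := tendsto_pi_nhds.mp (hf hp.1) n
    exact hR n (x := fun k => (f (x k).1 n, (x k).2)) (fun k => hx k n)
      (Prod.tendsto_iff _ _ |>.mpr ⟨h1, hp.2⟩)
  · intro t
    rw [mem_iInter]
    constructor
    · intro ht
      choose y hy using fun n => (hRA n t).mp (ht n)
      obtain ⟨y', hy'⟩ := hf' y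
      refine ⟨y', fun n => ?_⟩
      rw [hy']
      exact hy n
    · rintro ⟨y, hy⟩ n
      exact (hRA n t).mpr ⟨_, hy n⟩

/-- projection along a space onto which `Y` maps -/
theorem Ana.exists {V : Type v'} [TopologicalSpace V] (h : Onto Y (V × Y)) {A : Set (V × T)}
    (hA : Ana Y A) : Ana Y {t | ∃ v, (v, t) ∈ A} := by
  obtain ⟨f, hf, hf'⟩ := h
  obtain ⟨R, hR, hRA⟩ := hA
  refine ⟨{p | ((f p.1).2, ((f p.1).1, p.2)) ∈ R}, ?_, ?_⟩
  · intro x p hx hp
    rw [Prod.tendsto_iff] at hp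
    have h1 := hf hp.1
    rw [Prod.tendsto_iff] at h1
    exact hR (x := fun k => ((f (x k).1).2, ((f (x k).1).1, (x k).2))) hx
      (Prod.tendsto_iff _ _ |>.mpr ⟨h1.2, Prod.tendsto_iff _ _ |>.mpr ⟨h1.1, hp.2⟩⟩)
  · intro t
    constructor
    · rintro ⟨v, hv⟩
      obtain ⟨y, hy⟩ := (hRA _).mp hv
      obtain ⟨y', hy'⟩ := hf' (v, y)
      refine ⟨y', ?_⟩
      simp only [mem_ofPred_eq, hy']
      exact hy
    · rintro ⟨y, hy⟩
      exact ⟨_, (hRA _).mpr ⟨_, hy⟩⟩

theorem isSeqClosed_empty' : IsSeqClosed (∅ : Set T) := fun _ _ h _ => h 0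

theorem Ana.iUnion' {ι : Type u} [Encodable ι] [Nonempty Y] (h : Onto Y (ℕ × Y)) {A : ι → Set T}
    (hA : ∀ n, Ana Y (A n)) : Ana Y (⋃ n, A n) := by
  have h1 : (⋃ n, A n) = ⋃ m : ℕ, (match (Encodable.decode m : Option ι) with
      | none => ∅
      | some i => A i : Set T) := by
    ext t
    simp only [mem_iUnion]
    constructor
    · rintro ⟨i, hi⟩
      refine ⟨Encodable.encode i, ?_⟩
      simpa [Encodable.encodek] using hi
    · rintro ⟨m, hm⟩
      rcases hd : (Encodable.decode m : Option ι) with _ | i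
      · simp [hd] at hm
      · exact ⟨i, by simpa [hd] using hm⟩
  rw [h1]
  apply Ana.iUnion h
  intro m
  rcases (Encodable.decode m : Option ι) with _ | i
  · exact Ana.of_isSeqClosed isSeqClosed_empty'
  · exact hA i

theorem Ana.union [Nonempty Y] (h : Onto Y (ℕ × Y)) {A B : Set T}
    (hA : Ana Y A) (hB : Ana Y B) : Ana Y (A ∪ B) := by
  have h1 : A ∪ B = ⋃ b : Bool, cond b A B := by
    rw [union_eq_iUnion]
  rw [h1]
  apply Ana.iUnion' h
  intro b
  cases b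
  · exact hB
  · exact hA

theorem Ana.iInter' {ι : Type u} [Encodable ι] [Nonempty Y] (h : Onto Y (ℕ → Y)) {A : ι → Set T}
    (hA : ∀ n, Ana Y (A n)) : Ana Y (⋂ n, A n) := by
  have h1 : (⋂ n, A n) = ⋂ m : ℕ, (match (Encodable.decode m : Option ι) with
      | none => univ
      | some i => A i : Set T) := by
    ext t
    simp only [mem_iInter]
    constructor
    · intro hi m
      rcases hd : (Encodable.decode m : Option ι) with _ | i
      · simp
      · simpa [hd] using hi i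
    · intro hm i
      have := hm (Encodable.encode i)
      simpa [Encodable.encodek] using this
  rw [h1]
  apply Ana.iInter h
  intro m
  rcases (Encodable.decode m : Option ι) with _ | i
  · exact Ana.of_isSeqClosed fun _ _ _ _ => mem_univ _
  · exact hA i

theorem Ana.inter [Nonempty Y] (h : Onto Y (ℕ → Y)) {A B : Set T}
    (hA : Ana Y A) (hB : Ana Y B) : Ana Y (A ∩ B) := by
  have h1 : A ∩ B = ⋂ b : Bool, cond b A B := by
    rw [inter_eq_iInter]
  rw [h1]
  apply Ana.iInter' h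
  intro b
  cases b
  · exact hB
  · exact hA

end

end Pool.Agent.Helper71.Qcb
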