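import Mathlib
import Pool.Agent.Helper71.QcbAna

set_option autoImplicit false
set_option linter.style.haveILetI false

open Filter Topology TopologicalSpace Set

universe u v w

namespace Pool.Agent.Helper71.Qcb

/-- nodes of the tree -/
abbrev Nd : Type := List (Bool × Bool)

/-- the node `i` extends the first `n` entries of `z` -/
def Near (z : ℕ → Bool × Bool) (n : ℕ) (i : Nd) : Prop := ∀ k < n, i[k]? = some (z k)

theorem Near.mono {z : ℕ → Bool × Bool} {n m : ℕ} {i : Nd} (h : Near z n i) (hm : m ≤ n) :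
    Near z m i := fun k hk => h k (lt_of_lt_of_le hk hm)

theorem Near.length {z : ℕ → Bool × Bool} {n : ℕ} {i : Nd} (h : Near z n i) : n ≤ i.length := by
  by_contra hlt
  rw [not_le] at hlt
  have := h i.length hlt
  simp at this

/-- The countable space: nodes are isolated, and the neighbourhoods of the extra point `none`
contain all nodes near each point of `Z`. -/
@[reducible] def topZ (Z : Set (ℕ → Bool × Bool)) : TopologicalSpace (Option Nd) where
  IsOpen U := none ∈ U → ∀ z ∈ Z, ∃ n, ∀ i, Near z n i → some i ∈ U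
  isOpen_univ := fun _ _ _ => ⟨0, fun _ _ => mem_univ _⟩
  isOpen_inter := fun U V hU hV hn z hz => by
    obtain ⟨n, hn1⟩ := hU hn.1 z hz
    obtain ⟨m, hm1⟩ := hV hn.2 z hz
    exact ⟨max n m, fun i hi => ⟨hn1 i (hi.mono (le_max_left _ _)),
      hm1 i (hi.mono (le_max_right _ _))⟩⟩
  isOpen_sUnion := fun S hS ⟨U, hU, hn⟩ z hz => by
    obtain ⟨n, hn1⟩ := hS U hU hn z hz
    exact ⟨n, fun i hi => ⟨U, hU, hn1 i hi⟩⟩

/-- The space `XZ Z`, bundled. -/
def XZ (Z : Set (ℕ → Bool × Bool)) : TopCat.{0} :=
  letI := topZ Z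
  TopCat.of (Option Nd)

section basic

variable {Z : Set (ℕ → Bool × Bool)}

theorem isOpen_singleton_some (i : Nd) : IsOpen[topZ Z] ({some i} : Set (Option Nd)) := by
  intro h
  simp at h

theorem isOpen_compl_singleton_some (i : Nd) :
    IsOpen[topZ Z] ({some i}ᶜ : Set (Option Nd)) := by
  intro _ z _
  refine ⟨i.length + 1, fun j hj hji => ?_⟩
  have := hj.length
  simp only [mem_singleton_iff, Option.some.injEq] at hji
  subst hji
  omega

theorem isOpen_length (L : ℕ) :
    IsOpen[topZ Z] ({x | ∀ i, x = some i → L ≤ i.length} : Set (Option Nd)) := by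
  intro _ z _
  refine ⟨L, fun j hj i hi => ?_⟩
  have := hj.length
  simp only [Option.some.injEq] at hi
  subst hi
  exact this

/-- A sequence of nodes near `z ∈ Z` converges to `none`. -/
theorem tendsto_of_near {z : ℕ → Bool × Bool} (hz : z ∈ Z) (i : ℕ → Nd)
    (hi : ∀ n, ∀ᶠ k in atTop, Near z n (i k)) :
    Tendsto (fun k => some (i k)) atTop (@nhds _ (topZ Z) none) := by
  letI := topZ Z
  rw [tendsto_nhds]
  intro U hU hn
  obtain ⟨n, hn1⟩ := hU hn z hz
  filter_upwards [hi n] with k hk
  exact hn1 _ hk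

theorem sequentialSpace_topZ : @SequentialSpace _ (topZ Z) := by
  letI := topZ Z
  refine ⟨fun s hs => ?_⟩
  rw [← isOpen_compl_iff]
  intro hn z hz
  by_contra hcon
  push Not at hcon
  choose i hi1 hi2 using hcon
  apply hn
  have h1 : Tendsto (fun k => some (i k)) atTop (𝓝 none) :=
    tendsto_of_near hz i fun n => (eventually_ge_atTop n).mono fun k hk => (hi1 k).mono hk
  refine hs (x := fun k => some (i k)) ?_ h1
  intro k
  have := hi2 k
  simpa using this

theorem mem_of_cluster {z : ℕ → Bool × Bool} (i : ℕ → Nd)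
    (h1 : Tendsto (fun k => some (i k)) atTop (@nhds _ (topZ Z) none))
    (hi : ∀ n, ∀ᶠ k in atTop, Near z n (i k)) : z ∈ Z := by
  by_contra hz
  letI := topZ Z
  have hA : IsOpen[topZ Z] ({x | ∀ k, x ≠ some (i k)} : Set (Option Nd)) := by
    intro _ z' hz'
    have hne : z' ≠ z := fun h => hz (h ▸ hz')
    obtain ⟨m, hm⟩ := Function.ne_iff.mp hne
    obtain ⟨K, hK⟩ := eventually_atTop.mp (hi (m + 1))
    refine ⟨max (m + 1) ((Finset.range K).sup (fun k => (i k).length + 1)), ?_⟩
    intro j hj k hjk
    simp only [Option.some.injEq] at hjk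
    subst hjk
    by_cases hk : K ≤ k
    · have e1 := hK k hk m (Nat.lt_succ_self m)
      have e2 := hj m (lt_of_lt_of_le (Nat.lt_succ_self m) (le_max_left _ _))
      rw [e1] at e2
      simp only [Option.some.injEq] at e2
      exact hm e2.symm
    · have e1 := (Finset.le_sup (f := fun k => (i k).length + 1)
        (Finset.mem_range.mpr (not_le.mp hk))).trans ((le_max_right (m+1) _).trans hj.length)
      omega
  have h2 : ∀ᶠ k in atTop, some (i k) ∈ ({x | ∀ k, x ≠ some (i k)} : Set (Option Nd)) :=
    h1 (hA.mem_nhds (by intro k; simp))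
  obtain ⟨k, hk⟩ := h2.exists
  exact hk k rfl

theorem isQCB0_XZ (hZ : Z.Nonempty) : IsQCB0 (XZ Z) := by
  classical
  constructor
  · letI := topZ Z
    change T0Space (Option Nd)
    constructor
    intro x y hxy
    by_contra hne
    rw [inseparable_iff_forall_isOpen] at hxy
    rcases x with _ | i
    · rcases y with _ | j
      · exact hne rfl
      · have := (hxy _ (isOpen_singleton_some j)).mpr rfl
        simp at this
    · have := (hxy _ (isOpen_singleton_some i)).mp rfl
      exact hne (by simpa using this.symm)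
  · letI : TopologicalSpace (Option (Bool × Bool)) := ⊥
    haveI : DiscreteTopology (Option (Bool × Bool)) := ⟨rfl⟩
    let P : (ℕ → Option (Bool × Bool)) → Prop := fun w =>
      (∃ i : Nd, ∀ k, w k = i[k]?) ∨ ∃ z ∈ Z, ∀ k, w k = some (z k)
    letI := topZ Z
    let f : {w // P w} → Option Nd := fun w =>
      if h : ∃ i : Nd, ∀ k, w.1 k = i[k]? then some (Classical.choose h) else none
    have hfi : ∀ (i : Nd) (w : {w // P w}), (∀ k, w.1 k = i[k]?) → f w = some i := by
      intro i w hw
      have hex : ∃ i : Nd, ∀ k, w.1 k = i[k]? := ⟨i, hw⟩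
      have hs := Classical.choose_spec hex
      simp only [f, dif_pos hex, Option.some.injEq]
      apply List.ext_getElem?
      intro k
      rw [← hs k, hw k]
    have hfz : ∀ (z : ℕ → Bool × Bool) (w : {w // P w}), (∀ k, w.1 k = some (z k)) →
        f w = none := by
      intro z w hw
      have hex : ¬ ∃ i : Nd, ∀ k, w.1 k = i[k]? := by
        rintro ⟨i, hi⟩
        have := hi i.length
        rw [hw] at this
        simp at this
      simp only [f, dif_neg hex]
    refine ⟨TopCat.of {w // P w}, inferInstanceAs (SecondCountableTopology ({w | P w} : Set _)), f, ?_⟩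
    change IsQuotientMap f
    refine ⟨?_, ?_⟩
    rotate_left
    · intro x
      rcases x with _ | i
      · obtain ⟨z, hz⟩ := hZ
        exact ⟨⟨fun k => some (z k), Or.inr ⟨z, hz, fun _ => rfl⟩⟩, hfz z _ fun _ => rfl⟩
      · exact ⟨⟨fun k => i[k]?, Or.inl ⟨i, fun _ => rfl⟩⟩, hfi i _ fun _ => rfl⟩
    · rw [isCoinducing_iff]
      intro U
      symm
      constructor
      · intro hU
        apply isOpen_of_seq
        intro w a hw ha
        have hw' : ∀ N, ∀ᶠ n in atTop, ∀ k < N, (w n).1 k = a.1 k := by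
          intro N
          have h1 : ∀ k ∈ Set.Iio N, ∀ᶠ n in atTop, (w n).1 k = a.1 k := by
            intro k _
            have h2 : Tendsto (fun n => (w n).1 k) atTop (𝓝 (a.1 k)) :=
              (tendsto_pi_nhds.mp (tendsto_subtype_rng.mp hw)) k
            rw [nhds_discrete, tendsto_pure] at h2
            exact h2
          exact (Filter.eventually_all_finite (Set.finite_Iio N)).mpr h1
        rcases a.2 with ⟨i, hi⟩ | ⟨z, hz, hzk⟩
        · filter_upwards [hw' (i.length + 1)] with n hn
          have h3 : (w n).1 = a.1 := by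
            rcases (w n).2 with ⟨j, hj⟩ | ⟨z', hz', hzk'⟩
            · have hlen : j.length ≤ i.length := by
                have := hn i.length (Nat.lt_succ_self _)
                rw [hj, hi] at this
                simpa using this
              funext k
              by_cases hk : k < i.length + 1
              · exact hn k hk
              · rw [hj, hi, List.getElem?_eq_none (by omega), List.getElem?_eq_none (by omega)]
            · have := hn i.length (Nat.lt_succ_self _)
              rw [hzk', hi] at this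
              simp at this
          have h4 : w n = a := Subtype.ext h3
          rw [h4]
          exact ha
        · have hn0 : (none : Option Nd) ∈ U := by
            have : f a = none := hfz z a hzk
            rw [← this]
            exact ha
          obtain ⟨N, hN⟩ := hU hn0 z hz
          filter_upwards [hw' N] with n hn
          change f (w n) ∈ U
          rcases (w n).2 with ⟨j, hj⟩ | ⟨z', hz', hzk'⟩
          · rw [hfi j _ hj]
            apply hN
            intro k hk
            rw [← hj, hn k hk, hzk]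
          · rw [hfz z' _ hzk']
            exact hn0
      · intro hU hn0 z hz
        by_contra hcon
        push Not at hcon
        choose i hi1 hi2 using hcon
        let w : ℕ → {w // P w} := fun n => ⟨fun k => (i n)[k]?, Or.inl ⟨i n, fun _ => rfl⟩⟩
        let a : {w // P w} := ⟨fun k => some (z k), Or.inr ⟨z, hz, fun _ => rfl⟩⟩
        have hwa : Tendsto w atTop (𝓝 a) := by
          rw [tendsto_subtype_rng, tendsto_pi_nhds]
          intro k
          rw [nhds_discrete, tendsto_pure]
          filter_upwards [eventually_gt_atTop k] with n hn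
          exact hi1 n k hn
        have haU : a ∈ f ⁻¹' U := by
          change f a ∈ U
          rw [hfz z a fun _ => rfl]
          exact hn0
        have h9 : ∀ᶠ n in atTop, w n ∈ f ⁻¹' U := hwa (hU.mem_nhds haU)
        obtain ⟨n, hn⟩ := h9.exists
        apply hi2 n
        have h5 : f (w n) ∈ U := hn
        rwa [hfi (i n) (w n) fun _ => rfl] at h5

end basic

section diag

/-- the list of the first `n` values of `b` -/
def pre (b : ℕ → Bool) (n : ℕ) : List Bool := (List.range n).map b

theorem pre_eq_iff {b b' : ℕ → Bool} {n : ℕ} : pre b n = pre b' n ↔ ∀ k < n, b k = b' k := by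
  simp [pre]

/-- The code `c` declares that the `x`-th open set contains the name `b`. -/
def InO (c : ℕ → Bool) (x : Option Nd) (b : ℕ → Bool) : Prop :=
  ∃ n, c (Encodable.encode ((x, pre b n) : Option Nd × List Bool)) = true

/-- the node `i` lies over `c` -/
def Over (c : ℕ → Bool) (i : Nd) : Prop := ∀ k p, i[k]? = some p → p.1 = c k

/-- The set of good points used in the diagonal argument. -/
def Zset (D : Set (ℕ → Bool)) : Set (ℕ → Bool × Bool) :=
  {z | (fun k => (z k).2) ∈ D ∧ InO (fun k => (z k).1) none (fun k => (z k).2) ∧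
    ∀ i : Nd, Over (fun k => (z k).1) i → ¬ InO (fun k => (z k).1) (some i) (fun k => (z k).2)}

theorem not_based {Y : TopCat.{1}} {D : Set (ℕ → Bool)} (δ : (ℕ → Bool) → Y)
    (hδ : ∀ (b : ℕ → ℕ → Bool) (a : ℕ → Bool), (∀ n, b n ∈ D) → a ∈ D → Tendsto b atTop (𝓝 a) →
      Tendsto (fun n => δ (b n)) atTop (𝓝 (δ a)))
    (hsurj : ∀ y, ∃ b ∈ D, δ b = y) : XZ (Zset D) ∉ Based Y := by
  classical
  rintro ⟨-, φ, hφ, hbasis⟩
  letI := topZ (Zset D)
  change Y → Opens (Option Nd) at φ
  -- pointwise openness
  have hopen : ∀ (x : Option Nd), IsOpen {y | x ∈ φ y} := by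
    intro x
    have h1 : IsOpen[omegaScott (Option Nd)] {U : Opens (Option Nd) | x ∈ U} := by
      refine ⟨fun U V hUV hU => hUV hU, fun w _ hw => ?_⟩
      exact Opens.mem_iSup.mp hw
    exact @Continuous.isOpen_preimage _ _ _ (omegaScott (Option Nd)) φ hφ _ h1
  -- a code for `φ`
  let c : ℕ → Bool := fun m => decide (∃ (x : Option Nd) (s : List Bool),
    Encodable.encode ((x, s) : Option Nd × List Bool) = m ∧
      ∀ b ∈ D, pre b s.length = s → x ∈ φ (δ b))
  have hc : ∀ (x : Option Nd) (b : ℕ → Bool), b ∈ D → (InO c x b ↔ x ∈ φ (δ b)) := by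
    intro x b hb
    constructor
    · rintro ⟨n, hn⟩
      simp only [c, decide_eq_true_eq] at hn
      obtain ⟨x', s, hxs, h⟩ := hn
      have := Encodable.encode_injective hxs
      simp only [Prod.mk.injEq] at this
      obtain ⟨rfl, rfl⟩ := this
      apply h b hb
      simp [pre]
    · intro hx
      by_contra hcon
      have h1 : ∀ n, ∃ b' ∈ D, pre b' n = pre b n ∧ x ∉ φ (δ b') := by
        intro n
        by_contra hno
        push Not at hno
        apply hcon
        refine ⟨n, ?_⟩
        simp only [c, decide_eq_true_eq]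
        refine ⟨x, pre b n, rfl, ?_⟩
        intro b' hb' hpre
        apply hno b' hb'
        simpa [pre] using hpre
      choose b' hb'D hb' hb'x using h1
      have h2 : Tendsto b' atTop (𝓝 b) := by
        rw [tendsto_pi_nhds]
        intro k
        rw [nhds_discrete, tendsto_pure]
        filter_upwards [eventually_gt_atTop k] with n hn
        exact pre_eq_iff.mp (hb' n) k hn
      have h3 := hδ b' b hb'D hb h2
      have h4 : ∀ᶠ n in atTop, δ (b' n) ∈ {y | x ∈ φ y} := h3 ((hopen x).mem_nhds hx)
      obtain ⟨n, hn⟩ := h4.exists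
      exact hb'x n hn
  by_cases hex : ∃ b ∈ D, (fun k => (c k, b k)) ∈ Zset D
  · obtain ⟨b, hb, hz⟩ := hex
    have hn0 : none ∈ φ (δ b) := (hc none b hb).mp hz.2.1
    obtain ⟨n, hn⟩ := (φ (δ b)).isOpen hn0 _ hz
    have hnear : Near (fun k => (c k, b k)) n ((List.range n).map fun k => (c k, b k)) := by
      intro k hk
      simp [hk]
    have hover : Over c ((List.range n).map fun k => (c k, b k)) := by
      intro k p hp
      rw [List.getElem?_map] at hp
      by_cases hk : k < n
      · simp [hk] at hp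
        rw [← hp]
      · simp [hk] at hp
    exact hz.2.2 _ hover ((hc _ b hb).mpr (hn _ hnear))
  · push Not at hex
    have hA : IsOpen ({x | ∀ i, x = some i → ¬ Over c i} : Set (Option Nd)) := by
      intro _ z' hz'
      have hne : (fun k => (z' k).1) ≠ c := by
        intro heq
        apply hex (fun k => (z' k).2) hz'.1
        have : (fun k => (c k, (z' k).2)) = z' := by
          funext k
          rw [← heq]
        rw [this]
        exact hz'
      obtain ⟨m, hm⟩ := Function.ne_iff.mp hne
      refine ⟨m + 1, fun i hi j hij hover => ?_⟩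
      simp only [Option.some.injEq] at hij
      subst hij
      exact hm (hover m _ (hi m (Nat.lt_succ_self m)))
    obtain ⟨V, ⟨y, rfl⟩, hV1, hV2⟩ := hbasis.exists_subset_of_mem_open
      (show (none : Option Nd) ∈ ({x | ∀ i, x = some i → ¬ Over c i} : Set (Option Nd)) by
        intro i hi; simp at hi) hA
    obtain ⟨b, hb, rfl⟩ := hsurj y
    apply hex b hb
    refine ⟨hb, (hc none b hb).mpr hV1, fun i hi hin => ?_⟩
    exact hV2 ((hc _ b hb).mp hin) i rfl hi

end diag

section embed

theorem eventually_agree {E : Type u} [TopologicalSpace E] [DiscreteTopology E]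
    {x : ℕ → ℕ → E} {a : ℕ → E} (h : Tendsto x atTop (𝓝 a)) (N : ℕ) :
    ∀ᶠ n in atTop, ∀ k < N, x n k = a k := by
  have h1 : ∀ k ∈ Set.Iio N, ∀ᶠ n in atTop, x n k = a k := by
    intro k _
    have h2 := (tendsto_pi_nhds.mp h) k
    rw [nhds_discrete, tendsto_pure] at h2
    exact h2
  exact (Filter.eventually_all_finite (Set.finite_Iio N)).mpr h1

/-- compatibility of a node with a point up to a slowly growing precision -/
def Comp (g : ℕ → ℕ) (i : Nd) (z : ℕ → Bool × Bool) : Prop :=
  ∀ k p, i[k]? = some p → (∀ l ≤ k, g l ≤ Encodable.encode i) → z k = p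

variable {Y : Type v} [TopologicalSpace Y] {R : Set (Y × (ℕ → Bool × Bool))}

/-- the bad pairs for the node `i` -/
def Bad (R : Set (Y × (ℕ → Bool × Bool))) (i : Nd) : Set (Y × (ℕ → ℕ)) :=
  {q | ∃ z, (q.1, z) ∈ R ∧ Comp q.2 i z}

theorem bad_closed (hR : IsSeqClosed R) (i : Nd) {u : ℕ → Y} {g : ℕ → ℕ → ℕ} {u0 : Y}
    {g0 : ℕ → ℕ} (hu : Tendsto u atTop (𝓝 u0)) (hg : Tendsto g atTop (𝓝 g0))
    (h : ∃ᶠ k in atTop, (u k, g k) ∈ Bad R i) : (u0, g0) ∈ Bad R i := by
  obtain ⟨κ, hκ, hκb⟩ := extraction_of_frequently_atTop h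
  choose z hz1 hz2 using hκb
  obtain ⟨z0, μ, hμ, hz0⟩ := CompactSpace.tendsto_subseq z
  refine ⟨z0, ?_, ?_⟩
  · refine hR (x := fun n => (u (κ (μ n)), z (μ n))) (fun n => hz1 (μ n)) ?_
    rw [Prod.tendsto_iff]
    exact ⟨hu.comp (hκ.tendsto_atTop.comp hμ.tendsto_atTop), hz0⟩
  · intro k p hp hgl
    have h1 := eventually_agree hz0 (k + 1)
    have h2 := eventually_agree (hg.comp (hκ.tendsto_atTop.comp hμ.tendsto_atTop)) (k + 1)
    obtain ⟨n, hn1, hn2⟩ := (h1.and h2).exists
    have h3 := hz2 (μ n) k p hp (fun l hl => by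
      have := hn2 l (Nat.lt_succ_of_le hl)
      simp only [Function.comp_apply] at this
      simp only
      rw [this]
      exact hgl l hl)
    have h4 := hn1 k (Nat.lt_succ_self k)
    simp only [Function.comp_apply] at h4
    rw [← h4]
    exact h3

theorem near_of_comp {g : ℕ → ℕ → ℕ} {g0 : ℕ → ℕ} (hg : Tendsto g atTop (𝓝 g0))
    {z : ℕ → ℕ → Bool × Bool} {z0 : ℕ → Bool × Bool} (hz : Tendsto z atTop (𝓝 z0))
    (i : ℕ → Nd) (hi1 : ∀ L, ∀ᶠ k in atTop, L ≤ (i k).length)
    (hi2 : ∀ L, ∀ᶠ k in atTop, L ≤ Encodable.encode (i k))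
    (hc : ∀ k, Comp (g k) (i k) (z k)) (n : ℕ) : ∀ᶠ k in atTop, Near z0 n (i k) := by
  filter_upwards [hi1 n, hi2 ((Finset.range n).sup g0), eventually_agree hg n,
    eventually_agree hz n] with k h1 h2 h3 h4
  intro m hm
  have hlt : m < (i k).length := lt_of_lt_of_le hm h1
  rw [List.getElem?_eq_getElem hlt, Option.some.injEq]
  symm
  rw [← h4 m hm]
  apply hc k m _ (List.getElem?_eq_getElem hlt)
  intro l hl
  rw [h3 l (lt_of_le_of_lt hl hm)]
  exact (Finset.le_sup (f := g0) (Finset.mem_range.mpr (lt_of_le_of_lt hl hm))).trans h2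

theorem eventually_encode {i : ℕ → Nd}
    (h : ∀ j : Nd, ∀ᶠ k in atTop, i k ≠ j) (L : ℕ) :
    ∀ᶠ k in atTop, L ≤ Encodable.encode (i k) := by
  have hfin : ({j : Nd | Encodable.encode j < L}).Finite := by
    apply Set.Finite.preimage (Encodable.encode_injective.injOn) (Set.finite_Iio L)
  have h1 := (Filter.eventually_all_finite hfin).mpr (fun j _ => h j)
  filter_upwards [h1] with k hk
  by_contra hlt
  exact hk (i k) (not_le.mp hlt) rfl

theorem eventually_length {i : ℕ → Nd}
    (h : ∀ j : Nd, ∀ᶠ k in atTop, i k ≠ j) (L : ℕ) :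
    ∀ᶠ k in atTop, L ≤ (i k).length := by
  have hfin : ({j : Nd | j.length < L}).Finite := List.finite_length_lt _ _
  have h1 := (Filter.eventually_all_finite hfin).mpr (fun j _ => h j)
  filter_upwards [h1] with k hk
  by_contra hlt
  exact hk (i k) (not_le.mp hlt) rfl

/-- the set of points of the countable space selected by a test -/
def TestSet (R : Set (Y × (ℕ → Bool × Bool))) (m : Option (Option (Nd ⊕ Nd)))
    (q : Y × (ℕ → ℕ)) : Set (Option Nd) :=
  match m with
  | none => univ
  | some none => {x | ∀ i, x = some i → q ∉ Bad R i}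
  | some (some (Sum.inl i)) => {some i}ᶜ
  | some (some (Sum.inr i)) => {some i}

theorem testSet_joint (hR : IsSeqClosed R) {Z : Set (ℕ → Bool × Bool)}
    (hZ : ∀ z, z ∉ Z ↔ ∃ y, (y, z) ∈ R) (m : Option (Option (Nd ⊕ Nd)))
    {u : ℕ → Y} {g : ℕ → ℕ → ℕ} {u0 : Y} {g0 : ℕ → ℕ} (hu : Tendsto u atTop (𝓝 u0))
    (hg : Tendsto g atTop (𝓝 g0)) {x : ℕ → Option Nd} {a : Option Nd}
    (hx : Tendsto x atTop (@nhds _ (topZ Z) a)) (ha : a ∈ TestSet R m (u0, g0)) :
    ∀ᶠ k in atTop, x k ∈ TestSet R m (u k, g k) := by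
  letI := topZ Z
  rcases m with _ | _ | i | i
  · exact Eventually.of_forall fun _ => mem_univ _
  · by_contra hcon
    rw [not_eventually] at hcon
    obtain ⟨κ, hκ, hκb⟩ := extraction_of_frequently_atTop hcon
    have h1 : ∀ n, ∃ i, x (κ n) = some i ∧ (u (κ n), g (κ n)) ∈ Bad R i := by
      intro n
      have := hκb n
      simp only [TestSet, mem_ofPred_eq, not_forall, not_not] at this
      obtain ⟨i, hi1, hi2⟩ := this
      exact ⟨i, hi1, hi2⟩
    choose i hi1 hi2 using h1
    have hxκ : Tendsto (fun n => some (i n)) atTop (𝓝 a) := by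
      have := hx.comp hκ.tendsto_atTop
      refine this.congr fun n => ?_
      exact hi1 n
    rcases a with _ | j
    · have h2 : ∀ j : Nd, ∀ᶠ k in atTop, i k ≠ j := by
        intro j
        have h3 : ∀ᶠ k in atTop, some (i k) ∈ ({some j}ᶜ : Set (Option Nd)) :=
          hxκ ((isOpen_compl_singleton_some j).mem_nhds (by simp))
        filter_upwards [h3] with k hk hkj
        exact hk (by rw [hkj]; rfl)
      choose z hz1 hz2 using hi2
      obtain ⟨z0, μ, hμ, hz0⟩ := CompactSpace.tendsto_subseq z
      have hκμ : Tendsto (fun n => κ (μ n)) atTop atTop :=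
        hκ.tendsto_atTop.comp hμ.tendsto_atTop
      have h4 : (u0, z0) ∈ R := by
        refine hR (x := fun n => (u (κ (μ n)), z (μ n))) (fun n => hz1 (μ n)) ?_
        rw [Prod.tendsto_iff]
        exact ⟨hu.comp hκμ, hz0⟩
      have h5 : z0 ∉ Z := (hZ z0).mpr ⟨u0, h4⟩
      apply h5
      apply mem_of_cluster (fun n => i (μ n)) (hxκ.comp hμ.tendsto_atTop)
      intro n
      exact near_of_comp (hg.comp hκμ) hz0 (fun n => i (μ n))
        (fun L => hμ.tendsto_atTop.eventually (eventually_length h2 L))
        (fun L => hμ.tendsto_atTop.eventually (eventually_encode h2 L))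
        (fun k => hz2 (μ k)) n
    · have h3 : ∀ᶠ k in atTop, some (i k) ∈ ({some j} : Set (Option Nd)) :=
        hxκ ((isOpen_singleton_some j).mem_nhds rfl)
      apply ha j rfl
      apply bad_closed hR j (hu.comp hκ.tendsto_atTop) (hg.comp hκ.tendsto_atTop)
      apply Eventually.frequently
      filter_upwards [h3] with k hk
      simp only [mem_singleton_iff, Option.some.injEq] at hk
      have := hi2 k
      rw [hk] at this
      exact this
  · exact hx ((isOpen_compl_singleton_some i).mem_nhds ha)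
  · exact hx ((isOpen_singleton_some i).mem_nhds ha)

theorem testSet_open (hR : IsSeqClosed R) {Z : Set (ℕ → Bool × Bool)}
    (hZ : ∀ z, z ∉ Z ↔ ∃ y, (y, z) ∈ R) (m : Option (Option (Nd ⊕ Nd))) (q : Y × (ℕ → ℕ)) :
    IsOpen[topZ Z] (TestSet R m q) := by
  letI := topZ Z
  haveI : SequentialSpace (Option Nd) := sequentialSpace_topZ
  apply isOpen_of_seq
  intro x a hx ha
  exact testSet_joint hR hZ m (tendsto_const_nhds (x := q.1)) (tendsto_const_nhds (x := q.2)) hx ha

omit [TopologicalSpace Y] in
theorem eventually_mem_of_gen [Nonempty Y] {Z : Set (ℕ → Bool × Bool)}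
    (hZ : ∀ z, z ∉ Z ↔ ∃ y, (y, z) ∈ R) {B : Set (Set (Option Nd))}
    (h2 : ∀ m q, TestSet R (some m) q ∈ B) {U : Set (Option Nd)} (hU : IsOpen[topZ Z] U)
    {x : ℕ → Option Nd} {a : Option Nd} (hx : Tendsto x atTop (@nhds _ (generateFrom B) a))
    (ha : a ∈ U) : ∀ᶠ k in atTop, x k ∈ U := by
  have htest : ∀ m q, a ∈ TestSet R (some m) q →
      ∀ᶠ k in atTop, x k ∈ TestSet R (some m) q := by
    intro m q hm
    letI := generateFrom B
    exact hx ((isOpen_generateFrom_of_mem (h2 m q)).mem_nhds hm)
  obtain ⟨y0⟩ := (inferInstance : Nonempty Y)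
  rcases a with _ | i
  · by_contra hcon
    rw [not_eventually] at hcon
    obtain ⟨κ, hκ, hκb⟩ := extraction_of_frequently_atTop hcon
    have h1 : ∀ n, ∃ i, x (κ n) = some i := by
      intro n
      rcases hxn : x (κ n) with _ | i
      · exact absurd (hxn ▸ ha) (hκb n)
      · exact ⟨i, rfl⟩
    choose i hi using h1
    have h3 : ∀ j : Nd, ∀ᶠ k in atTop, i k ≠ j := by
      intro j
      have h4 := htest (some (Sum.inl j)) (y0, fun _ => 0) (by simp [TestSet])
      filter_upwards [hκ.tendsto_atTop.eventually h4] with k hk hkj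
      rw [hi k, hkj] at hk
      exact hk rfl
    let z : ℕ → ℕ → Bool × Bool := fun n k => ((i n)[k]?).getD default
    obtain ⟨z0, μ, hμ, hz0⟩ := CompactSpace.tendsto_subseq z
    have hnear : ∀ N, ∀ᶠ n in atTop, Near z0 N (i (μ n)) := by
      intro N
      filter_upwards [eventually_agree hz0 N,
        hμ.tendsto_atTop.eventually (eventually_length h3 N)] with n h4 h5
      intro k hk
      have hlt : k < (i (μ n)).length := lt_of_lt_of_le hk h5
      rw [← h4 k hk]
      simp only [Function.comp_apply, z, List.getElem?_eq_getElem hlt, Option.getD_some]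
    by_cases hz : z0 ∈ Z
    · obtain ⟨N, hN⟩ := hU ha z0 hz
      obtain ⟨n, hn⟩ := (hnear N).exists
      apply hκb (μ n)
      rw [hi]
      exact hN _ hn
    · obtain ⟨y, hy⟩ := (hZ z0).mp hz
      obtain ⟨ν, hν, hνn⟩ := extraction_forall_of_eventually hnear
      have hbad : ∀ l, (y, fun l => Encodable.encode (i (μ (ν l))) + 1) ∈
          Bad R (i (μ (ν l))) := by
        intro l
        refine ⟨z0, hy, ?_⟩
        intro k p hp hgl
        by_cases hkl : k < l
        · have := hνn l k hkl
          rw [this, Option.some.injEq] at hp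
          exact hp
        · have := hgl l (not_lt.mp hkl)
          simp only at this
          omega
      have h4 := htest none (y, fun l => Encodable.encode (i (μ (ν l))) + 1) (by
        intro i hi; simp at hi)
      obtain ⟨l, hl⟩ := ((hκ.comp (hμ.comp hν)).tendsto_atTop.eventually h4).exists
      exact hl _ (hi _) (hbad l)
  · have h4 := htest (some (Sum.inr i)) (y0, fun _ => 0) (by simp [TestSet])
    filter_upwards [h4] with k hk
    have : x k = some i := hk
    rw [this]
    exact ha

theorem sbased_of {Y : TopCat.{1}} [SequentialSpace Y] [Nonempty Y]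
    {Z : Set (ℕ → Bool × Bool)}
    (hZne : Z.Nonempty) (hana : Ana Y Zᶜ) (hOnto : Onto Y (ℕ × (Y × (ℕ → ℕ)))) :
    XZ Z ∈ SBased Y := by
  classical
  obtain ⟨R, hR, hRZ⟩ := hana
  obtain ⟨f, hf, hf'⟩ := hOnto
  letI := topZ Z
  haveI : SequentialSpace (Option Nd) := sequentialSpace_topZ
  let φ : Y → Opens (Option Nd) := fun y =>
    ⟨TestSet R (Encodable.decode (f y).1) (f y).2, testSet_open hR hRZ _ _⟩
  have hjoint : ∀ (y : ℕ → Y) (b : Y) (x : ℕ → Option Nd) (a : Option Nd),
      Tendsto y atTop (𝓝 b) → Tendsto x atTop (𝓝 a) → a ∈ φ b →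
      ∀ᶠ n in atTop, x n ∈ φ (y n) := by
    intro y b x a hy hx ha
    have h1 := hf hy
    rw [Prod.tendsto_iff, Prod.tendsto_iff] at h1
    have h2 := h1.1
    rw [nhds_discrete, tendsto_pure] at h2
    have h3 := testSet_joint hR hRZ (Encodable.decode (f b).1) h1.2.1 h1.2.2 hx ha
    filter_upwards [h2, h3] with n hn1 hn2
    change x n ∈ TestSet R (Encodable.decode (f (y n)).1) (f (y n)).2
    simp only [Function.comp_apply] at hn1 hn2
    rw [hn1]
    exact hn2
  have hopen : ∀ (p : ℕ → Y) (q : Y), Tendsto p atTop (𝓝 q) →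
      IsOpen ((φ q : Set (Option Nd)) ∩ ⋂ n, (φ (p n) : Set (Option Nd))) := by
    intro p q hp
    exact isOpen_inter_of_joint φ hjoint p q hp 0
  have hmem : ∀ (m : Option (Nd ⊕ Nd)) (q : Y × (ℕ → ℕ)), TestSet R (some m) q ∈
      {B : Set (Option Nd) | ∃ (p : ℕ → Y) (q : Y), Tendsto p atTop (𝓝 q) ∧
      B = (φ q : Set (Option Nd)) ∩ ⋂ n, (φ (p n) : Set (Option Nd))} := by
    intro m q
    obtain ⟨y, hy⟩ := hf' (Encodable.encode m, q)
    refine ⟨fun _ => y, y, tendsto_const_nhds, ?_⟩
    have : (φ y : Set (Option Nd)) = TestSet R (some m) q := by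
      change TestSet R (Encodable.decode (f y).1) (f y).2 = TestSet R (some m) q
      rw [hy]
      simp only [Encodable.encodek]
    simp [this]
  have hopen' : ∀ U ∈ {B : Set (Option Nd) | ∃ (p : ℕ → Y) (q : Y), Tendsto p atTop (𝓝 q) ∧
      B = (φ q : Set (Option Nd)) ∩ ⋂ n, (φ (p n) : Set (Option Nd))}, IsOpen[topZ Z] U := by
    rintro U ⟨p, q, hp, rfl⟩
    exact hopen p q hp
  refine ⟨isQCB0_XZ hZne, φ, continuous_omegaScott φ hjoint, hopen', _, rfl, ?_⟩
  ext U
  constructor
  · intro hU
    have h5 : IsOpen[topZ Z] U := by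
      apply isOpen_of_seq
      intro x a hx ha
      refine hU x a ?_ ha
      exact hx.mono_right (nhds_mono (le_generateFrom hopen'))
    exact h5
  · intro hU x a hx ha
    exact eventually_mem_of_gen hRZ hmem hU hx ha

end embed

end Pool.Agent.Helper71.Qcb
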