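import Mathlib
import Pool.Agent.Helper71.QcbCounter

set_option autoImplicit false
set_option linter.style.haveILetI false

open Filter Topology TopologicalSpace Set

universe u v w v'

namespace Pool.Agent.Helper71.Qcb

theorem isSeqClosed_of_local {P : (ℕ → Bool × Bool) → Prop}
    (h : ∀ z, ∃ N, ∀ z', (∀ k < N, z' k = z k) → (P z' ↔ P z)) : IsSeqClosed {z | P z} := by
  intro x a hx ha
  obtain ⟨N, hN⟩ := h a
  obtain ⟨n, hn⟩ := (eventually_agree ha N).exists
  exact (hN _ hn).mp (hx n)

theorem local_code (x : Option Nd) (n : ℕ) (v : Bool) (z : ℕ → Bool × Bool) :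
    ∃ N, ∀ z' : ℕ → Bool × Bool, (∀ k < N, z' k = z k) →
      (((z' (Encodable.encode ((x, pre (fun k => (z' k).2) n) : Option Nd × List Bool))).1 = v) ↔
      ((z (Encodable.encode ((x, pre (fun k => (z k).2) n) : Option Nd × List Bool))).1 = v)) := by
  refine ⟨max n (Encodable.encode ((x, pre (fun k => (z k).2) n) : Option Nd × List Bool) + 1),
    fun z' hz' => ?_⟩
  have h1 : pre (fun k => (z' k).2) n = pre (fun k => (z k).2) n := by
    rw [pre_eq_iff]
    intro k hk
    rw [hz' k (lt_of_lt_of_le hk (le_max_left _ _))]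
  rw [h1, hz' _ (lt_of_lt_of_le (Nat.lt_succ_self _) (le_max_right _ _))]

theorem local_over (i : Nd) (z : ℕ → Bool × Bool) :
    ∃ N, ∀ z' : ℕ → Bool × Bool, (∀ k < N, z' k = z k) →
      (Over (fun k => (z' k).1) i ↔ Over (fun k => (z k).1) i) := by
  refine ⟨i.length, fun z' hz' => ?_⟩
  have h1 : ∀ k p, i[k]? = some p → z' k = z k := by
    intro k p hp
    apply hz'
    by_contra hlt
    rw [List.getElem?_eq_none (not_lt.mp hlt)] at hp
    simp at hp
  constructor
  · intro h k p hp
    have := h k p hp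
    simp only [h1 k p hp] at this
    exact this
  · intro h k p hp
    have := h k p hp
    simp only [← h1 k p hp] at this
    exact this

theorem zset_nonempty {D : Set (ℕ → Bool)} (hD : D.Nonempty) : (Zset D).Nonempty := by
  classical
  obtain ⟨b, hb⟩ := hD
  let c : ℕ → Bool := fun m => decide (∃ (s : List Bool),
    Encodable.encode ((none, s) : Option Nd × List Bool) = m)
  refine ⟨fun k => (c k, b k), hb, ⟨0, ?_⟩, ?_⟩
  · simp only [c, decide_eq_true_eq]
    exact ⟨_, rfl⟩
  · rintro i - ⟨n, hn⟩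
    simp only [c, decide_eq_true_eq] at hn
    obtain ⟨s, hs⟩ := hn
    have := Encodable.encode_injective hs
    simp at this

theorem ana_zset_compl {Y : Type v} [TopologicalSpace Y] [Nonempty Y] {D : Set (ℕ → Bool)}
    (hD : Ana Y Dᶜ) (hN : Onto Y (ℕ × Y)) : Ana Y (Zset D)ᶜ := by
  have h1 : (Zset D)ᶜ = ((fun z : ℕ → Bool × Bool => fun k => (z k).2) ⁻¹' Dᶜ) ∪
      ({z | ∀ n, (z (Encodable.encode ((none, pre (fun k => (z k).2) n) :
        Option Nd × List Bool))).1 = false} ∪
      ⋃ i : Nd, ⋃ n : ℕ, {z | Over (fun k => (z k).1) i ∧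
        (z (Encodable.encode ((some i, pre (fun k => (z k).2) n) :
        Option Nd × List Bool))).1 = true}) := by
    ext z
    simp only [Zset, InO, mem_compl_iff, mem_ofPred_eq, mem_union, mem_preimage, mem_iUnion]
    by_cases h2 : (fun k => (z k).2) ∈ D
    · simp only [h2, not_true_eq_false, false_or, true_and]
      rw [not_and_or]
      simp only [not_exists, not_forall, Bool.not_eq_true, exists_prop, Bool.not_eq_false]
      constructor
      · rintro (h | ⟨i, hi, n, hn⟩)
        · exact Or.inl h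
        · exact Or.inr ⟨i, n, hi, hn⟩
      · rintro (h | ⟨i, n, hi, hn⟩)
        · exact Or.inl h
        · exact Or.inr ⟨i, hi, n, hn⟩
    · simp [h2]
  rw [h1]
  apply Ana.union hN
  · apply hD.preimage
    intro x a hx
    rw [tendsto_pi_nhds] at hx ⊢
    intro k
    exact ((continuous_snd.tendsto _).comp (hx k))
  · apply Ana.union hN
    · apply Ana.of_isSeqClosed
      intro x a hx ha n
      exact isSeqClosed_of_local (local_code none n false) (fun k => hx k n) ha
    · apply Ana.iUnion' hN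
      intro i
      apply Ana.iUnion hN
      intro n
      apply Ana.of_isSeqClosed
      apply isSeqClosed_of_local
      intro z
      obtain ⟨N1, h2⟩ := local_code (some i) n true z
      obtain ⟨N2, h3⟩ := local_over i z
      refine ⟨max N1 N2, fun z' hz' => ?_⟩
      rw [h2 z' fun k hk => hz' k (lt_of_lt_of_le hk (le_max_left _ _)),
        h3 z' fun k hk => hz' k (lt_of_lt_of_le hk (le_max_right _ _))]

/-- The key theorem. -/
theorem key {Y : TopCat.{1}} [SequentialSpace Y] [Nonempty Y] {D : Set (ℕ → Bool)}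
    (δ : (ℕ → Bool) → Y)
    (hδ : ∀ (b : ℕ → ℕ → Bool) (a : ℕ → Bool), (∀ n, b n ∈ D) → a ∈ D → Tendsto b atTop (𝓝 a) →
      Tendsto (fun n => δ (b n)) atTop (𝓝 (δ a)))
    (hsurj : ∀ y, ∃ b ∈ D, δ b = y) (hD : Ana Y Dᶜ) (hN : Onto Y ℕ) (hI : Onto Y (ℕ → Y)) :
    Based Y ⊂ SBased Y := by
  have hpair : Onto Y (Y × Y) := by
    refine hI.trans ⟨fun x => (x 0, x 1), ?_, ?_⟩
    · intro x p hx
      rw [tendsto_pi_nhds] at hx
      exact Prod.tendsto_iff _ _ |>.mpr ⟨hx 0, hx 1⟩
    · rintro ⟨a, b⟩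
      exact ⟨fun n => if n = 0 then a else b, by simp⟩
  have hNY : Onto Y (ℕ × Y) := hpair.trans (hN.prod Onto.refl)
  have hbaire : Onto Y (ℕ → ℕ) := by
    refine hI.trans ?_
    obtain ⟨f, hf, hf'⟩ := hN
    refine ⟨fun x n => f (x n), ?_, ?_⟩
    · intro x p hx
      rw [tendsto_pi_nhds] at hx ⊢
      intro n
      exact hf (hx n)
    · intro g
      choose y hy using fun n => hf' (g n)
      exact ⟨y, funext hy⟩
  have hall : Onto Y (ℕ × (Y × (ℕ → ℕ))) :=
    hNY.trans (Onto.refl.prod (hpair.trans (Onto.refl.prod hbaire)))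
  have hDne : D.Nonempty := by
    obtain ⟨b, hb, -⟩ := hsurj (Classical.arbitrary Y)
    exact ⟨b, hb⟩
  refine ⟨based_subset_sbased Y, fun h => ?_⟩
  exact not_based δ hδ hsurj (h (sbased_of (zset_nonempty hDne) (ana_zset_compl hD hNY) hall))

end Pool.Agent.Helper71.Qcb
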