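import Mathlib
import Pool.Agent.Helper71.QcbKey

set_option autoImplicit false
set_option linter.style.haveILetI false

open Filter Topology TopologicalSpace Set

universe u v w v'

namespace Pool.Agent.Helper71.Qcb

/-- sequentially continuous functions to `ℕ` with the topology of continuous convergence -/
def SC (Q : Type u) [TopologicalSpace Q] : Type u := {f : Q → ℕ // SeqContinuous f}

section

variable {Q : Type u} [TopologicalSpace Q]

instance : TopologicalSpace (SC Q) :=
  convTop fun F f => ContConv (fun n => (F n).1) f.1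

instance : SequentialSpace (SC Q) := sequentialSpace_convTop _

instance : CoeFun (SC Q) (fun _ => Q → ℕ) := ⟨fun f => f.1⟩

theorem tendsto_nat_iff {x : ℕ → ℕ} {a : ℕ} : Tendsto x atTop (𝓝 a) ↔ ∀ᶠ n in atTop, x n = a := by
  rw [nhds_discrete, tendsto_pure]

theorem SC.eventually_eq (f : SC Q) {x : ℕ → Q} {a : Q} (hx : Tendsto x atTop (𝓝 a)) :
    ∀ᶠ n in atTop, f (x n) = f a := tendsto_nat_iff.mp (f.2 hx)

/-- constructing elements of `SC Q` -/
def SC.mk' (f : Q → ℕ) (h : ∀ (x : ℕ → Q) (a : Q), Tendsto x atTop (𝓝 a) →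
    ∀ᶠ n in atTop, f (x n) = f a) : SC Q :=
  ⟨f, fun x a hx => tendsto_nat_iff.mpr (h x a hx)⟩

theorem contConv_of_tendsto {F : ℕ → SC Q} {f : SC Q} (h : Tendsto F atTop (𝓝 f)) :
    ContConv (fun n => (F n).1) f.1 := by
  intro x a hx
  obtain ⟨N, hN⟩ := eventually_atTop.mp (f.eventually_eq hx)
  let U : Set (SC Q) := {g | g a = f a ∧ ∀ n, g (x (n + N)) = f a}
  have hU : IsOpen U := by
    intro G g hG hg
    have h1 : ∀ᶠ k in atTop, G k a = f a := by
      have := hG (fun _ => a) a tendsto_const_nhds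
      filter_upwards [this] with k hk
      rw [← hg.1]
      exact hk
    have h2 : ∀ᶠ k in atTop, ∀ n, G k (x (n + N)) = f a := by
      apply uniform_of_diag
      · intro n
        have := hG (fun _ => x (n + N)) _ tendsto_const_nhds
        filter_upwards [this] with k hk
        rw [← hg.2 n]
        exact hk
      · intro M hM
        have := hG (fun k => x (M k + N)) a
          (hx.comp (tendsto_atTop_mono (fun k => Nat.le_add_right (M k) N) hM))
        filter_upwards [this] with k hk
        rw [← hg.1]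
        exact hk
    filter_upwards [h1, h2] with k hk1 hk2
    exact ⟨hk1, hk2⟩
  have hfU : f ∈ U := ⟨rfl, fun n => hN _ (Nat.le_add_left N n)⟩
  have h3 : ∀ᶠ k in atTop, F k ∈ U := h (hU.mem_nhds hfU)
  filter_upwards [h3, eventually_ge_atTop N] with k hk hkN
  have := hk.2 (k - N)
  rwa [Nat.sub_add_cancel hkN] at this

theorem tendsto_SC_iff {F : ℕ → SC Q} {f : SC Q} :
    Tendsto F atTop (𝓝 f) ↔
      ∀ (x : ℕ → Q) (a : Q), Tendsto x atTop (𝓝 a) → ∀ᶠ n in atTop, F n (x n) = f a :=
  ⟨contConv_of_tendsto, fun h => tendsto_convTop h⟩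

theorem SC.tendsto_apply {F : ℕ → SC Q} {f : SC Q} (h : Tendsto F atTop (𝓝 f)) (a : Q) :
    ∀ᶠ n in atTop, F n a = f a :=
  tendsto_SC_iff.mp h (fun _ => a) a tendsto_const_nhds

theorem SC.ext {f g : SC Q} (h : ∀ x, f x = g x) : f = g := Subtype.ext (funext h)

/-- constant functions -/
def SC.const (n : ℕ) : SC Q := SC.mk' (fun _ => n) (fun _ _ _ => Eventually.of_forall fun _ => rfl)

instance : Nonempty (SC Q) := ⟨SC.const 0⟩

end

/-- `A` is a sequentially continuous retract of `B`. -/
def Retr (A : Type u) [TopologicalSpace A] (B : Type v) [TopologicalSpace B] : Prop :=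
  ∃ (s : A → B) (r : B → A), SeqContinuous s ∧ SeqContinuous r ∧ ∀ a, r (s a) = a

section

variable {A : Type u} [TopologicalSpace A] {B : Type v} [TopologicalSpace B]
  {C : Type w} [TopologicalSpace C]

theorem Retr.onto (h : Retr A B) : Onto B A := by
  obtain ⟨s, r, hs, hr, hrs⟩ := h
  exact ⟨r, hr, fun a => ⟨s a, hrs a⟩⟩

theorem Retr.trans (h1 : Retr A B) (h2 : Retr B C) : Retr A C := by
  obtain ⟨s, r, hs, hr, hrs⟩ := h1
  obtain ⟨s', r', hs', hr', hrs'⟩ := h2
  exact ⟨fun a => s' (s a), fun c => r (r' c), fun _ _ hx => hs' (hs hx),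
    fun _ _ hx => hr (hr' hx), fun a => by simp only [hrs', hrs]⟩

/-- composition with a sequentially continuous map -/
def SC.comp (f : SC B) (g : A → B) (hg : SeqContinuous g) : SC A :=
  SC.mk' (fun a => f (g a)) (fun _ _ hx => f.eventually_eq (hg hx))

theorem SC.comp_cont (g : A → B) (hg : SeqContinuous g) :
    SeqContinuous (fun f : SC B => f.comp g hg) := by
  intro F f hF
  rw [tendsto_SC_iff] at hF ⊢
  intro x a hx
  exact hF _ _ (hg hx)

theorem Retr.exp (h : Retr A B) : Retr (SC A) (SC B) := by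
  obtain ⟨s, r, hs, hr, hrs⟩ := h
  refine ⟨fun f => f.comp r hr, fun F => F.comp s hs, SC.comp_cont r hr, SC.comp_cont s hs, ?_⟩
  intro f
  apply SC.ext
  intro a
  change f (r (s a)) = f a
  rw [hrs]

end

end Pool.Agent.Helper71.Qcb
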