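import Mathlib
import Pool.Agent.Helper71.QcbSC

set_option autoImplicit false
set_option linter.style.haveILetI false

open Filter Topology TopologicalSpace Set

universe u v w v'

namespace Pool.Agent.Helper71.Qcb

section retr

variable {Q : Type u} [TopologicalSpace Q]

/-- a power of `SC Q` is a retract of `SC Q`, with explicit maps -/
theorem retr_pow (h : Retr (ℕ × Q) Q) : Retr (ℕ → SC Q) (SC Q) := by
  obtain ⟨s, r, hs, hr, hrs⟩ := h
  have hr1 : ∀ (x : ℕ → Q) (a : Q), Tendsto x atTop (𝓝 a) →
      (∀ᶠ n in atTop, (r (x n)).1 = (r a).1) ∧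
      Tendsto (fun n => (r (x n)).2) atTop (𝓝 (r a).2) := by
    intro x a hx
    have h1 := hr hx
    rw [Prod.tendsto_iff] at h1
    exact ⟨tendsto_nat_iff.mp h1.1, h1.2⟩
  let S : (ℕ → SC Q) → SC Q := fun F => SC.mk' (fun x => F (r x).1 (r x).2) (by
    intro x a hx
    obtain ⟨h1, h2⟩ := hr1 x a hx
    filter_upwards [h1, (F (r a).1).eventually_eq h2] with n hn1 hn2
    rw [hn1]
    exact hn2)
  have hsn : ∀ n, SeqContinuous (fun x : Q => s (n, x)) := by
    intro n x a hx
    exact hs (x := fun k => (n, x k)) (Prod.tendsto_iff _ _ |>.mpr ⟨tendsto_const_nhds, hx⟩)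
  refine ⟨S, fun G n => G.comp (fun x => s (n, x)) (hsn n), ?_, ?_, ?_⟩
  · intro F f hF
    rw [tendsto_pi_nhds] at hF
    rw [tendsto_SC_iff]
    intro x a hx
    obtain ⟨h1, h2⟩ := hr1 x a hx
    filter_upwards [h1, tendsto_SC_iff.mp (hF (r a).1) _ _ h2] with n hn1 hn2
    change F n (r (x n)).1 (r (x n)).2 = f (r a).1 (r a).2
    rw [hn1]
    exact hn2
  · intro G g hG
    rw [tendsto_pi_nhds]
    intro n
    exact SC.comp_cont _ (hsn n) hG
  · intro F
    funext n
    apply SC.ext
    intro x
    change F (r (s (n, x))).1 (r (s (n, x))).2 = F n x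
    rw [hrs]

theorem SC.const_cont {x : ℕ → ℕ} {a : ℕ} (h : ∀ᶠ n in atTop, x n = a) :
    Tendsto (fun n => (SC.const (x n) : SC Q)) atTop (𝓝 (SC.const a)) := by
  rw [tendsto_SC_iff]
  intro _ _ _
  filter_upwards [h] with n hn
  exact hn

theorem retr_nat_SC [Nonempty Q] (h : Retr (ℕ × Q) Q) : Retr (ℕ × SC Q) (SC Q) := by
  obtain ⟨S, R, hS, hR, hRS⟩ := retr_pow h
  let x0 : Q := Classical.arbitrary Q
  refine ⟨fun p => S (fun k => if k = 0 then SC.const p.1 else p.2),
    fun G => (R G 0 x0, R G 1), ?_, ?_, ?_⟩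
  · intro x p hx
    rw [Prod.tendsto_iff] at hx
    apply hS
    rw [tendsto_pi_nhds]
    intro k
    by_cases hk : k = 0
    · subst hk
      simpa using SC.const_cont (tendsto_nat_iff.mp hx.1)
    · simpa [hk] using hx.2
  · intro G g hG
    have h1 := hR hG
    rw [tendsto_pi_nhds] at h1
    rw [Prod.tendsto_iff]
    exact ⟨tendsto_nat_iff.mpr (SC.tendsto_apply (h1 0) x0), h1 1⟩
  · rintro ⟨n, F⟩
    simp only [hRS]
    rfl

theorem onto_nat_SC [Nonempty Q] : Onto (SC Q) ℕ := by
  let x0 : Q := Classical.arbitrary Q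
  exact ⟨fun F => F x0, fun F f hF => tendsto_nat_iff.mpr (SC.tendsto_apply hF x0),
    fun n => ⟨SC.const n, rfl⟩⟩

theorem seqContinuous_limval {X : Type v} [TopologicalSpace X] {f : ℕ → X} {f0 : X}
    (hf : Tendsto f atTop (𝓝 f0)) :
    ∀ [∀ g : ℕ → ℕ, Decidable (∃ k, g k = 0)],
    SeqContinuous (fun g : ℕ → ℕ => if h : ∃ k, g k = 0 then f (Nat.find h) else f0) := by
  intro _ g g0 hg
  by_cases h0 : ∃ k, g0 k = 0
  · have h1 := eventually_agree hg (Nat.find h0 + 1)
    apply tendsto_nhds_of_eventually_eq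
    filter_upwards [h1] with n hn
    have h2 : g n (Nat.find h0) = 0 := by
      rw [hn _ (Nat.lt_succ_self _)]
      exact Nat.find_spec h0
    have h3 : ∃ k, g n k = 0 := ⟨_, h2⟩
    have h4 : Nat.find h3 = Nat.find h0 := by
      apply le_antisymm (Nat.find_min' h3 h2)
      by_contra hlt
      rw [not_le] at hlt
      have := Nat.find_spec h3
      rw [hn _ (Nat.lt_succ_of_lt hlt)] at this
      exact Nat.find_min h0 hlt this
    simp only [Function.comp_apply, dif_pos h3, dif_pos h0, h4]
  · rw [tendsto_nhds]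
    intro U hU hfU
    simp only [dif_neg h0] at hfU
    obtain ⟨N, hN⟩ := eventually_atTop.mp (hf.eventually (hU.mem_nhds hfU))
    have h1 := eventually_agree hg N
    change ∀ᶠ n in atTop, _ ∈ U
    filter_upwards [h1] with n hn
    simp only [Function.comp_apply]
    by_cases h3 : ∃ k, g n k = 0
    · simp only [dif_pos h3]
      apply hN
      by_contra hlt
      rw [not_le] at hlt
      have := Nat.find_spec h3
      rw [hn _ hlt] at this
      exact h0 ⟨_, this⟩
    · simp only [dif_neg h3]
      exact hfU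

end retr

/-- A countable family of sets which detects convergence. -/
def SubPB {Q : Type u} [TopologicalSpace Q] (C : ℕ → Set Q) : Prop :=
  ∀ (x : ℕ → Q) (a : Q), Tendsto x atTop (𝓝 a) → ∀ y : ℕ → Q,
    (∀ i, a ∈ C i → (∀ᶠ n in atTop, x n ∈ C i) → ∀ᶠ l in atTop, y l ∈ C i) →
    Tendsto y atTop (𝓝 a)

/-- The convergent sequences of `Q` are parametrised by `Y`. -/
def ParamSeq (Y : Type v) [TopologicalSpace Y] (Q : Type u) [TopologicalSpace Q] : Prop :=
  ∃ (T : Y → ℕ → Q) (T' : Y → Q), (∀ n, SeqContinuous (fun y => T y n)) ∧ SeqContinuous T' ∧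
    (∀ y, Tendsto (T y) atTop (𝓝 (T' y))) ∧
    ∀ (x : ℕ → Q) (a : Q), Tendsto x atTop (𝓝 a) → ∃ y, T y = x ∧ T' y = a

/-- Names for the points of `Q`. -/
def Named (Q : Type u) [TopologicalSpace Q] : Prop :=
  ∃ (D : Set (ℕ → Bool)) (δ : (ℕ → Bool) → Q),
    (∀ (b : ℕ → ℕ → Bool) (a : ℕ → Bool), (∀ n, b n ∈ D) → a ∈ D → Tendsto b atTop (𝓝 a) →
      Tendsto (fun n => δ (b n)) atTop (𝓝 (δ a))) ∧
    (∀ y, ∃ b ∈ D, δ b = y) ∧ Ana Q Dᶜ

/-- The inductive package of properties. -/
structure Pack (Q : Type u) [TopologicalSpace Q] : Prop where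
  ne : Nonempty Q
  pb : ∃ C : ℕ → Set Q, SubPB C ∧ (∀ i, IsSeqClosed (C i)) ∧ ∀ i, Ana (SC Q) (C i)ᶜ
  p1 : Retr (ℕ × Q) Q
  p2 : Retr Q (SC Q)
  p3 : ParamSeq (SC Q) Q
  p4 : Named Q

section succ

variable {Q : Type u} [TopologicalSpace Q]

theorem paramSeq_SC [Nonempty Q] (h1 : Retr (ℕ × Q) Q) (h2 : Retr Q (SC Q)) :
    ParamSeq (SC (SC Q)) (SC Q) := by
  classical
  obtain ⟨S, R, hS, hR, hRS⟩ := retr_pow h1
  obtain ⟨s2, r2, hs2, hr2, hrs2⟩ := h2
  let x0 : Q := Classical.arbitrary Q
  let sn : ℕ → Q → SC Q := fun n x =>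
    S (fun k => if k = 0 then s2 x else SC.const (if k - 1 < n then 1 else 0))
  let si : Q → SC Q := fun x => S (fun k => if k = 0 then s2 x else SC.const 1)
  have hsn : ∀ n, SeqContinuous (sn n) := by
    intro n x a hx
    apply hS
    rw [tendsto_pi_nhds]
    intro k
    by_cases hk : k = 0
    · subst hk
      simpa [Function.comp_def] using hs2 hx
    · simpa [hk] using tendsto_const_nhds
  have hsi : SeqContinuous si := by
    intro x a hx
    apply hS
    rw [tendsto_pi_nhds]
    intro k
    by_cases hk : k = 0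
    · subst hk
      simpa [Function.comp_def] using hs2 hx
    · simpa [hk] using tendsto_const_nhds
  have hlim : ∀ (x : ℕ → Q) (a : Q), Tendsto x atTop (𝓝 a) →
      Tendsto (fun n => sn n (x n)) atTop (𝓝 (si a)) := by
    intro x a hx
    apply hS
    rw [tendsto_pi_nhds]
    intro k
    by_cases hk : k = 0
    · subst hk
      simpa [Function.comp_def] using hs2 hx
    · simp only [hk, if_false]
      apply SC.const_cont
      filter_upwards [eventually_gt_atTop (k - 1)] with n hn
      simp [hn]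
  refine ⟨fun y n => y.comp (sn n) (hsn n), fun y => y.comp si hsi,
    fun n => SC.comp_cont _ (hsn n), SC.comp_cont _ hsi, ?_, ?_⟩
  · intro y
    rw [tendsto_SC_iff]
    intro x a hx
    exact y.eventually_eq (hlim x a hx)
  · intro f f0 hf
    let lv : (ℕ → ℕ) → SC Q := fun g => if h : ∃ k, g k = 0 then f (Nat.find h) else f0
    have hlv : SeqContinuous lv := seqContinuous_limval hf
    let ind : SC Q → ℕ → ℕ := fun G k => R G (k + 1) x0
    have hind : SeqContinuous ind := by
      intro G g hG
      rw [tendsto_pi_nhds]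
      intro k
      have := hR hG
      rw [tendsto_pi_nhds] at this
      exact tendsto_nat_iff.mpr (SC.tendsto_apply (this (k + 1)) x0)
    let y : SC (SC Q) := SC.mk' (fun G => lv (ind G) (r2 (R G 0))) (by
      intro G g hG
      have h3 := hlv (hind hG)
      have h4 := hR hG
      rw [tendsto_pi_nhds] at h4
      exact tendsto_SC_iff.mp h3 _ _ (hr2 (h4 0)))
    refine ⟨y, ?_, ?_⟩
    · funext n
      apply SC.ext
      intro x
      change lv (ind (sn n x)) (r2 (R (sn n x) 0)) = f n x
      have h3 : R (sn n x) = fun k => if k = 0 then s2 x else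
          SC.const (if k - 1 < n then 1 else 0) := hRS _
      have h4 : ind (sn n x) = fun k => if k < n then 1 else 0 := by
        funext k
        simp only [ind, h3, Nat.add_one_ne_zero, if_false, Nat.add_sub_cancel]
        rfl
      have h5 : lv (fun k => if k < n then 1 else 0) = f n := by
        have hex : ∃ k, (if k < n then 1 else 0) = 0 := ⟨n, by simp⟩
        have hfind : Nat.find hex = n := by
          apply le_antisymm
          · exact Nat.find_min' hex (by simp)
          · by_contra hlt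
            rw [not_le] at hlt
            have h9 : (if Nat.find hex < n then 1 else 0) = 0 := Nat.find_spec hex
            rw [if_pos hlt] at h9
            exact absurd h9 one_ne_zero
        simp only [lv]
        rw [dif_pos hex, hfind]
      rw [h4, h5, h3]
      simp only [if_true, hrs2]
    · apply SC.ext
      intro x
      change lv (ind (si x)) (r2 (R (si x) 0)) = f0 x
      have h3 : R (si x) = fun k => if k = 0 then s2 x else SC.const 1 := hRS _
      have h4 : ind (si x) = fun _ => 1 := by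
        funext k
        simp only [ind, h3, Nat.add_one_ne_zero, if_false]
        rfl
      have h5 : lv (fun _ => 1) = f0 := by
        have hex : ¬ ∃ k : ℕ, (1 : ℕ) = 0 := by simp
        simp only [lv]
        rw [dif_neg hex]
      rw [h4, h5, h3]
      simp only [if_true, hrs2]

end succ

end Pool.Agent.Helper71.Qcb
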