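import Mathlib
import Pool.Agent.Helper71.QcbPack

set_option autoImplicit false
set_option linter.style.haveILetI false

open Filter Topology TopologicalSpace Set

universe u v w v'

namespace Pool.Agent.Helper71.Qcb

/-- intersections of finitely many members of a family of sets -/
def FI {Q : Type u} (C : ℕ → Set Q) (σ : Finset ℕ) : Set Q := {x | ∀ i ∈ σ, x ∈ C i}

section succ

variable {Q : Type u} [TopologicalSpace Q]

theorem pb_joint {C : ℕ → Set Q} (hC : SubPB C) {F : ℕ → SC Q} {F0 : SC Q}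
    (hF : Tendsto F atTop (𝓝 F0)) {q : ℕ → Q} {q0 : Q} (hq : Tendsto q atTop (𝓝 q0)) :
    ∃ σ : Finset ℕ, q0 ∈ FI C σ ∧ (∀ᶠ l in atTop, q l ∈ FI C σ) ∧
      (∀ x ∈ FI C σ, F0 x = F0 q0) ∧ ∀ᶠ n in atTop, ∀ x ∈ FI C σ, F n x = F0 q0 := by
  classical
  by_contra hcon
  push Not at hcon
  let E : Set ℕ := {i | q0 ∈ C i ∧ ∀ᶠ l in atTop, q l ∈ C i}
  let σ : ℕ → Finset ℕ := fun l => (Finset.range l).filter (· ∈ E)
  have h1 : ∀ l, q0 ∈ FI C (σ l) := by
    intro l i hi
    exact ((Finset.mem_filter.mp hi).2).1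
  have h2 : ∀ l, ∀ᶠ k in atTop, q k ∈ FI C (σ l) := by
    intro l
    have : ∀ᶠ k in atTop, ∀ i ∈ (σ l : Set ℕ), q k ∈ C i := by
      rw [Filter.eventually_all_finite (σ l).finite_toSet]
      intro i hi
      exact ((Finset.mem_filter.mp (Finset.mem_coe.mp hi)).2).2
    filter_upwards [this] with k hk i hi
    exact hk i (Finset.mem_coe.mpr hi)
  have h3 : ∀ l, ∃ (G : SC Q) (x : Q), x ∈ FI C (σ l) ∧ G x ≠ F0 q0 ∧
      (G = F0 ∨ ∃ n, l ≤ n ∧ G = F n) := by
    intro l
    by_cases h4 : ∀ x ∈ FI C (σ l), F0 x = F0 q0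
    · have h5 := hcon (σ l) (h1 l) (h2 l) h4
      rw [frequently_atTop] at h5
      obtain ⟨n, hn, x, hx, hne⟩ := h5 l
      exact ⟨F n, x, hx, hne, Or.inr ⟨n, hn, rfl⟩⟩
    · push Not at h4
      obtain ⟨x, hx, hne⟩ := h4
      exact ⟨F0, x, hx, hne, Or.inl rfl⟩
  choose G x hx hne hG using h3
  have h6 : Tendsto x atTop (𝓝 q0) := by
    apply hC q q0 hq
    intro i hi1 hi2
    filter_upwards [eventually_gt_atTop i] with l hl
    exact hx l i (Finset.mem_filter.mpr ⟨Finset.mem_range.mpr hl, hi1, hi2⟩)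
  have h7 : Tendsto G atTop (𝓝 F0) := by
    rw [tendsto_nhds]
    intro U hU hFU
    have h8 : ∀ᶠ n in atTop, F n ∈ U := hF (hU.mem_nhds hFU)
    obtain ⟨N, hN⟩ := eventually_atTop.mp h8
    change ∀ᶠ l in atTop, G l ∈ U
    filter_upwards [eventually_ge_atTop N] with l hl
    rcases hG l with h9 | ⟨n, hn, h9⟩
    · rw [h9]; exact hFU
    · rw [h9]; exact hN n (hl.trans hn)
  obtain ⟨l, hl⟩ := (tendsto_SC_iff.mp h7 x q0 h6).exists
  exact hne l hl

theorem pb_of_encodable {ι : Type w} [Encodable ι] {Y : Type v} [TopologicalSpace Y] [Nonempty Y]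
    (C : ι → Set Q)
    (h1 : ∀ (x : ℕ → Q) (a : Q), Tendsto x atTop (𝓝 a) → ∀ y : ℕ → Q,
      (∀ i, a ∈ C i → (∀ᶠ n in atTop, x n ∈ C i) → ∀ᶠ l in atTop, y l ∈ C i) →
      Tendsto y atTop (𝓝 a))
    (h2 : ∀ i, IsSeqClosed (C i)) (h3 : ∀ i, Ana Y (C i)ᶜ) :
    ∃ C : ℕ → Set Q, SubPB C ∧ (∀ i, IsSeqClosed (C i)) ∧ ∀ i, Ana Y (C i)ᶜ := by
  refine ⟨fun n => match (Encodable.decode n : Option ι) with
    | none => univ
    | some i => C i, ?_, ?_, ?_⟩
  · intro x a hx y hy
    apply h1 x a hx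
    intro i hi1 hi2
    have := hy (Encodable.encode i)
    simp only [Encodable.encodek] at this
    exact this hi1 hi2
  · intro n
    rcases hd : (Encodable.decode n : Option ι) with _ | i
    · simp only [hd]
      exact fun _ _ _ _ => mem_univ _
    · simp only [hd]
      exact h2 i
  · intro n
    rcases hd : (Encodable.decode n : Option ι) with _ | i
    · simp only [hd]
      rw [compl_univ]
      exact Ana.of_isSeqClosed isSeqClosed_empty'
    · simp only [hd]
      exact h3 i

theorem pb_SC [Nonempty Q] {C : ℕ → Set Q} (hC : SubPB C) (hcl : ∀ i, IsSeqClosed (C i))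
    (h2 : Retr Q (SC Q)) :
    ∃ C' : ℕ → Set (SC Q), SubPB C' ∧ (∀ i, IsSeqClosed (C' i)) ∧
      ∀ i, Ana (SC (SC Q)) (C' i)ᶜ := by
  apply pb_of_encodable (ι := Finset ℕ × ℕ) (fun p => {F : SC Q | ∀ x ∈ FI C p.1, F x = p.2})
  · intro F F0 hF G hG
    rw [tendsto_SC_iff]
    intro x a hx
    obtain ⟨σ, h3, h4, h5, h6⟩ := pb_joint hC hF hx
    filter_upwards [hG (σ, F0 a) h5 h6, h4] with l hl1 hl2
    exact hl1 _ hl2
  · rintro ⟨σ, m⟩ F F0 hF hF0 x hx
    obtain ⟨n, hn⟩ := (SC.tendsto_apply hF0 x).exists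
    rw [← hn]
    exact hF n x hx
  · rintro ⟨σ, m⟩
    have h3 : Ana Q ({F : SC Q | ∀ x ∈ FI C σ, F x = m})ᶜ := by
      refine ⟨{p | p.1 ∈ FI C σ ∧ p.2 p.1 ≠ m}, ?_, ?_⟩
      · intro x p hx hp
        rw [Prod.tendsto_iff] at hp
        refine ⟨fun i hi => hcl i (fun n => (hx n).1 i hi) hp.1, ?_⟩
        obtain ⟨n, hn⟩ := (tendsto_SC_iff.mp hp.2 _ _ hp.1).exists
        rw [← hn]
        exact (hx n).2
      · intro F
        simp only [mem_compl_iff, mem_ofPred_eq, not_forall, exists_prop]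
    exact h3.of_onto ((h2.exp.onto).trans h2.onto)

/-- the name `b` declares that the function has the value `m` on the set with index `σ` -/
def Dec (b : ℕ → Bool) (σ : Finset ℕ) (m : ℕ) : Prop :=
  b (Encodable.encode ((σ, m) : Finset ℕ × ℕ)) = true

/-- the set of names of sequentially continuous functions -/
def NameSet (C : ℕ → Set Q) : Set (ℕ → Bool) :=
  {b | (∀ σ m σ' m', Dec b σ m → Dec b σ' m' → (FI C σ ∩ FI C σ').Nonempty → m = m') ∧
    ∀ (x : ℕ → Q) (a : Q), Tendsto x atTop (𝓝 a) →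
      ∃ σ m, Dec b σ m ∧ a ∈ FI C σ ∧ ∀ᶠ n in atTop, x n ∈ FI C σ}

open Classical in
/-- the function named by `b` -/
noncomputable def nameFun (C : ℕ → Set Q) (b : ℕ → Bool) (a : Q) : ℕ :=
  if h : ∃ m, ∃ σ, Dec b σ m ∧ a ∈ FI C σ then Classical.choose h else 0

theorem nameFun_eq {C : ℕ → Set Q} {b : ℕ → Bool} (hb : b ∈ NameSet C) {a : Q}
    {σ : Finset ℕ} {m : ℕ} (h1 : Dec b σ m) (h2 : a ∈ FI C σ) : nameFun C b a = m := by
  have h : ∃ m, ∃ σ, Dec b σ m ∧ a ∈ FI C σ := ⟨m, σ, h1, h2⟩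
  have h3 : nameFun C b a = Classical.choose h := by
    unfold nameFun
    rw [dif_pos h]
  rw [h3]
  obtain ⟨σ', h4, h5⟩ := Classical.choose_spec h
  exact hb.1 _ _ _ _ h4 h1 ⟨a, h5, h2⟩

theorem nameFun_cont {C : ℕ → Set Q} {b : ℕ → Bool} (hb : b ∈ NameSet C) (x : ℕ → Q) (a : Q)
    (hx : Tendsto x atTop (𝓝 a)) : ∀ᶠ n in atTop, nameFun C b (x n) = nameFun C b a := by
  obtain ⟨σ, m, h1, h2, h3⟩ := hb.2 x a hx
  filter_upwards [h3] with n hn
  rw [nameFun_eq hb h1 h2, nameFun_eq hb h1 hn]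

theorem dec_eventually {b : ℕ → ℕ → Bool} {a : ℕ → Bool} (h : Tendsto b atTop (𝓝 a))
    {σ : Finset ℕ} {m : ℕ} (hd : Dec a σ m) : ∀ᶠ n in atTop, Dec (b n) σ m := by
  filter_upwards [eventually_agree h (Encodable.encode ((σ, m) : Finset ℕ × ℕ) + 1)] with n hn
  unfold Dec
  rw [hn _ (Nat.lt_succ_self _)]
  exact hd

theorem isSeqClosed_not_dec (σ : Finset ℕ) (m : ℕ) :
    IsSeqClosed {b : ℕ → Bool | ¬ Dec b σ m} := by
  intro x a hx ha hd
  obtain ⟨n, hn⟩ := (dec_eventually ha hd).exists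
  exact hx n hn

theorem isSeqClosed_dec (σ : Finset ℕ) (m : ℕ) :
    IsSeqClosed {b : ℕ → Bool | Dec b σ m} := by
  intro x a hx ha
  obtain ⟨n, hn⟩ := (eventually_agree ha
    (Encodable.encode ((σ, m) : Finset ℕ × ℕ) + 1)).exists
  have := hx n
  simp only [mem_ofPred_eq, Dec] at this ⊢
  rw [← hn _ (Nat.lt_succ_self _)]
  exact this

theorem named_SC [Nonempty Q] {C : ℕ → Set Q} (hC : SubPB C)
    (hana : ∀ i, Ana (SC Q) (C i)ᶜ) (h1 : Retr (ℕ × Q) Q) (h3 : ParamSeq (SC Q) Q) :
    Named (SC Q) := by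
  classical
  refine ⟨NameSet C, fun b => if hb : b ∈ NameSet C then
    SC.mk' (nameFun C b) (nameFun_cont hb) else SC.const 0, ?_, ?_, ?_⟩
  · intro b a hb ha hba
    rw [tendsto_SC_iff]
    intro x q hx
    obtain ⟨σ, m, h4, h5, h6⟩ := ha.2 x q hx
    filter_upwards [h6, dec_eventually hba h4] with n hn1 hn2
    simp only [dif_pos (hb n), dif_pos ha]
    change nameFun C (b n) (x n) = nameFun C a q
    rw [nameFun_eq ha h4 h5, nameFun_eq (hb n) hn2 hn1]
  · intro F
    let b : ℕ → Bool := fun k => decide (∃ (σ : Finset ℕ) (m : ℕ),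
      Encodable.encode ((σ, m) : Finset ℕ × ℕ) = k ∧ ∀ x ∈ FI C σ, F x = m)
    have hdec : ∀ σ m, Dec b σ m ↔ ∀ x ∈ FI C σ, F x = m := by
      intro σ m
      simp only [Dec, b, decide_eq_true_eq]
      constructor
      · rintro ⟨σ', m', h4, h5⟩
        have := Encodable.encode_injective h4
        simp only [Prod.mk.injEq] at this
        obtain ⟨rfl, rfl⟩ := this
        exact h5
      · intro h
        exact ⟨σ, m, rfl, h⟩
    have hb : b ∈ NameSet C := by
      constructor
      · intro σ m σ' m' h4 h5 ⟨x, hx1, hx2⟩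
        rw [hdec] at h4 h5
        rw [← h4 x hx1, ← h5 x hx2]
      · intro x a hx
        obtain ⟨σ, h4, h5, h6, -⟩ := pb_joint hC (tendsto_const_nhds (x := F)) hx
        exact ⟨σ, F a, (hdec _ _).mpr h6, h4, h5⟩
    refine ⟨b, hb, ?_⟩
    simp only [dif_pos hb]
    apply SC.ext
    intro a
    change nameFun C b a = F a
    obtain ⟨σ, m, h4, h5, -⟩ := hb.2 (fun _ => a) a tendsto_const_nhds
    rw [nameFun_eq hb h4 h5]
    exact ((hdec _ _).mp h4 a h5).symm
  · obtain ⟨T, T', hT, hT', hlim, hsurj⟩ := h3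
    have hI : Onto (SC Q) (ℕ → SC Q) := (retr_pow h1).onto
    have hN : Onto (SC Q) (ℕ × SC Q) := (retr_nat_SC h1).onto
    have hP : Onto (SC Q) (SC Q × SC Q) := by
      refine hI.trans ⟨fun x => (x 0, x 1), ?_, ?_⟩
      · intro x p hx
        rw [tendsto_pi_nhds] at hx
        exact Prod.tendsto_iff _ _ |>.mpr ⟨hx 0, hx 1⟩
      · rintro ⟨a, b⟩
        exact ⟨fun n => if n = 0 then a else b, by simp⟩
    have key1 : (NameSet C)ᶜ =
        (⋃ (σ : Finset ℕ), ⋃ (m : ℕ), ⋃ (σ' : Finset ℕ), ⋃ (m' : ℕ),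
          {b | Dec b σ m ∧ Dec b σ' m' ∧ (FI C σ ∩ FI C σ').Nonempty ∧ m ≠ m'}) ∪
        {b | ∃ y : SC Q, (y, b) ∈ ⋂ (σ : Finset ℕ), ⋂ (m : ℕ),
          ({p : SC Q × (ℕ → Bool) | ¬ Dec p.2 σ m} ∪
            ⋃ (i : ℕ), ({p : SC Q × (ℕ → Bool) | i ∈ σ} ∩
              ((fun p : SC Q × (ℕ → Bool) => T' p.1) ⁻¹' (C i)ᶜ ∪
              ⋂ (N : ℕ), ⋃ (n : ℕ), ({p : SC Q × (ℕ → Bool) | N ≤ n} ∩
                (fun p : SC Q × (ℕ → Bool) => T p.1 n) ⁻¹' (C i)ᶜ))))} := by
      ext b
      constructor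
      · intro hb
        by_cases hcons : ∀ σ m σ' m', Dec b σ m → Dec b σ' m' →
            (FI C σ ∩ FI C σ').Nonempty → m = m'
        · right
          have htot : ¬ ∀ (x : ℕ → Q) (a : Q), Tendsto x atTop (𝓝 a) →
              ∃ σ m, Dec b σ m ∧ a ∈ FI C σ ∧ ∀ᶠ n in atTop, x n ∈ FI C σ :=
            fun h => hb ⟨hcons, h⟩
          push Not at htot
          obtain ⟨x, a, hx, hno⟩ := htot
          obtain ⟨y, rfl, rfl⟩ := hsurj x a hx
          refine ⟨y, ?_⟩
          simp only [mem_iInter]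
          intro σ m
          by_cases hd : Dec b σ m
          · right
            have h4 := hno σ m hd
            by_cases h5 : T' y ∈ FI C σ
            · have h6 := h4 h5
              by_contra hcon
              apply h6
              have h7 : ∀ i ∈ (σ : Set ℕ), ∀ᶠ n in atTop, T y n ∈ C i := by
                intro i hi
                by_contra h8
                rw [not_eventually, frequently_atTop] at h8
                apply hcon
                rw [mem_iUnion]
                refine ⟨i, Finset.mem_coe.mp hi, Or.inr ?_⟩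
                rw [mem_iInter]
                intro N
                obtain ⟨n, hn, hn2⟩ := h8 N
                rw [mem_iUnion]
                exact ⟨n, hn, hn2⟩
              have h9 := (Filter.eventually_all_finite σ.finite_toSet).mpr h7
              filter_upwards [h9] with n hn hnot
              exact hnot fun i hi => hn i (Finset.mem_coe.mpr hi)
            · have h6 : ∃ i ∈ σ, T' y ∉ C i := by
                by_contra h7
                push Not at h7
                exact h5 h7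
              obtain ⟨i, hi, h7⟩ := h6
              rw [mem_iUnion]
              exact ⟨i, hi, Or.inl h7⟩
          · left
            exact hd
        · left
          push Not at hcons
          obtain ⟨σ, m, σ', m', h4, h5, h6, h7⟩ := hcons
          simp only [mem_iUnion]
          exact ⟨σ, m, σ', m', h4, h5, h6, h7⟩
      · rintro (h | ⟨y, hy⟩) hb
        · simp only [mem_iUnion] at h
          obtain ⟨σ, m, σ', m', h4, h5, h6, h7⟩ := h
          exact h7 (hb.1 _ _ _ _ h4 h5 h6)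
        · obtain ⟨σ, m, h4, h5, h6⟩ := hb.2 _ _ (hlim y)
          simp only [mem_iInter] at hy
          rcases hy σ m with h7 | h7
          · exact h7 h4
          · rw [mem_iUnion] at h7
            obtain ⟨i, hi, h8⟩ := h7
            rcases h8 with h8 | h8
            · exact h8 (h5 i hi)
            · obtain ⟨N, hN⟩ := eventually_atTop.mp h6
              rw [mem_iInter] at h8
              have h9 := h8 N
              rw [mem_iUnion] at h9
              obtain ⟨n, hn1, hn2⟩ := h9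
              exact hn2 (hN n hn1 i hi)
    rw [key1]
    apply Ana.union hN
    · apply Ana.iUnion' hN
      intro σ
      apply Ana.iUnion hN
      intro m
      apply Ana.iUnion' hN
      intro σ'
      apply Ana.iUnion hN
      intro m'
      apply Ana.of_isSeqClosed
      intro x a hx ha
      exact ⟨isSeqClosed_dec σ m (fun n => (hx n).1) ha,
        isSeqClosed_dec σ' m' (fun n => (hx n).2.1) ha, (hx 0).2.2⟩
    · apply Ana.exists hP
      apply Ana.iInter' hI
      intro σ
      apply Ana.iInter hI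
      intro m
      apply Ana.union hN
      · apply Ana.of_isSeqClosed
        intro x p hx hp
        rw [Prod.tendsto_iff] at hp
        exact isSeqClosed_not_dec σ m (x := fun n => (x n).2) hx hp.2
      · apply Ana.iUnion hN
        intro i
        apply Ana.inter hI
        · exact Ana.of_isSeqClosed fun x p hx _ => hx 0
        · apply Ana.union hN
          · apply (hana i).preimage
            intro x p hp
            rw [Prod.tendsto_iff] at hp
            exact hT' hp.1
          · apply Ana.iInter hI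
            intro N
            apply Ana.iUnion hN
            intro n
            apply Ana.inter hI
            · exact Ana.of_isSeqClosed fun x p hx _ => hx 0
            · apply (hana i).preimage
              intro x p hp
              rw [Prod.tendsto_iff] at hp
              exact hT n hp.1

theorem Pack.succ (h : Pack Q) : Pack (SC Q) := by
  haveI := h.ne
  obtain ⟨C, hC, hcl, hana⟩ := h.pb
  exact ⟨inferInstance, pb_SC hC hcl h.p2, retr_nat_SC h.p1, h.p2.exp, paramSeq_SC h.p1 h.p2,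
    named_SC hC hana h.p1 h.p3⟩

end succ

end Pool.Agent.Helper71.Qcb
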