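import Mathlib
import Pool.Agent.Helper71.QcbSucc

set_option autoImplicit false
set_option linter.style.haveILetI false

open Filter Topology TopologicalSpace Set

universe u v w v'

namespace Pool.Agent.Helper71.Qcb

/-- product with the sequentialised product topology -/
def SP {ι : Type w} (Q : ι → Type u) [∀ i, TopologicalSpace (Q i)] : Type (max u w) := ∀ i, Q i

section

variable {ι : Type w} {Q : ι → Type u} [∀ i, TopologicalSpace (Q i)]

instance instTopSP : TopologicalSpace (SP Q) :=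
  seqTop (Pi.topologicalSpace (Y := Q))

instance : SequentialSpace (SP Q) := sequentialSpace_seqTop _

/-- make an element of the product -/
def SP.mk (x : ∀ i, Q i) : SP Q := x

/-- coordinates -/
def SP.get (x : SP Q) (i : ι) : Q i := x i

@[simp] theorem SP.get_mk (x : ∀ i, Q i) (i : ι) : (SP.mk x).get i = x i := rfl

theorem SP.ext {x y : SP Q} (h : ∀ i, x.get i = y.get i) : x = y := funext h

theorem tendsto_SP_iff {x : ℕ → SP Q} {a : SP Q} :
    Tendsto x atTop (𝓝 a) ↔ ∀ i, Tendsto (fun n => (x n).get i) atTop (𝓝 (a.get i)) := by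
  have h1 := tendsto_seqTop_iff (Pi.topologicalSpace (Y := Q)) x a
  refine h1.trans ?_
  exact tendsto_pi_nhds

theorem Onto.pow {A : Type u} [TopologicalSpace A] {B : Type v} [TopologicalSpace B]
    (h : Onto A B) : Onto (ℕ → A) (ℕ → B) := by
  obtain ⟨f, hf, hf'⟩ := h
  refine ⟨fun x n => f (x n), ?_, ?_⟩
  · intro x p hx
    rw [tendsto_pi_nhds] at hx ⊢
    intro n
    exact hf (hx n)
  · intro g
    choose y hy using fun n => hf' (g n)
    exact ⟨y, funext hy⟩

open Classical in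
/-- update one coordinate -/
noncomputable def SP.upd (x : SP Q) (i0 : ι) (b : Q i0) : SP Q :=
  SP.mk fun j => if h : i0 = j then h ▸ b else x.get j

@[simp] theorem SP.upd_same (x : SP Q) (i0 : ι) (b : Q i0) : (x.upd i0 b).get i0 = b := by
  simp [SP.upd]

theorem SP.upd_ne (x : SP Q) {i0 j : ι} (b : Q i0) (h : i0 ≠ j) :
    (x.upd i0 b).get j = x.get j := by
  simp [SP.upd, h]

theorem SP.upd_tendsto {x : ℕ → SP Q} {a : SP Q} {i0 : ι} {y : ℕ → Q i0} {b : Q i0}
    (hx : Tendsto x atTop (𝓝 a)) (hy : Tendsto y atTop (𝓝 b)) :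
    Tendsto (fun n => (x n).upd i0 (y n)) atTop (𝓝 (a.upd i0 b)) := by
  rw [tendsto_SP_iff] at hx ⊢
  intro j
  by_cases hj : i0 = j
  · subst hj
    simpa using hy
  · simpa [SP.upd_ne _ _ hj] using hx j

theorem onto_proj [∀ i, Nonempty (Q i)] (i : ι) : Onto (SP Q) (Q i) := by
  classical
  refine ⟨fun x => x.get i, fun x p hx => tendsto_SP_iff.mp hx i, fun q => ?_⟩
  exact ⟨(SP.mk fun j => Classical.arbitrary (Q j)).upd i q, by simp⟩

theorem onto_SP_SC [∀ i, Nonempty (Q i)] (σ : ι → ι) (hσ : Function.Injective σ)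
    (hσQ : ∀ i, Onto (Q (σ i)) (SC (Q i))) : Onto (SP Q) (SP fun i => SC (Q i)) := by
  classical
  choose f hf hf' using hσQ
  refine ⟨fun x => SP.mk fun i => f i (x.get (σ i)), ?_, ?_⟩
  · intro x p hx
    refine tendsto_SP_iff.mpr ?_
    intro i
    exact hf i (tendsto_SP_iff.mp hx (σ i))
  · intro G
    choose y hy using fun i => hf' i (G.get i)
    have h1 : ∀ j, ∃ q : Q j, ∀ i, ∀ h : σ i = j, q = h ▸ y i := by
      intro j
      by_cases hex : ∃ i, σ i = j
      · obtain ⟨i, rfl⟩ := hex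
        refine ⟨y i, fun i' h => ?_⟩
        have := hσ h
        subst this
        rfl
      · exact ⟨Classical.arbitrary _, fun i h => absurd ⟨i, h⟩ hex⟩
    choose x hx using h1
    refine ⟨SP.mk x, ?_⟩
    apply SP.ext
    intro i
    have h2 : x (σ i) = y i := hx (σ i) i rfl
    simp only [SP.get_mk]
    rw [← hy i, h2]

theorem retr_nat_SP [∀ i, Nonempty (Q i)] (i0 : ι) (h : Retr (ℕ × Q i0) (Q i0)) :
    Retr (ℕ × SP Q) (SP Q) := by
  classical
  obtain ⟨s, r, hs, hr, hrs⟩ := h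
  refine ⟨fun p => p.2.upd i0 (s (p.1, p.2.get i0)),
    fun x => ((r (x.get i0)).1, x.upd i0 (r (x.get i0)).2), ?_, ?_, ?_⟩
  · intro x p hx
    rw [Prod.tendsto_iff] at hx
    apply SP.upd_tendsto hx.2
    apply hs (x := fun n => ((x n).1, (x n).2.get i0))
    exact Prod.tendsto_iff _ _ |>.mpr ⟨hx.1, tendsto_SP_iff.mp hx.2 i0⟩
  · intro x a hx
    have h1 := hr (tendsto_SP_iff.mp hx i0)
    rw [Prod.tendsto_iff] at h1
    rw [Prod.tendsto_iff]
    exact ⟨h1.1, SP.upd_tendsto hx h1.2⟩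
  · rintro ⟨n, x⟩
    simp only [SP.upd_same, hrs, Prod.mk.injEq, true_and]
    apply SP.ext
    intro j
    by_cases hj : i0 = j
    · subst hj
      simp
    · rw [SP.upd_ne _ _ hj, SP.upd_ne _ _ hj]

theorem retr_SP_SC [Countable ι] [∀ i, Nonempty (Q i)] (h1 : Retr (ℕ × SP Q) (SP Q))
    (h2 : ∀ i, Retr (Q i) (SC (Q i))) : Retr (SP Q) (SC (SP Q)) := by
  classical
  obtain ⟨s1, r1, hs1, hr1, hrs1⟩ := h1
  choose s2 r2 hs2 hr2 hrs2 using h2
  letI : Encodable ι := Encodable.ofCountable ι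
  have hr1' : ∀ (x : ℕ → SP Q) (a : SP Q), Tendsto x atTop (𝓝 a) →
      (∀ᶠ n in atTop, (r1 (x n)).1 = (r1 a).1) ∧
      Tendsto (fun n => (r1 (x n)).2) atTop (𝓝 (r1 a).2) := by
    intro x a hx
    have h1 := hr1 hx
    rw [Prod.tendsto_iff] at h1
    exact ⟨tendsto_nat_iff.mp h1.1, h1.2⟩
  let ev : SP Q → ℕ → SP Q → ℕ := fun x m w =>
    match (Encodable.decode m : Option ι) with
    | none => 0
    | some i => s2 i (x.get i) (w.get i)
  have hev : ∀ (x : ℕ → SP Q) (x0 : SP Q) (m : ℕ) (w : ℕ → SP Q) (w0 : SP Q),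
      Tendsto x atTop (𝓝 x0) → Tendsto w atTop (𝓝 w0) →
      ∀ᶠ n in atTop, ev (x n) m (w n) = ev x0 m w0 := by
    intro x x0 m w w0 hx hw
    simp only [ev]
    rcases (Encodable.decode m : Option ι) with _ | i
    · exact Eventually.of_forall fun _ => rfl
    · exact tendsto_SC_iff.mp (hs2 i (tendsto_SP_iff.mp hx i)) _ _ (tendsto_SP_iff.mp hw i)
  let S : SP Q → SC (SP Q) := fun x => SC.mk' (fun w => ev x (r1 w).1 (r1 w).2) (by
    intro w w0 hw
    obtain ⟨h3, h4⟩ := hr1' w w0 hw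
    filter_upwards [h3, hev (fun _ => x) x (r1 w0).1 _ _ tendsto_const_nhds h4] with n hn1 hn2
    rw [hn1]
    exact hn2)
  let d : SP Q := SP.mk fun i => Classical.arbitrary (Q i)
  have hupd : ∀ i, SeqContinuous (fun u : Q i => s1 (Encodable.encode i, d.upd i u)) := by
    intro i u u0 hu
    apply hs1 (x := fun n => (Encodable.encode i, d.upd i (u n)))
    rw [Prod.tendsto_iff]
    exact ⟨tendsto_const_nhds, SP.upd_tendsto tendsto_const_nhds hu⟩
  refine ⟨S, fun G => SP.mk fun i => r2 i (G.comp _ (hupd i)), ?_, ?_, ?_⟩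
  · intro x x0 hx
    rw [tendsto_SC_iff]
    intro w w0 hw
    obtain ⟨h3, h4⟩ := hr1' w w0 hw
    filter_upwards [h3, hev x x0 (r1 w0).1 _ _ hx h4] with n hn1 hn2
    change ev (x n) (r1 (w n)).1 (r1 (w n)).2 = ev x0 (r1 w0).1 (r1 w0).2
    rw [hn1]
    exact hn2
  · intro G G0 hG
    refine tendsto_SP_iff.mpr ?_
    intro i
    exact hr2 i (SC.comp_cont _ (hupd i) hG)
  · intro x
    apply SP.ext
    intro i
    have h5 : (S x).comp _ (hupd i) = s2 i (x.get i) := by
      apply SC.ext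
      intro u
      change ev x (r1 (s1 (Encodable.encode i, d.upd i u))).1
        (r1 (s1 (Encodable.encode i, d.upd i u))).2 = _
      rw [hrs1]
      simp [ev, Encodable.encodek]
    simp only [h5, hrs2, SP.get_mk]

theorem paramSeq_SP [∀ i, Nonempty (Q i)] {Y : Type v} [TopologicalSpace Y]
    (h1 : Onto Y (SP fun i => SC (Q i))) (h2 : ∀ i, ParamSeq (SC (Q i)) (Q i)) :
    ParamSeq Y (SP Q) := by
  obtain ⟨f, hf, hf'⟩ := h1
  choose T T' hT hT' hlim hsurj using h2
  refine ⟨fun y n => SP.mk fun i => T i ((f y).get i) n, fun y => SP.mk fun i => T' i ((f y).get i),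
    ?_, ?_, ?_, ?_⟩
  · intro n x a hx
    refine tendsto_SP_iff.mpr fun i => ?_
    exact hT i n (tendsto_SP_iff.mp (hf hx) i)
  · intro x a hx
    refine tendsto_SP_iff.mpr fun i => ?_
    exact hT' i (tendsto_SP_iff.mp (hf hx) i)
  · intro y
    refine tendsto_SP_iff.mpr fun i => ?_
    exact hlim i _
  · intro x a hx
    choose y hy1 hy2 using fun i => hsurj i _ _ (tendsto_SP_iff.mp hx i)
    obtain ⟨y', hy'⟩ := hf' (SP.mk y)
    refine ⟨y', ?_, ?_⟩
    · funext n
      apply SP.ext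
      intro i
      simp only [hy', SP.get_mk, hy1]
    · apply SP.ext
      intro i
      simp only [hy', SP.get_mk, hy2]

theorem pb_SP [Countable ι] {Y : Type v} [TopologicalSpace Y] [Nonempty Y]
    (h1 : ∀ i, Onto Y (SC (Q i)))
    (h2 : ∀ i, ∃ C : ℕ → Set (Q i), SubPB C ∧ (∀ k, IsSeqClosed (C k)) ∧
      ∀ k, Ana (SC (Q i)) (C k)ᶜ) :
    ∃ C : ℕ → Set (SP Q), SubPB C ∧ (∀ i, IsSeqClosed (C i)) ∧ ∀ i, Ana Y (C i)ᶜ := by
  letI : Encodable ι := Encodable.ofCountable ι
  choose C hC hcl hana using h2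
  apply pb_of_encodable (ι := ι × ℕ) (fun p => (fun x : SP Q => x.get p.1) ⁻¹' (C p.1 p.2))
  · intro x a hx y hy
    refine tendsto_SP_iff.mpr fun i => ?_
    apply hC i _ _ (tendsto_SP_iff.mp hx i)
    intro k h3 h4
    exact hy (i, k) h3 h4
  · rintro ⟨i, k⟩ x a hx ha
    exact hcl i k hx (tendsto_SP_iff.mp ha i)
  · rintro ⟨i, k⟩
    rw [← preimage_compl]
    apply ((hana i k).of_onto (h1 i)).preimage
    intro x a hx
    exact tendsto_SP_iff.mp hx i

theorem named_SP [Countable ι] [∀ i, Nonempty (Q i)] (hN : Onto (SP Q) (ℕ × SP Q))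
    (h : ∀ i, Named (Q i)) : Named (SP Q) := by
  classical
  letI : Encodable ι := Encodable.ofCountable ι
  haveI : Nonempty (SP Q) := ⟨SP.mk fun i => Classical.arbitrary (Q i)⟩
  choose D δ hδ hsurj hana using h
  let pr : ι → (ℕ → Bool) → (ℕ → Bool) := fun i b k => b (Encodable.encode (i, k))
  have hpr : ∀ i, SeqContinuous (pr i) := by
    intro i x a hx
    rw [tendsto_pi_nhds] at hx ⊢
    intro k
    exact hx _
  refine ⟨{b | ∀ i, pr i b ∈ D i}, fun b => SP.mk fun i => δ i (pr i b), ?_, ?_, ?_⟩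
  · intro b a hb ha hba
    refine tendsto_SP_iff.mpr fun i => ?_
    exact hδ i (fun n => pr i (b n)) (pr i a) (fun n => hb n i) (ha i) (hpr i hba)
  · intro y
    choose b hb1 hb2 using fun i => hsurj i (y.get i)
    let b' : ℕ → Bool := fun m => match (Encodable.decode m : Option (ι × ℕ)) with
      | none => false
      | some p => b p.1 p.2
    have hb' : ∀ i, pr i b' = b i := by
      intro i
      funext k
      simp [pr, b', Encodable.encodek]
    refine ⟨b', fun i => ?_, ?_⟩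
    · rw [hb']
      exact hb1 i
    · apply SP.ext
      intro i
      simp only [SP.get_mk, hb', hb2]
  · have h3 : ({b | ∀ i, pr i b ∈ D i} : Set (ℕ → Bool))ᶜ = ⋃ i, (pr i) ⁻¹' (D i)ᶜ := by
      ext b
      simp
    rw [h3]
    apply Ana.iUnion' hN
    intro i
    exact ((hana i).of_onto (onto_proj i)).preimage (hpr i)

theorem onto_pow_SP [∀ i, Nonempty (Q i)] (h1 : Onto (SP Q) (SP fun i => SC (Q i)))
    (h2 : ∀ i, Onto (SC (Q i)) (ℕ → Q i)) : Onto (SP Q) (ℕ → SP Q) := by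
  refine h1.trans ?_
  choose g hg hg' using h2
  refine ⟨fun F n => SP.mk fun i => g i (F.get i) n, ?_, ?_⟩
  · intro x a hx
    rw [tendsto_pi_nhds]
    intro n
    refine tendsto_SP_iff.mpr fun i => ?_
    have := hg i (tendsto_SP_iff.mp hx i)
    rw [tendsto_pi_nhds] at this
    exact this n
  · intro y
    choose F hF using fun i => hg' i (fun n => (y n).get i)
    refine ⟨SP.mk F, ?_⟩
    funext n
    apply SP.ext
    intro i
    simp only [SP.get_mk, hF]

/-- The limit step. -/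
theorem Pack.limit [Countable ι] (i0 : ι) (hQ : ∀ i, Pack (Q i)) (σ : ι → ι)
    (hσ : Function.Injective σ) (hσQ : ∀ i, Onto (Q (σ i)) (SC (Q i))) :
    Pack (SP Q) ∧ Onto (SP Q) (ℕ → SP Q) ∧ Onto (SP Q) ℕ := by
  haveI : ∀ i, Nonempty (Q i) := fun i => (hQ i).ne
  haveI : Nonempty (SP Q) := ⟨SP.mk fun i => Classical.arbitrary (Q i)⟩
  have p1 : Retr (ℕ × SP Q) (SP Q) := retr_nat_SP i0 (hQ i0).p1
  have p2 : Retr (SP Q) (SC (SP Q)) := retr_SP_SC p1 fun i => (hQ i).p2
  have hSC : Onto (SP Q) (SP fun i => SC (Q i)) := onto_SP_SC σ hσ hσQ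
  have hSC' : Onto (SC (SP Q)) (SP fun i => SC (Q i)) := p2.onto.trans hSC
  refine ⟨⟨inferInstance, ?_, p1, p2, ?_, ?_⟩, ?_, ?_⟩
  · exact pb_SP (fun i => hSC'.trans (onto_proj i)) fun i => (hQ i).pb
  · exact paramSeq_SP hSC' fun i => (hQ i).p3
  · exact named_SP p1.onto fun i => (hQ i).p4
  · apply onto_pow_SP hSC
    intro i
    exact (retr_pow (hQ i).p1).onto.trans (hQ i).p2.onto.pow
  · refine p1.onto.trans ⟨fun p => p.1, ?_, ?_⟩
    · intro x p hx
      rw [Prod.tendsto_iff] at hx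
      exact hx.1
    · intro n
      exact ⟨(n, Classical.arbitrary _), rfl⟩

end

end Pool.Agent.Helper71.Qcb
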