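import Mathlib
import Pool.Agent.Helper71.QcbLimit

set_option autoImplicit false
set_option linter.style.haveILetI false

open Filter Topology TopologicalSpace Set

universe u v w v'

namespace Pool.Agent.Helper71.Qcb

section base

variable {Q : Type u} [TopologicalSpace Q] [DiscreteTopology Q]

theorem isSeqClosed_of_discrete (s : Set Q) : IsSeqClosed s := by
  intro x a hx ha
  rw [nhds_discrete, tendsto_pure] at ha
  obtain ⟨n, hn⟩ := ha.exists
  rw [← hn]
  exact hx n

theorem seqContinuous_of_discrete {A : Type v} [TopologicalSpace A] (f : Q → A) :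
    SeqContinuous f := by
  intro x a hx
  rw [nhds_discrete, tendsto_pure] at hx
  apply tendsto_nhds_of_eventually_eq
  filter_upwards [hx] with n hn
  simp [hn]

theorem pack_base (e : Q ≃ ℕ) : Pack Q := by
  classical
  haveI : Nonempty Q := ⟨e.symm 0⟩
  refine ⟨⟨e.symm 0⟩, ⟨fun i => {e.symm i}, ?_, fun i => isSeqClosed_of_discrete _,
    fun i => Ana.of_isSeqClosed (isSeqClosed_of_discrete _)⟩, ?_, ?_, ?_, ?_⟩
  · intro x a hx y hy
    rw [nhds_discrete, tendsto_pure] at hx
    rw [nhds_discrete, tendsto_pure]
    have h1 := hy (e a) (by simp) (by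
      filter_upwards [hx] with n hn
      simp [hn])
    filter_upwards [h1] with n hn
    simpa using hn
  · refine ⟨fun p => e.symm (Nat.pair p.1 (e p.2)),
      fun q => ((Nat.unpair (e q)).1, e.symm (Nat.unpair (e q)).2),
      seqContinuous_of_discrete _, seqContinuous_of_discrete _, ?_⟩
    rintro ⟨n, q⟩
    simp
  · refine ⟨fun q => SC.const (e q), fun F => e.symm (F (e.symm 0)), ?_, ?_, ?_⟩
    · intro x a hx
      rw [nhds_discrete, tendsto_pure] at hx
      apply SC.const_cont
      filter_upwards [hx] with n hn
      rw [hn]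
    · intro F f hF
      apply tendsto_nhds_of_eventually_eq
      filter_upwards [SC.tendsto_apply hF (e.symm 0)] with n hn
      simp only [Function.comp_apply]
      rw [hn]
    · intro q
      change e.symm (e q) = q
      simp
  · refine ⟨fun F n => if n < F (e.symm 0) then e.symm (F (e.symm (n + 2))) else
      e.symm (F (e.symm 1)), fun F => e.symm (F (e.symm 1)), ?_, ?_, ?_, ?_⟩
    · intro n F f hF
      apply tendsto_nhds_of_eventually_eq
      filter_upwards [SC.tendsto_apply hF (e.symm 0), SC.tendsto_apply hF (e.symm 1),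
        SC.tendsto_apply hF (e.symm (n + 2))] with k h0 h1 h2
      simp only [Function.comp_apply]
      rw [h0, h1, h2]
    · intro F f hF
      apply tendsto_nhds_of_eventually_eq
      filter_upwards [SC.tendsto_apply hF (e.symm 1)] with k h1
      simp only [Function.comp_apply]
      rw [h1]
    · intro F
      apply tendsto_nhds_of_eventually_eq
      filter_upwards [eventually_ge_atTop (F (e.symm 0))] with n hn
      simp [not_lt.mpr hn]
    · intro x a hx
      rw [nhds_discrete, tendsto_pure] at hx
      obtain ⟨N, hN⟩ := eventually_atTop.mp hx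
      let F : SC Q := ⟨fun q => if e q = 0 then N else if e q = 1 then e a else e (x (e q - 2)),
        seqContinuous_of_discrete _⟩
      have hF : ∀ q, F q = if e q = 0 then N else if e q = 1 then e a else e (x (e q - 2)) :=
        fun q => rfl
      refine ⟨F, ?_, ?_⟩
      · funext n
        simp only [hF, Equiv.apply_symm_apply]
        by_cases hn : n < N
        · simp [hn]
        · simp only [if_true, hn, if_false]
          simp [hN n (not_lt.mp hn)]
      · simp [hF]
  · refine ⟨{b | ∃ n, b n = true}, fun b => if h : ∃ n, b n = true then e.symm (Nat.find h)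
      else e.symm 0, ?_, ?_, ?_⟩
    · intro b a hb ha hba
      apply tendsto_nhds_of_eventually_eq
      have ha' : ∃ n, a n = true := ha
      filter_upwards [eventually_agree hba (Nat.find ha' + 1)] with n hn
      have hb' : ∃ k, b n k = true := hb n
      rw [dif_pos hb', dif_pos ha']
      congr 1
      apply le_antisymm
      · apply Nat.find_min'
        rw [hn _ (Nat.lt_succ_self _)]
        exact Nat.find_spec ha'
      · by_contra hlt
        rw [not_le] at hlt
        have h1 := Nat.find_spec hb'
        rw [hn _ (Nat.lt_succ_of_lt hlt)] at h1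
        exact Nat.find_min ha' hlt h1
    · intro q
      have hex : ∃ n, (fun n => decide (n = e q)) n = true := ⟨e q, by simp⟩
      refine ⟨fun n => decide (n = e q), hex, ?_⟩
      change (if h : ∃ n, (fun n => decide (n = e q)) n = true then e.symm (Nat.find h)
        else e.symm 0) = q
      rw [dif_pos hex]
      have h6 : decide (Nat.find hex = e q) = true := Nat.find_spec hex
      have h7 : Nat.find hex = e q := of_decide_eq_true h6
      rw [h7]
      simp
    · apply Ana.of_isSeqClosed
      intro x a hx ha hmem
      obtain ⟨k, hk⟩ := hmem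
      obtain ⟨n, hn⟩ := (eventually_agree ha (k + 1)).exists
      apply hx n
      exact ⟨k, by rw [hn _ (Nat.lt_succ_self _)]; exact hk⟩

end base

theorem countable_Iio {l : Ordinal.{0}} (hl : l < Ordinal.omega 1) : Countable (Iio l) := by
  rw [← Cardinal.mk_le_aleph0_iff, Cardinal.mk_Iio_ordinal]
  have h1 : l.card < Cardinal.aleph 1 := by
    rw [← Cardinal.lt_ord, Cardinal.ord_aleph]
    exact hl
  have h2 : l.card ≤ Cardinal.aleph0 := by
    rw [← Cardinal.succ_aleph0] at h1
    exact Order.lt_succ_iff.mp h1
  exact Cardinal.lift_le_aleph0.mpr h2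

/-- All relevant properties of the spaces `NN α`. -/
def Good (Y : TopCat.{1}) (α : Ordinal.{0}) : Prop :=
  SequentialSpace Y ∧ Pack Y ∧ (α ≠ 0 → Onto Y (ℕ → Y) ∧ Onto Y ℕ)

theorem good_NN (α : Ordinal.{0}) (hα : α < Ordinal.omega 1) : Good (NN α) α := by
  induction α using Ordinal.limitRecOn with
  | zero =>
    rw [NN_zero]
    refine ⟨?_, ?_, fun h => absurd rfl h⟩
    · change SequentialSpace (ULift.{1} ℕ)
      infer_instance
    · change Pack (ULift.{1} ℕ)
      exact pack_base Equiv.ulift
  | add_one β ih =>
    have hβ : β < Ordinal.omega 1 := lt_of_lt_of_le (Order.lt_add_one_iff.mpr le_rfl) hα.le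
    obtain ⟨h1, h2, -⟩ := ih hβ
    haveI := h1
    haveI := h2.ne
    rw [NN_succ]
    have h3 : expNat (NN β) = funSpace (NN β) fun f => SeqContinuous f := by
      unfold expNat
      congr 1
      funext f
      exact propext continuous_iff_seqContinuous
    rw [h3]
    refine ⟨?_, ?_, fun _ => ⟨?_, ?_⟩⟩
    · change SequentialSpace (SC (NN β))
      infer_instance
    · change Pack (SC (NN β))
      exact h2.succ
    · change Onto (SC (NN β)) (ℕ → SC (NN β))
      exact (retr_pow h2.p1).onto
    · change Onto (SC (NN β)) ℕ
      exact onto_nat_SC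
  | limit l hl ih =>
    have hc : Countable (Iio l) := countable_Iio hα
    have hsucc : ∀ a : Iio l, a.1 + 1 < l := fun a => hl.add_one_lt a.2
    let σ : Iio l → Iio l := fun a => ⟨a.1 + 1, hsucc a⟩
    have hσ : Function.Injective σ := by
      intro a b hab
      have h5 : a.1 + 1 = b.1 + 1 := congrArg Subtype.val hab
      exact Subtype.ext (by simpa using h5)
    have hgood : ∀ a : Iio l, Good (NN a.1) a.1 := fun a => ih a.1 a.2 (lt_trans a.2 hα)
    have h4 := Pack.limit (Q := fun a : Iio l => (NN a.1 : Type 1))
      ⟨0, hl.bot_lt⟩ (fun a => (hgood a).2.1) σ hσ (by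
        intro a
        change Onto (NN (a.1 + 1)) (SC (NN a.1))
        rw [NN_succ]
        haveI := (hgood a).1
        have h3 : expNat (NN a.1) = funSpace (NN a.1) fun f => SeqContinuous f := by
          unfold expNat
          congr 1
          funext f
          exact propext continuous_iff_seqContinuous
        rw [h3]
        exact Onto.refl)
    rw [NN_limit l hl]
    refine ⟨?_, h4.1, fun _ => h4.2⟩
    change SequentialSpace (SP fun a : Iio l => (NN a.1 : Type 1))
    infer_instance

/-- The main theorem, for all `1 ≤ α < ω₁`. -/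
theorem main (α : Ordinal.{0}) (h0 : α ≠ 0) (hα : α < Ordinal.omega 1) :
    Based (NN α) ⊂ SBased (NN α) := by
  obtain ⟨h1, h2, h3⟩ := good_NN α hα
  haveI := h1
  haveI := h2.ne
  obtain ⟨D, δ, hδ, hsurj, hD⟩ := h2.p4
  exact key δ hδ hsurj hD (h3 h0).2 (h3 h0).1

end Pool.Agent.Helper71.Qcb
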