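import Mathlib
import Pool.Agent.Helper71.QcbFinal

set_option autoImplicit false
set_option linter.style.haveILetI false

open Filter Topology TopologicalSpace Set

universe u v w v'

namespace Pool.Agent.Helper71.Qcb

/-- The point `none` of `XZ Z` is not isolated if `Z` is nonempty. -/
theorem not_isOpen_none {Z : Set (ℕ → Bool × Bool)} (hZ : Z.Nonempty) :
    ¬ IsOpen[topZ Z] ({none} : Set (Option Nd)) := by
  intro h
  obtain ⟨z, hz⟩ := hZ
  obtain ⟨n, hn⟩ := h rfl z hz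
  have h1 : Near z n ((List.range n).map z) := by
    intro k hk
    simp [hk]
  have h2 := hn _ h1
  simp at h2

theorem existsUnique_XZ {Z : Set (ℕ → Bool × Bool)} (hZ : Z.Nonempty) :
    ∃! x : XZ Z, ¬ IsOpen ({x} : Set (XZ Z)) := by
  refine ⟨(none : Option Nd), not_isOpen_none hZ, ?_⟩
  intro x hx
  change Option Nd at x
  rcases x with _ | i
  · rfl
  · exact absurd (isOpen_singleton_some (Z := Z) i) hx

theorem countable_XZ (Z : Set (ℕ → Bool × Bool)) : Countable (XZ Z) := by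
  change Countable (Option Nd)
  infer_instance

theorem t2_XZ (Z : Set (ℕ → Bool × Bool)) : T2Space (XZ Z) := by
  letI := topZ Z
  change T2Space (Option Nd)
  have key : ∀ (i : Nd) (y : Option Nd), y ≠ some i →
      ∃ u v : Set (Option Nd), IsOpen u ∧ IsOpen v ∧ some i ∈ u ∧ y ∈ v ∧ Disjoint u v := by
    intro i y hy
    refine ⟨{some i}, {some i}ᶜ, isOpen_singleton_some i, isOpen_compl_singleton_some i, rfl, ?_,
      disjoint_compl_right⟩
    simpa using hy
  refine ⟨?_⟩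
  intro x y hxy
  rcases x with _ | i
  · rcases y with _ | j
    · exact absurd rfl hxy
    · obtain ⟨u, v, hu, hv, h1, h2, h3⟩ := key j none (by simp)
      exact ⟨v, u, hv, hu, h2, h1, h3.symm⟩
  · exact key i y (Ne.symm hxy)

/-- The key theorem, with the witness. -/
theorem key_witness {Y : TopCat.{1}} [SequentialSpace Y] [Nonempty Y] {D : Set (ℕ → Bool)}
    (δ : (ℕ → Bool) → Y)
    (hδ : ∀ (b : ℕ → ℕ → Bool) (a : ℕ → Bool), (∀ n, b n ∈ D) → a ∈ D → Tendsto b atTop (𝓝 a) →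
      Tendsto (fun n => δ (b n)) atTop (𝓝 (δ a)))
    (hsurj : ∀ y, ∃ b ∈ D, δ b = y) (hD : Ana Y Dᶜ) (hN : Onto Y ℕ) (hI : Onto Y (ℕ → Y)) :
    ∃ X : TopCat.{0}, X ∈ SBased Y ∧ X ∉ Based Y ∧ Countable X ∧ T2Space X ∧
      ∃! x : X, ¬ IsOpen ({x} : Set X) := by
  have hpair : Onto Y (Y × Y) := by
    refine hI.trans ⟨fun x => (x 0, x 1), ?_, ?_⟩
    · intro x p hx
      rw [tendsto_pi_nhds] at hx
      exact Prod.tendsto_iff _ _ |>.mpr ⟨hx 0, hx 1⟩
    · rintro ⟨a, b⟩
      exact ⟨fun n => if n = 0 then a else b, by simp⟩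
  have hNY : Onto Y (ℕ × Y) := hpair.trans (hN.prod Onto.refl)
  have hbaire : Onto Y (ℕ → ℕ) := by
    refine hI.trans ?_
    obtain ⟨f, hf, hf'⟩ := hN
    refine ⟨fun x n => f (x n), ?_, ?_⟩
    · intro x p hx
      rw [tendsto_pi_nhds] at hx ⊢
      intro n
      exact hf (hx n)
    · intro g
      choose y hy using fun n => hf' (g n)
      exact ⟨y, funext hy⟩
  have hall : Onto Y (ℕ × (Y × (ℕ → ℕ))) :=
    hNY.trans (Onto.refl.prod (hpair.trans (Onto.refl.prod hbaire)))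
  have hDne : D.Nonempty := by
    obtain ⟨b, hb, -⟩ := hsurj (Classical.arbitrary Y)
    exact ⟨b, hb⟩
  have hZ : (Zset D).Nonempty := zset_nonempty hDne
  exact ⟨XZ (Zset D), sbased_of hZ (ana_zset_compl hD hNY) hall, not_based δ hδ hsurj,
    countable_XZ _, t2_XZ _, existsUnique_XZ hZ⟩

/-- The main theorem with a countable witness, for all `1 ≤ α < ω₁`. -/
theorem main_witness (α : Ordinal.{0}) (h0 : α ≠ 0) (hα : α < Ordinal.omega 1) :
    ∃ X : TopCat.{0}, X ∈ SBased (NN α) ∧ X ∉ Based (NN α) ∧ Countable X ∧ T2Space X ∧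
      ∃! x : X, ¬ IsOpen ({x} : Set X) := by
  obtain ⟨h1, h2, h3⟩ := good_NN α hα
  haveI := h1
  haveI := h2.ne
  obtain ⟨D, δ, hδ, hsurj, hD⟩ := h2.p4
  exact key_witness δ hδ hsurj hD (h3 h0).2 (h3 h0).1

end Pool.Agent.Helper71.Qcb
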