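import Mathlib

set_option autoImplicit false

/-!
# Submodular functions on a finite cube: local and lattice forms; separable functions
-/

namespace Pool.Agent.Helper71.Sub

open Finset

variable {α : Type} [DecidableEq α]

/-- Local form of submodularity, for integer valued functions. -/
def IsSub (f : Finset α → ℤ) : Prop :=
  ∀ (S : Finset α) (a b : α), a ∉ S → b ∉ S → a ≠ b →
    f S + f (insert a (insert b S)) ≤ f (insert a S) + f (insert b S)

/-- marginals decrease -/
theorem IsSub.marginal {f : Finset α → ℤ} (hf : IsSub f) (X S : Finset α) (a : α)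
    (ha : a ∉ S ∪ X) : f (insert a (S ∪ X)) - f (S ∪ X) ≤ f (insert a S) - f S := by
  induction X using Finset.induction_on with
  | empty => simp
  | insert b X hb ih =>
    have ha' : a ∉ S ∪ X := fun h => ha (by
      rw [union_insert]; exact mem_insert_of_mem h)
    have ih' := ih ha'
    by_cases hbS : b ∈ S ∪ X
    · have : S ∪ insert b X = S ∪ X := by
        rw [union_insert, insert_eq_of_mem hbS]
      rw [this]; exact ih'
    · have hab : a ≠ b := by
        rintro rfl; exact ha (by rw [union_insert]; exact mem_insert_self _ _)
      have h1 := hf (S ∪ X) a b ha' hbS hab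
      rw [union_insert]
      linarith

/-- lattice form -/
theorem IsSub.lattice {f : Finset α → ℤ} (hf : IsSub f) (A B : Finset α) :
    f (A ∪ B) + f (A ∩ B) ≤ f A + f B := by
  have key : ∀ X : Finset α, X ⊆ B \ A →
      f (A ∪ X) - f A ≤ f ((A ∩ B) ∪ X) - f (A ∩ B) := by
    intro X
    induction X using Finset.induction_on with
    | empty => simp
    | insert b X hb ih =>
      intro hX
      have hbm : b ∈ B \ A := hX (mem_insert_self _ _)
      have hX' : X ⊆ B \ A := fun x hx => hX (mem_insert_of_mem hx)
      have ih' := ih hX'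
      have hb1 : b ∉ A ∪ X := by
        simp only [mem_sdiff] at hbm
        simp [hb, hbm.2]
      have e1 : A ∪ X = ((A ∩ B) ∪ X) ∪ A := by
        ext x; simp only [mem_union, mem_inter]; tauto
      have h1 := hf.marginal A ((A ∩ B) ∪ X) b (by rw [← e1]; exact hb1)
      rw [← e1] at h1
      rw [union_insert, union_insert]
      linarith
  have h := key (B \ A) (Subset.refl _)
  have e1 : A ∪ (B \ A) = A ∪ B := by simp
  have e2 : (A ∩ B) ∪ (B \ A) = B := by
    ext x; simp only [mem_union, mem_inter, mem_sdiff]; tauto
  rw [e1, e2] at h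
  linarith

variable [Fintype α] {κ : Type} [Fintype κ] [DecidableEq κ]

/-- The component of `S` over `l`. -/
def part1 (comp : α → κ) (S : Finset α) (l : κ) : Finset α := S.filter fun a => comp a = l

/-- A separable function. -/
def sepf (comp : α → κ) (φ : κ → Finset α → ℤ) (S : Finset α) : ℤ := ∑ l, φ l (part1 comp S l)

omit [Fintype α] [Fintype κ] in
theorem mem_part1 {comp : α → κ} {S : Finset α} {l : κ} {a : α} :
    a ∈ part1 comp S l ↔ a ∈ S ∧ comp a = l := by
  simp [part1]

omit [Fintype α] [Fintype κ] in
theorem part1_union {comp : α → κ} (A B : Finset α) (l : κ) :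
    part1 comp (A ∪ B) l = part1 comp A l ∪ part1 comp B l := by
  ext x; simp only [mem_part1, mem_union]; tauto

omit [Fintype α] [Fintype κ] in
theorem part1_inter {comp : α → κ} (A B : Finset α) (l : κ) :
    part1 comp (A ∩ B) l = part1 comp A l ∩ part1 comp B l := by
  ext x; simp only [mem_part1, mem_inter]; tauto

omit [Fintype α] in
/-- Separable functions are modular on pairs that are comparable in each component. -/
theorem sepf_modular (comp : α → κ) (φ : κ → Finset α → ℤ) (A B : Finset α)
    (h : ∀ l, part1 comp A l ⊆ part1 comp B l ∨ part1 comp B l ⊆ part1 comp A l) :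
    sepf comp φ (A ∪ B) + sepf comp φ (A ∩ B) = sepf comp φ A + sepf comp φ B := by
  unfold sepf
  rw [← sum_add_distrib, ← sum_add_distrib]
  refine sum_congr rfl fun l _ => ?_
  rw [part1_union, part1_inter]
  rcases h l with h | h
  · rw [union_eq_right.2 h, inter_eq_left.2 h]; ring
  · rw [union_eq_left.2 h, inter_eq_right.2 h]

end Pool.Agent.Helper71.Sub
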