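import Mathlib
import Pool.Agent.Helper71.SubLat

set_option autoImplicit false
set_option linter.unusedSectionVars false

/-!
# Coarse rigidity

A submodular function which agrees approximately with a separable function `F = ∑ φ_l(S_l)`,
`φ_l(∅) = φ_l(C_l) = 0`, outside a small set and whose values at `∅` and at the full set are not
much smaller than `0` is everywhere close to `F`.
-/

namespace Pool.Agent.Helper71.Sub

open Finset

variable {α : Type} [DecidableEq α] [Fintype α] {κ : Type} [Fintype κ] [DecidableEq κ]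

/-- The full component. -/
def fib (comp : α → κ) (l : κ) : Finset α := univ.filter fun a => comp a = l

theorem mem_fib {comp : α → κ} {l : κ} {a : α} : a ∈ fib comp l ↔ comp a = l := by simp [fib]

theorem exists_good (comp : α → κ) (D : Finset (Finset α)) (l : κ)
    (hD : D.card * (2 + ∑ l' : κ, 2 ^ (fib comp l').card) * 2 ^ (fib comp l).card
      < 2 ^ Fintype.card α) (X : Finset α) (hX : X ⊆ fib comp l) :
    ∃ Q : Finset α, Q ⊆ (fib comp l)ᶜ ∧ Q ∉ D ∧ X ∪ Q ∉ D ∧
      ∀ l', l' ≠ l → (X ∪ Q) \ fib comp l' ∉ D := by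
  by_contra hcon
  push Not at hcon
  set P : Finset (Finset α) := (fib comp l)ᶜ.powerset with hP
  have hPc : P.card * 2 ^ (fib comp l).card = 2 ^ Fintype.card α := by
    rw [hP, card_powerset, ← pow_add, card_compl,
      Nat.sub_add_cancel (Finset.card_le_univ _)]
  have hcover : P ⊆ (P.filter fun Q => Q ∈ D) ∪ (P.filter fun Q => X ∪ Q ∈ D) ∪
      (univ : Finset κ).biUnion fun l' => P.filter fun Q => (X ∪ Q) \ fib comp l' ∈ D := by
    intro Q hQ
    by_cases h1 : Q ∈ D
    · exact mem_union_left _ (mem_union_left _ (mem_filter.2 ⟨hQ, h1⟩))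
    by_cases h2 : X ∪ Q ∈ D
    · exact mem_union_left _ (mem_union_right _ (mem_filter.2 ⟨hQ, h2⟩))
    obtain ⟨l', -, h3⟩ := hcon Q (mem_powerset.1 hQ) h1 h2
    exact mem_union_right _ (mem_biUnion.2 ⟨l', mem_univ _, mem_filter.2 ⟨hQ, h3⟩⟩)
  have hXQ : ∀ Q ∈ P, (X ∪ Q) \ fib comp l = Q := by
    intro Q hQ
    have hQ' := mem_powerset.1 hQ
    ext a
    simp only [mem_sdiff, mem_union]
    constructor
    · rintro ⟨h | h, h'⟩
      · exact absurd (hX h) h'
      · exact h
    · intro h
      exact ⟨Or.inr h, fun h' => (mem_compl.1 (hQ' h)) h'⟩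
  have c1 : (P.filter fun Q => Q ∈ D).card ≤ D.card :=
    card_le_card fun Q hQ => (mem_filter.1 hQ).2
  have c2 : (P.filter fun Q => X ∪ Q ∈ D).card ≤ D.card := by
    refine card_le_card_of_injOn (fun Q => X ∪ Q) (fun Q hQ => (mem_filter.1 hQ).2) ?_
    intro Q hQ Q' hQ' h
    have h1 := hXQ Q (mem_filter.1 hQ).1
    have h2 := hXQ Q' (mem_filter.1 hQ').1
    simp only at h
    rw [h] at h1
    exact h1.symm.trans h2
  have c3 : ∀ l' : κ, (P.filter fun Q => (X ∪ Q) \ fib comp l' ∈ D).card ≤
      D.card * 2 ^ (fib comp l').card := by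
    intro l'
    rw [← card_powerset, ← card_product]
    refine card_le_card_of_injOn
      (fun Q => ((X ∪ Q) \ fib comp l', (X ∪ Q) ∩ fib comp l')) ?_ ?_
    · intro Q hQ
      exact mem_coe.2 (mem_product.2 ⟨(mem_filter.1 hQ).2, mem_powerset.2 inter_subset_right⟩)
    · intro Q hQ Q' hQ' h
      have h1 := hXQ Q (mem_filter.1 hQ).1
      have h2 := hXQ Q' (mem_filter.1 hQ').1
      simp only [Prod.mk.injEq] at h
      have h3 : X ∪ Q = X ∪ Q' := by
        rw [← sdiff_union_inter (X ∪ Q) (fib comp l'), h.1, h.2, sdiff_union_inter]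
      rw [h3] at h1
      exact h1.symm.trans h2
  have c4 : P.card ≤ D.card * (2 + ∑ l' : κ, 2 ^ (fib comp l').card) := by
    calc P.card ≤ _ := card_le_card hcover
      _ ≤ (P.filter fun Q => Q ∈ D).card + (P.filter fun Q => X ∪ Q ∈ D).card +
          ((univ : Finset κ).biUnion fun l' =>
            P.filter fun Q => (X ∪ Q) \ fib comp l' ∈ D).card :=
          (card_union_le _ _).trans (Nat.add_le_add_right (card_union_le _ _) _)
      _ ≤ D.card + D.card + ∑ l' : κ, D.card * 2 ^ (fib comp l').card := by
          refine Nat.add_le_add (Nat.add_le_add c1 c2) ?_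
          exact card_biUnion_le.trans (sum_le_sum fun l' _ => c3 l')
      _ = _ := by rw [← mul_sum]; ring
  have := Nat.mul_le_mul_right (2 ^ (fib comp l).card) c4
  rw [hPc] at this
  omega

/-- `h(A ∪ B) + h(A ∩ B) ≤ h(A) + h(B)` for pairs comparable in every component. -/
def CrossSub (comp : α → κ) (h : Finset α → ℤ) : Prop :=
  ∀ A B : Finset α, (∀ l, part1 comp A l ⊆ part1 comp B l ∨ part1 comp B l ⊆ part1 comp A l) →
    h (A ∪ B) + h (A ∩ B) ≤ h A + h B

theorem crossSub_of (comp : α → κ) (φ : κ → Finset α → ℤ) (g : Finset α → ℤ) (hg : IsSub g) :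
    CrossSub comp (fun S => g S - sepf comp φ S) := by
  intro A B hAB
  have h1 := hg.lattice A B
  have h2 := sepf_modular comp φ A B hAB
  simp only
  linarith

section
variable (comp : α → κ) (h : Finset α → ℤ) (hc : CrossSub comp h) (σ : ℤ) (hσ : 0 ≤ σ)
  (h0 : -σ ≤ h ∅) (h1 : -σ ≤ h univ) (D : Finset (Finset α)) (hD : ∀ S ∉ D, |h S| ≤ σ)
  (hcard : ∀ l, D.card * (2 + ∑ l' : κ, 2 ^ (fib comp l').card) * 2 ^ (fib comp l).card
      < 2 ^ Fintype.card α)
include hc hσ h0 hD hcard

theorem small_ge (l : κ) (X : Finset α) (hX : X ⊆ fib comp l) : -(3 * σ) ≤ h X := by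
  obtain ⟨Q, hQ, q1, q2, -⟩ := exists_good comp D l (hcard l) X hX
  have e : X ∩ Q = ∅ := by
    ext a
    simp only [mem_inter, notMem_empty, iff_false, not_and]
    intro ha ha'
    exact (mem_compl.1 (hQ ha')) (hX ha)
  have h2 := hc X Q (by
    intro l'
    by_cases hl : l' = l
    · right
      intro a ha
      rw [mem_part1] at ha
      exact absurd (mem_fib.2 (ha.2.trans hl)) (mem_compl.1 (hQ ha.1))
    · left
      intro a ha
      rw [mem_part1] at ha
      exact absurd (ha.2.symm.trans (mem_fib.1 (hX ha.1))) hl)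
  rw [e] at h2
  have h3 := abs_le.1 (hD Q q1)
  have h4 := abs_le.1 (hD _ q2)
  linarith [h3.2, h4.1]

theorem small_le (l : κ) (X : Finset α) (hX : X ⊆ fib comp l) :
    h X ≤ (2 * Fintype.card κ + 1) * σ := by
  obtain ⟨Q, hQ, q1, q2, q3⟩ := exists_good comp D l (hcard l) X hX
  set y := X ∪ Q with hy
  have key : ∀ J : Finset κ, l ∉ J →
      h (y.filter fun a => comp a ∉ J) ≤ h y + J.card * (2 * σ) := by
    intro J
    induction J using Finset.induction_on with
    | empty => intro _; simp
    | insert l' J hl' ih =>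
      intro hl
      rw [mem_insert, not_or] at hl
      have ih' := ih hl.2
      have e1 : (y.filter fun a => comp a ∉ J) ∪ (y \ fib comp l') = y := by
        ext a
        simp only [mem_union, mem_filter, mem_sdiff, mem_fib]
        constructor
        · rintro (⟨h, -⟩ | ⟨h, -⟩) <;> exact h
        · intro ha
          by_cases hh : comp a = l'
          · left; exact ⟨ha, by rw [hh]; exact hl'⟩
          · right; exact ⟨ha, hh⟩
      have e2 : (y.filter fun a => comp a ∉ J) ∩ (y \ fib comp l') =
          y.filter fun a => comp a ∉ insert l' J := by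
        ext a
        simp only [mem_inter, mem_filter, mem_sdiff, mem_fib, mem_insert, not_or]
        tauto
      have h2 := hc (y.filter fun a => comp a ∉ J) (y \ fib comp l') (by
        intro c
        by_cases hcJ : c ∈ J
        · left
          intro a ha
          rw [mem_part1, mem_filter] at ha
          exact absurd (ha.2 ▸ hcJ) ha.1.2
        · right
          intro a ha
          rw [mem_part1, mem_sdiff] at ha
          rw [mem_part1, mem_filter]
          exact ⟨⟨ha.1.1, ha.2 ▸ hcJ⟩, ha.2⟩)
      rw [e1, e2] at h2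
      have h3 := abs_le.1 (hD _ (q3 l' (Ne.symm hl.1)))
      have h4 := abs_le.1 (hD _ q2)
      rw [card_insert_of_notMem hl']
      push_cast
      linarith [h3.2, h4.1]
  have e : y.filter (fun a => comp a ∉ (univ.erase l : Finset κ)) = X := by
    ext a
    simp only [mem_filter, mem_erase, mem_univ, and_true, not_not, hy, mem_union]
    constructor
    · rintro ⟨h | h, h'⟩
      · exact h
      · exact absurd (mem_fib.2 h') (mem_compl.1 (hQ h))
    · intro h
      exact ⟨Or.inl h, mem_fib.1 (hX h)⟩
  have k := key (univ.erase l) (notMem_erase _ _)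
  rw [e] at k
  have h4 := abs_le.1 (hD _ q2)
  have hcd : ((univ.erase l : Finset κ).card : ℤ) ≤ Fintype.card κ := by
    exact_mod_cast Finset.card_le_univ _
  have : ((univ.erase l : Finset κ).card : ℤ) * (2 * σ) ≤ Fintype.card κ * (2 * σ) :=
    mul_le_mul_of_nonneg_right hcd (by linarith)
  linarith [h4.2]

include h1 in
theorem rigid_ge (S : Finset α) :
    -((2 * (Fintype.card κ : ℤ) ^ 2 + 4 * Fintype.card κ + 1) * σ) ≤ h S := by
  have key : ∀ J : Finset κ, h (S ∪ univ.filter fun a => comp a ∈ J) ≤
      h S + J.card * ((2 * Fintype.card κ + 4) * σ) := by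
    intro J
    induction J using Finset.induction_on with
    | empty => simp
    | insert l J hl ih =>
      set T := S ∪ univ.filter fun a => comp a ∈ J with hT
      have e1 : T ∪ fib comp l = S ∪ univ.filter fun a => comp a ∈ insert l J := by
        ext a
        simp only [hT, mem_union, mem_filter, mem_univ, true_and, mem_insert, mem_fib]
        tauto
      have h2 := hc T (fib comp l) (by
        intro c
        by_cases hcl : c = l
        · left
          intro a ha
          rw [mem_part1] at ha ⊢
          exact ⟨mem_fib.2 (ha.2.trans hcl), ha.2⟩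
        · right
          intro a ha
          rw [mem_part1, mem_fib] at ha
          exact absurd (ha.2.symm.trans ha.1) hcl)
      rw [e1] at h2
      have h3 := small_ge comp h hc σ hσ h0 D hD hcard l (T ∩ fib comp l) inter_subset_right
      have h4 := small_le comp h hc σ hσ h0 D hD hcard l (fib comp l) (Subset.refl _)
      rw [card_insert_of_notMem hl]
      push_cast
      linarith
  have k := key univ
  have e : S ∪ (univ.filter fun a => comp a ∈ (univ : Finset κ)) = univ := by
    ext a; simp
  rw [e, card_univ] at k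
  have : (Fintype.card κ : ℤ) * ((2 * Fintype.card κ + 4) * σ) =
      (2 * (Fintype.card κ : ℤ) ^ 2 + 4 * Fintype.card κ) * σ := by ring
  linarith

theorem rigid_le [Nonempty κ] (S : Finset α) :
    h S ≤ (2 * (Fintype.card κ : ℤ) ^ 2 + 4 * Fintype.card κ + 1) * σ := by
  have key : ∀ J : Finset κ, h (S.filter fun a => comp a ∈ J) + J.card * h ∅ ≤
      h ∅ + J.card * ((2 * Fintype.card κ + 1) * σ) := by
    intro J
    induction J using Finset.induction_on with
    | empty => simp
    | insert l J hl ih =>
      have e1 : (S.filter fun a => comp a ∈ J) ∪ (S ∩ fib comp l) =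
          S.filter fun a => comp a ∈ insert l J := by
        ext a
        simp only [mem_union, mem_filter, mem_inter, mem_insert, mem_fib]
        tauto
      have e2 : (S.filter fun a => comp a ∈ J) ∩ (S ∩ fib comp l) = ∅ := by
        ext a
        simp only [mem_filter, mem_inter, mem_fib, notMem_empty, iff_false]
        rintro ⟨⟨-, h2⟩, -, h3⟩
        exact hl (h3 ▸ h2)
      have h2 := hc (S.filter fun a => comp a ∈ J) (S ∩ fib comp l) (by
        intro c
        by_cases hcl : c = l
        · left
          intro a ha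
          rw [mem_part1, mem_filter] at ha
          exact absurd (hcl ▸ (ha.2 ▸ ha.1.2)) hl
        · right
          intro a ha
          rw [mem_part1, mem_inter, mem_fib] at ha
          exact absurd (ha.2.symm.trans ha.1.2) hcl)
      rw [e1, e2] at h2
      have h4 := small_le comp h hc σ hσ h0 D hD hcard l (S ∩ fib comp l) inter_subset_right
      rw [card_insert_of_notMem hl]
      push_cast
      linarith
  have k := key univ
  have e : (S.filter fun a => comp a ∈ (univ : Finset κ)) = S := by
    ext a; simp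
  rw [e, card_univ] at k
  have hk : (1 : ℤ) ≤ Fintype.card κ := by exact_mod_cast Fintype.card_pos
  have h5 : ((Fintype.card κ : ℤ) - 1) * (-σ) ≤ ((Fintype.card κ : ℤ) - 1) * h ∅ :=
    mul_le_mul_of_nonneg_left h0 (by linarith)
  have h6 : (Fintype.card κ : ℤ) * ((2 * Fintype.card κ + 1) * σ) =
      (2 * (Fintype.card κ : ℤ) ^ 2 + Fintype.card κ) * σ := by ring
  have h7 : (0:ℤ) ≤ Fintype.card κ * σ := by positivity
  nlinarith

end

/-- **Coarse rigidity.** -/
theorem rigidity [Nonempty κ] (comp : α → κ) (φ : κ → Finset α → ℤ)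
    (hφ0 : ∀ l, φ l ∅ = 0) (hφ1 : ∀ l, φ l (fib comp l) = 0)
    (g : Finset α → ℤ) (hg : IsSub g) (σ : ℤ) (hσ : 0 ≤ σ)
    (h0 : -σ ≤ g ∅) (h1 : -σ ≤ g univ) (D : Finset (Finset α))
    (hD : ∀ S ∉ D, |g S - sepf comp φ S| ≤ σ)
    (hcard : ∀ l, D.card * (2 + ∑ l' : κ, 2 ^ (fib comp l').card) * 2 ^ (fib comp l).card
      < 2 ^ Fintype.card α) (S : Finset α) :
    |g S - sepf comp φ S| ≤ (2 * (Fintype.card κ : ℤ) ^ 2 + 4 * Fintype.card κ + 1) * σ := by
  have e0 : sepf comp φ ∅ = 0 := by
    unfold sepf
    refine sum_eq_zero fun l _ => ?_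
    have : part1 comp (∅ : Finset α) l = ∅ := by ext; simp [mem_part1]
    rw [this, hφ0]
  have e1 : sepf comp φ univ = 0 := by
    unfold sepf
    refine sum_eq_zero fun l _ => ?_
    have : part1 comp (univ : Finset α) l = fib comp l := by ext; simp [mem_part1, mem_fib]
    rw [this, hφ1]
  have hc := crossSub_of comp φ g hg
  have a0 : -σ ≤ (fun S => g S - sepf comp φ S) ∅ := by simp only [e0]; linarith
  have a1 : -σ ≤ (fun S => g S - sepf comp φ S) univ := by simp only [e1]; linarith
  rw [abs_le]
  exact ⟨rigid_ge comp _ hc σ hσ a0 a1 D hD hcard S, rigid_le comp _ hc σ hσ a0 D hD hcard S⟩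

end Pool.Agent.Helper71.Sub
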