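import Mathlib
import Pool.Agent.Helper71.SubRigid

set_option autoImplicit false
set_option linter.unusedSectionVars false

/-!
# The coarse function
-/

namespace Pool.Agent.Helper71.Sub

open Finset

variable {α : Type} [DecidableEq α] [Fintype α] {κ : Type} [Fintype κ] [DecidableEq κ]

/-- Binary weights. -/
noncomputable def wt (a : α) : ℤ := 2 ^ (Fintype.equivFin α a).val

/-- Weight of a set. -/
noncomputable def wsum (S : Finset α) : ℤ := ∑ a ∈ S, wt a

theorem wt_nonneg (a : α) : 0 ≤ wt a := by unfold wt; positivity

theorem wsum_nonneg (S : Finset α) : 0 ≤ wsum S := sum_nonneg fun a _ => wt_nonneg a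

theorem wsum_mono {S T : Finset α} (h : S ⊆ T) : wsum S ≤ wsum T :=
  sum_le_sum_of_subset_of_nonneg h fun a _ _ => wt_nonneg a

theorem wsum_injective : Function.Injective (wsum : Finset α → ℤ) := by
  intro S T h
  unfold wsum wt at h
  have key : ∀ S : Finset α, ∑ a ∈ S, (2 : ℤ) ^ (Fintype.equivFin α a).val =
      ((∑ i ∈ S.map ((Fintype.equivFin α).toEmbedding.trans Fin.valEmbedding), 2 ^ i : ℕ) : ℤ) := by
    intro S
    rw [sum_map]
    push_cast
    rfl
  rw [key, key] at h
  have h2 := Finset.geomSum_injective (le_refl 2) (by exact_mod_cast h)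
  exact map_injective _ h2

/-- The big constant. -/
noncomputable def bigM (α : Type) [DecidableEq α] [Fintype α] : ℤ := wsum (univ : Finset α) + 1

/-- The coarse function on one component. -/
noncomputable def phi0 (comp : α → κ) (l : κ) (X : Finset α) : ℤ :=
  bigM α * ((X.card : ℤ) * ((fib comp l).card - X.card)) + if X = fib comp l then 0 else wsum X

/-- The coarse function. -/
noncomputable def fc (comp : α → κ) (S : Finset α) : ℤ := sepf comp (phi0 comp) S

theorem phi0_empty (comp : α → κ) (l : κ) : phi0 comp l ∅ = 0 := by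
  unfold phi0
  split_ifs <;> simp [wsum]

theorem phi0_fib (comp : α → κ) (l : κ) : phi0 comp l (fib comp l) = 0 := by
  unfold phi0
  simp

theorem bigM_pos : 0 < bigM α := by
  unfold bigM
  have := wsum_nonneg (univ : Finset α)
  linarith

theorem part1_subset (comp : α → κ) (S : Finset α) (l : κ) : part1 comp S l ⊆ fib comp l :=
  fun a ha => mem_fib.2 (mem_part1.1 ha).2

theorem phi0_nonneg (comp : α → κ) (S : Finset α) (l : κ) : 0 ≤ phi0 comp l (part1 comp S l) := by
  unfold phi0
  have h1 : ((part1 comp S l).card : ℤ) ≤ (fib comp l).card := by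
    exact_mod_cast card_le_card (part1_subset comp S l)
  have h2 : (0 : ℤ) ≤ (part1 comp S l).card := by positivity
  have h3 : 0 ≤ bigM α * (((part1 comp S l).card : ℤ) *
      ((fib comp l).card - (part1 comp S l).card)) :=
    mul_nonneg bigM_pos.le (mul_nonneg h2 (by linarith))
  split_ifs
  · linarith
  · have := wsum_nonneg (part1 comp S l)
    linarith

theorem fc_nonneg (comp : α → κ) (S : Finset α) : 0 ≤ fc comp S :=
  sum_nonneg fun l _ => phi0_nonneg comp S l

theorem part1_insert_same (comp : α → κ) (S : Finset α) (a : α) :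
    part1 comp (insert a S) (comp a) = insert a (part1 comp S (comp a)) := by
  ext x; simp only [mem_part1, mem_insert]
  constructor
  · rintro ⟨h | h, h2⟩
    · exact Or.inl h
    · exact Or.inr ⟨h, h2⟩
  · rintro (h | ⟨h, h2⟩)
    · exact ⟨Or.inl h, by rw [h]⟩
    · exact ⟨Or.inr h, h2⟩

theorem part1_insert_ne (comp : α → κ) (S : Finset α) (a : α) (l : κ) (h : comp a ≠ l) :
    part1 comp (insert a S) l = part1 comp S l := by
  ext x; simp only [mem_part1, mem_insert]
  constructor
  · rintro ⟨h1 | h1, h2⟩
    · exact absurd (h1 ▸ h2) h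
    · exact ⟨h1, h2⟩
  · rintro ⟨h1, h2⟩
    exact ⟨Or.inr h1, h2⟩

/-- cross pairs: equality -/
theorem sepf_cross (comp : α → κ) (φ : κ → Finset α → ℤ) (S : Finset α) (a b : α) (ha : a ∉ S)
    (hb : b ∉ S) (hab : comp a ≠ comp b) :
    sepf comp φ (insert a (insert b S)) + sepf comp φ S =
      sepf comp φ (insert a S) + sepf comp φ (insert b S) := by
  have hne : a ≠ b := fun h => hab (by rw [h])
  have e1 : insert a S ∪ insert b S = insert a (insert b S) := by
    ext x; simp only [mem_union, mem_insert]; tauto
  have e2 : insert a S ∩ insert b S = S := by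
    ext x; simp only [mem_inter, mem_insert]
    constructor
    · rintro ⟨h1 | h1, h2 | h2⟩
      · exact absurd (h1.symm.trans h2) hne
      · exact h2
      · exact h1
      · exact h1
    · intro h; exact ⟨Or.inr h, Or.inr h⟩
  have h := sepf_modular comp φ (insert a S) (insert b S) (by
    intro l
    by_cases h1 : comp a = l
    · right
      rw [part1_insert_ne comp S b l (fun h2 => hab (h1.trans h2.symm))]
      intro x hx
      rw [mem_part1] at hx ⊢
      exact ⟨mem_insert_of_mem hx.1, hx.2⟩
    · left
      rw [part1_insert_ne comp S a l h1]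
      intro x hx
      rw [mem_part1] at hx ⊢
      exact ⟨mem_insert_of_mem hx.1, hx.2⟩)
  rw [e1, e2] at h
  exact h

/-- pairs in one component: slack at least 2 -/
theorem fc_inner (comp : α → κ) (S : Finset α) (a b : α) (ha : a ∉ S)
    (hb : b ∉ S) (hne : a ≠ b) (hab : comp a = comp b) :
    fc comp S + fc comp (insert a (insert b S)) + 2 ≤ fc comp (insert a S) + fc comp (insert b S) := by
  unfold fc sepf
  set l := comp a with hl
  have hmem : l ∈ (univ : Finset κ) := mem_univ _
  rw [← add_sum_erase univ _ hmem, ← add_sum_erase univ _ hmem, ← add_sum_erase univ _ hmem,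
    ← add_sum_erase univ (fun l => phi0 comp l (part1 comp (insert b S) l)) hmem]
  have e1 : ∑ x ∈ univ.erase l, phi0 comp x (part1 comp (insert a (insert b S)) x) =
      ∑ x ∈ univ.erase l, phi0 comp x (part1 comp S x) := by
    refine sum_congr rfl fun x hx => ?_
    have hx' := (mem_erase.1 hx).1
    rw [part1_insert_ne comp _ a x (Ne.symm hx'), part1_insert_ne comp _ b x
      (fun h => hx' (h.symm.trans hab.symm))]
  have e2 : ∑ x ∈ univ.erase l, phi0 comp x (part1 comp (insert a S) x) =
      ∑ x ∈ univ.erase l, phi0 comp x (part1 comp S x) := by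
    refine sum_congr rfl fun x hx => ?_
    have hx' := (mem_erase.1 hx).1
    rw [part1_insert_ne comp _ a x (Ne.symm hx')]
  have e3 : ∑ x ∈ univ.erase l, phi0 comp x (part1 comp (insert b S) x) =
      ∑ x ∈ univ.erase l, phi0 comp x (part1 comp S x) := by
    refine sum_congr rfl fun x hx => ?_
    have hx' := (mem_erase.1 hx).1
    rw [part1_insert_ne comp _ b x (fun h => hx' (h.symm.trans hab.symm))]
  rw [e1, e2, e3]
  have p1 : part1 comp (insert a S) l = insert a (part1 comp S l) := by
    rw [hl]; exact part1_insert_same comp S a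
  have p2 : part1 comp (insert b S) l = insert b (part1 comp S l) := by
    have := part1_insert_same comp S b
    rw [← hab] at this; exact this
  have p3 : part1 comp (insert a (insert b S)) l = insert a (insert b (part1 comp S l)) := by
    have := part1_insert_same comp (insert b S) a
    rw [← hl] at this
    rw [this, p2]
  rw [p1, p2, p3]
  set X := part1 comp S l with hX
  have haX : a ∉ X := fun h => ha (mem_part1.1 h).1
  have hbX : b ∉ X := fun h => hb (mem_part1.1 h).1
  have haf : a ∈ fib comp l := mem_fib.2 rfl
  have hbf : b ∈ fib comp l := mem_fib.2 hab.symm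
  have habX : a ∉ insert b X := by simp [hne, haX]
  have hbaX : b ∉ insert a X := by simp [Ne.symm hne, hbX]
  unfold phi0
  rw [if_neg (fun h : X = fib comp l => haX (h ▸ haf)),
    if_neg (fun h : insert a X = fib comp l => hbaX (h ▸ hbf)),
    if_neg (fun h : insert b X = fib comp l => habX (h ▸ haf))]
  rw [card_insert_of_notMem habX, card_insert_of_notMem haX, card_insert_of_notMem hbX]
  have w1 : wsum (insert a X) = wt a + wsum X := sum_insert haX
  have w2 : wsum (insert b X) = wt b + wsum X := sum_insert hbX
  have w3 : wsum (insert a (insert b X)) = wt a + (wt b + wsum X) := by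
    unfold wsum; rw [sum_insert habX, sum_insert hbX]
  have w4 : (if insert a (insert b X) = fib comp l then 0 else wsum (insert a (insert b X))) ≤
      wt a + (wt b + wsum X) := by
    split_ifs
    · have := wt_nonneg a; have := wt_nonneg b; have := wsum_nonneg X; linarith
    · rw [w3]
  rw [w1, w2]
  have hM : 1 ≤ bigM α := bigM_pos
  push_cast
  nlinarith

/-- the part of `S` in components that are not full -/
def core (comp : α → κ) (S : Finset α) : Finset α :=
  S.filter fun a => part1 comp S (comp a) ≠ fib comp (comp a)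

theorem wsum_core (comp : α → κ) (S : Finset α) :
    wsum (core comp S) = ∑ l, if part1 comp S l = fib comp l then 0 else wsum (part1 comp S l) := by
  have h1 : ∀ l : κ, (if part1 comp S l = fib comp l then 0 else wsum (part1 comp S l)) =
      ∑ a ∈ core comp S with comp a = l, wt a := by
    intro l
    by_cases h : part1 comp S l = fib comp l
    · rw [if_pos h, sum_eq_zero]
      intro a ha
      rw [mem_filter, core, mem_filter] at ha
      exact absurd (by rw [ha.2]; exact h) ha.1.2
    · rw [if_neg h, wsum]
      refine sum_congr ?_ fun _ _ => rfl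
      ext a
      rw [mem_part1, mem_filter, core, mem_filter]
      constructor
      · rintro ⟨h1, h2⟩
        exact ⟨⟨h1, by rw [h2]; exact h⟩, h2⟩
      · rintro ⟨⟨h1, -⟩, h2⟩
        exact ⟨h1, h2⟩
  rw [sum_congr rfl fun l _ => h1 l, sum_fiberwise]
  rfl

/-- `S` is guarded: no component of `S` is empty or full. -/
def Guarded (comp : α → κ) (S : Finset α) : Prop :=
  ∀ l, (∃ a ∈ S, comp a = l) ∧ ∃ b, b ∉ S ∧ comp b = l

theorem fc_eq_iff (comp : α → κ) (S S' : Finset α) (hS : Guarded comp S)
    (h : fc comp S' = fc comp S) : S' = S := by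
  have dec : ∀ T : Finset α, fc comp T = bigM α *
      (∑ l, ((part1 comp T l).card : ℤ) * ((fib comp l).card - (part1 comp T l).card)) +
      wsum (core comp T) := by
    intro T
    rw [wsum_core, mul_sum, ← sum_add_distrib]
    rfl
  have hb : ∀ T : Finset α, 0 ≤ wsum (core comp T) ∧ wsum (core comp T) < bigM α := by
    intro T
    refine ⟨wsum_nonneg _, ?_⟩
    have := wsum_mono (subset_univ (core comp T))
    unfold bigM; linarith
  rw [dec, dec] at h
  have hw : wsum (core comp S') = wsum (core comp S) := by
    have h1 := hb S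
    have h2 := hb S'
    have h3 := congrArg (· % bigM α) h
    simp only [Int.mul_add_emod_self_left] at h3
    rwa [Int.emod_eq_of_lt h2.1 h2.2, Int.emod_eq_of_lt h1.1 h1.2] at h3
  have hc := wsum_injective hw
  have hcS : core comp S = S := by
    unfold core
    refine filter_true_of_mem fun a _ hfull => ?_
    obtain ⟨b, hb1, hb2⟩ := (hS (comp a)).2
    have : b ∈ part1 comp S (comp a) := by rw [hfull]; exact mem_fib.2 hb2
    exact hb1 (mem_part1.1 this).1
  rw [hcS] at hc
  apply Subset.antisymm
  · intro a ha
    obtain ⟨a0, ha0, hl⟩ := (hS (comp a)).1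
    rw [← hc] at ha0 ⊢
    unfold core at ha0 ⊢
    rw [mem_filter] at ha0 ⊢
    rw [hl] at ha0
    exact ⟨ha, ha0.2⟩
  · intro a ha
    rw [← hc] at ha
    exact (mem_filter.1 ha).1

end Pool.Agent.Helper71.Sub
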