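import Mathlib
import Pool.Agent.Helper71.SubCoarse
import Pool.Agent.Helper71.SubCodeDefs

set_option autoImplicit false
set_option linter.unusedSectionVars false

/-!
# The fine function: definitions and basic lemmas
-/

namespace Pool.Agent.Helper71.Sub

open Finset

/-- Coordinates of the cube. -/
inductive Co (t t' : ℕ) (κ : Type) : Type
  | u | b | m | w | e1 | e2
  | k (j : Fin t) | v (j : Fin t) | i (j : Fin t') | g (l : κ) (s : Bool)
  deriving DecidableEq, Fintype

/-- The data of a point of the cube which matter for the fine function. -/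
structure Dat (t t' : ℕ) where
  u : Bool
  b : Bool
  m : Bool
  w : Bool
  e1 : Bool
  e2 : Bool
  K : Finset (Fin t)
  V : Finset (Fin t)
  I : Finset (Fin t')

section
variable {t t' : ℕ}

/-- first coefficient of the penalty -/
def al (K V : Finset (Fin t)) (l : Fin t) : ℤ :=
  (if l ∈ K then 1 else 0) + (if l ∈ V then 1 else 0) + (if l ∈ K ∧ l ∈ V then 1 else 0)

/-- second coefficient of the penalty -/
def be (K V : Finset (Fin t)) (j : Fin t) : ℤ := if (j ∈ K ↔ j ∈ V) then 1 else 0

/-- the quadratic penalty -/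
def Gp (K V : Finset (Fin t)) : ℤ :=
  -8 * ∑ l, ∑ j, if l < j then al K V l * be K V j else 0

/-- number of unpaired symbols -/
def Np (K V : Finset (Fin t)) : ℤ := ∑ j, be K V j

/-- positions that carry variables -/
def Spec (K V : Finset (Fin t)) : Prop :=
  ∀ l j, l < j → (l ∉ K ∧ l ∉ V) ∨ ¬ (j ∈ K ↔ j ∈ V)

instance (K V : Finset (Fin t)) : Decidable (Spec K V) := by unfold Spec; infer_instance

/-- merged positions -/
def Z0 (K V : Finset (Fin t)) : Finset (Fin t) := univ.filter fun j => j ∉ K ∧ j ∉ V

/-- value of a bit -/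
def bit (z : ZMod 2) : ℤ := if z = 0 then 0 else 1

variable (A : Finset (Fin t') → Finset (Fin t) → ZMod 2) (x : Finset (Fin t) → ZMod 2)

/-- partial parity -/
def par (I : Finset (Fin t')) (K Z : Finset (Fin t)) : ZMod 2 := dot (part (A I) K Z) x

/-- the values of the plain rail -/
def Vf (K V : Finset (Fin t)) (I : Finset (Fin t')) : ℤ :=
  if Spec K V then
    (if K ∩ V = ∅ then (if Z0 K V = univ then 0 else 2 * bit (par A x I K (Z0 K V)))
      else 4 * bit (par A x I K (Z0 K V)) * bit (par A x I (K \ (K ∩ V)) (Z0 K V)))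
  else 1

/-- correction at leaves with zero coefficient -/
def leafA (K V : Finset (Fin t)) (I : Finset (Fin t')) : ℤ :=
  if Np K V = 0 ∧ A I K = 0 then 2 else 0

/-- The fine function. -/
def yy (d : Dat t t') : ℤ :=
  if d.e1 then
    (if d.m then -6 * Np d.K d.V
      else if d.u && !d.b && !d.w then leafA A d.K d.V d.I else 0)
  else if d.e2 then 0
  else if d.m then
    (if d.w then (if d.u && !d.b then 1 else 2 * bit (x d.K))
      else (if d.u && !d.b then 2 - 2 * bit (x d.K) else 1))
  else if d.b then 0
  else if d.w then (if d.u then Gp d.K d.V + 1 else Gp d.K d.V + Vf A x d.K d.V d.I)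
  else (if d.u then Gp d.K d.V + 2 - Vf A x d.K d.V d.I else Gp d.K d.V + 1)

/-! ## elementary bounds -/

theorem bit_nonneg (z : ZMod 2) : 0 ≤ bit z := by unfold bit; split_ifs <;> norm_num
theorem bit_le_one (z : ZMod 2) : bit z ≤ 1 := by unfold bit; split_ifs <;> norm_num
theorem bit_cases (z : ZMod 2) : bit z = 0 ∨ bit z = 1 := by unfold bit; split_ifs <;> simp

theorem Vf_nonneg (K V : Finset (Fin t)) (I : Finset (Fin t')) : 0 ≤ Vf A x K V I := by
  unfold Vf
  split_ifs
  · rfl
  · have := bit_nonneg (par A x I K (Z0 K V)); linarith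
  · have h1 := bit_nonneg (par A x I K (Z0 K V))
    have h2 := bit_nonneg (par A x I (K \ (K ∩ V)) (Z0 K V))
    positivity
  · norm_num

theorem Vf_le (K V : Finset (Fin t)) (I : Finset (Fin t')) : Vf A x K V I ≤ 4 := by
  unfold Vf
  split_ifs
  · norm_num
  · have := bit_le_one (par A x I K (Z0 K V)); linarith
  · rcases bit_cases (par A x I K (Z0 K V)) with h1 | h1 <;>
      rcases bit_cases (par A x I (K \ (K ∩ V)) (Z0 K V)) with h2 | h2 <;> rw [h1, h2] <;> norm_num
  · norm_num

theorem al_nonneg (K V : Finset (Fin t)) (l : Fin t) : 0 ≤ al K V l := by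
  unfold al; split_ifs <;> norm_num

theorem be_nonneg (K V : Finset (Fin t)) (l : Fin t) : 0 ≤ be K V l := by
  unfold be; split_ifs <;> norm_num

theorem Gp_nonpos (K V : Finset (Fin t)) : Gp K V ≤ 0 := by
  unfold Gp
  have : 0 ≤ ∑ l, ∑ j, if l < j then al K V l * be K V j else 0 :=
    sum_nonneg fun l _ => sum_nonneg fun j _ => by
      split_ifs
      · exact mul_nonneg (al_nonneg K V l) (be_nonneg K V j)
      · rfl
  linarith

theorem Np_nonneg (K V : Finset (Fin t)) : 0 ≤ Np K V := sum_nonneg fun j _ => be_nonneg K V j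

theorem leafA_nonneg (K V : Finset (Fin t)) (I : Finset (Fin t')) : 0 ≤ leafA A K V I := by
  unfold leafA; split_ifs <;> norm_num

/-- `Np = 0` only at leaves -/
theorem Np_eq_zero {K V : Finset (Fin t)} : Np K V = 0 ↔ V = Kᶜ := by
  unfold Np
  rw [sum_eq_zero_iff_of_nonneg fun j _ => be_nonneg K V j]
  constructor
  · intro h
    ext j
    have := h j (mem_univ _)
    unfold be at this
    rw [mem_compl]
    by_contra hc
    rw [if_pos (by tauto)] at this
    exact one_ne_zero this
  · rintro rfl j -
    unfold be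
    rw [if_neg]
    rw [mem_compl]; tauto

theorem part_empty (v : Finset (Fin t) → ZMod 2) (K : Finset (Fin t)) :
    dot (part v K ∅) x = v K * x K := by
  unfold dot part
  simp

/-- value at leaves -/
theorem Vf_leaf (ht : 0 < t) (K : Finset (Fin t)) (I : Finset (Fin t')) :
    Vf A x K Kᶜ I = 2 * bit (A I K * x K) := by
  have hs : Spec K Kᶜ := by
    intro l j _
    right
    rw [mem_compl]; tauto
  have hi : K ∩ Kᶜ = ∅ := by simp
  have hz : Z0 K Kᶜ = ∅ := by
    unfold Z0
    ext j; simp only [mem_filter, mem_univ, true_and, mem_compl, notMem_empty, iff_false]; tauto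
  have hne : (∅ : Finset (Fin t)) ≠ univ := by
    intro h
    have : (⟨0, ht⟩ : Fin t) ∈ (∅ : Finset (Fin t)) := by rw [h]; exact mem_univ _
    simp at this
  unfold Vf
  rw [if_pos hs, if_pos hi, hz, if_neg hne]
  unfold par
  rw [part_empty]

/-- nonspecial positions are penalised -/
theorem Gp_le_of_not_spec {K V : Finset (Fin t)} (h : ¬ Spec K V) : Gp K V ≤ -8 := by
  unfold Spec at h
  push Not at h
  obtain ⟨l, j, hlj, h1, h2⟩ := h
  unfold Gp
  have h3 : (1 : ℤ) ≤ ∑ l, ∑ j, if l < j then al K V l * be K V j else 0 := by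
    have a1 : (1 : ℤ) ≤ if l < j then al K V l * be K V j else 0 := by
      rw [if_pos hlj]
      have : be K V j = 1 := by unfold be; rw [if_pos h2]
      rw [this, mul_one]
      unfold al
      by_cases hl : l ∈ K
      · rw [if_pos hl]; split_ifs <;> norm_num
      · have := h1 hl
        rw [if_neg hl, if_pos this]; split_ifs <;> norm_num
    have nn : ∀ l j : Fin t, (0:ℤ) ≤ if l < j then al K V l * be K V j else 0 := by
      intro l j
      split_ifs
      · exact mul_nonneg (al_nonneg K V l) (be_nonneg K V j)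
      · rfl
    calc (1 : ℤ) ≤ _ := a1
      _ ≤ ∑ j, if l < j then al K V l * be K V j else 0 :=
        single_le_sum (f := fun j => if l < j then al K V l * be K V j else 0)
          (fun j _ => nn l j) (mem_univ j)
      _ ≤ _ := single_le_sum (f := fun l => ∑ j, if l < j then al K V l * be K V j else 0)
          (fun l _ => sum_nonneg fun j _ => nn l j) (mem_univ l)
  linarith

/-- inequality for the transition of the plain rail -/
theorem trans_plain (ht : 0 < t) (K V : Finset (Fin t)) (I : Finset (Fin t')) :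
    Vf A x K V I + Gp K V ≤ 6 * Np K V + 2 * bit (x K) := by
  by_cases h : V = Kᶜ
  · subst h
    rw [Vf_leaf A x ht, Np_eq_zero.2 rfl]
    have h1 := Gp_nonpos K Kᶜ
    have h2 : bit (A I K * x K) ≤ bit (x K) := by
      unfold bit
      by_cases hx : x K = 0
      · rw [hx, mul_zero]
      · rw [if_neg hx]; split_ifs <;> norm_num
    linarith
  · have h1 : 1 ≤ Np K V := by
      have h0 := Np_nonneg K V
      have : Np K V ≠ 0 := fun h' => h (Np_eq_zero.1 h')
      omega
    have h2 := Vf_le A x K V I
    have h3 := Gp_nonpos K V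
    have h4 := bit_nonneg (x K)
    linarith

/-- inequality for the transition of the dual rail -/
theorem trans_dual (ht : 0 < t) (K V : Finset (Fin t)) (I : Finset (Fin t')) :
    Gp K V + 2 * bit (x K) ≤ 6 * Np K V + Vf A x K V I + leafA A K V I := by
  by_cases h : V = Kᶜ
  · subst h
    rw [Vf_leaf A x ht, Np_eq_zero.2 rfl]
    have h1 := Gp_nonpos K Kᶜ
    unfold leafA
    rw [Np_eq_zero.2 rfl]
    have h5 := bit_le_one (x K)
    by_cases hA : A I K = 0
    · rw [if_pos ⟨rfl, hA⟩, hA, zero_mul]
      have h6 := bit_nonneg (0 : ZMod 2)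
      linarith
    · rw [if_neg (fun h => hA h.2)]
      have h2 : bit (A I K * x K) = bit (x K) := by
        have : A I K = 1 := by
          revert hA; generalize A I K = z; revert z; decide
        rw [this, one_mul]
      rw [h2]; linarith
  · have h1 : 1 ≤ Np K V := by
      have h0 := Np_nonneg K V
      have : Np K V ≠ 0 := fun h' => h (Np_eq_zero.1 h')
      omega
    have h2 := Vf_nonneg A x K V I
    have h3 := Gp_nonpos K V
    have h4 := bit_le_one (x K)
    have h5 := leafA_nonneg A K V I
    linarith

end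

end Pool.Agent.Helper71.Sub
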