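import Mathlib
import Pool.Agent.Helper71.SubFine

set_option autoImplicit false
set_option linter.unusedSectionVars false

/-!
# Second differences in the directions `k r`, `v r`
-/

namespace Pool.Agent.Helper71.Sub

open Finset

section
variable {t t' : ℕ}

theorem dot_add {N : Type} [Fintype N] (v v' w : N → ZMod 2) :
    dot (v + v') w = dot v w + dot v' w := by
  unfold dot
  rw [← sum_add_distrib]
  exact sum_congr rfl fun k _ => by rw [Pi.add_apply, add_mul]

theorem dot_add_right {N : Type} [Fintype N] (v w w' : N → ZMod 2) :
    dot v (w + w') = dot v w + dot v w' := by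
  unfold dot
  rw [← sum_add_distrib]
  exact sum_congr rfl fun k _ => by rw [Pi.add_apply, mul_add]

/-- bilinear expansion -/
theorem quad_expand (α β : Fin t → ℤ) (r : Fin t) (s q : ℤ) :
    (∑ l, ∑ j, if l < j then (α l + if l = r then s else 0) * (β j + if j = r then q else 0)
      else 0) =
    (∑ l, ∑ j, if l < j then α l * β j else 0) + s * (∑ j, if r < j then β j else 0) +
      q * ∑ l, if l < r then α l else 0 := by
  have e : ∀ l j : Fin t,
      (if l < j then (α l + if l = r then s else 0) * (β j + if j = r then q else 0) else 0) =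
      (if l < j then α l * β j else 0) + (if l = r then (if r < j then s * β j else 0) else 0) +
        (if j = r then (if l < r then q * α l else 0) else 0) := by
    intro l j
    by_cases hl : l = r <;> by_cases hj : j = r
    · subst hl; subst hj; simp
    · subst hl
      simp only [if_true, if_neg hj]
      split_ifs <;> ring
    · subst hj
      simp only [if_true, if_neg hl]
      split_ifs <;> ring
    · simp only [if_neg hl, if_neg hj]
      split_ifs <;> ring
  rw [sum_congr rfl fun l _ => sum_congr rfl fun j _ => e l j]
  simp only [sum_add_distrib]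
  congr 1
  · congr 1
    rw [sum_comm]
    simp only [sum_ite_eq', mem_univ, if_true]
    rw [mul_sum]
    refine sum_congr rfl fun j _ => ?_
    split_ifs <;> ring
  · simp only [sum_ite_eq', mem_univ, if_true]
    rw [mul_sum]
    refine sum_congr rfl fun j _ => ?_
    split_ifs <;> ring

theorem al_10 {K V : Finset (Fin t)} {r : Fin t} (hK : r ∉ K) (hV : r ∉ V) (l : Fin t) :
    al (insert r K) V l = al K V l + if l = r then 1 else 0 := by
  unfold al
  by_cases hl : l = r
  · subst hl; simp [hK, hV]
  · simp [hl]

theorem al_01 {K V : Finset (Fin t)} {r : Fin t} (hK : r ∉ K) (hV : r ∉ V) (l : Fin t) :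
    al K (insert r V) l = al K V l + if l = r then 1 else 0 := by
  unfold al
  by_cases hl : l = r
  · subst hl; simp [hK, hV]
  · simp [hl]

theorem al_11 {K V : Finset (Fin t)} {r : Fin t} (hK : r ∉ K) (hV : r ∉ V) (l : Fin t) :
    al (insert r K) (insert r V) l = al K V l + if l = r then 3 else 0 := by
  unfold al
  by_cases hl : l = r
  · subst hl; simp [hK, hV]
  · simp [hl]

theorem be_10 {K V : Finset (Fin t)} {r : Fin t} (hK : r ∉ K) (hV : r ∉ V) (l : Fin t) :
    be (insert r K) V l = be K V l + if l = r then -1 else 0 := by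
  unfold be
  by_cases hl : l = r
  · subst hl; simp [hK, hV]
  · simp [hl]

theorem be_01 {K V : Finset (Fin t)} {r : Fin t} (hK : r ∉ K) (hV : r ∉ V) (l : Fin t) :
    be K (insert r V) l = be K V l + if l = r then -1 else 0 := by
  unfold be
  by_cases hl : l = r
  · subst hl; simp [hK, hV]
  · simp [hl]

theorem be_11 {K V : Finset (Fin t)} {r : Fin t} (hK : r ∉ K) (hV : r ∉ V) (l : Fin t) :
    be (insert r K) (insert r V) l = be K V l + if l = r then 0 else 0 := by
  unfold be
  by_cases hl : l = r
  · subst hl; simp [hK, hV]
  · simp [hl]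

/-- the sums in the second difference -/
def Bs (K V : Finset (Fin t)) (r : Fin t) : ℤ := ∑ j, if r < j then be K V j else 0
/-- the sums in the second difference -/
def As (K V : Finset (Fin t)) (r : Fin t) : ℤ := ∑ l, if l < r then al K V l else 0

theorem Gp_diff {K V : Finset (Fin t)} {r : Fin t} (hK : r ∉ K) (hV : r ∉ V) :
    Gp (insert r K) V + Gp K (insert r V) - Gp K V - Gp (insert r K) (insert r V) =
      8 * (Bs K V r + 2 * As K V r) := by
  unfold Gp Bs As
  simp only [al_10 hK hV, al_01 hK hV, al_11 hK hV, be_10 hK hV, be_01 hK hV, be_11 hK hV]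
  rw [quad_expand, quad_expand]
  ring

theorem Bs_nonneg (K V : Finset (Fin t)) (r : Fin t) : 0 ≤ Bs K V r :=
  sum_nonneg fun j _ => by split_ifs; exacts [be_nonneg K V j, le_refl _]

theorem As_nonneg (K V : Finset (Fin t)) (r : Fin t) : 0 ≤ As K V r :=
  sum_nonneg fun j _ => by split_ifs; exacts [al_nonneg K V j, le_refl _]

/-- The base of an XOR square. -/
structure XorBase (K V : Finset (Fin t)) (r : Fin t) : Prop where
  hK : r ∉ K
  hV : r ∉ V
  gt : ∀ j, r < j → ¬ (j ∈ K ↔ j ∈ V)
  lt : ∀ l, l < r → l ∉ K ∧ l ∉ V

theorem xorBase_of {K V : Finset (Fin t)} {r : Fin t} (hK : r ∉ K) (hV : r ∉ V)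
    (h : Bs K V r + 2 * As K V r = 0) : XorBase K V r := by
  have h1 := Bs_nonneg K V r
  have h2 := As_nonneg K V r
  have hB : Bs K V r = 0 := by linarith
  have hA : As K V r = 0 := by linarith
  refine ⟨hK, hV, ?_, ?_⟩
  · intro j hj hc
    unfold Bs at hB
    rw [sum_eq_zero_iff_of_nonneg (fun j _ => by split_ifs; exacts [be_nonneg K V j, le_refl _])]
      at hB
    have := hB j (mem_univ _)
    rw [if_pos hj] at this
    unfold be at this
    rw [if_pos hc] at this
    exact one_ne_zero this
  · intro l hl
    unfold As at hA
    rw [sum_eq_zero_iff_of_nonneg (fun j _ => by split_ifs; exacts [al_nonneg K V j, le_refl _])]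
      at hA
    have := hA l (mem_univ _)
    rw [if_pos hl] at this
    unfold al at this
    by_cases h1 : l ∈ K <;> by_cases h2 : l ∈ V <;> simp [h1, h2] at this ⊢

variable {K V : Finset (Fin t)} {r : Fin t}

theorem XorBase.spec00 (h : XorBase K V r) : Spec K V := by
  intro l j hlj
  by_cases hl : l < r
  · left; exact h.lt l hl
  · right; exact h.gt j (lt_of_le_of_lt (not_lt.1 hl) hlj)

theorem XorBase.spec10 (h : XorBase K V r) : Spec (insert r K) V := by
  intro l j hlj
  by_cases hl : l < r
  · left; refine ⟨?_, (h.lt l hl).2⟩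
    rw [mem_insert, not_or]; exact ⟨hl.ne, (h.lt l hl).1⟩
  · right
    have hj := lt_of_le_of_lt (not_lt.1 hl) hlj
    have := h.gt j hj
    rw [mem_insert]
    simpa [hj.ne'] using this

theorem XorBase.spec01 (h : XorBase K V r) : Spec K (insert r V) := by
  intro l j hlj
  by_cases hl : l < r
  · left; refine ⟨(h.lt l hl).1, ?_⟩
    rw [mem_insert, not_or]; exact ⟨hl.ne, (h.lt l hl).2⟩
  · right
    have hj := lt_of_le_of_lt (not_lt.1 hl) hlj
    have := h.gt j hj
    rw [mem_insert]
    simpa [hj.ne'] using this

theorem XorBase.spec11 (h : XorBase K V r) : Spec (insert r K) (insert r V) := by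
  intro l j hlj
  by_cases hl : l < r
  · left
    rw [mem_insert, mem_insert, not_or, not_or]
    exact ⟨⟨hl.ne, (h.lt l hl).1⟩, ⟨hl.ne, (h.lt l hl).2⟩⟩
  · right
    have hj := lt_of_le_of_lt (not_lt.1 hl) hlj
    have := h.gt j hj
    rw [mem_insert, mem_insert]
    simpa [hj.ne'] using this

theorem XorBase.inter00 (h : XorBase K V r) : K ∩ V = ∅ := by
  ext j
  simp only [mem_inter, notMem_empty, iff_false, not_and]
  intro h1 h2
  rcases lt_trichotomy j r with hj | hj | hj
  · exact (h.lt j hj).1 h1
  · exact h.hK (hj ▸ h1)
  · exact h.gt j hj ⟨fun _ => h2, fun _ => h1⟩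

theorem XorBase.inter10 (h : XorBase K V r) : insert r K ∩ V = ∅ := by
  rw [insert_inter_of_notMem h.hV, h.inter00]

theorem XorBase.inter01 (h : XorBase K V r) : K ∩ insert r V = ∅ := by
  rw [inter_insert_of_notMem h.hK, h.inter00]

theorem XorBase.inter11 (h : XorBase K V r) : insert r K ∩ insert r V = {r} := by
  rw [← insert_inter_distrib, h.inter00, insert_empty_eq]

theorem XorBase.z00 (h : XorBase K V r) : Z0 K V = insert r (univ.filter fun j => j < r) := by
  unfold Z0
  ext j
  simp only [mem_filter, mem_univ, true_and, mem_insert]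
  rcases lt_trichotomy j r with hj | hj | hj
  · simp [hj, h.lt j hj]
  · subst hj; simp [h.hK, h.hV]
  · have := h.gt j hj
    simp only [hj.ne', not_lt.2 hj.le, or_self, iff_false]
    tauto

theorem XorBase.z10 (h : XorBase K V r) : Z0 (insert r K) V = univ.filter fun j => j < r := by
  unfold Z0
  ext j
  simp only [mem_filter, mem_univ, true_and, mem_insert]
  rcases lt_trichotomy j r with hj | hj | hj
  · simp [hj, hj.ne, h.lt j hj]
  · subst hj; simp
  · have := h.gt j hj
    simp only [hj.ne', false_or, not_lt.2 hj.le, iff_false]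
    tauto

theorem XorBase.z01 (h : XorBase K V r) : Z0 K (insert r V) = univ.filter fun j => j < r := by
  unfold Z0
  ext j
  simp only [mem_filter, mem_univ, true_and, mem_insert]
  rcases lt_trichotomy j r with hj | hj | hj
  · simp [hj, hj.ne, h.lt j hj]
  · subst hj; simp
  · have := h.gt j hj
    simp only [hj.ne', false_or, not_lt.2 hj.le, iff_false]
    tauto

theorem XorBase.z11 (h : XorBase K V r) :
    Z0 (insert r K) (insert r V) = univ.filter fun j => j < r := by
  unfold Z0
  ext j
  simp only [mem_filter, mem_univ, true_and, mem_insert]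
  rcases lt_trichotomy j r with hj | hj | hj
  · simp [hj, hj.ne, h.lt j hj]
  · subst hj; simp
  · have := h.gt j hj
    simp only [hj.ne', false_or, not_lt.2 hj.le, iff_false]
    tauto

theorem filter_lt_ne_univ (r : Fin t) : (univ.filter fun j : Fin t => j < r) ≠ univ := by
  intro h
  have : r ∈ (univ.filter fun j : Fin t => j < r) := by rw [h]; exact mem_univ _
  simp at this

theorem part_split (v : Finset (Fin t) → ZMod 2) (K Z : Finset (Fin t)) (r : Fin t)
    (hK : r ∉ K) (hZ : r ∉ Z) : part v K (insert r Z) = part v K Z + part v (insert r K) Z := by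
  funext κ'
  unfold part
  rw [Pi.add_apply]
  by_cases hr : r ∈ κ'
  · have e1 : (κ' \ Z = K) = False := by
      rw [eq_iff_iff, iff_false]
      rintro rfl
      exact hK (mem_sdiff.2 ⟨hr, hZ⟩)
    have e2 : (κ' \ insert r Z = K) ↔ (κ' \ Z = insert r K) := by
      constructor
      · intro h
        ext a
        rw [mem_insert, ← h, mem_sdiff, mem_sdiff, mem_insert]
        by_cases ha : a = r
        · subst ha; simp [hr, hZ]
        · simp [ha]
      · intro h
        ext a
        have h' := Finset.ext_iff.1 h a
        rw [mem_insert, mem_sdiff] at h'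
        rw [mem_sdiff, mem_insert]
        by_cases ha : a = r
        · subst ha; simp [hK]
        · simp only [ha, false_or] at h' ⊢
          exact h'
    simp only [e1, e2, if_false, zero_add]
  · have e1 : (κ' \ Z = insert r K) = False := by
      rw [eq_iff_iff, iff_false]
      intro h
      have : r ∈ κ' \ Z := by rw [h]; exact mem_insert_self _ _
      exact hr (mem_sdiff.1 this).1
    have e2 : κ' \ insert r Z = κ' \ Z := by
      ext a
      rw [mem_sdiff, mem_sdiff, mem_insert]
      by_cases ha : a = r
      · subst ha; simp [hr]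
      · simp [ha]
    simp only [e1, e2, if_false, add_zero]

variable (A : Finset (Fin t') → Finset (Fin t) → ZMod 2) (x : Finset (Fin t) → ZMod 2)

theorem bit_xor (a b : ZMod 2) : 2 * bit (a + b) + 4 * bit a * bit b = 2 * bit a + 2 * bit b := by
  revert a b; decide

theorem bit_xor' (a b : ZMod 2) (h : a + b = 0) : 4 * bit a * bit b = 2 * bit a + 2 * bit b := by
  revert a b; decide

/-- the values at an XOR square -/
theorem Vf_10 (h : XorBase K V r) (I : Finset (Fin t')) : Vf A x (insert r K) V I =
    2 * bit (par A x I (insert r K) (univ.filter fun j => j < r)) := by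
  unfold Vf
  rw [if_pos h.spec10, if_pos h.inter10, h.z10, if_neg (filter_lt_ne_univ r)]

theorem Vf_01 (h : XorBase K V r) (I : Finset (Fin t')) : Vf A x K (insert r V) I =
    2 * bit (par A x I K (univ.filter fun j => j < r)) := by
  unfold Vf
  rw [if_pos h.spec01, if_pos h.inter01, h.z01, if_neg (filter_lt_ne_univ r)]

theorem Vf_11 (h : XorBase K V r) (I : Finset (Fin t')) : Vf A x (insert r K) (insert r V) I =
    4 * bit (par A x I (insert r K) (univ.filter fun j => j < r)) *
      bit (par A x I K (univ.filter fun j => j < r)) := by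
  unfold Vf
  rw [if_pos h.spec11, if_neg, h.z11, h.inter11]
  · have : insert r K \ {r} = K := by
      rw [sdiff_singleton_eq_erase, erase_insert h.hK]
    rw [this]
  · rw [h.inter11]; exact singleton_ne_empty r

theorem Vf_00 (h : XorBase K V r) (I : Finset (Fin t')) : Vf A x K V I =
    if insert r (univ.filter fun j : Fin t => j < r) = univ then 0 else
    2 * bit (par A x I K (insert r (univ.filter fun j => j < r))) := by
  unfold Vf
  rw [if_pos h.spec00, if_pos h.inter00, h.z00]

theorem par_split (h : XorBase K V r) (I : Finset (Fin t')) :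
    par A x I K (insert r (univ.filter fun j => j < r)) =
      par A x I K (univ.filter fun j => j < r) +
      par A x I (insert r K) (univ.filter fun j => j < r) := by
  unfold par
  rw [part_split _ _ _ _ h.hK (by simp), dot_add]

/-- At XOR squares the values of a code word are balanced. -/
theorem Vf_xor (hx : ∀ I, dot (A I) x = 0) (h : XorBase K V r) (I : Finset (Fin t')) :
    Vf A x (insert r K) V I + Vf A x K (insert r V) I =
      Vf A x K V I + Vf A x (insert r K) (insert r V) I := by
  rw [Vf_10 A x h, Vf_01 A x h, Vf_11 A x h, Vf_00 A x h]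
  split_ifs with hu
  · have hK : K = ∅ := by
      ext j
      simp only [notMem_empty, iff_false]
      intro hj
      have : j ∈ insert r (univ.filter fun j : Fin t => j < r) := by rw [hu]; exact mem_univ _
      simp only [mem_insert, mem_filter, mem_univ, true_and] at this
      rcases this with rfl | this
      · exact h.hK hj
      · exact (h.lt j this).1 hj
    have hp := par_split A x h I
    have h0 : par A x I K (insert r (univ.filter fun j => j < r)) = 0 := by
      rw [hu, hK]
      unfold par
      have : part (A I) ∅ univ = A I := by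
        funext κ'
        unfold part
        rw [if_pos]
        simp
      rw [this, hx]
    rw [h0] at hp
    have := bit_xor' _ _ hp.symm
    linarith
  · rw [par_split A x h]
    have := bit_xor (par A x I K (univ.filter fun j => j < r))
      (par A x I (insert r K) (univ.filter fun j => j < r))
    linarith

/-- within-layer inequality for the plain rail -/
theorem plain_layer (hx : ∀ I, dot (A I) x = 0) (hK : r ∉ K) (hV : r ∉ V)
    (I : Finset (Fin t')) :
    (Gp K V + Vf A x K V I) + (Gp (insert r K) (insert r V) + Vf A x (insert r K) (insert r V) I) ≤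
    (Gp (insert r K) V + Vf A x (insert r K) V I) + (Gp K (insert r V) +
      Vf A x K (insert r V) I) := by
  have h1 := Gp_diff hK hV
  by_cases h0 : Bs K V r + 2 * As K V r = 0
  · have h2 := Vf_xor A x hx (xorBase_of hK hV h0) I
    rw [h0] at h1
    linarith
  · have h3 := Bs_nonneg K V r
    have h4 := As_nonneg K V r
    have h5 : 1 ≤ Bs K V r + 2 * As K V r := by omega
    have := Vf_nonneg A x (insert r K) V I
    have := Vf_nonneg A x K (insert r V) I
    have := Vf_le A x K V I
    have := Vf_le A x (insert r K) (insert r V) I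
    linarith

/-- within-layer inequality for the dual rail -/
theorem dual_layer (hx : ∀ I, dot (A I) x = 0) (hK : r ∉ K) (hV : r ∉ V)
    (I : Finset (Fin t')) :
    (Gp K V + 2 - Vf A x K V I) +
      (Gp (insert r K) (insert r V) + 2 - Vf A x (insert r K) (insert r V) I) ≤
    (Gp (insert r K) V + 2 - Vf A x (insert r K) V I) + (Gp K (insert r V) + 2 -
      Vf A x K (insert r V) I) := by
  have h1 := Gp_diff hK hV
  by_cases h0 : Bs K V r + 2 * As K V r = 0
  · have h2 := Vf_xor A x hx (xorBase_of hK hV h0) I
    rw [h0] at h1
    linarith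
  · have h3 := Bs_nonneg K V r
    have h4 := As_nonneg K V r
    have h5 : 1 ≤ Bs K V r + 2 * As K V r := by omega
    have := Vf_le A x (insert r K) V I
    have := Vf_le A x K (insert r V) I
    have := Vf_nonneg A x K V I
    have := Vf_nonneg A x (insert r K) (insert r V) I
    linarith

theorem public_layer (hK : r ∉ K) (hV : r ∉ V) :
    Gp K V + Gp (insert r K) (insert r V) ≤ Gp (insert r K) V + Gp K (insert r V) := by
  have h1 := Gp_diff hK hV
  have h3 := Bs_nonneg K V r
  have h4 := As_nonneg K V r
  linarith

theorem Np_diff (hK : r ∉ K) (hV : r ∉ V) :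
    Np (insert r K) V + Np K (insert r V) + 2 = Np K V + Np (insert r K) (insert r V) := by
  unfold Np
  simp only [be_10 hK hV, be_01 hK hV, be_11 hK hV, sum_add_distrib, sum_ite_eq', mem_univ,
    if_true]
  ring

theorem leafA_layer (hK : r ∉ K) (hV : r ∉ V) (I : Finset (Fin t')) :
    leafA A K V I + leafA A (insert r K) (insert r V) I ≤
      leafA A (insert r K) V I + leafA A K (insert r V) I := by
  have h1 : leafA A K V I = 0 := by
    unfold leafA
    rw [if_neg]
    rintro ⟨h, -⟩
    rw [Np_eq_zero] at h
    rw [h, mem_compl, not_not] at hV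
    exact hK hV
  have h2 : leafA A (insert r K) (insert r V) I = 0 := by
    unfold leafA
    rw [if_neg]
    rintro ⟨h, -⟩
    rw [Np_eq_zero] at h
    have : r ∈ (insert r K)ᶜ := by rw [← h]; exact mem_insert_self _ _
    rw [mem_compl] at this
    exact this (mem_insert_self _ _)
  have := leafA_nonneg A (insert r K) V I
  have := leafA_nonneg A K (insert r V) I
  linarith

end

end Pool.Agent.Helper71.Sub
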