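import Mathlib
import Pool.Agent.Helper71.SubXor

set_option autoImplicit false
set_option linter.unusedSectionVars false
set_option linter.unusedVariables false
set_option linter.unreachableTactic false
set_option linter.unusedTactic false
set_option linter.unusedSimpArgs false
set_option linter.unnecessarySeqFocus false
set_option linter.constructorNameAsVariable false

/-!
# The family of functions, and submodularity for code words
-/

namespace Pool.Agent.Helper71.Sub

open Finset

section
variable {t t' : ℕ} {κ : Type} [Fintype κ] [DecidableEq κ]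

/-- decoding of a point of the cube -/
def dec (S : Finset (Co t t' κ)) : Dat t t' where
  u := decide (Co.u ∈ S)
  b := decide (Co.b ∈ S)
  m := decide (Co.m ∈ S)
  w := decide (Co.w ∈ S)
  e1 := decide (Co.e1 ∈ S)
  e2 := decide (Co.e2 ∈ S)
  K := univ.filter fun j => Co.k j ∈ S
  V := univ.filter fun j => Co.v j ∈ S
  I := univ.filter fun j => Co.i j ∈ S

theorem dec_u (S : Finset (Co t t' κ)) : dec (insert Co.u S) = { dec S with u := true } := by
  simp [dec]
theorem dec_b (S : Finset (Co t t' κ)) : dec (insert Co.b S) = { dec S with b := true } := by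
  simp [dec]
theorem dec_m (S : Finset (Co t t' κ)) : dec (insert Co.m S) = { dec S with m := true } := by
  simp [dec]
theorem dec_w (S : Finset (Co t t' κ)) : dec (insert Co.w S) = { dec S with w := true } := by
  simp [dec]
theorem dec_e1 (S : Finset (Co t t' κ)) : dec (insert Co.e1 S) = { dec S with e1 := true } := by
  simp [dec]
theorem dec_e2 (S : Finset (Co t t' κ)) : dec (insert Co.e2 S) = { dec S with e2 := true } := by
  simp [dec]
theorem dec_k (S : Finset (Co t t' κ)) (j : Fin t) :
    dec (insert (Co.k j) S) = { dec S with K := insert j (dec S).K } := by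
  simp only [dec, Dat.mk.injEq, mem_insert]
  refine ⟨by simp, by simp, by simp, by simp, by simp, by simp, ?_, by simp, by simp⟩
  ext a; simp
theorem dec_v (S : Finset (Co t t' κ)) (j : Fin t) :
    dec (insert (Co.v j) S) = { dec S with V := insert j (dec S).V } := by
  simp only [dec, Dat.mk.injEq, mem_insert]
  refine ⟨by simp, by simp, by simp, by simp, by simp, by simp, by simp, ?_, by simp⟩
  ext a; simp
theorem dec_i (S : Finset (Co t t' κ)) (j : Fin t') :
    dec (insert (Co.i j) S) = { dec S with I := insert j (dec S).I } := by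
  simp only [dec, Dat.mk.injEq, mem_insert]
  refine ⟨by simp, by simp, by simp, by simp, by simp, by simp, by simp, by simp, ?_⟩
  ext a; simp
theorem dec_g (S : Finset (Co t t' κ)) (l : κ) (s : Bool) : dec (insert (Co.g l s) S) = dec S := by
  simp [dec]

/-- the directions outside of the marker component (and not guards) -/
def isZ : Co t t' κ → Bool
  | .w | .e1 | .e2 | .k _ | .v _ | .i _ => true
  | _ => false

/-- markers -/
def isM : Co t t' κ → Bool
  | .u | .b | .m => true
  | _ => false

/-- inactive pairs -/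
def inact : Co t t' κ → Co t t' κ → ℤ
  | .k j, .v j' => if j = j' then 0 else 1
  | .v j, .k j' => if j = j' then 0 else 1
  | a, b => if isZ a && isZ b then 1 else 0

/-- slopes -/
def hh : Bool × Bool × Bool → Co t t' κ → ℤ
  | (false, false, false), .w => 0
  | (true, false, false), .w => 0
  | (false, true, false), .w => 1
  | (false, false, true), .w => 1
  | (true, true, false), .w => 2
  | (false, true, true), .w => 2
  | (true, false, true), .w => 4
  | (true, true, true), .w => 4
  | (false, false, false), .e1 => 0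
  | (false, false, true), .e1 => 0
  | (true, false, false), .e1 => 1
  | (true, false, true), .e1 => 1
  | (false, true, false), .e1 => 1
  | (true, true, false), .e1 => 2
  | (false, true, true), .e1 => 3
  | (true, true, true), .e1 => 3
  | (false, false, false), .e2 => 0
  | (true, false, false), .e2 => 1
  | (false, true, false), .e2 => 1
  | (false, false, true), .e2 => 2
  | (false, true, true), .e2 => 2
  | (true, true, false), .e2 => 2
  | (true, false, true), .e2 => 3
  | (true, true, true), .e2 => 4
  | (u, b, m), .k _ => (if u then 1 else 0) + (if b then 1 else 0) + (if m then 1 else 0)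
  | (u, b, m), .v _ => if m then 3 else (if u then 1 else 0) + (if b then 1 else 0)
  | (u, b, m), .i _ => if m then 3 else (if u then 1 else 0) + (if b then 1 else 0)
  | _, _ => 0

/-- marker state -/
def st (S : Finset (Co t t' κ)) : Bool × Bool × Bool :=
  (decide (Co.u ∈ S), decide (Co.b ∈ S), decide (Co.m ∈ S))

/-- number of ordered inactive pairs -/
def pairs (S : Finset (Co t t' κ)) : ℤ := ∑ a ∈ S, ∑ b ∈ S, inact a b

/-- the base function -/
def base (S : Finset (Co t t' κ)) : ℤ := -pairs S - ∑ c ∈ S, hh (st S) c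

theorem pairs_insert {S : Finset (Co t t' κ)} {a : Co t t' κ} (ha : a ∉ S) :
    pairs (insert a S) = inact a a + (∑ q ∈ S, inact a q) + (∑ p ∈ S, inact p a) + pairs S := by
  unfold pairs
  rw [sum_insert ha, sum_insert ha]
  have : ∑ p ∈ S, ∑ q ∈ insert a S, inact p q = ∑ p ∈ S, inact p a + ∑ p ∈ S, ∑ q ∈ S, inact p q := by
    rw [← sum_add_distrib]
    exact sum_congr rfl fun p _ => sum_insert ha
  rw [this]; ring

theorem pairs_diff {S : Finset (Co t t' κ)} {a c : Co t t' κ} (ha : a ∉ S) (hc : c ∉ S)
    (hac : a ≠ c) : pairs (insert a (insert c S)) + pairs S - pairs (insert a S) -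
      pairs (insert c S) = inact a c + inact c a := by
  have h1 : a ∉ insert c S := by simp [hac, ha]
  rw [pairs_insert h1, pairs_insert ha, sum_insert hc, sum_insert hc]
  ring

theorem st_insert {S : Finset (Co t t' κ)} {c : Co t t' κ} (hc : isM c = false) :
    st (insert c S) = st S := by
  cases c <;> simp [isM] at hc <;> simp [st]

theorem st_insert2 {S : Finset (Co t t' κ)} {a c : Co t t' κ} (hc : isM c = false) :
    st (insert a (insert c S)) = st (insert a S) := by
  rw [Finset.insert_comm, st_insert hc]

/-- second difference of the base for a marker and a nonmarker -/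
theorem base_diff_M {S : Finset (Co t t' κ)} {a c : Co t t' κ} (ha : a ∉ S) (hc : c ∉ S)
    (hac : a ≠ c) (hcM : isM c = false) (haZ : isZ a = false) :
    base (insert a S) + base (insert c S) - base S - base (insert a (insert c S)) =
      hh (st (insert a S)) c - hh (st S) c := by
  have h1 := pairs_diff ha hc hac
  have h2 : inact a c = 0 := by cases a <;> simp [isZ] at haZ <;> simp [inact, isZ]
  have h3 : inact c a = 0 := by
    cases a <;> simp [isZ] at haZ <;> cases c <;> simp [inact, isZ]
  unfold base
  rw [st_insert hcM, st_insert2 hcM]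
  have h4 : c ∉ insert a S := by simp [Ne.symm hac, hc]
  rw [Finset.insert_comm, sum_insert h4, sum_insert hc]
  rw [Finset.insert_comm] at h1
  linarith

/-- second difference of the base for two nonmarkers -/
theorem base_diff_Z {S : Finset (Co t t' κ)} {a c : Co t t' κ} (ha : a ∉ S) (hc : c ∉ S)
    (hac : a ≠ c) (haM : isM a = false) (hcM : isM c = false) :
    base (insert a S) + base (insert c S) - base S - base (insert a (insert c S)) =
      inact a c + inact c a := by
  have h1 := pairs_diff ha hc hac
  have h4 : a ∉ insert c S := by simp [hac, ha]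
  unfold base
  rw [st_insert haM, st_insert hcM, st_insert haM, st_insert hcM, sum_insert h4, sum_insert hc,
    sum_insert ha]
  linarith

theorem hh_mono (a c : Co t t' κ) (ha : isM a = true) (S : Finset (Co t t' κ)) :
    hh (st S) c ≤ hh (st (insert a S)) c := by
  have key : ∀ (u b m : Bool) (c : Co t t' κ), hh (u, b, m) c ≤ hh (true, b, m) c ∧
      hh (u, b, m) c ≤ hh (u, true, m) c ∧ hh (u, b, m) c ≤ hh (u, b, true) c := by
    intro u b m c
    cases u <;> cases b <;> cases m <;> cases c <;> simp [hh]
  cases a <;> simp [isM] at ha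
  · simpa [st] using (key _ _ _ c).1
  · simpa [st] using (key _ _ _ c).2.1
  · simpa [st] using (key _ _ _ c).2.2

/-- the values of the fine function as a function of bits and numbers -/
def Yf (u b m w e1 e2 : Bool) (N G F L X : ℤ) : ℤ :=
  if e1 then
    (if m then -6 * N
      else if u && !b && !w then L else 0)
  else if e2 then 0
  else if m then
    (if w then (if u && !b then 1 else 2 * X)
      else (if u && !b then 2 - 2 * X else 1))
  else if b then 0
  else if w then (if u then G + 1 else G + F)
  else (if u then G + 2 - F else G + 1)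

theorem yy_eq (A : Finset (Fin t') → Finset (Fin t) → ZMod 2) (x : Finset (Fin t) → ZMod 2)
    (d : Dat t t') : yy A x d = Yf d.u d.b d.m d.w d.e1 d.e2 (Np d.K d.V) (Gp d.K d.V)
      (Vf A x d.K d.V d.I) (leafA A d.K d.V d.I) (bit (x d.K)) := rfl

theorem flat_uw (b m e1 e2 : Bool) (N G F L X : ℤ) (hp : F + G ≤ 6 * N + 2 * X)
    (hd : G + 2 * X ≤ 6 * N + F + L) (hN : 0 ≤ N) (hG : G ≤ 0) (hL : 0 ≤ L)
    (hflat : hh (true, b, m) (Co.w : Co t t' κ) = hh (false, b, m) (Co.w : Co t t' κ)) :
    Yf false b m false e1 e2 N G F L X + Yf true b m true e1 e2 N G F L X ≤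
      Yf true b m false e1 e2 N G F L X + Yf false b m true e1 e2 N G F L X := by
  cases b <;> cases m <;> cases e1 <;> cases e2 <;> simp [hh, Yf] at hflat ⊢ <;> linarith

theorem flat_ue1 (b m w e2 : Bool) (N G F L X : ℤ) (hp : F + G ≤ 6 * N + 2 * X)
    (hd : G + 2 * X ≤ 6 * N + F + L) (hN : 0 ≤ N) (hG : G ≤ 0) (hL : 0 ≤ L)
    (hflat : hh (true, b, m) (Co.e1 : Co t t' κ) = hh (false, b, m) (Co.e1 : Co t t' κ)) :
    Yf false b m w false e2 N G F L X + Yf true b m w true e2 N G F L X ≤
      Yf true b m w false e2 N G F L X + Yf false b m w true e2 N G F L X := by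
  cases b <;> cases m <;> cases w <;> cases e2 <;> simp [hh, Yf] at hflat ⊢ <;> linarith

theorem flat_ue2 (b m w e1 : Bool) (N G F L X : ℤ) (hp : F + G ≤ 6 * N + 2 * X)
    (hd : G + 2 * X ≤ 6 * N + F + L) (hN : 0 ≤ N) (hG : G ≤ 0) (hL : 0 ≤ L)
    (hflat : hh (true, b, m) (Co.e2 : Co t t' κ) = hh (false, b, m) (Co.e2 : Co t t' κ)) :
    Yf false b m w e1 false N G F L X + Yf true b m w e1 true N G F L X ≤
      Yf true b m w e1 false N G F L X + Yf false b m w e1 true N G F L X := by
  cases b <;> cases m <;> cases w <;> cases e1 <;> simp [hh, Yf] at hflat ⊢ <;> linarith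

theorem flat_bw (u m e1 e2 : Bool) (N G F L X : ℤ) (hp : F + G ≤ 6 * N + 2 * X)
    (hd : G + 2 * X ≤ 6 * N + F + L) (hN : 0 ≤ N) (hG : G ≤ 0) (hL : 0 ≤ L)
    (hflat : hh (u, true, m) (Co.w : Co t t' κ) = hh (u, false, m) (Co.w : Co t t' κ)) :
    Yf u false m false e1 e2 N G F L X + Yf u true m true e1 e2 N G F L X ≤
      Yf u true m false e1 e2 N G F L X + Yf u false m true e1 e2 N G F L X := by
  cases u <;> cases m <;> cases e1 <;> cases e2 <;> simp [hh, Yf] at hflat ⊢ <;> linarith

theorem flat_be1 (u m w e2 : Bool) (N G F L X : ℤ) (hp : F + G ≤ 6 * N + 2 * X)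
    (hd : G + 2 * X ≤ 6 * N + F + L) (hN : 0 ≤ N) (hG : G ≤ 0) (hL : 0 ≤ L)
    (hflat : hh (u, true, m) (Co.e1 : Co t t' κ) = hh (u, false, m) (Co.e1 : Co t t' κ)) :
    Yf u false m w false e2 N G F L X + Yf u true m w true e2 N G F L X ≤
      Yf u true m w false e2 N G F L X + Yf u false m w true e2 N G F L X := by
  cases u <;> cases m <;> cases w <;> cases e2 <;> simp [hh, Yf] at hflat ⊢ <;> linarith

theorem flat_be2 (u m w e1 : Bool) (N G F L X : ℤ) (hp : F + G ≤ 6 * N + 2 * X)
    (hd : G + 2 * X ≤ 6 * N + F + L) (hN : 0 ≤ N) (hG : G ≤ 0) (hL : 0 ≤ L)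
    (hflat : hh (u, true, m) (Co.e2 : Co t t' κ) = hh (u, false, m) (Co.e2 : Co t t' κ)) :
    Yf u false m w e1 false N G F L X + Yf u true m w e1 true N G F L X ≤
      Yf u true m w e1 false N G F L X + Yf u false m w e1 true N G F L X := by
  cases u <;> cases m <;> cases w <;> cases e1 <;> simp [hh, Yf] at hflat ⊢ <;> linarith

theorem flat_mw (u b e1 e2 : Bool) (N G F L X : ℤ) (hp : F + G ≤ 6 * N + 2 * X)
    (hd : G + 2 * X ≤ 6 * N + F + L) (hN : 0 ≤ N) (hG : G ≤ 0) (hL : 0 ≤ L)
    (hflat : hh (u, b, true) (Co.w : Co t t' κ) = hh (u, b, false) (Co.w : Co t t' κ)) :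
    Yf u b false false e1 e2 N G F L X + Yf u b true true e1 e2 N G F L X ≤
      Yf u b true false e1 e2 N G F L X + Yf u b false true e1 e2 N G F L X := by
  cases u <;> cases b <;> cases e1 <;> cases e2 <;> simp [hh, Yf] at hflat ⊢ <;> linarith

theorem flat_me1 (u b w e2 : Bool) (N G F L X : ℤ) (hp : F + G ≤ 6 * N + 2 * X)
    (hd : G + 2 * X ≤ 6 * N + F + L) (hN : 0 ≤ N) (hG : G ≤ 0) (hL : 0 ≤ L)
    (hflat : hh (u, b, true) (Co.e1 : Co t t' κ) = hh (u, b, false) (Co.e1 : Co t t' κ)) :
    Yf u b false w false e2 N G F L X + Yf u b true w true e2 N G F L X ≤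
      Yf u b true w false e2 N G F L X + Yf u b false w true e2 N G F L X := by
  cases u <;> cases b <;> cases w <;> cases e2 <;> simp [hh, Yf] at hflat ⊢ <;> linarith

theorem flat_me2 (u b w e1 : Bool) (N G F L X : ℤ) (hp : F + G ≤ 6 * N + 2 * X)
    (hd : G + 2 * X ≤ 6 * N + F + L) (hN : 0 ≤ N) (hG : G ≤ 0) (hL : 0 ≤ L)
    (hflat : hh (u, b, true) (Co.e2 : Co t t' κ) = hh (u, b, false) (Co.e2 : Co t t' κ)) :
    Yf u b false w e1 false N G F L X + Yf u b true w e1 true N G F L X ≤
      Yf u b true w e1 false N G F L X + Yf u b false w e1 true N G F L X := by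
  cases u <;> cases b <;> cases w <;> cases e1 <;> simp [hh, Yf] at hflat ⊢ <;> linarith

section flat
variable (A : Finset (Fin t') → Finset (Fin t) → ZMod 2) (x : Finset (Fin t) → ZMod 2)
  (ht : 0 < t)
include ht

theorem flat_marker (S : Finset (Co t t' κ)) (a c : Co t t' κ) (ha : a ∉ S) (hc : c ∉ S)
    (haM : isM a = true) (hcM : isM c = false) (hflat : hh (st (insert a S)) c = hh (st S) c) :
    yy A x (dec S) + yy A x (dec (insert a (insert c S))) ≤
      yy A x (dec (insert a S)) + yy A x (dec (insert c S)) := by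
  have hst : st S = ((dec S).u, (dec S).b, (dec S).m) := rfl
  have hp := trans_plain A x ht (dec S).K (dec S).V (dec S).I
  have hd := trans_dual A x ht (dec S).K (dec S).V (dec S).I
  have hN := Np_nonneg (dec S).K (dec S).V
  have hG := Gp_nonpos (dec S).K (dec S).V
  have hL := leafA_nonneg A (dec S).K (dec S).V (dec S).I
  cases a <;> simp [isM] at haM
  · have hu : (dec S).u = false := by simp [dec, ha]
    have hst' : st (insert Co.u S) = (true, (dec S).b, (dec S).m) := by simp [st, dec]
    rw [hst', hst, hu] at hflat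
    cases c <;> simp [isM] at hcM
    · have hw : (dec S).w = false := by simp [dec, hc]
      have := flat_uw (dec S).b (dec S).m (dec S).e1 (dec S).e2 _ _ _ _ _ hp hd hN hG hL hflat
      rw [dec_u, dec_w, dec_u, yy_eq, yy_eq, yy_eq, yy_eq, hu, hw]
      exact this
    · have hw : (dec S).e1 = false := by simp [dec, hc]
      have := flat_ue1 (dec S).b (dec S).m (dec S).w (dec S).e2 _ _ _ _ _ hp hd hN hG hL hflat
      rw [dec_u, dec_e1, dec_u, yy_eq, yy_eq, yy_eq, yy_eq, hu, hw]
      exact this
    · have hw : (dec S).e2 = false := by simp [dec, hc]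
      have := flat_ue2 (dec S).b (dec S).m (dec S).w (dec S).e1 _ _ _ _ _ hp hd hN hG hL hflat
      rw [dec_u, dec_e2, dec_u, yy_eq, yy_eq, yy_eq, yy_eq, hu, hw]
      exact this
    · revert hflat
      cases (dec S).b <;> cases (dec S).m <;> simp [hh]
    · rw [dec_u, dec_v, dec_u, yy_eq, yy_eq, yy_eq, yy_eq, hu]
      have hm : (dec S).m = true := by
        revert hflat
        cases (dec S).b <;> cases (dec S).m <;> simp [hh]
      simp only [hm]
      cases (dec S).w <;> cases (dec S).e1 <;> cases (dec S).e2 <;> cases (dec S).b <;>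
        simp [Yf] <;> linarith
    · rw [dec_u, dec_i, dec_u, yy_eq, yy_eq, yy_eq, yy_eq, hu]
      have hm : (dec S).m = true := by
        revert hflat
        cases (dec S).b <;> cases (dec S).m <;> simp [hh]
      simp only [hm]
      cases (dec S).w <;> cases (dec S).e1 <;> cases (dec S).e2 <;> cases (dec S).b <;>
        simp [Yf] <;> linarith
    · rw [dec_u, dec_g, dec_u]; linarith
  · have hu : (dec S).b = false := by simp [dec, ha]
    have hst' : st (insert Co.b S) = ((dec S).u, true, (dec S).m) := by simp [st, dec]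
    rw [hst', hst, hu] at hflat
    cases c <;> simp [isM] at hcM
    · have hw : (dec S).w = false := by simp [dec, hc]
      have := flat_bw (dec S).u (dec S).m (dec S).e1 (dec S).e2 _ _ _ _ _ hp hd hN hG hL hflat
      rw [dec_b, dec_w, dec_b, yy_eq, yy_eq, yy_eq, yy_eq, hu, hw]
      exact this
    · have hw : (dec S).e1 = false := by simp [dec, hc]
      have := flat_be1 (dec S).u (dec S).m (dec S).w (dec S).e2 _ _ _ _ _ hp hd hN hG hL hflat
      rw [dec_b, dec_e1, dec_b, yy_eq, yy_eq, yy_eq, yy_eq, hu, hw]
      exact this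
    · have hw : (dec S).e2 = false := by simp [dec, hc]
      have := flat_be2 (dec S).u (dec S).m (dec S).w (dec S).e1 _ _ _ _ _ hp hd hN hG hL hflat
      rw [dec_b, dec_e2, dec_b, yy_eq, yy_eq, yy_eq, yy_eq, hu, hw]
      exact this
    · revert hflat
      cases (dec S).u <;> cases (dec S).m <;> simp [hh]
    · rw [dec_b, dec_v, dec_b, yy_eq, yy_eq, yy_eq, yy_eq, hu]
      have hm : (dec S).m = true := by
        revert hflat
        cases (dec S).u <;> cases (dec S).m <;> simp [hh]
      simp only [hm]
      cases (dec S).w <;> cases (dec S).e1 <;> cases (dec S).e2 <;> cases (dec S).u <;>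
        simp [Yf] <;> linarith
    · rw [dec_b, dec_i, dec_b, yy_eq, yy_eq, yy_eq, yy_eq, hu]
      have hm : (dec S).m = true := by
        revert hflat
        cases (dec S).u <;> cases (dec S).m <;> simp [hh]
      simp only [hm]
      cases (dec S).w <;> cases (dec S).e1 <;> cases (dec S).e2 <;> cases (dec S).u <;>
        simp [Yf] <;> linarith
    · rw [dec_b, dec_g, dec_b]; linarith
  · have hu : (dec S).m = false := by simp [dec, ha]
    have hst' : st (insert Co.m S) = ((dec S).u, (dec S).b, true) := by simp [st, dec]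
    rw [hst', hst, hu] at hflat
    cases c <;> simp [isM] at hcM
    · have hw : (dec S).w = false := by simp [dec, hc]
      have := flat_mw (dec S).u (dec S).b (dec S).e1 (dec S).e2 _ _ _ _ _ hp hd hN hG hL hflat
      rw [dec_m, dec_w, dec_m, yy_eq, yy_eq, yy_eq, yy_eq, hu, hw]
      exact this
    · have hw : (dec S).e1 = false := by simp [dec, hc]
      have := flat_me1 (dec S).u (dec S).b (dec S).w (dec S).e2 _ _ _ _ _ hp hd hN hG hL hflat
      rw [dec_m, dec_e1, dec_m, yy_eq, yy_eq, yy_eq, yy_eq, hu, hw]
      exact this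
    · have hw : (dec S).e2 = false := by simp [dec, hc]
      have := flat_me2 (dec S).u (dec S).b (dec S).w (dec S).e1 _ _ _ _ _ hp hd hN hG hL hflat
      rw [dec_m, dec_e2, dec_m, yy_eq, yy_eq, yy_eq, yy_eq, hu, hw]
      exact this
    · revert hflat
      cases (dec S).u <;> cases (dec S).b <;> simp [hh]
    · revert hflat
      cases (dec S).u <;> cases (dec S).b <;> simp [hh]
    · revert hflat
      cases (dec S).u <;> cases (dec S).b <;> simp [hh]
    · rw [dec_m, dec_g, dec_m]; linarith

end flat

/-! ## nonmarker directions -/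

/-- a component map -/
structure GoodComp (comp : Co t t' κ → κ) : Prop where
  ub : comp Co.u = comp Co.b
  um : comp Co.u = comp Co.m
  gc : ∀ l s, comp (Co.g l s) = l
  ne : ∀ c : Co t t' κ, isZ c = true → comp c ≠ comp Co.u
  kv : ∀ j, comp (Co.k j) ≠ comp (Co.v j)

theorem GoodComp.marker {comp : Co t t' κ → κ} (h : GoodComp comp) {a : Co t t' κ}
    (ha : isM a = true) : comp a = comp Co.u := by
  cases a <;> simp [isM] at ha
  · rfl
  · exact h.ub.symm
  · exact h.um.symm

theorem isZ_of {c : Co t t' κ} (h1 : isM c = false) (h2 : ∀ l s, c ≠ Co.g l s) : isZ c = true := by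
  cases c <;> simp [isM, isZ] at * 

/-- second difference of the fine values, guard directions -/
theorem yy_guard (A : Finset (Fin t') → Finset (Fin t) → ZMod 2) (x : Finset (Fin t) → ZMod 2)
    (S : Finset (Co t t' κ)) (l : κ) (s : Bool) (c : Co t t' κ) :
    yy A x (dec S) + yy A x (dec (insert (Co.g l s) (insert c S))) =
      yy A x (dec (insert (Co.g l s) S)) + yy A x (dec (insert c S)) := by
  rw [dec_g, dec_g]

theorem inact_of {a c : Co t t' κ} (ha : isZ a = true) (hc : isZ c = true)
    (h : ∀ j, ¬ (a = Co.k j ∧ c = Co.v j) ∧ ¬ (a = Co.v j ∧ c = Co.k j)) : inact a c = 1 := by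
  cases a <;> simp [isZ] at ha <;> cases c <;> simp [isZ] at hc <;> simp [inact, isZ]
  · rename_i j j'
    intro hj
    exact (h j).1 ⟨rfl, by rw [hj]⟩
  · rename_i j j'
    intro hj
    exact (h j).2 ⟨rfl, by rw [hj]⟩

/-- the active square -/
theorem yy_square (A : Finset (Fin t') → Finset (Fin t) → ZMod 2) (x : Finset (Fin t) → ZMod 2)
    (hx : ∀ I, dot (A I) x = 0) (S : Finset (Co t t' κ)) (r : Fin t)
    (hk : Co.k r ∉ S) (hv : Co.v r ∉ S) :
    yy A x (dec S) + yy A x (dec (insert (Co.k r) (insert (Co.v r) S))) ≤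
      yy A x (dec (insert (Co.k r) S)) + yy A x (dec (insert (Co.v r) S)) := by
  have hK : r ∉ (dec S).K := by simp [dec, hk]
  have hV : r ∉ (dec S).V := by simp [dec, hv]
  have h1 := plain_layer A x hx hK hV (dec S).I
  have h2 := dual_layer A x hx hK hV (dec S).I
  have h3 := public_layer hK hV
  have h4 := Np_diff hK hV
  have h5 := leafA_layer A hK hV (dec S).I
  rw [dec_k, dec_v, dec_k, yy_eq, yy_eq, yy_eq, yy_eq]
  simp only
  cases (dec S).u <;> cases (dec S).b <;> cases (dec S).m <;> cases (dec S).w <;>
    cases (dec S).e1 <;> cases (dec S).e2 <;> simp only [Yf, Bool.not_true, Bool.not_false,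
      Bool.and_true, Bool.and_false, Bool.true_and, Bool.false_and, if_true, if_false,
      Bool.false_eq_true, if_pos rfl] <;> linarith

end

end Pool.Agent.Helper71.Sub
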