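import Mathlib
import Pool.Agent.Helper71.SubYes

set_option autoImplicit false
set_option linter.unusedSectionVars false
set_option linter.unusedVariables false

/-!
# The family of functions, and submodularity for code words
-/

namespace Pool.Agent.Helper71.Sub

open Finset

section
variable {t t' : ℕ} {κ : Type} [Fintype κ] [DecidableEq κ]

/-- bound for the fine values -/
def YM (κ : Type) [Fintype κ] [DecidableEq κ] (A : Finset (Fin t') → Finset (Fin t) → ZMod 2) : ℤ :=
  ∑ x : Finset (Fin t) → ZMod 2, ∑ S : Finset (Co t t' κ), |yy A x (dec S)|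

theorem yy_le_YM (A : Finset (Fin t') → Finset (Fin t) → ZMod 2) (x : Finset (Fin t) → ZMod 2)
    (S : Finset (Co t t' κ)) : |yy A x (dec S)| ≤ YM κ A := by
  unfold YM
  calc |yy A x (dec S)| ≤ ∑ S : Finset (Co t t' κ), |yy A x (dec S)| :=
        single_le_sum (f := fun S : Finset (Co t t' κ) => |yy A x (dec S)|)
          (fun _ _ => abs_nonneg _) (mem_univ S)
    _ ≤ _ := single_le_sum (f := fun x : Finset (Fin t) → ZMod 2 =>
          ∑ S : Finset (Co t t' κ), |yy A x (dec S)|)
          (fun _ _ => sum_nonneg fun _ _ => abs_nonneg _) (mem_univ x)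

/-- the fine part -/
def fine (A : Finset (Fin t') → Finset (Fin t) → ZMod 2) (x : Finset (Fin t) → ZMod 2)
    (S : Finset (Co t t' κ)) : ℤ := 4 * YM κ A * base S + yy A x (dec S)

/-- bound for the fine part -/
def FM (κ : Type) [Fintype κ] [DecidableEq κ] (A : Finset (Fin t') → Finset (Fin t) → ZMod 2) : ℤ :=
  ∑ x : Finset (Fin t) → ZMod 2, ∑ S : Finset (Co t t' κ), |fine A x S|

theorem fine_le_FM (A : Finset (Fin t') → Finset (Fin t) → ZMod 2) (x : Finset (Fin t) → ZMod 2)
    (S : Finset (Co t t' κ)) : |fine A x S| ≤ FM κ A := by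
  unfold FM
  calc |fine A x S| ≤ ∑ S : Finset (Co t t' κ), |fine A x S| :=
        single_le_sum (f := fun S : Finset (Co t t' κ) => |fine A x S|)
          (fun _ _ => abs_nonneg _) (mem_univ S)
    _ ≤ _ := single_le_sum (f := fun x : Finset (Fin t) → ZMod 2 =>
          ∑ S : Finset (Co t t' κ), |fine A x S|)
          (fun _ _ => sum_nonneg fun _ _ => abs_nonneg _) (mem_univ x)

/-- weight of the coarse part -/
def WW (κ : Type) [Fintype κ] [DecidableEq κ] (A : Finset (Fin t') → Finset (Fin t) → ZMod 2) : ℤ :=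
  (2 * (Fintype.card κ : ℤ) ^ 2 + 4 * Fintype.card κ + 3) * (FM κ A + 1) + 1

/-- The family of functions. -/
noncomputable def ff (comp : Co t t' κ → κ) (A : Finset (Fin t') → Finset (Fin t) → ZMod 2)
    (x : Finset (Fin t) → ZMod 2) (S : Finset (Co t t' κ)) : ℤ :=
  WW κ A * fc comp S + fine A x S

theorem FM_nonneg (A : Finset (Fin t') → Finset (Fin t) → ZMod 2) : 0 ≤ FM κ A :=
  sum_nonneg fun _ _ => sum_nonneg fun _ _ => abs_nonneg _

variable (A : Finset (Fin t') → Finset (Fin t) → ZMod 2) (x : Finset (Fin t) → ZMod 2)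

/-- reduction to the flat case -/
theorem fine_of (S Sa Sc Sac : Finset (Co t t' κ)) (δ : ℤ)
    (h : base Sa + base Sc - base S - base Sac = δ) (hδ : 0 ≤ δ)
    (h0 : δ = 0 → yy A x (dec S) + yy A x (dec Sac) ≤ yy A x (dec Sa) + yy A x (dec Sc)) :
    fine A x S + fine A x Sac ≤ fine A x Sa + fine A x Sc := by
  unfold fine
  by_cases hd : δ = 0
  · have h1 := h0 hd
    have h2 : base Sa + base Sc = base S + base Sac := by linarith
    have h3 : 4 * YM κ A * base Sa + 4 * YM κ A * base Sc =
      4 * YM κ A * base S + 4 * YM κ A * base Sac := by rw [← mul_add, h2, mul_add]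
    linarith
  · have h1 : 1 ≤ δ := by omega
    have a1 := abs_le.1 (yy_le_YM A x S)
    have a2 := abs_le.1 (yy_le_YM A x Sa)
    have a3 := abs_le.1 (yy_le_YM A x Sc)
    have a4 := abs_le.1 (yy_le_YM A x Sac)
    have a5 : 0 ≤ YM κ A := le_trans (abs_nonneg _) (yy_le_YM A x S)
    have h4 : base Sa + base Sc = base S + base Sac + δ := by linarith
    have h3 : 4 * YM κ A * base Sa + 4 * YM κ A * base Sc =
      4 * YM κ A * base S + 4 * YM κ A * base Sac + 4 * YM κ A * δ := by
        rw [← mul_add, h4]; ring
    have h5 : 4 * YM κ A * 1 ≤ 4 * YM κ A * δ := mul_le_mul_of_nonneg_left h1 (by linarith)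
    linarith [a1.2, a4.2, a2.1, a3.1]

theorem fine_M (ht : 0 < t) (S : Finset (Co t t' κ)) (a c : Co t t' κ) (ha : a ∉ S) (hc : c ∉ S)
    (haM : isM a = true) (hcM : isM c = false) :
    fine A x S + fine A x (insert a (insert c S)) ≤
      fine A x (insert a S) + fine A x (insert c S) := by
  have hac : a ≠ c := by rintro rfl; rw [haM] at hcM; exact absurd hcM (by decide)
  have haZ : isZ a = false := by cases a <;> simp [isM] at haM <;> simp [isZ]
  have hm := hh_mono a c haM S
  refine fine_of A x S _ _ _ _ (base_diff_M ha hc hac hcM haZ) (by linarith) ?_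
  intro h
  exact flat_marker A x ht S a c ha hc haM hcM (by linarith)

theorem st_insert_g (S : Finset (Co t t' κ)) (l : κ) (s : Bool) :
    st (insert (Co.g l s) S) = st S := st_insert rfl

theorem inact_nonneg (a b : Co t t' κ) : 0 ≤ inact a b := by
  unfold inact
  split <;> split_ifs <;> norm_num

theorem fine_Z (hx : ∀ I, dot (A I) x = 0) (S : Finset (Co t t' κ)) (a c : Co t t' κ)
    (ha : a ∉ S) (hc : c ∉ S) (hac : a ≠ c) (haM : isM a = false) (hcM : isM c = false) :
    fine A x S + fine A x (insert a (insert c S)) ≤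
      fine A x (insert a S) + fine A x (insert c S) := by
  have n1 := inact_nonneg a c
  have n2 := inact_nonneg c a
  refine fine_of A x S _ _ _ _ (base_diff_Z ha hc hac haM hcM) (by linarith) ?_
  intro h
  by_cases hga : ∃ l s, a = Co.g l s
  · obtain ⟨l, s, rfl⟩ := hga
    exact (yy_guard A x S l s c).le
  by_cases hgc : ∃ l s, c = Co.g l s
  · obtain ⟨l, s, rfl⟩ := hgc
    rw [Finset.insert_comm, add_comm (yy A x (dec (insert a S)))]
    exact (yy_guard A x S l s a).le
  push Not at hga hgc
  have haZ := isZ_of haM hga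
  have hcZ := isZ_of hcM hgc
  have h0 : inact a c ≠ 1 := by intro h'; linarith
  by_cases hact : ∃ j, (a = Co.k j ∧ c = Co.v j) ∨ (a = Co.v j ∧ c = Co.k j)
  · obtain ⟨j, ⟨rfl, rfl⟩ | ⟨rfl, rfl⟩⟩ := hact
    · exact yy_square A x hx S j ha hc
    · rw [Finset.insert_comm, add_comm (yy A x (dec (insert (Co.v j) S)))]
      exact yy_square A x hx S j hc ha
  · push Not at hact
    exact absurd (inact_of haZ hcZ fun j => ⟨fun h => (hact j).1 h.1 h.2,
      fun h => (hact j).2 h.1 h.2⟩) h0

/-- The functions of code words are submodular. -/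
theorem ff_isSub (ht : 0 < t) {comp : Co t t' κ → κ} (hcomp : GoodComp comp)
    (hx : ∀ I, dot (A I) x = 0) : IsSub (ff comp A x) := by
  intro S a b ha hb hab
  unfold ff
  by_cases hc : comp a = comp b
  · have h1 := fc_inner comp S a b ha hb hab hc
    have a1 := abs_le.1 (fine_le_FM A x S)
    have a2 := abs_le.1 (fine_le_FM A x (insert a S))
    have a3 := abs_le.1 (fine_le_FM A x (insert b S))
    have a4 := abs_le.1 (fine_le_FM A x (insert a (insert b S)))
    have h0 := FM_nonneg (κ := κ) A
    have hW : 2 * FM κ A ≤ WW κ A := by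
      unfold WW
      have : 0 ≤ (2 * (Fintype.card κ : ℤ) ^ 2 + 4 * Fintype.card κ) * (FM κ A + 1) := by
        positivity
      linarith
    have hW0 : 0 ≤ WW κ A := by linarith
    have h2 : WW κ A * (fc comp S + fc comp (insert a (insert b S)) + 2) ≤
        WW κ A * (fc comp (insert a S) + fc comp (insert b S)) := mul_le_mul_of_nonneg_left h1 hW0
    linarith [a1.2, a4.2, a2.1, a3.1]
  · have h1 : fc comp (insert a (insert b S)) + fc comp S =
        fc comp (insert a S) + fc comp (insert b S) :=
      sepf_cross comp (phi0 comp) S a b ha hb hc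
    have h2 : WW κ A * (fc comp (insert a (insert b S)) + fc comp S) =
        WW κ A * (fc comp (insert a S) + fc comp (insert b S)) := by rw [h1]
    have h3 : fine A x S + fine A x (insert a (insert b S)) ≤
        fine A x (insert a S) + fine A x (insert b S) := by
      cases hma : isM a
      · cases hmb : isM b
        · exact fine_Z A x hx S a b ha hb hab hma hmb
        · rw [Finset.insert_comm, add_comm (fine A x (insert a S))]
          exact fine_M A x ht S b a hb ha hmb hma
      · cases hmb : isM b
        · exact fine_M A x ht S a b ha hb hma hmb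
        · exact absurd ((hcomp.marker hma).trans (hcomp.marker hmb).symm) hc
    linarith

end

end Pool.Agent.Helper71.Sub
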