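import Mathlib
import Pool.Agent.Helper71.SubFam

set_option autoImplicit false
set_option linter.unusedSectionVars false
set_option linter.unusedVariables false
set_option linter.unusedSimpArgs false
set_option linter.constructorNameAsVariable false

/-!
# Soundness: a submodular function with the given range close to the function of a vector `x0`
gives a code word close to `x0`
-/

namespace Pool.Agent.Helper71.Sub

open Finset

section
variable {t t' : ℕ} {κ : Type} [Fintype κ] [DecidableEq κ]

/-- membership in the point of a datum -/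
def inP (d : Dat t t') : Co t t' κ → Bool
  | .u => d.u
  | .b => d.b
  | .m => d.m
  | .w => d.w
  | .e1 => d.e1
  | .e2 => d.e2
  | .k j => decide (j ∈ d.K)
  | .v j => decide (j ∈ d.V)
  | .i j => decide (j ∈ d.I)
  | .g _ s => s

/-- the guarded point of a datum -/
def pt (κ : Type) [Fintype κ] [DecidableEq κ] (d : Dat t t') : Finset (Co t t' κ) :=
  univ.filter fun c => inP d c = true

theorem mem_pt {d : Dat t t'} {c : Co t t' κ} : c ∈ pt κ d ↔ inP d c = true := by simp [pt]

theorem dec_pt (d : Dat t t') : dec (pt κ d) = d := by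
  rcases d with ⟨u, b, m, w, e1, e2, K, V, I⟩
  simp only [dec, mem_pt, inP, Dat.mk.injEq, Bool.decide_eq_true, true_and, decide_eq_true_eq]
  refine ⟨?_, ?_, ?_⟩ <;> ext a <;> simp

theorem pt_injective : Function.Injective (pt κ : Dat t t' → Finset (Co t t' κ)) := by
  intro d d' h
  rw [← dec_pt (κ := κ) d, h, dec_pt]

/-- insertion -/
def ins (d : Dat t t') : Co t t' κ → Dat t t'
  | .u => { d with u := true }
  | .b => { d with b := true }
  | .m => { d with m := true }
  | .w => { d with w := true }
  | .e1 => { d with e1 := true }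
  | .e2 => { d with e2 := true }
  | .k j => { d with K := insert j d.K }
  | .v j => { d with V := insert j d.V }
  | .i j => { d with I := insert j d.I }
  | .g _ _ => d

theorem insert_pt (d : Dat t t') (a : Co t t' κ) (ha : isM a = true ∨ isZ a = true) :
    insert a (pt κ d) = pt κ (ins d a) := by
  ext c
  cases a <;> simp [isM, isZ] at ha <;> cases c <;> simp [mem_pt, inP, ins]

theorem guarded_pt {comp : Co t t' κ → κ} (hcomp : GoodComp comp) (d : Dat t t') :
    Guarded comp (pt κ d) := by
  intro l
  refine ⟨⟨Co.g l true, ?_, hcomp.gc l true⟩, ⟨Co.g l false, ?_, hcomp.gc l false⟩⟩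
  · rw [mem_pt]; rfl
  · rw [mem_pt]; simp [inP]

/-- marker state of a datum -/
def sd (d : Dat t t') : Bool × Bool × Bool := (d.u, d.b, d.m)

theorem st_pt (d : Dat t t') : st (pt κ d) = sd d := by
  simp [st, sd, mem_pt, inP]

/-- submodularity at the guarded squares -/
def SubP (g : Finset (Co t t' κ) → ℤ) : Prop :=
  ∀ (d : Dat t t') (a c : Co t t' κ), (isM a = true ∨ isZ a = true) →
    (isM c = true ∨ isZ c = true) → a ∉ pt κ d → c ∉ pt κ d → a ≠ c →
    g (pt κ d) + g (insert a (insert c (pt κ d))) ≤ g (insert a (pt κ d)) + g (insert c (pt κ d))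

variable (comp : Co t t' κ → κ) (A : Finset (Fin t') → Finset (Fin t) → ZMod 2)

/-- reduced values of `g` -/
noncomputable def yg (g : Finset (Co t t' κ) → ℤ) (S : Finset (Co t t' κ)) : ℤ :=
  g S - WW κ A * fc comp S - 4 * YM κ A * base S

/-- reduced values of `g` at guarded points -/
noncomputable def Yd (g : Finset (Co t t' κ) → ℤ) (d : Dat t t') : ℤ := yg comp A g (pt κ d)

theorem sq {g : Finset (Co t t' κ) → ℤ} (hg : SubP g) (d : Dat t t') (a c : Co t t' κ)
    (haN : isM a = true ∨ isZ a = true) (hcN : isM c = true ∨ isZ c = true)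
    (ha : a ∉ pt κ d) (hc : c ∉ pt κ d) (hac : comp a ≠ comp c)
    (hb : base (insert a (pt κ d)) + base (insert c (pt κ d)) - base (pt κ d) -
      base (insert a (insert c (pt κ d))) = 0) :
    yg comp A g (pt κ d) + yg comp A g (insert a (insert c (pt κ d))) ≤
      yg comp A g (insert a (pt κ d)) + yg comp A g (insert c (pt κ d)) := by
  unfold yg
  have h0 := hg d a c haN hcN ha hc (fun h => hac (by rw [h]))
  set S := pt κ d with hS
  have h1 : fc comp (insert a (insert c S)) + fc comp S =
      fc comp (insert a S) + fc comp (insert c S) :=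
    sepf_cross comp (phi0 comp) S a c ha hc hac
  have h2 : WW κ A * (fc comp (insert a (insert c S)) + fc comp S) =
      WW κ A * (fc comp (insert a S) + fc comp (insert c S)) := by rw [h1]
  have h3 : 4 * YM κ A * (base (insert a S) + base (insert c S) - base S -
      base (insert a (insert c S))) = 0 := by rw [hb, mul_zero]
  linarith

theorem sqM (hcomp : GoodComp comp) {g : Finset (Co t t' κ) → ℤ} (hg : SubP g) (d : Dat t t')
    (a c : Co t t' κ) (ha : inP d a = false) (hc : inP d c = false) (haM : isM a = true)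
    (hcZ : isZ c = true) (hflat : hh (sd (ins d a)) c = hh (sd d) c) :
    Yd comp A g d + Yd comp A g (ins (ins d c) a) ≤
      Yd comp A g (ins d a) + Yd comp A g (ins d c) := by
  have ha' : a ∉ pt κ d := by rw [mem_pt, ha]; decide
  have hc' : c ∉ pt κ d := by rw [mem_pt, hc]; decide
  have hcM : isM c = false := by cases c <;> simp [isZ] at hcZ <;> rfl
  have haZ : isZ a = false := by cases a <;> simp [isM] at haM <;> rfl
  have hne : a ≠ c := by rintro rfl; rw [haZ] at hcZ; exact absurd hcZ (by decide)
  have h1 := base_diff_M ha' hc' hne hcM haZ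
  rw [insert_pt d a (Or.inl haM), st_pt, st_pt, hflat, sub_self] at h1
  have h2 := sq comp A hg d a c (Or.inl haM) (Or.inr hcZ) ha' hc'
    (by rw [hcomp.marker haM]; exact (hcomp.ne c hcZ).symm)
    (by rw [insert_pt d a (Or.inl haM)]; exact h1)
  rw [insert_pt d c (Or.inr hcZ), insert_pt _ a (Or.inl haM), insert_pt d a (Or.inl haM)] at h2
  exact h2

theorem sqX (hcomp : GoodComp comp) {g : Finset (Co t t' κ) → ℤ} (hg : SubP g) (d : Dat t t')
    (r : Fin t) (hk : r ∉ d.K) (hv : r ∉ d.V) :
    Yd comp A g d + Yd comp A g { d with K := insert r d.K, V := insert r d.V } ≤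
      Yd comp A g { d with K := insert r d.K } + Yd comp A g { d with V := insert r d.V } := by
  have ha' : (Co.k r : Co t t' κ) ∉ pt κ d := by rw [mem_pt]; simp [inP, hk]
  have hc' : (Co.v r : Co t t' κ) ∉ pt κ d := by rw [mem_pt]; simp [inP, hv]
  have hne : (Co.k r : Co t t' κ) ≠ Co.v r := by simp
  have h1 := base_diff_Z ha' hc' hne rfl rfl
  have h2 := sq comp A hg d _ _ (Or.inr rfl) (Or.inr rfl) ha' hc' (hcomp.kv r)
    (by rw [h1]; simp [inact])
  rw [insert_pt d (Co.v r) (Or.inr rfl), insert_pt _ (Co.k r) (Or.inr rfl),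
    insert_pt d (Co.k r) (Or.inr rfl)] at h2
  exact h2

section val
variable (hcomp : GoodComp comp) {g : Finset (Co t t' κ) → ℤ} (hg : SubP g)
  (hv : ∀ d : Dat t t', ∃ x, Yd comp A g d = yy A x d)
include hcomp hg hv

/-- plain rail -/
theorem exP (K V : Finset (Fin t)) (I : Finset (Fin t')) : ∃ x,
    Yd comp A g ⟨false, false, false, true, false, false, K, V, I⟩ = Gp K V + Vf A x K V I := by
  obtain ⟨x, hx⟩ := hv ⟨false, false, false, true, false, false, K, V, I⟩
  exact ⟨x, by rw [hx]; simp [yy]⟩

/-- dual rail -/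
theorem exQ (K V : Finset (Fin t)) (I : Finset (Fin t')) : ∃ x,
    Yd comp A g ⟨true, false, false, false, false, false, K, V, I⟩ =
      Gp K V + 2 - Vf A x K V I := by
  obtain ⟨x, hx⟩ := hv ⟨true, false, false, false, false, false, K, V, I⟩
  exact ⟨x, by rw [hx]; simp [yy]⟩

/-- L1 -/
theorem L1 (K V : Finset (Fin t)) (I : Finset (Fin t')) :
    2 * Gp K V + 2 ≤ Yd comp A g ⟨false, false, false, true, false, false, K, V, I⟩ +
      Yd comp A g ⟨true, false, false, false, false, false, K, V, I⟩ := by
  have h := sqM comp A hcomp hg ⟨false, false, false, false, false, false, K, V, I⟩ Co.u Co.w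
    rfl rfl rfl rfl rfl
  obtain ⟨x1, h1⟩ := hv ⟨false, false, false, false, false, false, K, V, I⟩
  obtain ⟨x2, h2⟩ := hv ⟨true, false, false, true, false, false, K, V, I⟩
  simp [yy] at h1 h2
  simp only [ins] at h
  linarith

/-- L2 -/
theorem L2 (K V : Finset (Fin t)) (I : Finset (Fin t')) :
    Yd comp A g ⟨false, false, false, true, false, false, K, V, I⟩ - 6 * Np K V ≤
      Yd comp A g ⟨false, false, true, true, false, false, K, V, I⟩ := by
  have h := sqM comp A hcomp hg ⟨false, false, false, true, false, false, K, V, I⟩ Co.m Co.e1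
    rfl rfl rfl rfl rfl
  obtain ⟨x1, h1⟩ := hv ⟨false, false, false, true, true, false, K, V, I⟩
  obtain ⟨x2, h2⟩ := hv ⟨false, false, true, true, true, false, K, V, I⟩
  simp [yy] at h1 h2
  simp only [ins] at h
  linarith

/-- L3 -/
theorem L3 (K V : Finset (Fin t)) (I : Finset (Fin t')) :
    Yd comp A g ⟨true, false, false, false, false, false, K, V, I⟩ - 6 * Np K V ≤
      Yd comp A g ⟨true, false, true, false, false, false, K, V, I⟩ + leafA A K V I := by
  have h := sqM comp A hcomp hg ⟨true, false, false, false, false, false, K, V, I⟩ Co.m Co.e1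
    rfl rfl rfl rfl rfl
  obtain ⟨x1, h1⟩ := hv ⟨true, false, false, false, true, false, K, V, I⟩
  obtain ⟨x2, h2⟩ := hv ⟨true, false, true, false, true, false, K, V, I⟩
  simp [yy] at h1 h2
  simp only [ins] at h
  linarith

/-- L4 -/
theorem L4 (K V : Finset (Fin t)) (I : Finset (Fin t')) :
    Yd comp A g ⟨false, false, true, true, false, false, K, V, I⟩ ≤
      Yd comp A g ⟨false, true, true, true, false, false, K, V, I⟩ := by
  have h := sqM comp A hcomp hg ⟨false, false, true, true, false, false, K, V, I⟩ Co.b Co.e2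
    rfl rfl rfl rfl rfl
  obtain ⟨x1, h1⟩ := hv ⟨false, false, true, true, false, true, K, V, I⟩
  obtain ⟨x2, h2⟩ := hv ⟨false, true, true, true, false, true, K, V, I⟩
  simp [yy] at h1 h2
  simp only [ins] at h
  linarith

/-- L5 -/
theorem L5 (K V : Finset (Fin t)) (I : Finset (Fin t')) :
    Yd comp A g ⟨false, true, true, true, false, false, K, V, I⟩ ≤
      Yd comp A g ⟨true, true, true, true, false, false, K, V, I⟩ := by
  have h := sqM comp A hcomp hg ⟨false, true, true, true, false, false, K, V, I⟩ Co.u Co.e1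
    rfl rfl rfl rfl rfl
  obtain ⟨x1, h1⟩ := hv ⟨false, true, true, true, true, false, K, V, I⟩
  obtain ⟨x2, h2⟩ := hv ⟨true, true, true, true, true, false, K, V, I⟩
  simp [yy] at h1 h2
  simp only [ins] at h
  linarith

/-- L6 -/
theorem L6 (K V : Finset (Fin t)) (I : Finset (Fin t')) :
    Yd comp A g ⟨true, true, true, true, false, false, K, V, I⟩ +
      Yd comp A g ⟨true, false, true, false, false, false, K, V, I⟩ ≤ 2 := by
  have h := sqM comp A hcomp hg ⟨true, false, true, false, false, false, K, V, I⟩ Co.b Co.w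
    rfl rfl rfl rfl rfl
  obtain ⟨x1, h1⟩ := hv ⟨true, true, true, false, false, false, K, V, I⟩
  obtain ⟨x2, h2⟩ := hv ⟨true, false, true, true, false, false, K, V, I⟩
  simp [yy] at h1 h2
  simp only [ins] at h
  linarith

/-- L7, direction v -/
theorem L7v (K V : Finset (Fin t)) (I : Finset (Fin t')) (j : Fin t) :
    Yd comp A g ⟨true, false, true, false, false, false, K, insert j V, I⟩ =
      Yd comp A g ⟨true, false, true, false, false, false, K, V, I⟩ := by
  by_cases hj : j ∈ V
  · rw [insert_eq_of_mem hj]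
  have h := sqM comp A hcomp hg ⟨false, false, true, false, false, false, K, V, I⟩ Co.u (Co.v j)
    rfl (by simp [inP, hj]) rfl rfl rfl
  have h' := sqM comp A hcomp hg ⟨true, false, true, false, false, false, K, V, I⟩ Co.b (Co.v j)
    rfl (by simp [inP, hj]) rfl rfl rfl
  obtain ⟨x1, h1⟩ := hv ⟨false, false, true, false, false, false, K, V, I⟩
  obtain ⟨x2, h2⟩ := hv ⟨false, false, true, false, false, false, K, insert j V, I⟩
  obtain ⟨x3, h3⟩ := hv ⟨true, true, true, false, false, false, K, V, I⟩
  obtain ⟨x4, h4⟩ := hv ⟨true, true, true, false, false, false, K, insert j V, I⟩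
  simp [yy] at h1 h2 h3 h4
  simp only [ins] at h h'
  linarith

/-- L7, direction i -/
theorem L7i (K V : Finset (Fin t)) (I : Finset (Fin t')) (j : Fin t') :
    Yd comp A g ⟨true, false, true, false, false, false, K, V, insert j I⟩ =
      Yd comp A g ⟨true, false, true, false, false, false, K, V, I⟩ := by
  by_cases hj : j ∈ I
  · rw [insert_eq_of_mem hj]
  have h := sqM comp A hcomp hg ⟨false, false, true, false, false, false, K, V, I⟩ Co.u (Co.i j)
    rfl (by simp [inP, hj]) rfl rfl rfl
  have h' := sqM comp A hcomp hg ⟨true, false, true, false, false, false, K, V, I⟩ Co.b (Co.i j)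
    rfl (by simp [inP, hj]) rfl rfl rfl
  obtain ⟨x1, h1⟩ := hv ⟨false, false, true, false, false, false, K, V, I⟩
  obtain ⟨x2, h2⟩ := hv ⟨false, false, true, false, false, false, K, V, insert j I⟩
  obtain ⟨x3, h3⟩ := hv ⟨true, true, true, false, false, false, K, V, I⟩
  obtain ⟨x4, h4⟩ := hv ⟨true, true, true, false, false, false, K, V, insert j I⟩
  simp [yy] at h1 h2 h3 h4
  simp only [ins] at h h'
  linarith

theorem L7 (K V : Finset (Fin t)) (I : Finset (Fin t')) :
    Yd comp A g ⟨true, false, true, false, false, false, K, V, I⟩ =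
      Yd comp A g ⟨true, false, true, false, false, false, K, ∅, ∅⟩ := by
  induction V using Finset.induction_on with
  | empty =>
    induction I using Finset.induction_on with
    | empty => rfl
    | insert j I hj ih => rw [L7i comp A hcomp hg hv, ih]
  | insert j V hj ih => rw [L7v comp A hcomp hg hv, ih]

/-- the decoded vector exists -/
theorem exists_x' : ∃ x' : Finset (Fin t) → ZMod 2, ∀ K V I,
    Yd comp A g ⟨true, false, true, false, false, false, K, V, I⟩ = 2 - 2 * bit (x' K) := by
  have h : ∀ K, ∃ z : ZMod 2, Yd comp A g ⟨true, false, true, false, false, false, K, ∅, ∅⟩ =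
      2 - 2 * bit z := by
    intro K
    obtain ⟨x, hx⟩ := hv ⟨true, false, true, false, false, false, K, ∅, ∅⟩
    exact ⟨x K, by rw [hx]; simp [yy]⟩
  choose x' hx' using h
  exact ⟨x', fun K V I => by rw [L7 comp A hcomp hg hv, hx']⟩

theorem Gp_leaf (K : Finset (Fin t)) : Gp K Kᶜ = 0 := by
  unfold Gp
  have : ∀ l j : Fin t, (if l < j then al K Kᶜ l * be K Kᶜ j else 0) = 0 := by
    intro l j
    have : be K Kᶜ j = 0 := by
      unfold be
      rw [if_neg]
      rw [mem_compl]; tauto
    rw [this, mul_zero, ite_self]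
  simp [this]

theorem Gp_spec {K V : Finset (Fin t)} (h : Spec K V) : Gp K V = 0 := by
  unfold Gp
  have : ∀ l j : Fin t, (if l < j then al K V l * be K V j else 0) = 0 := by
    intro l j
    by_cases hlj : l < j
    · rw [if_pos hlj]
      rcases h l j hlj with h1 | h1
      · have : al K V l = 0 := by unfold al; simp [h1]
        rw [this, zero_mul]
      · have : be K V j = 0 := by unfold be; simp [h1]
        rw [this, mul_zero]
    · rw [if_neg hlj]
  simp [this]

theorem xorstep {K V : Finset (Fin t)} {r : Fin t} (h : XorBase K V r) (I : Finset (Fin t'))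
    (h10 : Yd comp A g ⟨false, false, false, true, false, false, insert r K, V, I⟩ +
      Yd comp A g ⟨true, false, false, false, false, false, insert r K, V, I⟩ = 2)
    (h01 : Yd comp A g ⟨false, false, false, true, false, false, K, insert r V, I⟩ +
      Yd comp A g ⟨true, false, false, false, false, false, K, insert r V, I⟩ = 2) :
    Yd comp A g ⟨false, false, false, true, false, false, K, V, I⟩ +
      Yd comp A g ⟨true, false, false, false, false, false, K, V, I⟩ = 2 ∧
    Yd comp A g ⟨false, false, false, true, false, false, K, V, I⟩ +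
      Yd comp A g ⟨false, false, false, true, false, false, insert r K, insert r V, I⟩ =
    Yd comp A g ⟨false, false, false, true, false, false, insert r K, V, I⟩ +
      Yd comp A g ⟨false, false, false, true, false, false, K, insert r V, I⟩ := by
  have s1 := sqX comp A hcomp hg ⟨false, false, false, true, false, false, K, V, I⟩ r h.hK h.hV
  have s2 := sqX comp A hcomp hg ⟨true, false, false, false, false, false, K, V, I⟩ r h.hK h.hV
  have l1 := L1 comp A hcomp hg hv K V I
  have l2 := L1 comp A hcomp hg hv (insert r K) (insert r V) I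
  rw [Gp_spec comp A hcomp hg hv h.spec00] at l1
  rw [Gp_spec comp A hcomp hg hv h.spec11] at l2
  simp only at s1 s2
  constructor <;> linarith

theorem leaf_val (ht : 0 < t) (x' : Finset (Fin t) → ZMod 2) (hx' : ∀ K V I,
    Yd comp A g ⟨true, false, true, false, false, false, K, V, I⟩ = 2 - 2 * bit (x' K))
    (K : Finset (Fin t)) (I : Finset (Fin t')) :
    Yd comp A g ⟨false, false, false, true, false, false, K, Kᶜ, I⟩ = 2 * bit (A I K * x' K) ∧
    Yd comp A g ⟨false, false, false, true, false, false, K, Kᶜ, I⟩ +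
      Yd comp A g ⟨true, false, false, false, false, false, K, Kᶜ, I⟩ = 2 := by
  by_cases hA : A I K = 0
  · obtain ⟨x1, h1⟩ := exP comp A hcomp hg hv K Kᶜ I
    obtain ⟨x2, h2⟩ := exQ comp A hcomp hg hv K Kᶜ I
    rw [Gp_leaf comp A hcomp hg hv, Vf_leaf A _ ht, hA, zero_mul] at h1 h2
    have hb : bit 0 = 0 := by simp [bit]
    rw [h1, h2, hA, zero_mul, hb]
    norm_num
  · have hA1 : A I K = 1 := by
      revert hA; generalize A I K = z; revert z; decide
    have l1 := L1 comp A hcomp hg hv K Kᶜ I
    have l2 := L2 comp A hcomp hg hv K Kᶜ I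
    have l3 := L3 comp A hcomp hg hv K Kᶜ I
    have l4 := L4 comp A hcomp hg hv K Kᶜ I
    have l5 := L5 comp A hcomp hg hv K Kᶜ I
    have l6 := L6 comp A hcomp hg hv K Kᶜ I
    have hN : Np K Kᶜ = 0 := Np_eq_zero.2 rfl
    have hL : leafA A K Kᶜ I = 0 := by
      unfold leafA
      rw [if_neg (fun h => hA h.2)]
    rw [Gp_leaf comp A hcomp hg hv] at l1
    rw [hN] at l2 l3
    rw [hL] at l3
    rw [hx'] at l3 l6
    rw [hA1, one_mul]
    constructor <;> linarith

/-- positions -/
def VV (r : ℕ) (K : Finset (Fin t)) : Finset (Fin t) := univ.filter fun j => r ≤ j.val ∧ j ∉ K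

theorem xorBase_pos {r : Fin t} {K : Finset (Fin t)} (hK : ∀ j ∈ K, r.val + 1 ≤ j.val) :
    XorBase K (VV (r.val + 1) K) r := by
  refine ⟨?_, ?_, ?_, ?_⟩
  · intro h; have := hK r h; omega
  · intro h; simp only [VV, mem_filter] at h; omega
  · intro j hj
    have hj' : r.val + 1 ≤ j.val := hj
    simp only [VV, mem_filter, mem_univ, true_and, hj']
    tauto
  · intro l hl
    have hl' : l.val < r.val := hl
    refine ⟨fun h => ?_, fun h => ?_⟩
    · have := hK l h; omega
    · simp only [VV, mem_filter] at h; omega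

theorem VV_10 {r : Fin t} {K : Finset (Fin t)} (hK : ∀ j ∈ K, r.val + 1 ≤ j.val) :
    VV r.val (insert r K) = VV (r.val + 1) K := by
  ext j
  simp only [VV, mem_filter, mem_univ, true_and, mem_insert, not_or]
  constructor
  · rintro ⟨h1, h2, h3⟩
    refine ⟨?_, h3⟩
    have : j.val ≠ r.val := fun h => h2 (Fin.ext h)
    omega
  · rintro ⟨h1, h2⟩
    refine ⟨by omega, ?_, h2⟩
    rintro rfl
    omega

theorem VV_01 {r : Fin t} {K : Finset (Fin t)} (hK : ∀ j ∈ K, r.val + 1 ≤ j.val) :
    VV r.val K = insert r (VV (r.val + 1) K) := by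
  ext j
  simp only [VV, mem_filter, mem_univ, true_and, mem_insert]
  constructor
  · rintro ⟨h1, h2⟩
    by_cases h : j = r
    · exact Or.inl h
    · refine Or.inr ⟨?_, h2⟩
      have : j.val ≠ r.val := fun h' => h (Fin.ext h')
      omega
  · rintro (rfl | ⟨h1, h2⟩)
    · refine ⟨le_refl _, fun h => ?_⟩
      have := hK j h; omega
    · exact ⟨by omega, h2⟩

theorem lt_succ_set (r : Fin t) : (univ.filter fun j : Fin t => j.val < r.val + 1) =
    insert r (univ.filter fun j => j < r) := by
  ext j
  simp only [mem_filter, mem_univ, true_and, mem_insert]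
  constructor
  · intro h
    rcases Nat.lt_or_ge j.val r.val with h1 | h1
    · exact Or.inr h1
    · exact Or.inl (Fin.ext (by omega))
  · rintro (rfl | h)
    · omega
    · have : j.val < r.val := h
      omega

theorem bit_arith (a b p q : ZMod 2) (q' : ZMod 2) (h : 2 * bit p + 4 * bit q * bit q' =
    2 * bit b + 2 * bit a) : bit p = bit (a + b) := by
  revert a b p q q'; decide

theorem rail (ht : 0 < t) (x' : Finset (Fin t) → ZMod 2) (hx' : ∀ K V I,
    Yd comp A g ⟨true, false, true, false, false, false, K, V, I⟩ = 2 - 2 * bit (x' K))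
    (I : Finset (Fin t')) (r : ℕ) (hr : r < t) : ∀ (K : Finset (Fin t)), (∀ j ∈ K, r ≤ j.val) →
    Yd comp A g ⟨false, false, false, true, false, false, K, VV r K, I⟩ =
      2 * bit (par A x' I K (univ.filter fun j => j.val < r)) ∧
    Yd comp A g ⟨false, false, false, true, false, false, K, VV r K, I⟩ +
      Yd comp A g ⟨true, false, false, false, false, false, K, VV r K, I⟩ = 2 := by
  induction r with
  | zero =>
    intro K hK
    have e1 : VV 0 K = Kᶜ := by ext j; simp [VV]
    have e2 : (univ.filter fun j : Fin t => j.val < 0) = ∅ := by ext j; simp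
    rw [e1, e2]
    have := leaf_val comp A hcomp hg hv ht x' hx' K I
    unfold par
    rw [part_empty]
    exact this
  | succ r ih =>
    intro K hK
    have ih' := ih (by omega)
    set r0 : Fin t := ⟨r, by omega⟩ with hr0
    have hK' : ∀ j ∈ K, r0.val + 1 ≤ j.val := hK
    have hX := xorBase_pos comp A hcomp hg hv hK'
    obtain ⟨a1, a2⟩ := ih' (insert r0 K) (by
      intro j hj
      rw [mem_insert] at hj
      rcases hj with rfl | hj
      · exact le_refl _
      · have := hK j hj; omega)
    obtain ⟨b1, b2⟩ := ih' K (fun j hj => by have := hK j hj; omega)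
    have e10 : VV r (insert r0 K) = VV (r + 1) K := VV_10 comp A hcomp hg hv hK'
    have e01 : VV r K = insert r0 (VV (r + 1) K) := VV_01 comp A hcomp hg hv hK'
    rw [e10] at a1 a2
    rw [e01] at b1 b2
    obtain ⟨c1, c2⟩ := xorstep comp A hcomp hg hv hX I a2 b2
    refine ⟨?_, c1⟩
    obtain ⟨x1, h1⟩ := exP comp A hcomp hg hv K (VV (r + 1) K) I
    obtain ⟨x2, h2⟩ := exP comp A hcomp hg hv (insert r0 K) (insert r0 (VV (r + 1) K)) I
    rw [Gp_spec comp A hcomp hg hv hX.spec00, Vf_00 A x1 hX] at h1
    rw [Gp_spec comp A hcomp hg hv hX.spec11, Vf_11 A x2 hX] at h2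
    have hne : insert r0 (univ.filter fun j : Fin t => j < r0) ≠ univ := by
      intro h
      have h3 : (⟨r + 1, hr⟩ : Fin t) ∈ insert r0 (univ.filter fun j : Fin t => j < r0) := by
        rw [h]; exact mem_univ _
      rw [← lt_succ_set comp A hcomp hg hv] at h3
      simp [hr0] at h3
    rw [if_neg hne] at h1
    have e2 : (univ.filter fun j : Fin t => j.val < r) = univ.filter fun j => j < r0 := rfl
    have e3 : (univ.filter fun j : Fin t => j.val < r + 1) =
      insert r0 (univ.filter fun j => j < r0) := lt_succ_set comp A hcomp hg hv r0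
    rw [e3, par_split A x' hX]
    rw [a1, b1, h1, h2, e2] at c2
    have hb := bit_arith comp A hcomp hg hv (par A x' I K (univ.filter fun j => j < r0))
      (par A x' I (insert r0 K) (univ.filter fun j => j < r0))
      (par A x1 I K (insert r0 (univ.filter fun j => j < r0)))
      (par A x2 I (insert r0 K) (univ.filter fun j => j < r0))
      (par A x2 I K (univ.filter fun j => j < r0)) (by linarith [c2])
    rw [h1, zero_add, hb]

/-- the decoded vector is a code word -/
theorem decoded (ht : 0 < t) (x' : Finset (Fin t) → ZMod 2) (hx' : ∀ K V I,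
    Yd comp A g ⟨true, false, true, false, false, false, K, V, I⟩ = 2 - 2 * bit (x' K))
    (I : Finset (Fin t')) : dot (A I) x' = 0 := by
  have hr : t - 1 < t := by omega
  set r0 : Fin t := ⟨t - 1, hr⟩ with hr0
  have h := rail comp A hcomp hg hv ht x' hx' I (t - 1) hr
  have hK' : ∀ j ∈ (∅ : Finset (Fin t)), r0.val + 1 ≤ j.val := by simp
  have hX := xorBase_pos comp A hcomp hg hv hK'
  obtain ⟨a1, a2⟩ := h (insert r0 ∅) (by
    intro j hj
    rw [mem_insert] at hj
    rcases hj with rfl | hj
    · exact le_refl _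
    · simp at hj)
  obtain ⟨b1, b2⟩ := h ∅ (by simp)
  have e10 : VV (t - 1) (insert r0 ∅) = VV (t - 1 + 1) ∅ := VV_10 comp A hcomp hg hv hK'
  have e01 : VV (t - 1) ∅ = insert r0 (VV (t - 1 + 1) ∅) := VV_01 comp A hcomp hg hv hK'
  rw [e10] at a1 a2
  rw [e01] at b1 b2
  obtain ⟨c1, c2⟩ := xorstep comp A hcomp hg hv hX I a2 b2
  obtain ⟨x1, h1⟩ := exP comp A hcomp hg hv ∅ (VV (t - 1 + 1) ∅) I
  obtain ⟨x2, h2⟩ := exP comp A hcomp hg hv (insert r0 ∅) (insert r0 (VV (t - 1 + 1) ∅)) I
  rw [Gp_spec comp A hcomp hg hv hX.spec00, Vf_00 A x1 hX] at h1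
  rw [Gp_spec comp A hcomp hg hv hX.spec11, Vf_11 A x2 hX] at h2
  have hu : insert r0 (univ.filter fun j : Fin t => j < r0) = univ := by
    rw [← lt_succ_set comp A hcomp hg hv]
    ext j
    simp only [mem_filter, mem_univ, true_and, iff_true]
    have := j.isLt
    simp only [hr0]; omega
  rw [if_pos hu] at h1
  have e2 : (univ.filter fun j : Fin t => j.val < t - 1) = univ.filter fun j => j < r0 := rfl
  rw [a1, b1, h1, h2, e2] at c2
  have hb := bit_arith comp A hcomp hg hv (par A x' I ∅ (univ.filter fun j => j < r0))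
      (par A x' I (insert r0 ∅) (univ.filter fun j => j < r0)) 0
      (par A x2 I (insert r0 ∅) (univ.filter fun j => j < r0))
      (par A x2 I ∅ (univ.filter fun j => j < r0)) (by
    have : bit 0 = 0 := by simp [bit]
    rw [this]; linarith [c2])
  rw [← par_split A x' hX, hu] at hb
  have e4 : par A x' I ∅ univ = dot (A I) x' := by
    unfold par
    have : part (A I) ∅ univ = A I := by
      funext κ'
      unfold part
      rw [if_pos]
      simp
    rw [this]
  rw [e4] at hb
  revert hb
  generalize dot (A I) x' = z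
  revert z; decide

end val

end

end Pool.Agent.Helper71.Sub
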