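import Mathlib
import Pool.Agent.Helper71.SubSound

set_option autoImplicit false
set_option linter.unusedSectionVars false
set_option linter.unusedVariables false
set_option linter.unusedSimpArgs false
set_option linter.constructorNameAsVariable false

/-!
# Soundness, final form
-/

namespace Pool.Agent.Helper71.Sub

open Finset

section
variable {t t' : ℕ} {κ : Type} [Fintype κ] [DecidableEq κ]
variable (comp : Co t t' κ → κ) (A : Finset (Fin t') → Finset (Fin t) → ZMod 2)

theorem WW_nonneg : 0 ≤ WW κ A := by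
  unfold WW
  have := FM_nonneg (κ := κ) A
  positivity

theorem fc_ge_one {S : Finset (Co t t' κ)} (hS : Guarded comp S) : 1 ≤ fc comp S := by
  have h0 := fc_nonneg comp S
  have h1 : fc comp S ≠ 0 := by
    intro h
    have h2 : fc comp (∅ : Finset (Co t t' κ)) = 0 := by
      unfold fc sepf
      refine sum_eq_zero fun l _ => ?_
      have : part1 comp (∅ : Finset (Co t t' κ)) l = ∅ := by ext; simp [mem_part1]
      rw [this, phi0_empty]
    have h3 := fc_eq_iff comp S ∅ hS (h2.trans h.symm)
    obtain ⟨a, ha, -⟩ := (hS (comp Co.u)).1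
    rw [← h3] at ha
    simp at ha
  omega

/-- bound for the size of values -/
noncomputable def MM : ℤ := WW κ A * (∑ S : Finset (Co t t' κ), fc comp S + 1) +
  (2 * (Fintype.card κ : ℤ) ^ 2 + 4 * Fintype.card κ + 3) * (FM κ A + 1) + 1

theorem fc_le_sum (S : Finset (Co t t' κ)) : fc comp S ≤ ∑ S : Finset (Co t t' κ), fc comp S :=
  single_le_sum (f := fun S : Finset (Co t t' κ) => fc comp S)
    (fun _ _ => fc_nonneg comp _) (mem_univ S)

theorem ff_le_MM (x : Finset (Fin t) → ZMod 2) (S : Finset (Co t t' κ)) :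
    ff comp A x S + FM κ A + 1 ≤ MM comp A := by
  have h1 := fc_le_sum comp S
  have h2 := WW_nonneg (κ := κ) A
  have h3 := mul_le_mul_of_nonneg_left h1 h2
  have h4 := FM_nonneg (κ := κ) A
  have h5 := abs_le.1 (fine_le_FM A x S)
  have h6 : 0 ≤ (2 * (Fintype.card κ : ℤ) ^ 2 + 4 * Fintype.card κ) * (FM κ A + 1) := by
    positivity
  unfold ff MM
  linarith [h5.2]

theorem ff_ge_one (x : Finset (Fin t) → ZMod 2) (S : Finset (Co t t' κ)) :
    1 ≤ ff comp A x S + FM κ A + 1 := by
  have h1 := mul_nonneg (WW_nonneg (κ := κ) A) (fc_nonneg comp S)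
  have h5 := abs_le.1 (fine_le_FM A x S)
  unfold ff
  linarith [h5.1]

theorem guarded_val {s : ℤ} (hs : 0 < s) {g : Finset (Co t t' κ) → ℤ} (hg : IsSub g)
    (hval : ∀ S, (∃ x S', g S = s * (ff comp A x S' + FM κ A + 1)) ∨ (0 ≤ g S ∧ g S ≤ s) ∨
      s * MM comp A ≤ g S) (x0 : Finset (Fin t) → ZMod 2)
    (D : Finset (Finset (Co t t' κ)))
    (hD : ∀ S, S ∉ D → g S = s * (ff comp A x0 S + FM κ A + 1))
    (hcard : ∀ l, D.card * (2 + ∑ l' : κ, 2 ^ (fib comp l').card) * 2 ^ (fib comp l).card
      < 2 ^ Fintype.card (Co t t' κ)) (S : Finset (Co t t' κ)) (hS : Guarded comp S) :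
    ∃ x, g S = s * (ff comp A x S + FM κ A + 1) := by
  have : Nonempty κ := ⟨comp Co.u⟩
  have hFM := FM_nonneg (κ := κ) A
  have hW := WW_nonneg (κ := κ) A
  have hsep : ∀ S : Finset (Co t t' κ), sepf comp (fun l X => s * WW κ A * phi0 comp l X) S =
      s * WW κ A * fc comp S := by
    intro S
    unfold sepf fc sepf
    rw [mul_sum]
  have hlow : ∀ S : Finset (Co t t' κ), -(s * (FM κ A + 1)) ≤ g S - s * (FM κ A + 1) := by
    intro S
    have : 0 ≤ g S := by
      rcases hval S with ⟨x, S', h⟩ | h | h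
      · rw [h]
        have := ff_ge_one comp A x S'
        exact mul_nonneg hs.le (by linarith)
      · exact h.1
      · refine le_trans (mul_nonneg hs.le ?_) h
        exact le_trans (by linarith [ff_ge_one comp A x0 S]) (ff_le_MM comp A x0 S)
    linarith
  have hg' : IsSub (fun S => g S - s * (FM κ A + 1)) := by
    intro S a b ha hb hab
    have := hg S a b ha hb hab
    simp only
    linarith
  have hr := rigidity comp (fun l X => s * WW κ A * phi0 comp l X)
    (fun l => by rw [phi0_empty, mul_zero]) (fun l => by rw [phi0_fib, mul_zero])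
    (fun S => g S - s * (FM κ A + 1)) hg' (s * (FM κ A + 1))
    (mul_nonneg hs.le (by linarith)) (hlow _) (hlow _) D (by
      intro S hS
      rw [hsep]
      rw [hD S hS]
      unfold ff
      have e : s * (WW κ A * fc comp S + fine A x0 S + FM κ A + 1) - s * (FM κ A + 1) -
        s * WW κ A * fc comp S = s * fine A x0 S := by ring
      rw [e, abs_mul, abs_of_pos hs]
      exact mul_le_mul_of_nonneg_left (by linarith [fine_le_FM A x0 S]) hs.le) hcard S
  rw [hsep] at hr
  set k2 : ℤ := 2 * (Fintype.card κ : ℤ) ^ 2 + 4 * Fintype.card κ with hk2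
  have hk2n : 0 ≤ k2 := by positivity
  have h1 := abs_le.1 hr
  rcases hval S with ⟨x, S', h⟩ | h | h
  · have hS' : fc comp S' = fc comp S := by
      rw [h] at h1
      unfold ff at h1
      have h2 := abs_le.1 (fine_le_FM A x S')
      have e : s * (WW κ A * fc comp S' + fine A x S' + FM κ A + 1) - s * (FM κ A + 1) -
        s * WW κ A * fc comp S = s * (WW κ A * (fc comp S' - fc comp S) + fine A x S') := by ring
      rw [e] at h1
      have e2 : (k2 + 1) * (s * (FM κ A + 1)) = s * ((k2 + 1) * (FM κ A + 1)) := by ring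
      rw [e2] at h1
      have h3 : WW κ A * (fc comp S' - fc comp S) + fine A x S' ≤ (k2 + 1) * (FM κ A + 1) :=
        le_of_mul_le_mul_left h1.2 hs
      have h4 : -((k2 + 1) * (FM κ A + 1)) ≤ WW κ A * (fc comp S' - fc comp S) + fine A x S' := by
        have : s * -((k2 + 1) * (FM κ A + 1)) ≤
          s * (WW κ A * (fc comp S' - fc comp S) + fine A x S') := by linarith [h1.1]
        exact le_of_mul_le_mul_left this hs
      have hWW : WW κ A = (k2 + 3) * (FM κ A + 1) + 1 := rfl
      rcases lt_trichotomy (fc comp S') (fc comp S) with hlt | heq | hgt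
      · have : WW κ A * 1 ≤ WW κ A * (fc comp S - fc comp S') :=
          mul_le_mul_of_nonneg_left (by omega) hW
        linarith
      · exact heq
      · have : WW κ A * 1 ≤ WW κ A * (fc comp S' - fc comp S) :=
          mul_le_mul_of_nonneg_left (by omega) hW
        linarith
    refine ⟨x, ?_⟩
    rw [h, fc_eq_iff comp S S' hS hS']
  · exfalso
    have hf := fc_ge_one comp hS
    have h2 : s * WW κ A * 1 ≤ s * WW κ A * fc comp S :=
      mul_le_mul_of_nonneg_left hf (mul_nonneg hs.le hW)
    have h3 : s * (WW κ A) ≤ s * ((k2 + 1) * (FM κ A + 1) + 1 - (FM κ A + 1)) := by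
      linarith [h1.1, h.2]
    have h4 := le_of_mul_le_mul_left h3 hs
    have hWW : WW κ A = (k2 + 3) * (FM κ A + 1) + 1 := rfl
    linarith
  · exfalso
    have hf := fc_le_sum comp S
    have h3 : s * MM comp A ≤ s * (WW κ A * fc comp S + (k2 + 1) * (FM κ A + 1) +
        (FM κ A + 1)) := by
      linarith [h1.2]
    have h4 := le_of_mul_le_mul_left h3 hs
    have h5 := mul_le_mul_of_nonneg_left hf hW
    have hMM : MM comp A = WW κ A * (∑ S : Finset (Co t t' κ), fc comp S + 1) +
      (k2 + 3) * (FM κ A + 1) + 1 := rfl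
    linarith

/-- the descaled function -/
def descale (κ : Type) [Fintype κ] [DecidableEq κ] (s : ℤ) (g : Finset (Co t t' κ) → ℤ) :
    Finset (Co t t' κ) → ℤ := fun S => g S / s - (FM κ A + 1)

theorem subP_of {s : ℤ} (hs : 0 < s) {g : Finset (Co t t' κ) → ℤ} (hg : IsSub g)
    (hcomp : GoodComp comp)
    (h : ∀ S, Guarded comp S → ∃ x, g S = s * (ff comp A x S + FM κ A + 1)) :
    SubP (descale A κ s g) := by
  have key : ∀ d : Dat t t', ∃ z : ℤ, g (pt κ d) = s * (z + FM κ A + 1) ∧
      descale A κ s g (pt κ d) = z := by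
    intro d
    obtain ⟨x, hx⟩ := h (pt κ d) (guarded_pt hcomp d)
    refine ⟨_, hx, ?_⟩
    unfold descale
    rw [hx, Int.mul_ediv_cancel_left _ hs.ne']
    ring
  intro d a c haN hcN ha hc hac
  have h0 := hg (pt κ d) a c ha hc hac
  rw [insert_pt d c hcN, insert_pt _ a haN, insert_pt d a haN] at h0 ⊢
  obtain ⟨z1, h1, h1'⟩ := key d
  obtain ⟨z2, h2, h2'⟩ := key (ins (ins d c) a)
  obtain ⟨z3, h3, h3'⟩ := key (ins d a)
  obtain ⟨z4, h4, h4'⟩ := key (ins d c)
  rw [h1, h2, h3, h4] at h0
  rw [h1', h2', h3', h4']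
  have : s * (z1 + z2) ≤ s * (z3 + z4) := by linarith
  exact le_of_mul_le_mul_left this hs

theorem Yd_val (hcomp : GoodComp comp) {g : Finset (Co t t' κ) → ℤ}
    (h : ∀ S, Guarded comp S → ∃ x, g S = ff comp A x S) (d : Dat t t') :
    ∃ x, Yd comp A g d = yy A x d := by
  obtain ⟨x, hx⟩ := h (pt κ d) (guarded_pt hcomp d)
  refine ⟨x, ?_⟩
  unfold Yd yg
  rw [hx]
  unfold ff fine
  rw [dec_pt]
  ring

/-- **Soundness.** -/
theorem soundness (ht : 0 < t) (hcomp : GoodComp comp) {s : ℤ} (hs : 0 < s)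
    {g : Finset (Co t t' κ) → ℤ} (hg : IsSub g)
    (hval : ∀ S, (∃ x S', g S = s * (ff comp A x S' + FM κ A + 1)) ∨ (0 ≤ g S ∧ g S ≤ s) ∨
      s * MM comp A ≤ g S) (x0 : Finset (Fin t) → ZMod 2)
    (D : Finset (Finset (Co t t' κ)))
    (hD : ∀ S, S ∉ D → g S = s * (ff comp A x0 S + FM κ A + 1))
    (hcard : ∀ l, D.card * (2 + ∑ l' : κ, 2 ^ (fib comp l').card) * 2 ^ (fib comp l).card
      < 2 ^ Fintype.card (Co t t' κ)) :
    ∃ x' : Finset (Fin t) → ZMod 2, (∀ I, dot (A I) x' = 0) ∧
      (univ.filter fun K => x' K ≠ x0 K).card * 2 ^ (t + t') ≤ D.card := by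
  have hG := guarded_val comp A hs hg hval x0 D hD hcard
  have hsub := subP_of comp A hs hg hcomp hG
  have hdes : ∀ S, Guarded comp S → ∃ x, descale A κ s g S = ff comp A x S := by
    intro S hS
    obtain ⟨x, hx⟩ := hG S hS
    refine ⟨x, ?_⟩
    unfold descale
    rw [hx, Int.mul_ediv_cancel_left _ hs.ne']
    ring
  have hv := Yd_val comp A hcomp hdes
  obtain ⟨x', hx'⟩ := exists_x' comp A hcomp hsub hv
  refine ⟨x', decoded comp A hcomp hsub hv ht x' hx', ?_⟩
  have hc : (univ.filter fun K => x' K ≠ x0 K).card * 2 ^ (t + t') =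
      ((univ.filter fun K => x' K ≠ x0 K) ×ˢ
        (univ : Finset (Finset (Fin t) × Finset (Fin t')))).card := by
    rw [card_product, card_univ, Fintype.card_prod, Fintype.card_finset, Fintype.card_finset,
      Fintype.card_fin, Fintype.card_fin, pow_add]
  rw [hc]
  refine card_le_card_of_injOn (fun p => pt κ ⟨true, false, true, false, false, false,
    p.1, p.2.1, p.2.2⟩) ?_ ?_
  · rintro ⟨K, V, I⟩ h
    simp only [mem_coe, mem_product, mem_filter, mem_univ, true_and, and_true] at h
    rw [mem_coe]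
    by_contra hcon
    have h1 := hD _ hcon
    have h2 := hx' K V I
    unfold Yd yg descale at h2
    simp only at h1
    rw [h1, Int.mul_ediv_cancel_left _ hs.ne'] at h2
    unfold ff fine at h2
    rw [dec_pt] at h2
    simp only [yy, Bool.false_eq_true, if_false, if_true, Bool.not_false, Bool.and_self,
      Bool.and_true] at h2
    have h3 : bit (x' K) = bit (x0 K) := by linarith
    apply h
    revert h3
    generalize x' K = a
    generalize x0 K = b
    revert a b; decide
  · rintro ⟨K, V, I⟩ - ⟨K', V', I'⟩ - h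
    have := pt_injective h
    simp only [Dat.mk.injEq, true_and] at this
    obtain ⟨rfl, rfl, rfl⟩ := this
    rfl

end

end Pool.Agent.Helper71.Sub
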