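import Mathlib

set_option autoImplicit false

/-!
# Testing submodularity: definitions

Definitions used in the statement for problem MP_30d570_lc. The points of the cube `{0,1}^n` are
the finite sets `S : Finset (Fin n)`.
-/

namespace Pool.Agent.Helper71.Sub

open MeasureTheory

/-- `f : {0,1}^n → ℝ` is submodular: for every `i` and all `S ⊆ T` with `i ∉ T`,
`f(T ∪ {i}) - f(T) ≤ f(S ∪ {i}) - f(S)`. -/
def IsSubmodular {n : ℕ} (f : Finset (Fin n) → ℝ) : Prop :=
  ∀ (i : Fin n) (S T : Finset (Fin n)), S ⊆ T → i ∉ T →
    f (insert i T) - f T ≤ f (insert i S) - f S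

/-- `f` takes its values in the range `R`. -/
def ValuedIn {n : ℕ} (R : Set ℝ) (f : Finset (Fin n) → ℝ) : Prop := ∀ S, f S ∈ R

/-- `f` is `ε`-far from submodular (with range `R`): every submodular `g : {0,1}^n → R` differs
from `f` on at least `ε 2^n` points. -/
def IsFar {n : ℕ} (R : Set ℝ) (ε : ℝ) (f : Finset (Fin n) → ℝ) : Prop :=
  ∀ g : Finset (Fin n) → ℝ, ValuedIn R g → IsSubmodular g →
    ε * 2 ^ n ≤ (Finset.univ.filter fun S => f S ≠ g S).card

/-- A deterministic adaptive query algorithm on the cube `{0,1}^n`: a decision tree which either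
answers (`true` = accept) or queries the value of the input function at a point `S` and continues
depending on the value. -/
inductive QueryAlg (n : ℕ) : Type
  | answer (b : Bool) : QueryAlg n
  | query (S : Finset (Fin n)) (next : ℝ → QueryAlg n) : QueryAlg n

/-- The output of the algorithm on the input function `f`. -/
def QueryAlg.run {n : ℕ} (f : Finset (Fin n) → ℝ) : QueryAlg n → Bool
  | .answer b => b
  | .query S next => QueryAlg.run f (next (f S))

/-- The number of queries made by the algorithm on the input function `f`. -/
def QueryAlg.queries {n : ℕ} (f : Finset (Fin n) → ℝ) : QueryAlg n → ℕ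
  | .answer _ => 0
  | .query S next => QueryAlg.queries f (next (f S)) + 1

/-- A randomised adaptive query algorithm: a family of deterministic query algorithms `T ω` indexed
by the points `ω` of a probability space `(Ω, P)`. It is a *tester* for submodularity of functions
`{0,1}^n → R` with parameter `ε` if (its acceptance events are measurable and) it accepts every
submodular `f : {0,1}^n → R` with probability at least `2/3` and rejects every
`f : {0,1}^n → R` that is `ε`-far from submodular with probability at least `2/3`. -/
structure IsTester {n : ℕ} (R : Set ℝ) (ε : ℝ) {Ω : Type} [MeasurableSpace Ω] (P : Measure Ω)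
    (T : Ω → QueryAlg n) : Prop where
  meas : ∀ f, ValuedIn R f → MeasurableSet {ω | (T ω).run f = true}
  accept : ∀ f, ValuedIn R f → IsSubmodular f → 2 / 3 ≤ P {ω | (T ω).run f = true}
  reject : ∀ f, ValuedIn R f → IsFar R ε f → 2 / 3 ≤ P {ω | (T ω).run f = false}

/-- The cost of the algorithm on functions `{0,1}^n → R` is at most `q`: it never makes more than
`q` queries. -/
def CostLE {n : ℕ} (R : Set ℝ) {Ω : Type} (T : Ω → QueryAlg n) (q : ℕ) : Prop :=
  ∀ ω f, ValuedIn R f → (T ω).queries f ≤ q

/-- Submodularity of functions `{0,1}^n → R` can be tested with parameter `ε` and cost at most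
`q`, that is `q_R(n, ε) ≤ q`. -/
def Testable (R : Set ℝ) (n : ℕ) (ε : ℝ) (q : ℕ) : Prop :=
  ∃ (Ω : Type) (_ : MeasurableSpace Ω) (P : Measure Ω) (_ : IsProbabilityMeasure P)
    (T : Ω → QueryAlg n), IsTester R ε P T ∧ CostLE R T q

end Pool.Agent.Helper71.Sub
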