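import Mathlib
import Pool.Agent.Helper71.SubDefs

set_option autoImplicit false
set_option linter.unusedSectionVars false

/-!
# The adaptive query lower bound
-/

namespace Pool.Agent.Helper71.Sub

open Finset MeasureTheory

variable {n : ℕ}

/-- the points queried by the algorithm -/
def QueryAlg.path (f : Finset (Fin n) → ℝ) : QueryAlg n → List (Finset (Fin n))
  | .answer _ => []
  | .query S next => S :: QueryAlg.path f (next (f S))

theorem QueryAlg.path_length (f : Finset (Fin n) → ℝ) (T : QueryAlg n) :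
    (T.path f).length = T.queries f := by
  induction T with
  | answer b => rfl
  | query S next ih => simp [QueryAlg.path, QueryAlg.queries, ih]

theorem QueryAlg.agree (f f' : Finset (Fin n) → ℝ) (T : QueryAlg n)
    (h : ∀ S ∈ T.path f, f' S = f S) : T.run f' = T.run f ∧ T.path f' = T.path f := by
  induction T with
  | answer b => exact ⟨rfl, rfl⟩
  | query S next ih =>
    simp only [QueryAlg.path, List.mem_cons] at h
    have h1 : f' S = f S := h S (Or.inl rfl)
    have h2 := ih (f S) (fun S' hS' => h S' (Or.inr hS'))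
    simp only [QueryAlg.run, QueryAlg.path, h1]
    exact ⟨h2.1, by rw [h2.2]⟩

section count
variable {V : Type} [AddCommGroup V] [DecidableEq V] {J : Type} [Fintype J]
  [DecidableEq J]

theorem count_bound (F : V → Finset (Fin n) → ℝ) (Yes : Finset V) (No : J → Finset V)
    (touched : Finset (Fin n) → J) (q : ℕ)
    (hide : ∀ (i : J) (L : List (Finset (Fin n))), L.length ≤ q → (∀ S ∈ L, touched S ≠ i) →
      ∃ y : V, (∀ x ∈ Yes, x + y ∈ No i) ∧ ∀ x, ∀ S ∈ L, F (x + y) S = F x S)
    (T : QueryAlg n) (hq : ∀ x ∈ Yes, T.queries (F x) ≤ q) :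
    Fintype.card J * (Yes.filter fun x => T.run (F x) = true).card ≤
      (∑ i, ((No i).filter fun x => T.run (F x) = true).card) +
        q * (Yes.filter fun x => T.run (F x) = true).card := by
  classical
  set acc := Yes.filter fun x => T.run (F x) = true with hacc
  -- choice of the shifts
  have hch : ∃ y : J → List (Finset (Fin n)) → V, ∀ (i : J) (L : List (Finset (Fin n))),
      L.length ≤ q → (∀ S ∈ L, touched S ≠ i) →
      (∀ x ∈ Yes, x + y i L ∈ No i) ∧ ∀ x, ∀ S ∈ L, F (x + y i L) S = F x S := by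
    have : ∀ (i : J) (L : List (Finset (Fin n))), ∃ y : V,
      L.length ≤ q → (∀ S ∈ L, touched S ≠ i) →
      (∀ x ∈ Yes, x + y ∈ No i) ∧ ∀ x, ∀ S ∈ L, F (x + y) S = F x S := by
      intro i L
      by_cases h : L.length ≤ q ∧ ∀ S ∈ L, touched S ≠ i
      · obtain ⟨y, hy⟩ := hide i L h.1 h.2
        exact ⟨y, fun _ _ => hy⟩
      · exact ⟨0, fun h1 h2 => absurd ⟨h1, h2⟩ h⟩
    choose y hy using this
    exact ⟨y, hy⟩
  obtain ⟨y, hy⟩ := hch
  have h1 : ∀ i : J, (acc.filter fun x => ∀ S ∈ T.path (F x), touched S ≠ i).card ≤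
      ((No i).filter fun x => T.run (F x) = true).card := by
    intro i
    have key : ∀ x ∈ acc.filter (fun x => ∀ S ∈ T.path (F x), touched S ≠ i),
        x + y i (T.path (F x)) ∈ (No i).filter (fun x => T.run (F x) = true) ∧
        T.path (F (x + y i (T.path (F x)))) = T.path (F x) := by
      intro x hx
      rw [mem_filter, hacc, mem_filter] at hx
      obtain ⟨⟨hxY, hrun⟩, hun⟩ := hx
      have hlen : (T.path (F x)).length ≤ q := by
        rw [QueryAlg.path_length]; exact hq x hxY
      obtain ⟨a1, a2⟩ := hy i (T.path (F x)) hlen hun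
      have a3 := QueryAlg.agree (F x) (F (x + y i (T.path (F x)))) T (a2 x)
      exact ⟨mem_filter.2 ⟨a1 x hxY, a3.1.trans hrun⟩, a3.2⟩
    refine card_le_card_of_injOn (fun x => x + y i (T.path (F x)))
      (fun x hx => (key x hx).1) ?_
    intro x hx x' hx' h
    have k1 := (key x hx).2
    have k2 := (key x' hx').2
    simp only at h
    rw [h] at k1
    have k3 : T.path (F x) = T.path (F x') := k1.symm.trans k2
    rw [k3] at h
    exact add_right_cancel h
  have h2 : ∑ i : J, (acc.filter fun x => ¬ ∀ S ∈ T.path (F x), touched S ≠ i).card ≤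
      q * acc.card := by
    have e : ∀ i : J, (acc.filter fun x => ¬ ∀ S ∈ T.path (F x), touched S ≠ i).card =
        ∑ x ∈ acc, if ¬ (∀ S ∈ T.path (F x), touched S ≠ i) then 1 else 0 := by
      intro i; rw [card_filter]
    rw [sum_congr rfl fun i _ => e i, sum_comm]
    calc ∑ x ∈ acc, ∑ i : J, (if ¬ (∀ S ∈ T.path (F x), touched S ≠ i) then 1 else 0)
        ≤ ∑ x ∈ acc, q := by
          refine sum_le_sum fun x hx => ?_
          rw [← card_filter]
          have hxY : x ∈ Yes := (mem_filter.1 hx).1
          calc (univ.filter fun i => ¬ ∀ S ∈ T.path (F x), touched S ≠ i).card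
              ≤ ((T.path (F x)).map touched).toFinset.card := by
                refine card_le_card fun i hi => ?_
                rw [mem_filter] at hi
                push Not at hi
                obtain ⟨-, S, hS, rfl⟩ := hi
                rw [List.mem_toFinset]
                exact List.mem_map_of_mem hS
            _ ≤ ((T.path (F x)).map touched).length := List.toFinset_card_le _
            _ = T.queries (F x) := by rw [List.length_map, QueryAlg.path_length]
            _ ≤ q := hq x hxY
      _ = q * acc.card := by rw [sum_const, smul_eq_mul, mul_comm]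
  have h3 : ∀ i : J, acc.card = (acc.filter fun x => ∀ S ∈ T.path (F x), touched S ≠ i).card +
      (acc.filter fun x => ¬ ∀ S ∈ T.path (F x), touched S ≠ i).card := by
    intro i
    exact (card_filter_add_card_filter_not (s := acc) _).symm
  calc Fintype.card J * acc.card = ∑ _i : J, acc.card := by
        rw [sum_const, smul_eq_mul, card_univ]
    _ = ∑ i : J, ((acc.filter fun x => ∀ S ∈ T.path (F x), touched S ≠ i).card +
      (acc.filter fun x => ¬ ∀ S ∈ T.path (F x), touched S ≠ i).card) :=
        sum_congr rfl fun i _ => h3 i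
    _ = (∑ i : J, (acc.filter fun x => ∀ S ∈ T.path (F x), touched S ≠ i).card) +
      ∑ i : J, (acc.filter fun x => ¬ ∀ S ∈ T.path (F x), touched S ≠ i).card := sum_add_distrib
    _ ≤ _ := Nat.add_le_add (sum_le_sum fun i _ => h1 i) h2

/-- **The adaptive lower bound.** -/
theorem query_bound (F : V → Finset (Fin n) → ℝ) (Yes : Finset V) (No : J → Finset V)
    (touched : Finset (Fin n) → J) (q : ℕ)
    (hide : ∀ (i : J) (L : List (Finset (Fin n))), L.length ≤ q → (∀ S ∈ L, touched S ≠ i) →
      ∃ y : V, (∀ x ∈ Yes, x + y ∈ No i) ∧ ∀ x, ∀ S ∈ L, F (x + y) S = F x S)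
    (hY : Yes.Nonempty) (hNo : ∀ i, (No i).card ≤ Yes.card)
    {Ω : Type} [MeasurableSpace Ω] (P : Measure Ω) [IsProbabilityMeasure P]
    (T : Ω → QueryAlg n)
    (hm1 : ∀ x ∈ Yes, MeasurableSet {ω | (T ω).run (F x) = true})
    (hm2 : ∀ i, ∀ x ∈ No i, MeasurableSet {ω | (T ω).run (F x) = true})
    (hacc : ∀ x ∈ Yes, 2 / 3 ≤ P {ω | (T ω).run (F x) = true})
    (hrej : ∀ i, ∀ x ∈ No i, 2 / 3 ≤ P {ω | (T ω).run (F x) = false})
    (hq : ∀ ω, ∀ x ∈ Yes, (T ω).queries (F x) ≤ q) :
    Fintype.card J ≤ 2 * q := by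
  classical
  by_contra hcon
  push Not at hcon
  -- integrate
  have hint : ∀ (s : Finset V), (∀ x ∈ s, MeasurableSet {ω | (T ω).run (F x) = true}) →
      ∫⁻ ω, ((s.filter fun x => (T ω).run (F x) = true).card : ENNReal) ∂P =
        ∑ x ∈ s, P {ω | (T ω).run (F x) = true} := by
    intro s hs
    have e : ∀ ω, ((s.filter fun x => (T ω).run (F x) = true).card : ENNReal) =
        ∑ x ∈ s, Set.indicator {ω | (T ω).run (F x) = true} (fun _ => (1 : ENNReal)) ω := by
      intro ω
      rw [card_filter]
      push_cast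
      refine sum_congr rfl fun x _ => ?_
      simp only [Set.indicator, Set.mem_ofPred_eq]
    simp only [e]
    rw [lintegral_finsetSum']
    · refine sum_congr rfl fun x hx => ?_
      rw [lintegral_indicator_const (hs x hx), one_mul]
    · intro x hx
      exact (measurable_const.indicator (hs x hx)).aemeasurable
  have hpt : ∀ ω, ((Fintype.card J : ENNReal)) *
      ((Yes.filter fun x => (T ω).run (F x) = true).card : ENNReal) ≤
      (∑ i, (((No i).filter fun x => (T ω).run (F x) = true).card : ENNReal)) +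
        (q : ENNReal) * ((Yes.filter fun x => (T ω).run (F x) = true).card : ENNReal) := by
    intro ω
    have := count_bound F Yes No touched q hide (T ω) (hq ω)
    exact_mod_cast this
  have hmeas : ∀ (s : Finset V), (∀ x ∈ s, MeasurableSet {ω | (T ω).run (F x) = true}) →
      Measurable fun ω => ((s.filter fun x => (T ω).run (F x) = true).card : ENNReal) := by
    intro s hs
    have e : (fun ω => ((s.filter fun x => (T ω).run (F x) = true).card : ENNReal)) = fun ω =>
        ∑ x ∈ s, Set.indicator {ω | (T ω).run (F x) = true} (fun _ => (1 : ENNReal)) ω := by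
      funext ω
      rw [card_filter]
      push_cast
      refine sum_congr rfl fun x _ => ?_
      simp only [Set.indicator, Set.mem_ofPred_eq]
    rw [e]
    exact Finset.measurable_fun_sum _ fun x hx => measurable_const.indicator (hs x hx)
  have I := lintegral_mono (μ := P) hpt
  rw [lintegral_const_mul _ (hmeas Yes hm1), hint Yes hm1,
    lintegral_add_left (Finset.measurable_fun_sum _ fun i _ => hmeas (No i) (hm2 i)),
    lintegral_finsetSum _ (fun i _ => hmeas (No i) (hm2 i)),
    lintegral_const_mul _ (hmeas Yes hm1), hint Yes hm1,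
    sum_congr rfl fun i _ => hint (No i) (hm2 i)] at I
  -- pass to real numbers
  have hreal : (Fintype.card J : ℝ) * ∑ x ∈ Yes, P.real {ω | (T ω).run (F x) = true} ≤
      (∑ i, ∑ x ∈ No i, P.real {ω | (T ω).run (F x) = true}) +
        (q : ℝ) * ∑ x ∈ Yes, P.real {ω | (T ω).run (F x) = true} := by
    have hfin : ∀ s : Finset V, ∑ x ∈ s, P {ω | (T ω).run (F x) = true} ≠ ⊤ := fun s =>
      (ENNReal.sum_lt_top.2 fun x _ => measure_lt_top P _).ne
    have hfin2 : ∑ i, ∑ x ∈ No i, P {ω | (T ω).run (F x) = true} ≠ ⊤ :=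
      (ENNReal.sum_lt_top.2 fun i _ => lt_top_iff_ne_top.2 (hfin (No i))).ne
    have h2 := ENNReal.toReal_mono (ENNReal.add_ne_top.2 ⟨hfin2, ENNReal.mul_ne_top
      (ENNReal.natCast_ne_top q) (hfin Yes)⟩) I
    rw [ENNReal.toReal_add hfin2 (ENNReal.mul_ne_top (ENNReal.natCast_ne_top q) (hfin Yes)),
      ENNReal.toReal_mul, ENNReal.toReal_mul, ENNReal.toReal_natCast, ENNReal.toReal_natCast,
      ENNReal.toReal_sum (fun x _ => measure_ne_top P _),
      ENNReal.toReal_sum (fun i _ => hfin (No i)),
      sum_congr rfl fun i _ => ENNReal.toReal_sum (fun x _ => measure_ne_top P _)] at h2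
    exact h2
  have h23 : (2 / 3 : ENNReal).toReal = 2 / 3 := by
    rw [ENNReal.toReal_div]; norm_num
  have hYes : (2 / 3 : ℝ) * Yes.card ≤ ∑ x ∈ Yes, P.real {ω | (T ω).run (F x) = true} := by
    rw [mul_comm, ← nsmul_eq_mul]
    refine card_nsmul_le_sum _ _ _ fun x hx => ?_
    have := ENNReal.toReal_mono (measure_ne_top P _) (hacc x hx)
    rw [h23] at this
    exact this
  have hNoi : ∀ i, ∑ x ∈ No i, P.real {ω | (T ω).run (F x) = true} ≤ (1 / 3 : ℝ) * Yes.card := by
    intro i
    have h1 : ∑ x ∈ No i, P.real {ω | (T ω).run (F x) = true} ≤ (No i).card • (1 / 3 : ℝ) := by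
      refine sum_le_card_nsmul _ _ _ fun x hx => ?_
      have h2 := ENNReal.toReal_mono (measure_ne_top P _) (hrej i x hx)
      rw [h23] at h2
      have h3 : {ω | (T ω).run (F x) = false} = {ω | (T ω).run (F x) = true}ᶜ := by
        ext ω
        simp
      rw [h3] at h2
      have h4 := probReal_compl_eq_one_sub (μ := P) (hm2 i x hx)
      unfold Measure.real at h4 ⊢
      linarith
    rw [nsmul_eq_mul] at h1
    have h5 : ((No i).card : ℝ) ≤ Yes.card := by exact_mod_cast hNo i
    linarith
  have hsum : ∑ i, ∑ x ∈ No i, P.real {ω | (T ω).run (F x) = true} ≤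
      (Fintype.card J : ℝ) * ((1 / 3 : ℝ) * Yes.card) := by
    calc ∑ i, ∑ x ∈ No i, P.real {ω | (T ω).run (F x) = true}
        ≤ ∑ _i : J, (1 / 3 : ℝ) * Yes.card := sum_le_sum fun i _ => hNoi i
      _ = _ := by rw [sum_const, nsmul_eq_mul, card_univ]
  have hYpos : (0 : ℝ) < Yes.card := by exact_mod_cast hY.card_pos
  have hJ : (2 : ℝ) * q < Fintype.card J := by exact_mod_cast hcon
  set s := ∑ x ∈ Yes, P.real {ω | (T ω).run (F x) = true} with hs
  have h6 : ((Fintype.card J : ℝ) - q) * s ≤ (Fintype.card J : ℝ) * ((1 / 3 : ℝ) * Yes.card) := by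
    linarith
  have hq0 : (0 : ℝ) ≤ q := Nat.cast_nonneg q
  have h7 : ((Fintype.card J : ℝ) - q) * ((2 / 3 : ℝ) * Yes.card) ≤
      ((Fintype.card J : ℝ) - q) * s := mul_le_mul_of_nonneg_left hYes (by linarith)
  nlinarith

end count

end Pool.Agent.Helper71.Sub
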