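import Mathlib
import Pool.Agent.Helper71.SubDecode
import Pool.Agent.Helper71.SubQuery

set_option autoImplicit false
set_option linter.unusedSectionVars false
set_option linter.unusedVariables false
set_option linter.unusedSimpArgs false
set_option linter.constructorNameAsVariable false

/-!
# The functions on the cube `{0,1}^N`
-/

namespace Pool.Agent.Helper71.Sub

open Finset

section
variable {α : Type} [Fintype α] [DecidableEq α] {N : ℕ} (e : α ↪ Fin N)

/-- preimage of a point -/
def pre (S : Finset (Fin N)) : Finset α := univ.filter fun c => e c ∈ S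

theorem mem_pre {S : Finset (Fin N)} {c : α} : c ∈ pre e S ↔ e c ∈ S := by simp [pre]

theorem pre_mono {S T : Finset (Fin N)} (h : S ⊆ T) : pre e S ⊆ pre e T := by
  intro c hc
  rw [mem_pre] at hc ⊢
  exact h hc

theorem pre_insert (S : Finset (Fin N)) (c : α) : pre e (insert (e c) S) = insert c (pre e S) := by
  ext a
  simp [mem_pre]

theorem pre_insert_of {S : Finset (Fin N)} {i : Fin N} (h : ∀ c, e c ≠ i) :
    pre e (insert i S) = pre e S := by
  ext a
  simp [mem_pre, h]

/-- pull back of an integer valued function -/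
def pull (f : Finset α → ℤ) (S : Finset (Fin N)) : ℝ := (f (pre e S) : ℝ)

theorem pull_sub {f : Finset α → ℤ} (hf : IsSub f) : IsSubmodular (pull e f) := by
  intro i S T hST hi
  by_cases h : ∃ c, e c = i
  · obtain ⟨c, rfl⟩ := h
    unfold pull
    rw [pre_insert, pre_insert]
    have h1 := hf.marginal (pre e T) (pre e S) c (by
      rw [union_eq_right.2 (pre_mono e hST), mem_pre]
      exact hi)
    rw [union_eq_right.2 (pre_mono e hST)] at h1
    exact_mod_cast h1
  · push Not at h
    unfold pull
    rw [pre_insert_of e h, pre_insert_of e h]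
    simp

/-- restriction of a function to a subcube -/
noncomputable def restr (g : Finset (Fin N) → ℝ) (T : Finset (Fin N)) (S : Finset α) : ℤ :=
  ⌊g (S.map e ∪ T)⌋

theorem pre_map_union (S : Finset α) {T : Finset (Fin N)} (hT : ∀ c, e c ∉ T) :
    pre e (S.map e ∪ T) = S := by
  ext a
  simp [mem_pre, hT]

theorem restr_cast {g : Finset (Fin N) → ℝ} (hg : ∀ S, ∃ z : ℤ, g S = z) (T : Finset (Fin N))
    (S : Finset α) : ((restr e g T S : ℤ) : ℝ) = g (S.map e ∪ T) := by
  obtain ⟨z, hz⟩ := hg (S.map e ∪ T)
  unfold restr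
  rw [hz, Int.floor_intCast]

theorem restr_isSub {g : Finset (Fin N) → ℝ} (hg : ∀ S, ∃ z : ℤ, g S = z)
    (hsub : IsSubmodular g) {T : Finset (Fin N)} (hT : ∀ c, e c ∉ T) :
    IsSub (restr e g T) := by
  intro S a b ha hb hab
  have h := hsub (e a) (S.map e ∪ T) ((insert b S).map e ∪ T) (by
    refine union_subset_union_left ?_
    rw [map_subset_map]
    exact subset_insert _ _) (by
    simp [hT, ha, hab])
  have e1 : insert (e a) ((insert b S).map e ∪ T) = (insert a (insert b S)).map e ∪ T := by
    simp
  have e2 : insert (e a) (S.map e ∪ T) = (insert a S).map e ∪ T := by simp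
  rw [e1, e2, ← restr_cast e hg, ← restr_cast e hg, ← restr_cast e hg, ← restr_cast e hg] at h
  have h' : (restr e g T (insert a (insert b S)) : ℤ) - restr e g T (insert b S) ≤
    restr e g T (insert a S) - restr e g T S := by exact_mod_cast h
  linarith

/-- counting over subcubes -/
theorem dist_sum (f : Finset α → ℤ) {g : Finset (Fin N) → ℝ} (hg : ∀ S, ∃ z : ℤ, g S = z)
    (c : ℝ) (h : ∀ T : Finset (Fin N), (∀ c, e c ∉ T) →
      c * 2 ^ Fintype.card α ≤ (univ.filter fun S => f S ≠ restr e g T S).card) :
    c * 2 ^ N ≤ (univ.filter fun S => pull e f S ≠ g S).card := by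
  classical
  set C : Finset (Fin N) := (univ.map e)ᶜ with hC
  have hCn : ∀ T ∈ C.powerset, ∀ c, e c ∉ T := by
    intro T hT c hc
    have := mem_powerset.1 hT hc
    rw [hC, mem_compl] at this
    exact this (mem_map_of_mem _ (mem_univ _))
  have hCc : C.card + Fintype.card α = N := by
    rw [hC, card_compl, card_map, card_univ, Fintype.card_fin]
    have : Fintype.card α ≤ N := by
      have := Fintype.card_le_of_embedding e
      rwa [Fintype.card_fin] at this
    omega
  have h1 : ∑ T ∈ C.powerset, (univ.filter fun S => f S ≠ restr e g T S).card ≤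
      (univ.filter fun S => pull e f S ≠ g S).card := by
    rw [← card_sigma]
    refine card_le_card_of_injOn (fun p => p.2.map e ∪ p.1) ?_ ?_
    · rintro ⟨T, S⟩ hp
      rw [mem_coe, mem_sigma, mem_filter] at hp
      rw [mem_coe, mem_filter]
      refine ⟨mem_univ _, ?_⟩
      intro hcon
      apply hp.2.2
      simp only at hcon ⊢
      rw [← restr_cast e hg] at hcon
      unfold pull at hcon
      rw [pre_map_union e S (hCn T hp.1)] at hcon
      exact_mod_cast hcon
    · rintro ⟨T, S⟩ hp ⟨T', S'⟩ hp' heq
      rw [mem_coe, mem_sigma] at hp hp'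
      simp only at heq
      have a1 : S = S' := by
        rw [← pre_map_union e S (hCn T hp.1), heq, pre_map_union e S' (hCn T' hp'.1)]
      have key : ∀ (T : Finset (Fin N)) (S : Finset α), (∀ c, e c ∉ T) →
          (S.map e ∪ T).filter (fun i => ∀ c, e c ≠ i) = T := by
        intro T S hT
        ext i
        simp only [mem_filter, mem_union, mem_map]
        constructor
        · rintro ⟨⟨c, -, rfl⟩ | h, h2⟩
          · exact absurd rfl (h2 c)
          · exact h
        · intro h
          exact ⟨Or.inr h, fun c hc => hT c (hc ▸ h)⟩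
      have a2 : T = T' := by
        rw [← key T S (hCn T hp.1), heq, key T' S' (hCn T' hp'.1)]
      rw [a1, a2]
  have h2 : (∑ T ∈ C.powerset, c * 2 ^ Fintype.card α) ≤
      ∑ T ∈ C.powerset, ((univ.filter fun S => f S ≠ restr e g T S).card : ℝ) :=
    sum_le_sum fun T hT => h T (hCn T hT)
  rw [sum_const, card_powerset, nsmul_eq_mul] at h2
  have h3 : ((2 ^ C.card : ℕ) : ℝ) * (c * 2 ^ Fintype.card α) = c * 2 ^ N := by
    have : (2 : ℝ) ^ N = 2 ^ C.card * 2 ^ Fintype.card α := by rw [← pow_add, hCc]
    rw [this]
    push_cast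
    ring
  rw [h3] at h2
  refine h2.trans ?_
  exact_mod_cast h1

end

end Pool.Agent.Helper71.Sub
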