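import Mathlib
import Pool.Agent.Helper71.SubPad

set_option autoImplicit false
set_option linter.unusedSectionVars false
set_option linter.unusedVariables false
set_option linter.unusedSimpArgs false
set_option linter.constructorNameAsVariable false

/-!
# Hiding: the values of the family at few points do not see a shift by a suitable vector
-/

namespace Pool.Agent.Helper71.Sub

open Finset

section
variable {t t' : ℕ} {κ : Type} [Fintype κ] [DecidableEq κ]

/-- the functionals which determine the value at a point -/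
def names (d : Dat t t') : Finset (Nm (Fin t) (Finset (Fin t'))) :=
  {.inl d.K, .inr (d.I, d.K, Z0 d.K d.V), .inr (d.I, d.K \ (d.K ∩ d.V), Z0 d.K d.V)}

theorem names_card (d : Dat t t') : (names d).card ≤ 3 := card_le_three

theorem names_row (d : Dat t t') (i : Finset (Fin t')) (κ' Z : Finset (Fin t))
    (h : (Sum.inr (i, κ', Z) : Nm _ _) ∈ names d) : d.I = i := by
  unfold names at h
  simp only [mem_insert, mem_singleton, reduceCtorEq, false_or, Sum.inr.injEq, Prod.mk.injEq] at h
  rcases h with h | h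
  · exact h.1.symm
  · exact h.1.symm

theorem dot_single (κ' : Finset (Fin t)) (x : Finset (Fin t) → ZMod 2) :
    dot (Pi.single κ' 1) x = x κ' := by
  unfold dot
  rw [Finset.sum_eq_single κ']
  · simp
  · intro b _ hb
    rw [Pi.single_eq_of_ne hb, zero_mul]
  · intro h; exact absurd (mem_univ _) h

theorem yy_shift (A : Finset (Fin t') → Finset (Fin t) → ZMod 2)
    (x y : Finset (Fin t) → ZMod 2) (d : Dat t t')
    (h : ∀ nm ∈ names d, dot (vec A nm) y = 0) : yy A (x + y) d = yy A x d := by
  have h1 : (x + y) d.K = x d.K := by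
    have := h (.inl d.K) (by simp [names])
    unfold vec at this
    rw [dot_single] at this
    rw [Pi.add_apply, this, add_zero]
  have h2 : par A (x + y) d.I d.K (Z0 d.K d.V) = par A x d.I d.K (Z0 d.K d.V) := by
    have := h (.inr (d.I, d.K, Z0 d.K d.V)) (by simp [names])
    unfold vec at this
    unfold par
    rw [dot_add_right, this, add_zero]
  have h3 : par A (x + y) d.I (d.K \ (d.K ∩ d.V)) (Z0 d.K d.V) =
      par A x d.I (d.K \ (d.K ∩ d.V)) (Z0 d.K d.V) := by
    have := h (.inr (d.I, d.K \ (d.K ∩ d.V), Z0 d.K d.V)) (by simp [names])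
    unfold vec at this
    unfold par
    rw [dot_add_right, this, add_zero]
  have h4 : Vf A (x + y) d.K d.V d.I = Vf A x d.K d.V d.I := by
    unfold Vf
    rw [h2, h3]
  unfold yy
  rw [h1, h4]

variable {N : ℕ} (e : Co t t' κ ↪ Fin N) (comp : Co t t' κ → κ)
  (A : Finset (Fin t') → Finset (Fin t) → ZMod 2)

/-- The scaled function. -/
noncomputable def gg (comp : Co t t' κ → κ) (A : Finset (Fin t') → Finset (Fin t) → ZMod 2)
    (s : ℤ) (x : Finset (Fin t) → ZMod 2) (S : Finset (Co t t' κ)) : ℤ :=
  s * (ff comp A x S + FM κ A + 1)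

/-- code words -/
def YesS : Finset (Finset (Fin t) → ZMod 2) := univ.filter fun x => ∀ i, dot (A i) x = 0

/-- vectors which violate exactly the `i`-th parity check -/
def NoS (i : Finset (Fin t')) : Finset (Finset (Fin t) → ZMod 2) :=
  univ.filter fun x => ∀ i', dot (A i') x = if i' = i then 1 else 0

theorem mem_YesS {x : Finset (Fin t) → ZMod 2} : x ∈ YesS A ↔ ∀ i, dot (A i) x = 0 := by
  simp [YesS]

theorem mem_NoS {i : Finset (Fin t')} {x : Finset (Fin t) → ZMod 2} :
    x ∈ NoS A i ↔ ∀ i', dot (A i') x = if i' = i then 1 else 0 := by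
  simp [NoS]

theorem zero_mem_YesS : (0 : Finset (Fin t) → ZMod 2) ∈ YesS A := by
  rw [mem_YesS]
  intro i
  unfold dot
  simp

theorem NoS_card (i : Finset (Fin t')) : (NoS A i).card ≤ (YesS A).card := by
  rcases (NoS A i).eq_empty_or_nonempty with h | ⟨x0, hx0⟩
  · rw [h, card_empty]; exact Nat.zero_le _
  · refine card_le_card_of_injOn (fun x => x + x0) ?_ ?_
    · intro x hx
      rw [mem_coe, mem_NoS] at hx
      rw [mem_NoS] at hx0
      rw [mem_coe, mem_YesS]
      intro i'
      rw [dot_add_right, hx, hx0]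
      split_ifs
      · decide
      · simp
    · intro x _ x' _ h
      exact add_right_cancel h

/-- row index of a point -/
def touch (S : Finset (Fin N)) : Finset (Fin t') := (dec (pre e S)).I

theorem hide_of (s : ℤ) (m q : ℕ) (hq : 3 * q ≤ m)
    (hA : ∀ (i : Finset (Fin t')) (Q : Finset (Nm (Fin t) (Finset (Fin t')))),
      Q.card ≤ m → (∀ κ Z, (Sum.inr (i, κ, Z) : Nm _ _) ∉ Q) →
      ∃ y : Finset (Fin t) → ZMod 2,
        (∀ i', dot (A i') y = if i' = i then 1 else 0) ∧ ∀ nm ∈ Q, dot (vec A nm) y = 0)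
    (i : Finset (Fin t')) (L : List (Finset (Fin N))) (hL : L.length ≤ q)
    (hi : ∀ S ∈ L, touch e S ≠ i) :
    ∃ y : Finset (Fin t) → ZMod 2, (∀ x ∈ YesS A, x + y ∈ NoS A i) ∧
      ∀ x, ∀ S ∈ L, pull e (gg comp A s (x + y)) S = pull e (gg comp A s x) S := by
  classical
  obtain ⟨y, hy1, hy2⟩ := hA i (L.toFinset.biUnion fun S => names (dec (pre e S))) (by
      calc (L.toFinset.biUnion fun S => names (dec (pre e S))).card
          ≤ ∑ S ∈ L.toFinset, (names (dec (pre e S))).card := card_biUnion_le
        _ ≤ ∑ S ∈ L.toFinset, 3 := sum_le_sum fun S _ => names_card _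
        _ = L.toFinset.card * 3 := by rw [sum_const, smul_eq_mul]
        _ ≤ q * 3 := Nat.mul_le_mul_right 3 ((List.toFinset_card_le L).trans hL)
        _ ≤ m := by omega) (by
      intro κ' Z h
      rw [mem_biUnion] at h
      obtain ⟨S, hS, h⟩ := h
      exact hi S (List.mem_toFinset.1 hS) (names_row _ _ _ _ h))
  refine ⟨y, ?_, ?_⟩
  · intro x hx
    rw [mem_YesS] at hx
    rw [mem_NoS]
    intro i'
    rw [dot_add_right, hx, zero_add, hy1]
  · intro x S hS
    unfold pull gg ff fine
    rw [yy_shift A x y (dec (pre e S)) fun nm hnm => hy2 nm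
      (mem_biUnion.2 ⟨S, List.mem_toFinset.2 hS, hnm⟩)]

theorem gg_isSub (ht : 0 < t) (hcomp : GoodComp comp) {s : ℤ} (hs : 0 < s)
    {x : Finset (Fin t) → ZMod 2} (hx : x ∈ YesS A) : IsSub (gg comp A s x) := by
  intro S a b ha hb hab
  have h := ff_isSub A x ht hcomp ((mem_YesS A).1 hx) S a b ha hb hab
  unfold gg
  have := mul_le_mul_of_nonneg_left h hs.le
  linarith

end

end Pool.Agent.Helper71.Sub
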