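import Mathlib
import Pool.Agent.Helper71.SubHide

set_option autoImplicit false
set_option linter.unusedSectionVars false
set_option linter.unusedVariables false
set_option linter.unusedSimpArgs false
set_option linter.constructorNameAsVariable false

/-!
# Concrete parameters and the lower bound
-/

namespace Pool.Agent.Helper71.Sub

open Finset MeasureTheory

/-- number of coordinates -/
theorem card_Co (t t' : ℕ) (κ : Type) [Fintype κ] [DecidableEq κ] :
    Fintype.card (Co t t' κ) = 6 + t + t + t' + 2 * Fintype.card κ := by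
  let E : Co t t' κ ≃ (Fin 6 ⊕ Fin t ⊕ Fin t ⊕ Fin t' ⊕ (κ × Bool)) :=
    { toFun := fun c => match c with
        | .u => .inl 0
        | .b => .inl 1
        | .m => .inl 2
        | .w => .inl 3
        | .e1 => .inl 4
        | .e2 => .inl 5
        | .k j => .inr (.inl j)
        | .v j => .inr (.inr (.inl j))
        | .i j => .inr (.inr (.inr (.inl j)))
        | .g l s => .inr (.inr (.inr (.inr (l, s))))
      invFun := fun c => match c with
        | .inl 0 => .u
        | .inl 1 => .b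
        | .inl 2 => .m
        | .inl 3 => .w
        | .inl 4 => .e1
        | .inl 5 => .e2
        | .inr (.inl j) => .k j
        | .inr (.inr (.inl j)) => .v j
        | .inr (.inr (.inr (.inl j))) => .i j
        | .inr (.inr (.inr (.inr (l, s)))) => .g l s
      left_inv := by intro c; cases c <;> rfl
      right_inv := by
        rintro (c | c | c | c | ⟨l, s⟩)
        · fin_cases c <;> rfl
        all_goals rfl }
  rw [Fintype.card_congr E]
  simp only [Fintype.card_sum, Fintype.card_prod, Fintype.card_fin, Fintype.card_bool]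
  ring

section
/-- the component map -/
def compB {B : ℕ} (hB : 2 ≤ B) : Co (B * B) (B * (B - 1)) (Fin 4 × Fin B) → Fin 4 × Fin B
  | .u => (0, ⟨0, by omega⟩)
  | .b => (0, ⟨0, by omega⟩)
  | .m => (0, ⟨0, by omega⟩)
  | .w => (0, ⟨1, by omega⟩)
  | .e1 => (0, ⟨1, by omega⟩)
  | .e2 => (0, ⟨1, by omega⟩)
  | .k j => (1, ⟨j.val / B, Nat.div_lt_of_lt_mul j.isLt⟩)
  | .v j => (2, ⟨j.val / B, Nat.div_lt_of_lt_mul j.isLt⟩)
  | .i j => (3, ⟨j.val / B, lt_of_lt_of_le (Nat.div_lt_of_lt_mul j.isLt) (Nat.sub_le B 1)⟩)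
  | .g l _ => l

variable {B : ℕ} (hB : 2 ≤ B)

theorem goodComp : GoodComp (compB hB) where
  ub := rfl
  um := rfl
  gc := fun _ _ => rfl
  ne := by
    intro c hc
    cases c <;> simp [isZ] at hc <;> simp [compB]
  kv := by intro j; simp [compB]

/-- code of an element inside its component -/
def codeB (B : ℕ) : Co (B * B) (B * (B - 1)) (Fin 4 × Fin B) → ℕ
  | .u => 0
  | .b => 1
  | .m => 2
  | .w => 3
  | .e1 => 4
  | .e2 => 5
  | .k j => 8 + j.val % B
  | .v j => 8 + j.val % B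
  | .i j => 8 + j.val % B
  | .g _ s => if s then 6 else 7

theorem fin_eq_of {M : ℕ} (j j' : Fin M) (B : ℕ) (h1 : j.val / B = j'.val / B)
    (h2 : j.val % B = j'.val % B) : j = j' := by
  apply Fin.ext
  rw [← Nat.div_add_mod j.val B, ← Nat.div_add_mod j'.val B, h1, h2]

theorem fib_card (l : Fin 4 × Fin B) : (fib (compB hB) l).card ≤ B + 8 := by
  rw [← card_range (B + 8)]
  refine card_le_card_of_injOn (codeB B) ?_ ?_
  · intro c _
    rw [mem_coe, mem_range]
    have hm : ∀ j : ℕ, j % B < B := fun j => Nat.mod_lt j (by omega)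
    cases c <;> simp only [codeB]
    all_goals first | omega | skip
    · rename_i j _; have := hm j.val; omega
    · rename_i j _; have := hm j.val; omega
    · rename_i j _; have := hm j.val; omega
    · split_ifs <;> omega
  · intro c hc c' hc' h
    rw [mem_coe, mem_fib] at hc hc'
    have hcc : compB hB c = compB hB c' := hc.trans hc'.symm
    cases c <;> cases c' <;> simp only [codeB, compB, Prod.mk.injEq, Fin.mk.injEq] at h hcc ⊢
    all_goals first | rfl | omega | skip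
    all_goals first | (split_ifs at h <;> omega) | skip
    · exact congrArg _ (fin_eq_of _ _ B hcc.2 (by omega))
    · exact congrArg _ (fin_eq_of _ _ B hcc.2 (by omega))
    · exact congrArg _ (fin_eq_of _ _ B hcc.2 (by omega))
    · subst hcc
      rename_i s1 s2
      cases s1 <;> cases s2 <;> simp at h ⊢

theorem lt_two_pow' (B : ℕ) : B < 2 ^ B := Nat.lt_two_pow_self

theorem card_arith (D n : ℕ) (hD : D * 2 ^ (20 * B) < 2 ^ n) (hB : 2 ≤ B) (l : Fin 4 × Fin B) :
    D * (2 + ∑ l' : Fin 4 × Fin B, 2 ^ (fib (compB hB) l').card) * 2 ^ (fib (compB hB) l).card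
      < 2 ^ n := by
  have h1 : ∑ l' : Fin 4 × Fin B, 2 ^ (fib (compB hB) l').card ≤ 4 * B * 2 ^ (B + 8) := by
    calc ∑ l' : Fin 4 × Fin B, 2 ^ (fib (compB hB) l').card
        ≤ ∑ _l' : Fin 4 × Fin B, 2 ^ (B + 8) :=
          sum_le_sum fun l' _ => Nat.pow_le_pow_right (by norm_num) (fib_card hB l')
      _ = 4 * B * 2 ^ (B + 8) := by
        rw [sum_const, smul_eq_mul, card_univ, Fintype.card_prod, Fintype.card_fin,
          Fintype.card_fin]
  have h2 : 2 ^ (fib (compB hB) l).card ≤ 2 ^ (B + 8) :=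
    Nat.pow_le_pow_right (by norm_num) (fib_card hB l)
  have h3 : 4 * B * 2 ^ (B + 8) ≤ 2 ^ (2 * B + 10) := by
    have : B ≤ 2 ^ B := (lt_two_pow' B).le
    calc 4 * B * 2 ^ (B + 8) ≤ 4 * 2 ^ B * 2 ^ (B + 8) :=
          Nat.mul_le_mul_right _ (Nat.mul_le_mul_left _ this)
      _ = 2 ^ (2 * B + 10) := by
        rw [show (4 : ℕ) = 2 ^ 2 by norm_num, ← pow_add, ← pow_add]
        congr 1; ring
  have h4 : 2 ≤ 2 ^ (2 * B + 10) := by
    calc 2 = 2 ^ 1 := by norm_num
      _ ≤ 2 ^ (2 * B + 10) := Nat.pow_le_pow_right (by norm_num) (by omega)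
  have h5 : 2 + ∑ l' : Fin 4 × Fin B, 2 ^ (fib (compB hB) l').card ≤ 2 ^ (2 * B + 11) := by
    have : 2 ^ (2 * B + 11) = 2 ^ (2 * B + 10) + 2 ^ (2 * B + 10) := by
      rw [show 2 * B + 11 = (2 * B + 10) + 1 by ring, pow_succ]; ring
    omega
  have h6 : (2 + ∑ l' : Fin 4 × Fin B, 2 ^ (fib (compB hB) l').card) *
      2 ^ (fib (compB hB) l).card ≤ 2 ^ (20 * B) := by
    calc _ ≤ 2 ^ (2 * B + 11) * 2 ^ (B + 8) := Nat.mul_le_mul h5 h2
      _ = 2 ^ (3 * B + 19) := by rw [← pow_add]; congr 1; ring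
      _ ≤ 2 ^ (20 * B) := Nat.pow_le_pow_right (by norm_num) (by omega)
  rw [mul_assoc]
  exact lt_of_le_of_lt (Nat.mul_le_mul_left _ h6) hD

/-- the value conditions on a range -/
def RangeOK (hB : 2 ≤ B) (A : Finset (Fin (B * (B - 1))) → Finset (Fin (B * B)) → ZMod 2)
    (s : ℤ) (R : Set ℝ) : Prop :=
  (∀ x S, ((gg (compB hB) A s x S : ℤ) : ℝ) ∈ R) ∧
  ∀ r ∈ R, ∃ z : ℤ, r = z ∧ ((∃ x S, z = gg (compB hB) A s x S) ∨ (0 ≤ z ∧ z ≤ s) ∨
    s * MM (compB hB) A ≤ z)

theorem far_of (hB : 2 ≤ B) (A : Finset (Fin (B * (B - 1))) → Finset (Fin (B * B)) → ZMod 2)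
    (hA : ∀ w : Finset (Fin (B * B)) → ZMod 2,
      4 * (B * B + 1) * (univ.filter fun k => w k ≠ 0).card ≤ 2 ^ (B * (B - 1)) →
      ∀ i, ¬ ∀ i', dot (A i') w = if i' = i then 1 else 0)
    {s : ℤ} (hs : 0 < s) {R : Set ℝ} (hR : RangeOK hB A s R) {N : ℕ}
    (e : Co (B * B) (B * (B - 1)) (Fin 4 × Fin B) ↪ Fin N) (i : Finset (Fin (B * (B - 1))))
    (x0 : Finset (Fin (B * B)) → ZMod 2) (hx0 : x0 ∈ NoS A i) (ε : ℝ)
    (hε : ε * 2 ^ (20 * B) ≤ 1) : IsFar R ε (pull e (gg (compB hB) A s x0)) := by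
  intro g hgR hgsub
  have hgz : ∀ S, ∃ z : ℤ, g S = z := fun S => by
    obtain ⟨z, hz, -⟩ := hR.2 _ (hgR S)
    exact ⟨z, hz⟩
  refine dist_sum e _ hgz ε fun T hT => ?_
  by_contra hcon
  push Not at hcon
  set D := univ.filter fun S => gg (compB hB) A s x0 S ≠ restr e g T S with hDdef
  set n := Fintype.card (Co (B * B) (B * (B - 1)) (Fin 4 × Fin B)) with hn
  have hD1 : D.card * 2 ^ (20 * B) < 2 ^ n := by
    have h1 : (D.card : ℝ) * 2 ^ (20 * B) < ε * 2 ^ n * 2 ^ (20 * B) :=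
      mul_lt_mul_of_pos_right hcon (by positivity)
    have h2 : ε * 2 ^ n * 2 ^ (20 * B) = (ε * 2 ^ (20 * B)) * 2 ^ n := by ring
    have h3 : (ε * 2 ^ (20 * B)) * 2 ^ n ≤ 1 * 2 ^ n :=
      mul_le_mul_of_nonneg_right hε (by positivity)
    have h4 : (D.card : ℝ) * 2 ^ (20 * B) < 2 ^ n := by linarith
    exact_mod_cast h4
  have ht : 0 < B * B := by positivity
  obtain ⟨x', hx', hcard⟩ := soundness (compB hB) A ht (goodComp hB) hs
    (restr_isSub e hgz hgsub hT) (by
      intro S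
      obtain ⟨z, hz, h⟩ := hR.2 _ (hgR (S.map e ∪ T))
      have h1 : restr e g T S = z := by
        unfold restr
        rw [hz, Int.floor_intCast]
      rw [h1]
      exact h) x0 D (by
      intro S hS
      rw [hDdef, mem_filter, not_and, not_not] at hS
      exact (hS (mem_univ _)).symm) (card_arith D.card n hD1 hB)
  have hw := hA (x' + x0)
  have h1 : ¬ 4 * (B * B + 1) * (univ.filter fun k => (x' + x0) k ≠ 0).card ≤
      2 ^ (B * (B - 1)) := by
    intro h
    refine hw h i fun i' => ?_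
    rw [dot_add_right, hx', zero_add]
    exact (mem_NoS A).1 hx0 i'
  have h2 : (univ.filter fun k => (x' + x0) k ≠ 0) = univ.filter fun K => x' K ≠ x0 K := by
    ext K
    simp only [mem_filter, mem_univ, true_and, Pi.add_apply]
    generalize x' K = a
    generalize x0 K = b
    revert a b; decide
  rw [h2] at h1
  push Not at h1
  set c := (univ.filter fun K => x' K ≠ x0 K).card with hc
  -- arithmetic
  have hB1 : B * (B - 1) + B = B * B := by
    obtain ⟨b, rfl⟩ : ∃ b, B = b + 1 := ⟨B - 1, by omega⟩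
    rw [Nat.add_sub_cancel]; ring
  have hnn : n = 3 * (B * B) + 7 * B + 6 := by
    rw [hn, card_Co, Fintype.card_prod, Fintype.card_fin, Fintype.card_fin]
    omega
  have e1 : 2 ^ (B * (B - 1)) * 2 ^ (B * B + B * (B - 1)) * 2 ^ (20 * B) <
      4 * (B * B + 1) * 2 ^ n := by
    calc 2 ^ (B * (B - 1)) * 2 ^ (B * B + B * (B - 1)) * 2 ^ (20 * B)
        ≤ 4 * (B * B + 1) * c * 2 ^ (B * B + B * (B - 1)) * 2 ^ (20 * B) :=
          Nat.mul_le_mul_right _ (Nat.mul_le_mul_right _ h1.le)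
      _ = 4 * (B * B + 1) * (c * 2 ^ (B * B + B * (B - 1))) * 2 ^ (20 * B) := by ring
      _ ≤ 4 * (B * B + 1) * D.card * 2 ^ (20 * B) :=
          Nat.mul_le_mul_right _ (Nat.mul_le_mul_left _ hcard)
      _ = 4 * (B * B + 1) * (D.card * 2 ^ (20 * B)) := by ring
      _ < 4 * (B * B + 1) * 2 ^ n := Nat.mul_lt_mul_of_pos_left hD1 (by positivity)
  have e2 : 4 * (B * B + 1) ≤ 2 ^ (2 * B + 2) := by
    have h3 := lt_two_pow' B
    have h4 : B * B + 1 ≤ 2 ^ B * 2 ^ B := by
      have : (B + 1) * (B + 1) ≤ 2 ^ B * 2 ^ B := Nat.mul_le_mul h3 h3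
      nlinarith
    calc 4 * (B * B + 1) ≤ 4 * (2 ^ B * 2 ^ B) := Nat.mul_le_mul_left _ h4
      _ = 2 ^ (2 * B + 2) := by
        rw [show (4 : ℕ) = 2 ^ 2 by norm_num, ← pow_add, ← pow_add]
        congr 1; ring
  have e3 : 2 ^ (B * (B - 1)) * 2 ^ (B * B + B * (B - 1)) * 2 ^ (20 * B) <
      2 ^ (2 * B + 2) * 2 ^ n := lt_of_lt_of_le e1 (Nat.mul_le_mul_right _ e2)
  rw [← pow_add, ← pow_add, ← pow_add, Nat.pow_lt_pow_iff_right (by norm_num)] at e3
  rw [hnn] at e3
  omega

/-- **The lower bound for good codes.** -/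
theorem bound_of (hB : 2 ≤ B) (A : Finset (Fin (B * (B - 1))) → Finset (Fin (B * B)) → ZMod 2)
    (hA : GoodCode B A) {s : ℤ} (hs : 0 < s) {R : Set ℝ} (hR : RangeOK hB A s R) {N : ℕ}
    (hN : 3 * B ^ 2 + 7 * B + 6 ≤ N) (ε : ℝ) (hε : ε * 2 ^ (20 * B) ≤ 1)
    {Ω : Type} [MeasurableSpace Ω] (P : Measure Ω) [IsProbabilityMeasure P]
    (T : Ω → QueryAlg N) (hT : IsTester R ε P T) (q : ℕ) (hq : CostLE R T q) :
    2 ^ (B * (B - 1)) < 3 * q := by
  by_contra hcon
  push Not at hcon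
  have hB1 : B * (B - 1) + B = B * B := by
    obtain ⟨b, rfl⟩ : ∃ b, B = b + 1 := ⟨B - 1, by omega⟩
    rw [Nat.add_sub_cancel]; ring
  have hn : Fintype.card (Co (B * B) (B * (B - 1)) (Fin 4 × Fin B)) ≤ Fintype.card (Fin N) := by
    rw [card_Co, Fintype.card_prod, Fintype.card_fin, Fintype.card_fin, Fintype.card_fin]
    have : B ^ 2 = B * B := _root_.sq B
    omega
  obtain ⟨e⟩ := Function.Embedding.nonempty_of_card_le hn
  have ht : 0 < B * B := by positivity
  have hval : ∀ x, ValuedIn R (pull e (gg (compB hB) A s x)) := fun x S => hR.1 x (pre e S)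
  have h := query_bound (fun x => pull e (gg (compB hB) A s x)) (YesS A) (NoS A)
    (touch e) q (hide_of e (compB hB) A s (2 ^ (B * (B - 1))) q hcon hA.2)
    ⟨0, zero_mem_YesS A⟩ (NoS_card A) P T
    (fun x _ => hT.meas _ (hval x)) (fun i x _ => hT.meas _ (hval x))
    (fun x hx => hT.accept _ (hval x) (pull_sub e (gg_isSub (compB hB) A ht (goodComp hB) hs hx)))
    (fun i x hx => hT.reject _ (hval x) (far_of hB A hA.1 hs hR e i x hx ε hε))
    (fun ω x _ => hq ω _ (hval x))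
  rw [Fintype.card_finset, Fintype.card_fin] at h
  have : 0 < 2 ^ (B * (B - 1)) := by positivity
  omega

end

end Pool.Agent.Helper71.Sub
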