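import Mathlib
import Pool.Agent.Helper71.SubMain
import Pool.Agent.Helper50.SubCode

set_option autoImplicit false
set_option linter.unusedSectionVars false

/-!
# The ranges
-/

namespace Pool.Agent.Helper71.Sub

open Finset MeasureTheory

theorem two_le (b : ℕ) : 2 ≤ b + 10 := by omega

/-- the chosen matrix -/
noncomputable def Ab (b : ℕ) : Finset (Fin ((b + 10) * (b + 10 - 1))) →
    Finset (Fin ((b + 10) * (b + 10))) → ZMod 2 :=
  Classical.choose (Pool.Agent.Helper50.SubCode.exists_goodCode (b + 10) (by omega))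

theorem Ab_good (b : ℕ) : GoodCode (b + 10) (Ab b) :=
  Classical.choose_spec (Pool.Agent.Helper50.SubCode.exists_goodCode (b + 10) (by omega))

/-- the sizes -/
noncomputable def Mb (b : ℕ) : ℤ := MM (compB (two_le b)) (Ab b)

theorem Mb_pos (b : ℕ) : 1 ≤ Mb b :=
  le_trans (ff_ge_one (compB (two_le b)) (Ab b) 0 ∅) (ff_le_MM _ _ 0 ∅)

/-- the scales -/
noncomputable def sb : ℕ → ℤ
  | 0 => 1
  | b + 1 => sb b * Mb b

theorem sb_pos (b : ℕ) : 0 < sb b := by
  induction b with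
  | zero => exact one_pos
  | succ b ih => exact mul_pos ih (by linarith [Mb_pos b])

theorem sb_step (b : ℕ) : sb b ≤ sb (b + 1) := by
  change sb b ≤ sb b * Mb b
  have := mul_le_mul_of_nonneg_left (Mb_pos b) (sb_pos b).le
  linarith

theorem sb_mono : Monotone sb := monotone_nat_of_le_succ sb_step

/-- the values of the `b`-th family -/
noncomputable def gb (b : ℕ) (x : Finset (Fin ((b + 10) * (b + 10))) → ZMod 2)
    (S : Finset (Co ((b + 10) * (b + 10)) ((b + 10) * (b + 10 - 1)) (Fin 4 × Fin (b + 10)))) : ℤ :=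
  gg (compB (two_le b)) (Ab b) (sb b) x S

theorem gb_ge (b : ℕ) (x) (S) : sb b ≤ gb b x S := by
  unfold gb gg
  have := mul_le_mul_of_nonneg_left (ff_ge_one (compB (two_le b)) (Ab b) x S) (sb_pos b).le
  linarith

theorem gb_le (b : ℕ) (x) (S) : gb b x S ≤ sb (b + 1) :=
  mul_le_mul_of_nonneg_left (ff_le_MM (compB (two_le b)) (Ab b) x S) (sb_pos b).le

/-- The range. -/
def RR : Set ℝ := {r | ∃ b x S, r = (gb b x S : ℤ)}

theorem RR_ok (b : ℕ) : RangeOK (two_le b) (Ab b) (sb b) RR := by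
  refine ⟨fun x S => ⟨b, x, S, rfl⟩, ?_⟩
  rintro r ⟨b', x, S, rfl⟩
  refine ⟨_, rfl, ?_⟩
  rcases lt_trichotomy b' b with h | h | h
  · right; left
    refine ⟨le_trans (sb_pos b').le (gb_ge b' x S), (gb_le b' x S).trans (sb_mono ?_)⟩
    omega
  · subst h
    left
    exact ⟨x, S, rfl⟩
  · right; right
    have : sb b * Mb b = sb (b + 1) := rfl
    change sb b * Mb b ≤ _
    rw [this]
    exact (sb_mono (by omega : b + 1 ≤ b')).trans (gb_ge b' x S)

theorem RR_nat : RR ⊆ Set.range (Nat.cast : ℕ → ℝ) := by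
  rintro r ⟨b, x, S, rfl⟩
  have h : 0 ≤ gb b x S := le_trans (sb_pos b).le (gb_ge b x S)
  refine ⟨(gb b x S).toNat, ?_⟩
  have h2 : ((gb b x S).toNat : ℤ) = gb b x S := Int.toNat_of_nonneg h
  have h3 : (((gb b x S).toNat : ℤ) : ℝ) = (gb b x S : ℤ) := by rw [h2]
  rw [← h3]
  exact (Int.cast_natCast _).symm

/-- the lower bound for the range `RR` -/
theorem bound_RR (B N : ℕ) (hB : 10 ≤ B) (hN : 3 * B ^ 2 + 7 * B + 6 ≤ N) (ε : ℝ)
    (hε : ε * 2 ^ (20 * B) ≤ 1)
    {Ω : Type} [MeasurableSpace Ω] (P : Measure Ω) [IsProbabilityMeasure P]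
    (T : Ω → QueryAlg N) (hT : IsTester RR ε P T) (q : ℕ) (hq : CostLE RR T q) :
    2 ^ (B * (B - 1)) < 3 * q := by
  obtain ⟨b, rfl⟩ : ∃ b, B = b + 10 := ⟨B - 10, by omega⟩
  exact bound_of (two_le b) (Ab b) (Ab_good b) (sb_pos b) (RR_ok b) hN ε hε P T hT q hq

/-- the finite ranges -/
def RF (b : ℕ) : Set ℝ := {r | ∃ x S, r = (gb b x S : ℤ)}

theorem RF_finite (b : ℕ) : (RF b).Finite := by
  have : RF b = Set.range (fun p : (_ × _) => ((gb b p.1 p.2 : ℤ) : ℝ)) := by
    ext r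
    constructor
    · rintro ⟨x, S, rfl⟩; exact ⟨(x, S), rfl⟩
    · rintro ⟨⟨x, S⟩, rfl⟩; exact ⟨x, S, rfl⟩
  rw [this]
  exact Set.finite_range _

/-- ranges between the finite range and the full range -/
theorem bound_between (B : ℕ) (hB : 10 ≤ B) : ∃ R₀ : Set ℝ, R₀ ⊆ RR ∧ R₀.Finite ∧
    ∀ R : Set ℝ, R₀ ⊆ R → R ⊆ RR → ∀ N : ℕ, 3 * B ^ 2 + 7 * B + 6 ≤ N → ∀ ε : ℝ,
    ε * 2 ^ (20 * B) ≤ 1 → ∀ (Ω : Type) [MeasurableSpace Ω] (P : Measure Ω)
    [IsProbabilityMeasure P] (T : Ω → QueryAlg N), IsTester R ε P T → ∀ q : ℕ, CostLE R T q →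
    2 ^ (B * (B - 1)) < 3 * q := by
  obtain ⟨b, rfl⟩ : ∃ b, B = b + 10 := ⟨B - 10, by omega⟩
  refine ⟨RF b, ?_, RF_finite b, ?_⟩
  · rintro r ⟨x, S, rfl⟩
    exact ⟨b, x, S, rfl⟩
  · intro R h1 h2 N hN ε hε Ω _ P _ T hT q hq
    have hR : RangeOK (two_le b) (Ab b) (sb b) R :=
      ⟨fun x S => h1 ⟨x, S, rfl⟩, fun r hr => (RR_ok b).2 r (h2 hr)⟩
    exact bound_of (two_le b) (Ab b) (Ab_good b) (sb_pos b) hR hN ε hε P T hT q hq

/-- bounding polynomials -/
theorem poly_bound (p : Polynomial ℝ) (y : ℝ) (hy : 1 ≤ y) :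
    p.eval y ≤ (∑ i ∈ range (p.natDegree + 1), |p.coeff i|) * y ^ p.natDegree := by
  rw [Polynomial.eval_eq_sum_range, sum_mul]
  refine sum_le_sum fun i hi => ?_
  rw [mem_range] at hi
  have h1 : y ^ i ≤ y ^ p.natDegree := pow_le_pow_right₀ hy (by omega)
  have h2 : 0 ≤ y ^ i := by positivity
  calc p.coeff i * y ^ i ≤ |p.coeff i| * y ^ i :=
        mul_le_mul_of_nonneg_right (le_abs_self _) h2
    _ ≤ |p.coeff i| * y ^ p.natDegree := mul_le_mul_of_nonneg_left h1 (abs_nonneg _)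

theorem no_poly (p : Polynomial ℝ) : ∃ (N : ℕ) (ε : ℝ), 0 < ε ∧ ε < 1 ∧
    ∀ (Ω : Type) [MeasurableSpace Ω] (P : Measure Ω) [IsProbabilityMeasure P]
    (T : Ω → QueryAlg N), IsTester RR ε P T → ∀ q : ℕ, CostLE RR T q →
    p.eval ((N : ℝ) / ε) < q := by
  set C := ∑ i ∈ range (p.natDegree + 1), |p.coeff i| with hC
  set d := p.natDegree with hd
  obtain ⟨k, hk⟩ := pow_unbounded_of_one_lt C (by norm_num : (1 : ℝ) < 2)
  set B := 30 * d + 10 + k with hB
  refine ⟨3 * B ^ 2 + 7 * B + 6, 1 / 2 ^ (20 * B), by positivity, ?_, ?_⟩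
  · rw [div_lt_one (by positivity)]
    exact one_lt_pow₀ (by norm_num) (by omega)
  · intro Ω _ P _ T hT q hq
    have h1 := bound_RR B _ (by omega) (le_refl _) (1 / 2 ^ (20 * B))
      (by rw [div_mul_cancel₀ _ (by positivity)]) P T hT q hq
    have h2 : (2 : ℝ) ^ (B * (B - 1)) < 3 * q := by exact_mod_cast h1
    -- size of the argument
    have hn : 3 * B ^ 2 + 7 * B + 6 ≤ 2 ^ (10 * B) := by
      have h3 : B < 2 ^ B := Nat.lt_two_pow_self
      have h4 : B ^ 2 ≤ 2 ^ (2 * B) := by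
        rw [mul_comm 2 B, pow_mul]
        exact Nat.pow_le_pow_left h3.le 2
      have h5 : 3 * B ^ 2 + 7 * B + 6 ≤ 16 * B ^ 2 := by nlinarith
      calc 3 * B ^ 2 + 7 * B + 6 ≤ 16 * 2 ^ (2 * B) := h5.trans (Nat.mul_le_mul_left _ h4)
        _ = 2 ^ (2 * B + 4) := by rw [pow_add]; ring
        _ ≤ 2 ^ (10 * B) := Nat.pow_le_pow_right (by norm_num) (by omega)
    set y : ℝ := ((3 * B ^ 2 + 7 * B + 6 : ℕ) : ℝ) / (1 / 2 ^ (20 * B)) with hy
    have hy2 : y ≤ 2 ^ (30 * B) := by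
      rw [hy, div_div_eq_mul_div, div_one]
      have : ((3 * B ^ 2 + 7 * B + 6 : ℕ) : ℝ) ≤ 2 ^ (10 * B) := by exact_mod_cast hn
      calc ((3 * B ^ 2 + 7 * B + 6 : ℕ) : ℝ) * 2 ^ (20 * B) ≤ 2 ^ (10 * B) * 2 ^ (20 * B) :=
            mul_le_mul_of_nonneg_right this (by positivity)
        _ = 2 ^ (30 * B) := by rw [← pow_add]; congr 1; ring
    have hy1 : 1 ≤ y := by
      rw [hy, div_div_eq_mul_div, div_one]
      have h3 : (1 : ℝ) ≤ ((3 * B ^ 2 + 7 * B + 6 : ℕ) : ℝ) := by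
        exact_mod_cast (by omega : 1 ≤ 3 * B ^ 2 + 7 * B + 6)
      have h4 : (1 : ℝ) ≤ 2 ^ (20 * B) := one_le_pow₀ (by norm_num)
      nlinarith
    have h3 := poly_bound p y hy1
    have hC0 : 0 ≤ C := sum_nonneg fun _ _ => abs_nonneg _
    have h4 : p.eval y ≤ 2 ^ B * (2 ^ (30 * B)) ^ d := by
      refine h3.trans ?_
      have h5 : C ≤ 2 ^ B := hk.le.trans (pow_le_pow_right₀ (by norm_num) (by omega))
      have h6 : y ^ d ≤ (2 ^ (30 * B)) ^ d := pow_le_pow_left₀ (by linarith) hy2 d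
      exact mul_le_mul h5 h6 (by positivity) (by positivity)
    have h7 : (4 : ℝ) * (2 ^ B * (2 ^ (30 * B)) ^ d) ≤ 2 ^ (B * (B - 1)) := by
      have : (4 : ℝ) * (2 ^ B * (2 ^ (30 * B)) ^ d) = 2 ^ (2 + (B + 30 * B * d)) := by
        rw [← pow_mul, ← pow_add, show (4 : ℝ) = 2 ^ 2 by norm_num, ← pow_add]
      rw [this]
      refine pow_le_pow_right₀ (by norm_num) ?_
      obtain ⟨c, hc⟩ : ∃ c, B = c + 1 := ⟨B - 1, by omega⟩
      have hc2 : 30 * d + 9 + k = c := by omega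
      rw [hc, Nat.add_sub_cancel]
      nlinarith
    have h8 : (0 : ℝ) ≤ 2 ^ B * (2 ^ (30 * B)) ^ d := by positivity
    linarith

/-! ## Sanity check: the trivial tester -/

/-- ask all points of a list, then decide -/
def askAll {n : ℕ} (D : (Finset (Fin n) → ℝ) → Bool) :
    List (Finset (Fin n)) → (Finset (Fin n) → ℝ) → QueryAlg n
  | [], g => .answer (D g)
  | S :: l, g => .query S fun r => askAll D l (Function.update g S r)

theorem askAll_run {n : ℕ} (D : (Finset (Fin n) → ℝ) → Bool) (f : Finset (Fin n) → ℝ)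
    (l : List (Finset (Fin n))) (g : Finset (Fin n) → ℝ)
    (h : ∀ S, S ∉ l → g S = f S) : (askAll D l g).run f = D f := by
  induction l generalizing g with
  | nil =>
    have : g = f := funext fun S => h S (by simp)
    rw [this]; rfl
  | cons S l ih =>
    refine ih _ fun S' hS' => ?_
    by_cases hS : S' = S
    · subst hS; simp
    · rw [Function.update_of_ne hS]
      exact h S' (by simp [hS, hS'])

theorem askAll_queries {n : ℕ} (D : (Finset (Fin n) → ℝ) → Bool) (f : Finset (Fin n) → ℝ)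
    (l : List (Finset (Fin n))) (g : Finset (Fin n) → ℝ) :
    (askAll D l g).queries f = l.length := by
  induction l generalizing g with
  | nil => rfl
  | cons S l ih =>
    change (askAll D l _).queries f + 1 = _
    rw [ih]; rfl

/-- Sanity check for the definitions: asking all `2^n` values is a tester. -/
theorem testable_all (R : Set ℝ) (n : ℕ) (ε : ℝ) (hε : 0 < ε) : Testable R n ε (2 ^ n) := by
  classical
  set D : (Finset (Fin n) → ℝ) → Bool := fun f => decide (IsSubmodular f) with hD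
  set T : Unit → QueryAlg n := fun _ => askAll D (univ : Finset (Finset (Fin n))).toList 0 with hT
  have hrun : ∀ f, (T ()).run f = D f := fun f =>
    askAll_run D f _ _ (by intro S hS; simp at hS)
  refine ⟨Unit, ⊤, Measure.dirac (), inferInstance, T, ⟨?_, ?_, ?_⟩, ?_⟩
  · intro f _
    trivial
  · intro f _ hf
    have : {ω : Unit | (T ω).run f = true} = Set.univ := by
      ext ω
      simp [hrun, hD, hf]
    rw [this, measure_univ]
    exact ENNReal.div_le_of_le_mul (by norm_num)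
  · intro f hR hf
    have hns : ¬ IsSubmodular f := by
      intro h
      have := hf f hR h
      simp only [ne_eq, not_true_eq_false, filter_false, card_empty, Nat.cast_zero] at this
      have h2 : 0 < ε * 2 ^ n := by positivity
      linarith
    have : {ω : Unit | (T ω).run f = false} = Set.univ := by
      ext ω
      simp [hrun, hD, hns]
    rw [this, measure_univ]
    exact ENNReal.div_le_of_le_mul (by norm_num)
  · intro ω f _
    rw [hT]
    simp only
    rw [askAll_queries, length_toList, card_univ, Fintype.card_finset, Fintype.card_fin]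

end Pool.Agent.Helper71.Sub
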