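import Pool.Agent.Helper82.YM.Lat

/-!
# Averaging by the lazy walk (task YM-H2)
-/

open Finset

noncomputable section

namespace Pool.Agent.Helper82.YM

namespace LatAvg

section ring

variable {A : Type*} [CommRing A]

/-- geometric sums -/
def G (x : A) (m : ℕ) : A := ∑ t ∈ range m, x ^ t

lemma G_succ (x : A) (m : ℕ) : G x (m + 1) = G x m + x ^ m := by
  simp [G, sum_range_succ]

lemma G_succ' (x : A) (m : ℕ) : G x (m + 1) = x * G x m + 1 := by
  simp only [G, sum_range_succ', pow_zero, mul_sum, pow_succ']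

lemma W_succ {x y : A} (hxy : x * y = 1) (b : ℕ) :
    y ^ (b + 1) * G x (2 * (b + 1) + 1) = y ^ b * G x (2 * b + 1) + (x ^ (b + 1) + y ^ (b + 1)) := by
  have h1 : G x (2 * (b + 1) + 1) = x * G x (2 * b + 1) + 1 + x ^ (2 * b + 2) := by
    rw [show 2 * (b + 1) + 1 = (2 * b + 1 + 1) + 1 by ring, G_succ, G_succ']
  have h2 : y ^ (b + 1) * x ^ (2 * b + 2) = x ^ (b + 1) := by
    have : x ^ (2 * b + 2) = x ^ (b + 1) * x ^ (b + 1) := by ring
    rw [this, ← mul_assoc, ← mul_pow, mul_comm y x, hxy, one_pow, one_mul]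
  have h3 : y ^ (b + 1) * (x * G x (2 * b + 1)) = y ^ b * G x (2 * b + 1) := by
    rw [pow_succ, mul_assoc, ← mul_assoc y x, mul_comm y x, hxy, one_mul]
  rw [h1, mul_add, mul_add, h2, h3]
  ring

variable [Algebra ℝ A]

lemma abel_sum {x y : A} (hxy : x * y = 1) (g : ℕ → ℝ) (K : ℕ) :
    ∑ b ∈ range (K + 1), (g b - g (b + 1)) • (y ^ b * G x (2 * b + 1)) +
      g (K + 1) • (y ^ K * G x (2 * K + 1)) =
      g 0 • (1 : A) + ∑ b ∈ range K, g (b + 1) • (x ^ (b + 1) + y ^ (b + 1)) := by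
  induction K with
  | zero =>
    simp [G, ← add_smul]
  | succ K ih =>
    rw [sum_range_succ (fun b => g (b + 1) • (x ^ (b + 1) + y ^ (b + 1))) K,
      ← add_assoc (g 0 • (1 : A)), ← ih, sum_range_succ _ (K + 1), W_succ hxy K]
    simp only [sub_smul, smul_add]
    abel

lemma binom_split {x y : A} (hxy : x * y = 1) (k : ℕ) :
    y ^ k * (1 + x) ^ (2 * k) =
      ((2 * k).choose k : ℝ) • (1 : A) +
        ∑ b ∈ range k, ((2 * k).choose (k + (b + 1)) : ℝ) • (x ^ (b + 1) + y ^ (b + 1)) := by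
  have h0 : ∀ n m : ℕ, n ≤ m → y ^ m * x ^ n = y ^ (m - n) := by
    intro n m h
    obtain ⟨c, rfl⟩ := Nat.exists_eq_add_of_le h
    rw [Nat.add_sub_cancel_left, pow_add, mul_assoc, mul_comm (y ^ c), ← mul_assoc, ← mul_pow,
      mul_comm y x, hxy, one_pow, one_mul]
  have h0' : ∀ n m : ℕ, y ^ m * x ^ (m + n) = x ^ n := by
    intro n m
    rw [pow_add, ← mul_assoc, ← mul_pow, mul_comm y x, hxy, one_pow, one_mul]
  have h1 : (1 + x) ^ (2 * k) = ∑ j ∈ range (k + (1 + k)), ((2 * k).choose j : ℝ) • x ^ j := by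
    rw [add_comm, add_pow, show k + (1 + k) = 2 * k + 1 by ring]
    refine sum_congr rfl fun j _ => ?_
    rw [one_pow, mul_one, Nat.cast_smul_eq_nsmul, nsmul_eq_mul, mul_comm]
  have h2 : y ^ k * ∑ j ∈ range k, ((2 * k).choose j : ℝ) • x ^ j =
      ∑ b ∈ range k, ((2 * k).choose (k + (b + 1)) : ℝ) • y ^ (b + 1) := by
    rw [← sum_range_reflect, mul_sum]
    refine sum_congr rfl fun b hb => ?_
    have hb' := mem_range.mp hb
    rw [mul_smul_comm, h0 _ _ (by omega), show k - (k - 1 - b) = b + 1 by omega]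
    congr 2
    rw [← Nat.choose_symm (show k + (b + 1) ≤ 2 * k by omega)]
    congr 1
    omega
  have h3 : y ^ k * ∑ j ∈ range k, ((2 * k).choose (k + (1 + j)) : ℝ) • x ^ (k + (1 + j)) =
      ∑ b ∈ range k, ((2 * k).choose (k + (b + 1)) : ℝ) • x ^ (b + 1) := by
    rw [mul_sum]
    refine sum_congr rfl fun b _ => ?_
    rw [mul_smul_comm, h0', add_comm 1 b]
  have h4 : y ^ k * x ^ k = 1 := by rw [← mul_pow, mul_comm, hxy, one_pow]
  rw [h1, sum_range_add, sum_range_add, sum_range_one, mul_add, mul_add, h2, h3, add_zero,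
    mul_smul_comm, h4]
  simp only [smul_add, sum_add_distrib]
  abel

/-- `C(2k, k+b) - C(2k, k+b+1)` -/
def dk (k b : ℕ) : ℝ := ((2 * k).choose (k + b) : ℝ) - (2 * k).choose (k + (b + 1))

lemma dk_nonneg (k b : ℕ) : 0 ≤ dk k b := by
  unfold dk
  rw [sub_nonneg]
  norm_cast
  rcases le_or_gt k b with h | h
  · rw [Nat.choose_eq_zero_of_lt (show 2 * k < k + (b + 1) by omega)]
    exact Nat.zero_le _
  · rw [← Nat.choose_symm (show k + (b + 1) ≤ 2 * k by omega),
      ← Nat.choose_symm (show k + b ≤ 2 * k by omega),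
      show 2 * k - (k + b) = (2 * k - (k + (b + 1))) + 1 by omega]
    exact Nat.choose_le_succ_of_lt_half_left (by omega)

lemma binom_W {x y : A} (hxy : x * y = 1) (k : ℕ) :
    y ^ k * (1 + x) ^ (2 * k) = ∑ b ∈ range (k + 1), dk k b • (y ^ b * G x (2 * b + 1)) := by
  have h := abel_sum hxy (fun b => ((2 * k).choose (k + b) : ℝ)) k
  simp only [add_zero] at h
  rw [Nat.choose_eq_zero_of_lt (show 2 * k < k + (k + 1) by omega), Nat.cast_zero, zero_smul,
    add_zero] at h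
  rw [binom_split hxy, ← h]
  rfl

end ring

lemma sum_dk_mul (k : ℕ) : ∑ b ∈ range (k + 1), dk k b * (2 * b + 1) = 4 ^ k := by
  have h := binom_W (A := ℝ) (x := 1) (y := 1) (by norm_num) k
  simp only [G, one_pow, one_mul, smul_eq_mul, sum_const, card_range, nsmul_eq_mul, mul_one] at h
  rw [pow_mul] at h
  norm_num at h
  rw [h]

lemma sum_dk (k : ℕ) : ∑ b ∈ range (k + 1), dk k b = (k.centralBinom : ℝ) := by
  unfold dk
  rw [sum_range_sub' (fun b => ((2 * k).choose (k + b) : ℝ)) (k + 1)]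
  rw [Nat.choose_eq_zero_of_lt (show 2 * k < k + (k + 1) by omega)]
  simp [Nat.centralBinom]

/-- `q_k = C(2k,k)/4^k` -/
def qk (k : ℕ) : ℝ := (k.centralBinom : ℝ) / 4 ^ k

lemma qk_nonneg (k : ℕ) : 0 ≤ qk k := by unfold qk; positivity

lemma qk_succ (k : ℕ) : qk (k + 1) * (2 * k + 2) = qk k * (2 * k + 1) := by
  unfold qk
  have h := Nat.succ_mul_centralBinom_succ k
  have h' : ((k : ℝ) + 1) * (k + 1).centralBinom = 2 * (2 * k + 1) * k.centralBinom := by
    exact_mod_cast h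
  rw [pow_succ]
  field_simp
  linear_combination 2 * h'

lemma qk_sq (k : ℕ) : qk k ^ 2 * (2 * k + 1) ≤ 1 := by
  induction k with
  | zero => simp [qk]
  | succ k ih =>
    have h := qk_succ k
    have h2 : qk (k + 1) = qk k * (2 * k + 1) / (2 * k + 2) := by
      field_simp
      linarith
    rw [h2]
    push_cast
    have h3 : (qk k * (2 * k + 1) / (2 * k + 2)) ^ 2 * (2 * ((k : ℝ) + 1) + 1) =
        (qk k ^ 2 * (2 * k + 1)) * ((2 * k + 1) * (2 * k + 3) / (2 * k + 2) ^ 2) := by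
      field_simp
      ring
    rw [h3]
    have h4 : ((2 * k + 1) * (2 * k + 3) / (2 * k + 2) ^ 2 : ℝ) ≤ 1 := by
      rw [div_le_one (by positivity)]
      nlinarith
    have h5 : (0 : ℝ) ≤ (2 * k + 1) * (2 * k + 3) / (2 * k + 2) ^ 2 := by positivity
    have h6 : 0 ≤ qk k ^ 2 * (2 * k + 1) := by have := qk_nonneg k; positivity
    nlinarith

lemma qk_sq_le (k : ℕ) : qk k ^ 2 ≤ 1 / (k + 1) := by
  rw [le_div_iff₀ (by positivity)]
  have := qk_sq k
  have h6 : 0 ≤ qk k ^ 2 * k := by positivity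
  nlinarith [sq_nonneg (qk k)]

lemma qk_le_one (k : ℕ) : qk k ≤ 1 := by
  have h := qk_sq_le k
  have h2 : (1 / (k + 1) : ℝ) ≤ 1 := by
    rw [div_le_one (by positivity)]
    linarith [Nat.cast_nonneg (α := ℝ) k]
  nlinarith [qk_nonneg k]

/-- binomial weights -/
def wt (n k : ℕ) : ℝ := (n.choose k : ℝ) * (1 / 4) ^ k * (3 / 4) ^ (n - k)

lemma wt_nonneg (n k : ℕ) : 0 ≤ wt n k := by unfold wt; positivity

lemma sum_wt (n : ℕ) : ∑ k ∈ range (n + 1), wt n k = 1 := by
  have h := add_pow (1 / 4 : ℝ) (3 / 4) n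
  rw [show (1 / 4 + 3 / 4 : ℝ) = 1 by norm_num, one_pow] at h
  rw [h]
  refine sum_congr rfl fun k _ => ?_
  unfold wt; ring

lemma sum_wt_div (n : ℕ) : ∑ k ∈ range (n + 1), wt n k / (k + 1) ≤ 4 / (n + 1) := by
  have h1 : ∀ k ∈ range (n + 1), wt n k / (k + 1) = 4 / (n + 1) * wt (n + 1) (k + 1) := by
    intro k hk
    have hk' := mem_range.mp hk
    have h := Nat.add_one_mul_choose_eq n k
    have h' : ((n : ℝ) + 1) * n.choose k = (n + 1).choose (k + 1) * (k + 1) := by exact_mod_cast h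
    unfold wt
    rw [show n + 1 - (k + 1) = n - k by omega, pow_succ]
    field_simp
    linear_combination h'
  rw [sum_congr rfl h1, ← mul_sum]
  have h2 := sum_wt (n + 1)
  rw [sum_range_succ'] at h2
  have h3 := wt_nonneg (n + 1) 0
  have h4 : ∑ k ∈ range (n + 1), wt (n + 1) (k + 1) ≤ 1 := by linarith
  have h5 : (0 : ℝ) ≤ 4 / (n + 1) := by positivity
  nlinarith

lemma jensen (n : ℕ) :
    ∑ k ∈ range (n + 1), wt n k * Real.sqrt (qk k) ≤ (4 / (n + 1 : ℝ)) ^ (1 / 4 : ℝ) := by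
  have h := Real.pow_arith_mean_le_arith_mean_pow (range (n + 1)) (wt n)
    (fun k => Real.sqrt (qk k)) (fun k _ => wt_nonneg n k) (sum_wt n)
    (fun k _ => Real.sqrt_nonneg _) 4
  have h1 : ∑ k ∈ range (n + 1), wt n k * Real.sqrt (qk k) ^ 4 ≤ 4 / (n + 1) := by
    refine le_trans (sum_le_sum fun k _ => ?_) (sum_wt_div n)
    have : Real.sqrt (qk k) ^ 4 = qk k ^ 2 := by
      rw [show (4 : ℕ) = 2 * 2 by norm_num, pow_mul, Real.sq_sqrt (qk_nonneg k)]
    rw [this, div_eq_mul_one_div]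
    exact mul_le_mul_of_nonneg_left (qk_sq_le k) (wt_nonneg n k)
  have h2 := h.trans h1
  set S := ∑ k ∈ range (n + 1), wt n k * Real.sqrt (qk k) with hS
  have hS0 : 0 ≤ S := sum_nonneg fun k _ => mul_nonneg (wt_nonneg n k) (Real.sqrt_nonneg _)
  calc S = (S ^ 4) ^ (1 / 4 : ℝ) := by
        rw [← Real.rpow_natCast, ← Real.rpow_mul hS0]
        norm_num
    _ ≤ _ := Real.rpow_le_rpow (by positivity) h2 (by norm_num)

/-! ### the group algebra -/

lemma T_mul (z w : Fin 4 → ℤ) : T z * T w = T (z + w) := by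
  simp [T, AddMonoidAlgebra.single_mul_single]

lemma T_zero : T 0 = 1 := by
  simp [T, AddMonoidAlgebra.one_def]

lemma T_nat (i : Fin 4) (s : ℕ) : T ((s : ℤ) • ez i) = T (ez i) ^ s := by
  induction s with
  | zero => simp [T_zero]
  | succ s ih =>
    rw [pow_succ, ← ih, T_mul]
    congr 1
    push_cast
    rw [add_smul, one_smul]

lemma T_neg_nat (i : Fin 4) (s : ℕ) : T (-((s : ℤ) • ez i)) = T (-ez i) ^ s := by
  induction s with
  | zero => simp [T_zero]
  | succ s ih =>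
    rw [pow_succ, ← ih, T_mul]
    congr 1
    push_cast
    rw [add_smul, one_smul, neg_add]

lemma xy : T (ez 0) * T (-ez 0) = 1 := by rw [T_mul, add_neg_cancel, T_zero]

lemma ez_abs (i k : Fin 4) : |ez i k| ≤ 1 := by
  unfold ez
  by_cases h : k = i
  · subst h; simp
  · simp [h]

lemma rectQ_eq (a b : ℕ) : rectQ a b = G (T (ez 0)) a * G (T (ez 1)) b := by
  unfold rectQ G
  simp only [T_nat]

/-- the average over the three other directions -/
def R3 : KK := (1 / 12 : ℝ) • ∑ i ∈ ({1, 2, 3} : Finset (Fin 4)), (T (-ez i) + (2 : ℝ) • 1 + T (ez i))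

/-- the average in direction 0 -/
def A0 : KK := (1 / 4 : ℝ) • (T (-ez 0) * (1 + T (ez 0)) ^ 2)

lemma walk_eq : walk = (1 / 4 : ℝ) • A0 + (3 / 4 : ℝ) • R3 := by
  have hd : ∀ i, ds i * dd i = (2 : ℝ) • (1 : KK) - T (ez i) - T (-ez i) := by
    intro i
    unfold ds dd
    have h : T (ez i) * T (-ez i) = 1 := by rw [T_mul, add_neg_cancel, T_zero]
    rw [sub_mul, mul_sub, h, two_smul]
    ring
  have h0 : T (-ez 0) * (1 + T (ez 0)) ^ 2 = T (-ez 0) + (2 : ℝ) • (1 : KK) + T (ez 0) := by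
    have h := xy
    rw [two_smul]
    linear_combination (2 + T (ez 0)) * h
  unfold walk lap A0 R3
  rw [h0, Fin.sum_univ_four]
  simp only [hd]
  rw [Finset.sum_insert (by decide), Finset.sum_insert (by decide), Finset.sum_singleton]
  module

lemma A0_pow (k : ℕ) :
    A0 ^ k = ∑ b ∈ range (k + 1), (dk k b / 4 ^ k) • (T (-ez 0) ^ b * G (T (ez 0)) (2 * b + 1)) := by
  have h := binom_W (A := KK) xy k
  unfold A0
  rw [smul_pow, mul_pow, ← pow_mul, h, smul_sum]
  refine sum_congr rfl fun b _ => ?_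
  rw [smul_smul]
  congr 1
  rw [one_div, inv_pow]
  field_simp

lemma walk_pow (n : ℕ) :
    walk ^ n = ∑ k ∈ range (n + 1), wt n k • (R3 ^ (n - k) * A0 ^ k) := by
  rw [walk_eq, add_pow]
  refine sum_congr rfl fun k _ => ?_
  rw [smul_pow, smul_pow]
  unfold wt
  rw [smul_mul_smul_comm, mul_comm (A0 ^ k), ← nsmul_eq_mul', ← Nat.cast_smul_eq_nsmul ℝ, smul_smul]
  congr 1
  ring

section seminorm

variable (P : Seminorm ℝ KK)

lemma P_sum {ι : Type*} (s : Finset ι) (f : ι → KK) : P (∑ i ∈ s, f i) ≤ ∑ i ∈ s, P (f i) :=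
  Finset.le_sum_of_subadditive P (map_zero P).le (map_add_le_add P) s f

lemma avg_step (f : KK) (B : ℝ) (r : ℕ)
    (h : ∀ z : Fin 4 → ℤ, (∀ k, |z k| ≤ r + 1) → P (T z * f) ≤ B) :
    ∀ z : Fin 4 → ℤ, (∀ k, |z k| ≤ r) → P (T z * (R3 * f)) ≤ B := by
  intro z hz
  have e : T z * (R3 * f) = (1 / 12 : ℝ) • ∑ i ∈ ({1, 2, 3} : Finset (Fin 4)),
      (T (z - ez i) * f + (2 : ℝ) • (T z * f) + T (z + ez i) * f) := by
    unfold R3
    rw [smul_mul_assoc, mul_smul_comm, sum_mul, mul_sum]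
    congr 1
    refine sum_congr rfl fun i _ => ?_
    rw [← T_mul z (ez i), sub_eq_add_neg, ← T_mul z (-ez i), add_mul, add_mul, mul_add, mul_add,
      smul_mul_assoc, one_mul, mul_smul_comm, mul_assoc, mul_assoc]
  have hb : ∀ i ∈ ({1, 2, 3} : Finset (Fin 4)),
      P (T (z - ez i) * f + (2 : ℝ) • (T z * f) + T (z + ez i) * f) ≤ 4 * B := by
    intro i _
    have h1 : P (T (z - ez i) * f) ≤ B := h _ fun k => by
      have := hz k; have := ez_abs i k
      rw [Pi.sub_apply]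
      exact (abs_sub _ _).trans (by linarith)
    have h2 : P (T (z + ez i) * f) ≤ B := h _ fun k => by
      have := hz k; have := ez_abs i k
      rw [Pi.add_apply]
      exact (abs_add_le _ _).trans (by linarith)
    have h3 : P (T z * f) ≤ B := h _ fun k => by
      have := hz k; linarith
    refine (map_add_le_add P _ _).trans ?_
    have := map_add_le_add P (T (z - ez i) * f) ((2 : ℝ) • (T z * f))
    have h4 : P ((2 : ℝ) • (T z * f)) = 2 * P (T z * f) := by
      rw [map_smul_eq_mul]; norm_num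
    linarith
  rw [e, map_smul_eq_mul]
  have h5 := (P_sum P _ _).trans (sum_le_sum hb)
  have h6 : (({1, 2, 3} : Finset (Fin 4))).card = 3 := by decide
  rw [sum_const, h6] at h5
  rw [Real.norm_of_nonneg (by norm_num)]
  simp only [nsmul_eq_mul] at h5
  push_cast at h5
  linarith

lemma avg_pow (f : KK) (B : ℝ) (m : ℕ) : ∀ r : ℕ,
    (∀ z : Fin 4 → ℤ, (∀ k, |z k| ≤ r + m) → P (T z * f) ≤ B) →
    ∀ z : Fin 4 → ℤ, (∀ k, |z k| ≤ r) → P (T z * (R3 ^ m * f)) ≤ B := by
  induction m with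
  | zero =>
    intro r h z hz
    simpa using h z (by simpa using hz)
  | succ m ih =>
    intro r h z hz
    rw [pow_succ', mul_assoc]
    refine avg_step P _ B r (fun w hw => ?_) z hz
    refine ih (r + 1) (fun w' hw' => h w' fun k => ?_) w (by simpa using hw)
    have := hw' k
    push_cast at this ⊢
    linarith

lemma dir_bound (R n : ℕ) (κ η : ℝ) (hκ : 0 ≤ κ) (hη : 0 ≤ η)
    (h : ∀ z : Fin 4 → ℤ, (∀ k, |z k| ≤ 2 * n + R) → ∀ a : ℕ, 1 ≤ a → a ≤ 2 * n + 1 →
      P (T z * rectQ a R) ≤ κ * Real.sqrt a + η) (k : ℕ) (hk : k ≤ n)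
    (z : Fin 4 → ℤ) (hz : ∀ k, |z k| ≤ n) :
    P (T z * (A0 ^ k * rectQ R R)) ≤ R * (κ * Real.sqrt (qk k) + η) := by
  have e : T z * (A0 ^ k * rectQ R R) = ∑ b ∈ range (k + 1), (dk k b / 4 ^ k) •
      ∑ s ∈ range R, T (z + ((s : ℤ) • ez 0 + -((b : ℤ) • ez 0))) * rectQ (2 * b + 1) R := by
    rw [A0_pow, sum_mul, mul_sum]
    refine sum_congr rfl fun b _ => ?_
    rw [smul_mul_assoc, mul_smul_comm]
    congr 1
    rw [← sum_mul]
    simp only [← T_mul, T_nat, T_neg_nat]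
    rw [← mul_sum, ← sum_mul, rectQ_eq, rectQ_eq]
    change _ = T z * (G (T (ez 0)) R * T (-ez 0) ^ b) * _
    ring
  have hb : ∀ b ∈ range (k + 1), P (∑ s ∈ range R, T (z + ((s : ℤ) • ez 0 + -((b : ℤ) • ez 0))) *
      rectQ (2 * b + 1) R) ≤ R * (κ * Real.sqrt (2 * b + 1) + η) := by
    intro b hb
    have hb' := mem_range.mp hb
    have hs : ∀ s ∈ range R, P (T (z + ((s : ℤ) • ez 0 + -((b : ℤ) • ez 0))) *
        rectQ (2 * b + 1) R) ≤ κ * Real.sqrt (2 * b + 1) + η := by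
      intro s hs
      have hs' := mem_range.mp hs
      have := h (z + ((s : ℤ) • ez 0 + -((b : ℤ) • ez 0))) (fun j => ?_) (2 * b + 1) (by omega)
        (by omega)
      · push_cast at this
        exact this
      · have h1 := hz j
        have h2 := ez_abs 0 j
        have h3 : |(s : ℤ) * ez 0 j| ≤ s := by
          rw [abs_mul, Nat.abs_cast]
          nlinarith [Nat.cast_nonneg (α := ℤ) s, abs_nonneg (ez 0 j)]
        have h4 : |(b : ℤ) * ez 0 j| ≤ b := by
          rw [abs_mul, Nat.abs_cast]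
          nlinarith [Nat.cast_nonneg (α := ℤ) b, abs_nonneg (ez 0 j)]
        simp only [Pi.add_apply, Pi.neg_apply, Pi.smul_apply, smul_eq_mul]
        rw [abs_le] at h1 h3 h4 ⊢
        constructor <;> omega
    refine ((P_sum P _ _).trans (sum_le_sum hs)).trans ?_
    rw [sum_const, card_range, nsmul_eq_mul]
  have hd : ∀ b, 0 ≤ dk k b / 4 ^ k := fun b => div_nonneg (dk_nonneg k b) (by positivity)
  have h1 : P (T z * (A0 ^ k * rectQ R R)) ≤
      ∑ b ∈ range (k + 1), (dk k b / 4 ^ k) * (R * (κ * Real.sqrt (2 * b + 1) + η)) := by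
    rw [e]
    refine (P_sum P _ _).trans (sum_le_sum fun b hb' => ?_)
    rw [map_smul_eq_mul, Real.norm_of_nonneg (hd b)]
    exact mul_le_mul_of_nonneg_left (hb b hb') (hd b)
  have s1 : ∑ b ∈ range (k + 1), dk k b / 4 ^ k = qk k := by
    rw [← sum_div, sum_dk]; rfl
  have s2 : ∑ b ∈ range (k + 1), dk k b / 4 ^ k * (2 * b + 1) = 1 := by
    have : ∀ b ∈ range (k + 1), dk k b / 4 ^ k * (2 * (b : ℝ) + 1) = dk k b * (2 * b + 1) / 4 ^ k :=
      fun b _ => by ring
    rw [sum_congr rfl this, ← sum_div, sum_dk_mul]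
    field_simp
  have s3 : ∑ b ∈ range (k + 1), dk k b / 4 ^ k * Real.sqrt (2 * b + 1) ≤ Real.sqrt (qk k) := by
    apply Real.le_sqrt_of_sq_le
    have := Finset.sum_sq_le_sum_mul_sum_of_sq_le_mul (range (k + 1))
      (r := fun b => dk k b / 4 ^ k * Real.sqrt (2 * b + 1)) (f := fun b => dk k b / 4 ^ k)
      (g := fun b => dk k b / 4 ^ k * (2 * b + 1)) (fun b _ => hd b)
      (fun b _ => mul_nonneg (hd b) (by positivity)) (fun b _ => by
        rw [mul_pow, Real.sq_sqrt (by positivity)]; exact le_of_eq (by ring))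
    rw [s1, s2, mul_one] at this
    exact this
  refine h1.trans ?_
  have e2 : ∑ b ∈ range (k + 1), (dk k b / 4 ^ k) * (R * (κ * Real.sqrt (2 * b + 1) + η)) =
      R * (κ * ∑ b ∈ range (k + 1), dk k b / 4 ^ k * Real.sqrt (2 * b + 1)) +
        R * (η * ∑ b ∈ range (k + 1), dk k b / 4 ^ k) := by
    simp only [mul_sum, ← sum_add_distrib]
    refine sum_congr rfl fun b _ => by ring
  rw [e2, s1, mul_add]
  have hR : (0 : ℝ) ≤ R := Nat.cast_nonneg R
  refine add_le_add (mul_le_mul_of_nonneg_left (mul_le_mul_of_nonneg_left s3 hκ) hR)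
    (mul_le_mul_of_nonneg_left ?_ hR)
  have := qk_le_one k
  nlinarith

theorem core (R n : ℕ) (κ η : ℝ) (hκ : 0 ≤ κ) (hη : 0 ≤ η)
    (h : ∀ z : Fin 4 → ℤ, (∀ k, |z k| ≤ 2 * n + R) → ∀ a : ℕ, 1 ≤ a → a ≤ 2 * n + 1 →
      P (T z * rectQ a R) ≤ κ * Real.sqrt a + η) :
    P (walk ^ n * rectQ R R) ≤ R * (κ * (4 / (n + 1 : ℝ)) ^ (1 / 4 : ℝ) + η) := by
  have h1 : ∀ k ∈ range (n + 1), P (R3 ^ (n - k) * (A0 ^ k * rectQ R R)) ≤
      R * (κ * Real.sqrt (qk k) + η) := by
    intro k hk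
    have hk' := mem_range.mp hk
    have := avg_pow P (A0 ^ k * rectQ R R) (R * (κ * Real.sqrt (qk k) + η)) (n - k) 0
      (fun z hz => dir_bound P R n κ η hκ hη h k (by omega) z fun j => ?_) 0 (by simp)
    · rwa [T_zero, one_mul] at this
    · have := hz j
      push_cast at this
      omega
  rw [walk_pow, sum_mul]
  refine (P_sum P _ _).trans ?_
  have h2 : ∀ k ∈ range (n + 1), P (wt n k • (R3 ^ (n - k) * A0 ^ k) * rectQ R R) ≤
      wt n k * (R * (κ * Real.sqrt (qk k) + η)) := by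
    intro k hk
    rw [smul_mul_assoc, map_smul_eq_mul, Real.norm_of_nonneg (wt_nonneg n k), mul_assoc]
    exact mul_le_mul_of_nonneg_left (h1 k hk) (wt_nonneg n k)
  refine (sum_le_sum h2).trans ?_
  have e2 : ∑ k ∈ range (n + 1), wt n k * (R * (κ * Real.sqrt (qk k) + η)) =
      R * (κ * ∑ k ∈ range (n + 1), wt n k * Real.sqrt (qk k)) +
        R * (η * ∑ k ∈ range (n + 1), wt n k) := by
    simp only [mul_sum, ← sum_add_distrib]
    refine sum_congr rfl fun b _ => by ring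
  rw [e2, sum_wt, mul_one, mul_add]
  have hR : (0 : ℝ) ≤ R := Nat.cast_nonneg R
  exact add_le_add (mul_le_mul_of_nonneg_left (mul_le_mul_of_nonneg_left (jensen n) hκ) hR) le_rfl

end seminorm

/-- `bd` as a linear map -/
def bdL : KK →ₗ[ℝ] (Fin 4 → KK) where
  toFun := bd
  map_add' q q' := by
    funext i
    simp only [bd, Pi.add_apply]
    split_ifs <;> ring
  map_smul' c q := by
    funext i
    simp only [bd, Pi.smul_apply, RingHom.id_apply]
    split_ifs <;> simp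

lemma mul_bd (a q : KK) : (fun i => a * bd q i) = bd (a * q) := by
  funext i
  simp only [bd]
  split_ifs <;> ring

end LatAvg

open LatAvg in
theorem lattice_avg (R n : ℕ) (_hR : 1 ≤ R) (p : Seminorm ℝ (Fin 4 → KK)) (κ η : ℝ) (hκ : 0 ≤ κ)
    (hη : 0 ≤ η)
    (h : ∀ z : Fin 4 → ℤ, (∀ k, |z k| ≤ 2 * n + R) → ∀ a : ℕ, 1 ≤ a → a ≤ 2 * n + 1 →
      p (fun i => T z * bd (rectQ a R) i) ≤ κ * Real.sqrt a + η) :
    p (fun i => walk ^ n * bd (rectQ R R) i) ≤
      R * (κ * (4 / (n + 1 : ℝ)) ^ (1 / 4 : ℝ) + η) := by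
  have := core (p.comp bdL) R n κ η hκ hη (fun z hz a ha ha' => by
    have := h z hz a ha ha'
    rw [mul_bd] at this
    exact this)
  rw [mul_bd]
  exact this

end Pool.Agent.Helper82.YM
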